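import Mathlib

set_option autoImplicit false
set_option linter.unusedSectionVars false

open MeasureTheory Set Filter Topology Metric
open scoped ENNReal NNReal Pointwise Convolution

namespace Pool.Agent.Helper51

section density

variable {X : Type*} [NormedAddCommGroup X] [NormedSpace ℝ X] [FiniteDimensional ℝ X]
  [MeasurableSpace X] [BorelSpace X] (μ : Measure X) [μ.IsAddHaarMeasure]

theorem integral_abs_le_of_test {U K : Set X} (hU : IsOpen U) (hK : IsCompact K) (hKU : K ⊆ U)
    {g : X → ℝ} (hg : LocallyIntegrable g μ) (hgm : Measurable g) {C : ℝ}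
    (h : ∀ ψ : X → ℝ, ContDiff ℝ 1 ψ → HasCompactSupport ψ → tsupport ψ ⊆ U →
      (∀ x, |ψ x| ≤ 1) → ∫ x, g x * ψ x ∂μ ≤ C) :
    ∫ x in K, |g x| ∂μ ≤ C := by
  classical
  obtain ⟨δ, hδ, hδU⟩ := hK.exists_cthickening_subset_open hU hKU
  set s : X → ℝ := K.indicator (fun x => if 0 ≤ g x then (1:ℝ) else -1) with hs
  have hsm : Measurable s :=
    (Measurable.ite (measurableSet_le measurable_const hgm) measurable_const
      measurable_const).indicator hK.measurableSet
  have hs1 : ∀ x, |s x| ≤ 1 := by
    intro x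
    simp only [hs, indicator]
    split_ifs <;> simp
  have hsupp : Function.support s ⊆ K := support_indicator_subset
  have hsloc : LocallyIntegrable s μ := by
    have : Integrable s μ := by
      rw [hs]
      refine IntegrableOn.integrable_indicator ?_ hK.measurableSet
      refine Measure.integrableOn_of_bounded (M := 1) hK.measure_lt_top.ne ?_ ?_
      · exact (Measurable.ite (measurableSet_le measurable_const hgm) measurable_const
          measurable_const).aestronglyMeasurable
      · refine Filter.Eventually.of_forall fun x => ?_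
        split_ifs <;> simp
    exact this.locallyIntegrable
  -- bump sequence
  let φ : ℕ → ContDiffBump (0 : X) := fun n =>
    ⟨δ / (2 * (n + 1)), δ / (n + 1), by positivity, by
      have : (0:ℝ) < n + 1 := by positivity
      rw [div_lt_div_iff₀ (by positivity) this]
      nlinarith⟩
  have hφout : ∀ n, (φ n).rOut = δ / (n + 1) := fun n => rfl
  have hφin : ∀ n, (φ n).rIn = δ / (2 * (n + 1)) := fun n => rfl
  have hlim : Tendsto (fun n => (φ n).rOut) atTop (𝓝 0) := by
    simp only [hφout]
    have := tendsto_one_div_add_atTop_nhds_zero_nat (𝕜 := ℝ)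
    have h2 := this.const_mul δ
    simpa [div_eq_mul_inv] using h2
  have hratio : ∀ᶠ n in atTop, (φ n).rOut ≤ 2 * (φ n).rIn := by
    refine Filter.Eventually.of_forall fun n => ?_
    rw [hφout, hφin]
    have : (0:ℝ) < n + 1 := by positivity
    apply le_of_eq
    field_simp
  have hae := ContDiffBump.ae_convolution_tendsto_right_of_locallyIntegrable (μ := μ)
    (φ := φ) (l := atTop) (K := 2) hlim hratio hsloc
  set ψ : ℕ → X → ℝ := fun n => convolution ((φ n).normed μ) s (ContinuousLinearMap.lsmul ℝ ℝ) μ
    with hψ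
  have hψC : ∀ n, ContDiff ℝ 1 (ψ n) := fun n =>
    HasCompactSupport.contDiff_convolution_left _ (φ n).hasCompactSupport_normed
      ((φ n).contDiff_normed (n := 1)) hsloc
  have hψ1 : ∀ n x, |ψ n x| ≤ 1 := by
    intro n x
    have h1 : ‖ψ n x‖ ≤ ∫ t, (φ n).normed μ t ∂μ := by
      simp only [hψ, convolution, ContinuousLinearMap.lsmul_apply]
      refine norm_integral_le_of_norm_le (φ n).integrable_normed ?_
      refine Filter.Eventually.of_forall fun t => ?_
      rw [norm_smul, Real.norm_eq_abs, Real.norm_eq_abs, abs_of_nonneg ((φ n).nonneg_normed t)]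
      exact mul_le_of_le_one_right ((φ n).nonneg_normed t) (hs1 _)
    rwa [(φ n).integral_normed, Real.norm_eq_abs] at h1
  have hψsupp : ∀ n, tsupport (ψ n) ⊆ cthickening δ K := by
    intro n
    refine closure_minimal ?_ isClosed_cthickening
    refine (support_convolution_subset (ContinuousLinearMap.lsmul ℝ ℝ) (μ := μ)).trans ?_
    rw [(φ n).support_normed_eq, hφout]
    rintro _ ⟨a, ha, b, hb, rfl⟩
    refine mem_cthickening_of_dist_le _ b _ _ (hsupp hb) ?_
    simp only [mem_ball_zero_iff] at ha
    simp only [dist_eq_norm, add_sub_cancel_right]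
    refine ha.le.trans ?_
    exact div_le_self hδ.le (by linarith [n.cast_nonneg (α := ℝ)])
  have hKc : IsCompact (cthickening δ K) := hK.cthickening
  have hψcs : ∀ n, HasCompactSupport (ψ n) := fun n =>
    HasCompactSupport.intro' hKc hKc.isClosed (fun x hx => by
      by_contra hne
      exact hx (hψsupp n (subset_tsupport _ hne)))
  have hle : ∀ n, ∫ x, g x * ψ n x ∂μ ≤ C := fun n =>
    h (ψ n) (hψC n) (hψcs n) ((hψsupp n).trans hδU) (hψ1 n)
  have hint : Integrable ((cthickening δ K).indicator (fun x => |g x|)) μ := by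
    refine IntegrableOn.integrable_indicator ?_ hKc.measurableSet
    exact (hg.integrableOn_isCompact hKc).abs
  have htend : Tendsto (fun n => ∫ x, g x * ψ n x ∂μ) atTop (𝓝 (∫ x, g x * s x ∂μ)) := by
    refine tendsto_integral_of_dominated_convergence _ ?_ hint ?_ ?_
    · intro n
      exact (hgm.aestronglyMeasurable).mul (hψC n).continuous.aestronglyMeasurable
    · intro n
      refine Filter.Eventually.of_forall fun x => ?_
      by_cases hx : x ∈ cthickening δ K
      · rw [indicator_of_mem hx, norm_mul, Real.norm_eq_abs, Real.norm_eq_abs]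
        exact mul_le_of_le_one_right (abs_nonneg _) (hψ1 n x)
      · rw [indicator_of_notMem hx]
        have : ψ n x = 0 := by
          by_contra hne
          exact hx (hψsupp n (subset_tsupport _ hne))
        simp [this]
    · filter_upwards [hae] with x hx
      exact hx.const_mul _
  have hfin : ∫ x, g x * s x ∂μ = ∫ x in K, |g x| ∂μ := by
    rw [← integral_indicator hK.measurableSet]
    congr 1
    ext x
    simp only [hs, indicator]
    split_ifs with h1 h2
    · rw [abs_of_nonneg h2]; ring
    · rw [abs_of_neg (not_le.mp h2)]; ring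
    · ring
  rw [← hfin]
  exact le_of_tendsto' htend hle

end density

section param

variable {E F Y : Type*} [NormedAddCommGroup E] [NormedSpace ℝ E] [ProperSpace E]
  [NormedAddCommGroup F] [NormedSpace ℝ F] [CompleteSpace F]
  [TopologicalSpace Y] [MeasurableSpace Y] [BorelSpace Y] [SecondCountableTopology Y]
  {μ : Measure Y} [IsFiniteMeasureOnCompacts μ] [IsLocallyFiniteMeasure μ] [T2Space Y]

theorem hasFDerivAt_setIntegral_param {K : Set Y} (hK : IsCompact K) {f : E → Y → F}
    {f' : E → Y → E →L[ℝ] F} (hf : ∀ x y, HasFDerivAt (fun x => f x y) (f' x y) x)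
    (hfc : Continuous (Function.uncurry f)) (hfc' : Continuous (Function.uncurry f')) (x₀ : E) :
    HasFDerivAt (fun x => ∫ y in K, f x y ∂μ) (∫ y in K, f' x₀ y ∂μ) x₀ := by
  obtain ⟨C, hC⟩ := ((isCompact_closedBall x₀ 1).prod hK).bddAbove_image hfc'.norm.continuousOn
  refine hasFDerivAt_integral_of_dominated_of_fderiv_le (s := ball x₀ 1)
    (bound := fun _ => C) (ball_mem_nhds x₀ one_pos) ?_ ?_ ?_ ?_ ?_ ?_
  · refine Filter.Eventually.of_forall fun x => ?_
    have : Continuous (f x) := hfc.comp (Continuous.prodMk_right x)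
    exact this.aestronglyMeasurable
  · have : Continuous (f x₀) := hfc.comp (Continuous.prodMk_right x₀)
    exact this.continuousOn.integrableOn_compact hK
  · have : Continuous (f' x₀) := hfc'.comp (Continuous.prodMk_right x₀)
    exact this.aestronglyMeasurable
  · rw [ae_restrict_iff' hK.measurableSet]
    refine Filter.Eventually.of_forall fun y hy x hx => ?_
    exact hC (mem_image_of_mem _ (mk_mem_prod (ball_subset_closedBall hx) hy))
  · exact integrableOn_const hK.measure_ne_top
  · exact Filter.Eventually.of_forall fun y x _ => hf x y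

theorem contDiff_setIntegral_param {K : Set Y} (hK : IsCompact K) {f : E → Y → F}
    {f' : E → Y → E →L[ℝ] F} (hf : ∀ x y, HasFDerivAt (fun x => f x y) (f' x y) x)
    (hfc : Continuous (Function.uncurry f)) (hfc' : Continuous (Function.uncurry f')) :
    ContDiff ℝ 1 (fun x => ∫ y in K, f x y ∂μ) := by
  rw [contDiff_one_iff_fderiv]
  refine ⟨fun x => (hasFDerivAt_setIntegral_param hK hf hfc hfc' x).differentiableAt, ?_⟩
  have : fderiv ℝ (fun x => ∫ y in K, f x y ∂μ) = fun x => ∫ y in K, f' x y ∂μ := by
    ext1 x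
    exact (hasFDerivAt_setIntegral_param hK hf hfc hfc' x).fderiv
  rw [this]
  exact continuous_parametric_integral_of_continuous hfc' hK

end param

section dvsec

variable {X : Type*} [NormedAddCommGroup X] [NormedSpace ℝ X]

/-- divergence of a vector field. -/
noncomputable def dv (F : X → X) (x : X) : ℝ := LinearMap.trace ℝ X (fderiv ℝ F x).toLinearMap

theorem dv_of_hasFDerivAt {F : X → X} {x : X} {L : X →L[ℝ] X} (h : HasFDerivAt F L x) :
    dv F x = LinearMap.trace ℝ X L.toLinearMap := by
  rw [dv, h.fderiv]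

theorem trace_smulRight_clm [FiniteDimensional ℝ X] (l : X →L[ℝ] ℝ) (v : X) :
    LinearMap.trace ℝ X (l.smulRight v).toLinearMap = l v := by
  simp

theorem dv_smul_const [FiniteDimensional ℝ X] {s : X → ℝ} {v x : X} {l : X →L[ℝ] ℝ}
    (h : HasFDerivAt s l x) : dv (fun x => s x • v) x = l v := by
  rw [dv_of_hasFDerivAt (h.smul_const v), trace_smulRight_clm]

theorem continuous_dv [FiniteDimensional ℝ X] {F : X → X} (hF : ContDiff ℝ 1 F) :
    Continuous (dv F) := by
  have h1 : Continuous (fun x => fderiv ℝ F x) := hF.continuous_fderiv one_ne_zero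
  have h2 : Continuous ((LinearMap.trace ℝ X) ∘ₗ (ContinuousLinearMap.coeLM ℝ : (X →L[ℝ] X) →ₗ[ℝ] (X →ₗ[ℝ] X))) :=
    LinearMap.continuous_of_finiteDimensional _
  exact h2.comp h1

theorem dv_eq_zero_of_notMem_tsupport {F : X → X} {x : X} (hx : x ∉ tsupport F) : dv F x = 0 := by
  rw [dv, image_eq_zero_of_notMem_tsupport (f := fderiv ℝ F)
    (fun h => hx (tsupport_fderiv_subset ℝ h))]
  simp

theorem hasCompactSupport_dv {F : X → X} (hF : HasCompactSupport F) : HasCompactSupport (dv F) :=
  HasCompactSupport.intro' hF (isClosed_tsupport F) fun _ hx => dv_eq_zero_of_notMem_tsupport hx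

/-- Steklov average of a `C¹` function along a segment. -/
theorem steklov_hasFDerivAt [FiniteDimensional ℝ X] {ψ : X → ℝ} (hψ : ContDiff ℝ 1 ψ) (h x : X) :
    HasFDerivAt (fun x => ∫ t in Icc (0:ℝ) 1, ψ (x - t • h))
      (∫ t in Icc (0:ℝ) 1, fderiv ℝ ψ (x - t • h)) x := by
  have : ProperSpace X := FiniteDimensional.proper ℝ X
  refine hasFDerivAt_setIntegral_param (f := fun x t => ψ (x - t • h))
    (f' := fun x t => fderiv ℝ ψ (x - t • h)) isCompact_Icc ?_ ?_ ?_ x
  · intro x t
    have h1 : HasFDerivAt ψ (fderiv ℝ ψ (x - t • h)) (x - t • h) :=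
      (hψ.differentiable one_ne_zero).differentiableAt.hasFDerivAt
    have h2 : HasFDerivAt (fun x : X => x - t • h) (ContinuousLinearMap.id ℝ X) x :=
      (hasFDerivAt_id x).sub_const _
    simpa [Function.comp_def] using h1.comp x h2
  · have := hψ.continuous
    simp only [Function.uncurry_def]
    fun_prop
  · have := hψ.continuous_fderiv one_ne_zero
    simp only [Function.uncurry_def]
    fun_prop

theorem steklov_contDiff [FiniteDimensional ℝ X] {ψ : X → ℝ} (hψ : ContDiff ℝ 1 ψ) (h : X) :
    ContDiff ℝ 1 (fun x => ∫ t in Icc (0:ℝ) 1, ψ (x - t • h)) := by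
  have : ProperSpace X := FiniteDimensional.proper ℝ X
  refine contDiff_setIntegral_param (f := fun x t => ψ (x - t • h))
    (f' := fun x t => fderiv ℝ ψ (x - t • h)) isCompact_Icc ?_ ?_ ?_
  · intro x t
    have h1 : HasFDerivAt ψ (fderiv ℝ ψ (x - t • h)) (x - t • h) :=
      (hψ.differentiable one_ne_zero).differentiableAt.hasFDerivAt
    have h2 : HasFDerivAt (fun x : X => x - t • h) (ContinuousLinearMap.id ℝ X) x :=
      (hasFDerivAt_id x).sub_const _
    simpa [Function.comp_def] using h1.comp x h2
  · have := hψ.continuous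
    simp only [Function.uncurry_def]
    fun_prop
  · have := hψ.continuous_fderiv one_ne_zero
    simp only [Function.uncurry_def]
    fun_prop

theorem steklov_fderiv_apply [FiniteDimensional ℝ X] {ψ : X → ℝ} (hψ : ContDiff ℝ 1 ψ) (h x : X) :
    (∫ t in Icc (0:ℝ) 1, fderiv ℝ ψ (x - t • h)) h = ψ x - ψ (x - h) := by
  have hc : Continuous (fun t : ℝ => fderiv ℝ ψ (x - t • h)) := by
    have := hψ.continuous_fderiv one_ne_zero
    fun_prop
  rw [ContinuousLinearMap.integral_apply (hc.continuousOn.integrableOn_compact isCompact_Icc)]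
  have hd : ∀ t ∈ uIcc (0:ℝ) 1, HasDerivAt (fun t : ℝ => - ψ (x - t • h))
      (fderiv ℝ ψ (x - t • h) h) t := by
    intro t _
    have h1 : HasFDerivAt ψ (fderiv ℝ ψ (x - t • h)) (x - t • h) :=
      (hψ.differentiable one_ne_zero).differentiableAt.hasFDerivAt
    have h2 : HasDerivAt (fun t : ℝ => x - t • h) (-h) t := by
      simpa using ((hasDerivAt_id t).smul_const h).const_sub x
    have h3 := (h1.comp_hasDerivAt t h2).fun_neg
    simpa [Function.comp_def] using h3
  have h4 := intervalIntegral.integral_eq_sub_of_hasDerivAt hd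
    ((hc.clm_apply continuous_const).intervalIntegrable _ _)
  rw [integral_Icc_eq_integral_Ioc, ← intervalIntegral.integral_of_le zero_le_one, h4]
  simp
  ring

end dvsec

end Pool.Agent.Helper51
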