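import Pool.Agent.Helper51.Plane4

set_option autoImplicit false
set_option linter.unusedSectionVars false

open MeasureTheory Set Filter Topology Metric
open scoped ENNReal NNReal Pointwise Convolution

namespace Pool.Agent.Helper51

/-- real indicator on the line. -/
noncomputable def ind1 (B : Set ℝ) (x : ℝ) : ℝ := B.indicator (fun _ => (1:ℝ)) x

theorem ind1_nonneg (B : Set ℝ) (x : ℝ) : 0 ≤ ind1 B x := indicator_nonneg (fun _ _ => zero_le_one) _
theorem ind1_le_one (B : Set ℝ) (x : ℝ) : ind1 B x ≤ 1 := by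
  unfold ind1 indicator; split_ifs <;> simp
theorem measurable_ind1 {B : Set ℝ} (hB : MeasurableSet B) : Measurable (ind1 B) :=
  measurable_const.indicator hB

theorem locallyIntegrable_ind1 {B : Set ℝ} (hB : MeasurableSet B) :
    LocallyIntegrable (ind1 B) volume := by
  refine (locallyIntegrable_const (1:ℝ)).mono (measurable_ind1 hB).aestronglyMeasurable ?_
  refine Filter.Eventually.of_forall fun x => ?_
  rw [Real.norm_eq_abs, abs_of_nonneg (ind1_nonneg B x), norm_one]
  exact ind1_le_one B x

theorem intervalIntegrable_of_bdd {f : ℝ → ℝ} (hf : Measurable f) {C : ℝ} (h : ∀ x, |f x| ≤ C)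
    (a b : ℝ) : IntervalIntegrable f volume a b := by
  rw [intervalIntegrable_iff]
  exact Measure.integrableOn_of_bounded (M := C) (by simp) hf.aestronglyMeasurable
    (Filter.Eventually.of_forall h)

theorem circle_lower {B : Set ℝ} (hB : MeasurableSet B)
    (hper : ∀ x, x + 2 * Real.pi ∈ B ↔ x ∈ B)
    (h1 : 0 < volume (Ioo (-Real.pi) Real.pi ∩ B)) (h0 : 0 < volume (Ioo (-Real.pi) Real.pi \ B))
    {t : ℕ → ℝ} (ht : ∀ k, 0 < t k) (ht0 : Tendsto t atTop (𝓝 0)) {ε : ℝ} (hε : 0 < ε) :
    ∀ᶠ k in atTop, 2 - ε ≤ (∫ θ in (-Real.pi)..Real.pi, |ind1 B (θ + t k) - ind1 B θ|) / t k := by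
  have hπ := Real.pi_pos
  set b := ind1 B with hb
  have hbm : Measurable b := measurable_ind1 hB
  have hb0 : ∀ x, 0 ≤ b x := ind1_nonneg B
  have hb1 : ∀ x, b x ≤ 1 := ind1_le_one B
  have hii : ∀ x y, IntervalIntegrable b volume x y := intervalIntegrable_of_bdd hbm (C := 1)
    (fun x => by rw [abs_of_nonneg (hb0 x)]; exact hb1 x)
  have hii' : ∀ s x y, IntervalIntegrable (fun θ => b (θ + s)) volume x y := fun s =>
    intervalIntegrable_of_bdd (hbm.comp (measurable_id.add_const s)) (C := 1)
    (fun x => by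
      rw [abs_of_nonneg (hb0 _)]; exact hb1 _)
  have hbper : ∀ x, b (x + 2 * Real.pi) = b x := by
    intro x
    simp only [hb, ind1]
    by_cases hx : x ∈ B
    · rw [indicator_of_mem hx, indicator_of_mem ((hper x).mpr hx)]
    · rw [indicator_of_notMem hx, indicator_of_notMem (fun h => hx ((hper x).mp h))]
  set F : ℝ → ℝ := fun x => ∫ s in (0:ℝ)..x, b s with hF
  have hFd : ∀ x y, F y - F x = ∫ s in x..y, b s := fun x y => by
    simp only [hF]
    rw [intervalIntegral.integral_interval_sub_left (hii _ _) (hii _ _)]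
  have hae : ∀ᵐ x, HasDerivAt F (b x) x := by
    filter_upwards [_root_.LocallyIntegrable.ae_hasDerivAt_integral (locallyIntegrable_ind1 hB)]
      with x hx
    exact hx 0
  -- pick Lebesgue points
  have hpick : ∀ S : Set ℝ, 0 < volume S → ∃ x ∈ S, HasDerivAt F (b x) x := by
    intro S hS
    by_contra hcon
    push Not at hcon
    have : volume S ≤ volume {x | ¬ HasDerivAt F (b x) x} := measure_mono fun x hx => hcon x hx
    rw [ae_iff] at hae
    rw [hae] at this
    exact absurd hS (not_lt.mpr this)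
  obtain ⟨x1, hx1, hd1⟩ := hpick _ h1
  obtain ⟨x0, hx0, hd0⟩ := hpick _ h0
  have hbx1 : b x1 = 1 := by simp only [hb, ind1]; rw [indicator_of_mem hx1.2]
  have hbx0 : b x0 = 0 := by simp only [hb, ind1]; rw [indicator_of_notMem hx0.2]
  -- difference quotients
  set A : ℝ → ℕ → ℝ := fun x k => (F (x + t k) - F x) / t k with hA
  have hquot : ∀ x, HasDerivAt F (b x) x → Tendsto (A x) atTop (𝓝 (b x)) := by
    intro x hx
    have h2 := hx.tendsto_slope_zero
    have h3 : Tendsto t atTop (𝓝[≠] 0) :=
      tendsto_nhdsWithin_iff.mpr ⟨ht0, Filter.Eventually.of_forall fun k => (ht k).ne'⟩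
    have h4 := h2.comp h3
    refine h4.congr fun k => ?_
    simp only [Function.comp_apply, smul_eq_mul, hA]
    rw [div_eq_inv_mul]
  have hA1 := hquot x1 hd1
  have hA0 := hquot x0 hd0
  rw [hbx1] at hA1
  rw [hbx0] at hA0
  have hlim : Tendsto (fun k => |A x1 k - A x0 k|) atTop (𝓝 1) := by
    have := (hA1.sub hA0).abs
    simpa using this
  -- main inequality for p < q
  have hmain : ∀ p q : ℝ, p < q → q < p + 2 * Real.pi → ∀ k,
      2 * |A q k - A p k| ≤ (∫ θ in (-Real.pi)..Real.pi, |b (θ + t k) - b θ|) / t k := by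
    intro p q hpq hqp k
    have hgint : ∀ x y, IntervalIntegrable (fun θ => |b (θ + t k) - b θ|) volume x y := fun x y =>
      ((hii' (t k) x y).sub (hii x y)).abs
    have hgper : Function.Periodic (fun θ => |b (θ + t k) - b θ|) (2 * Real.pi) := by
      intro θ
      simp only
      rw [show θ + 2 * Real.pi + t k = (θ + t k) + 2 * Real.pi by ring, hbper, hbper]
    have e1 : ∫ θ in (-Real.pi)..Real.pi, |b (θ + t k) - b θ|
        = ∫ θ in p..(p + 2 * Real.pi), |b (θ + t k) - b θ| := by
      have := hgper.intervalIntegral_add_eq (-Real.pi) p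
      rw [← this]
      congr 1
      ring
    have e2 : ∫ θ in p..(p + 2 * Real.pi), |b (θ + t k) - b θ|
        = (∫ θ in p..q, |b (θ + t k) - b θ|) + ∫ θ in q..(p + 2 * Real.pi), |b (θ + t k) - b θ| :=
      (intervalIntegral.integral_add_adjacent_intervals (hgint _ _) (hgint _ _)).symm
    have hseg : ∀ x y, x ≤ y → |(F (y + t k) - F y) - (F (x + t k) - F x)|
        ≤ ∫ θ in x..y, |b (θ + t k) - b θ| := by
      intro x y hxy
      have h3 : ∫ θ in x..y, (b (θ + t k) - b θ)
          = (F (y + t k) - F y) - (F (x + t k) - F x) := by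
        rw [intervalIntegral.integral_sub (hii' _ _ _) (hii _ _),
          intervalIntegral.integral_comp_add_right (fun θ => b θ), ← hFd, ← hFd]
        ring
      rw [← h3]
      exact intervalIntegral.abs_integral_le_integral_abs hxy
    have s1 := hseg p q hpq.le
    have s2 := hseg q (p + 2 * Real.pi) hqp.le
    have e3 : F (p + 2 * Real.pi + t k) - F (p + 2 * Real.pi) = F (p + t k) - F p := by
      rw [hFd, hFd]
      rw [show p + 2 * Real.pi + t k = (p + t k) + 2 * Real.pi by ring]
      rw [← intervalIntegral.integral_comp_add_right (fun θ => b θ)]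
      simp only [hbper]
    rw [e3] at s2
    have s2' : |(F (q + t k) - F q) - (F (p + t k) - F p)|
        ≤ ∫ θ in q..(p + 2 * Real.pi), |b (θ + t k) - b θ| := by rw [abs_sub_comm]; exact s2
    have e4 : A q k - A p k = ((F (q + t k) - F q) - (F (p + t k) - F p)) / t k := by
      simp only [hA]; ring
    rw [e4, abs_div, abs_of_pos (ht k), ← mul_div_assoc]
    refine div_le_div_of_nonneg_right ?_ (ht k).le
    rw [e1, e2]
    linarith
  have hfin : ∀ k, 2 * |A x1 k - A x0 k|
      ≤ (∫ θ in (-Real.pi)..Real.pi, |b (θ + t k) - b θ|) / t k := by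
    intro k
    rcases lt_trichotomy x0 x1 with h | h | h
    · exact hmain x0 x1 h (by linarith [hx1.1.2, hx0.1.1]) k
    · rw [h] at hbx0; rw [hbx0] at hbx1; norm_num at hbx1
    · rw [abs_sub_comm]
      exact hmain x1 x0 h (by linarith [hx0.1.2, hx1.1.1]) k
  have hev : ∀ᶠ k in atTop, 1 - ε / 2 < |A x1 k - A x0 k| :=
    (tendsto_order.1 hlim).1 _ (by linarith)
  filter_upwards [hev] with k hk
  have := hfin k
  linarith

end Pool.Agent.Helper51
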