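import Pool.Agent.Helper51.Circle

set_option autoImplicit false
set_option linter.unusedSectionVars false

open MeasureTheory Set Filter Topology Metric
open scoped ENNReal NNReal Pointwise Convolution

namespace Pool.Agent.Helper51

/-- the point of radius `r` and angle `θ`. -/
noncomputable def cr (r θ : ℝ) : ℂ := r * Complex.exp (θ * Complex.I)

theorem cr_eq (r θ : ℝ) : Complex.polarCoord.symm (r, θ) = cr r θ := by
  rw [Complex.polarCoord_symm_apply, cr, Complex.exp_mul_I, Complex.ofReal_cos, Complex.ofReal_sin]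

theorem norm_cr {r : ℝ} (hr : 0 ≤ r) (θ : ℝ) : ‖cr r θ‖ = r := by
  rw [cr, norm_mul, Complex.norm_exp_ofReal_mul_I, mul_one, Complex.norm_real, Real.norm_eq_abs,
    abs_of_nonneg hr]

theorem cr_add (r θ t : ℝ) : Complex.exp (t * Complex.I) * cr r θ = cr r (θ + t) := by
  rw [cr, cr]
  push_cast
  rw [add_mul, Complex.exp_add]
  ring

theorem cr_periodic (r θ : ℝ) : cr r (θ + 2 * Real.pi) = cr r θ := by
  rw [cr, cr]
  push_cast
  rw [add_mul, Complex.exp_add, Complex.exp_two_pi_mul_I, mul_one]

theorem continuous_cr : Continuous (fun p : ℝ × ℝ => cr p.1 p.2) := by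
  unfold cr
  fun_prop

/-- the circle of radius `r` meets both `A` and its complement in positive measure. -/
def NT (A : Set ℂ) (r : ℝ) : Prop :=
  0 < volume (Ioo (-Real.pi) Real.pi ∩ {θ | cr r θ ∈ A}) ∧
    0 < volume (Ioo (-Real.pi) Real.pi \ {θ | cr r θ ∈ A})

/-- real indicator in the plane. -/
noncomputable def indC (A : Set ℂ) (z : ℂ) : ℝ := A.indicator (fun _ => (1:ℝ)) z

theorem measurable_indC {A : Set ℂ} (hA : MeasurableSet A) : Measurable (indC A) :=
  measurable_const.indicator hA
theorem indC_nonneg (A : Set ℂ) (z : ℂ) : 0 ≤ indC A z := indicator_nonneg (fun _ _ => zero_le_one) _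
theorem indC_le_one (A : Set ℂ) (z : ℂ) : indC A z ≤ 1 := by
  unfold indC indicator; split_ifs <;> simp

theorem abs_indC_sub_le (A : Set ℂ) (z w : ℂ) : |indC A z - indC A w| ≤ 1 := by
  have h1 := indC_nonneg A z; have h2 := indC_le_one A z
  have h3 := indC_nonneg A w; have h4 := indC_le_one A w
  rw [abs_le]; constructor <;> linarith

theorem indC_cr (A : Set ℂ) (r θ : ℝ) : indC A (cr r θ) = ind1 {θ | cr r θ ∈ A} θ := by
  unfold indC ind1
  by_cases h : cr r θ ∈ A
  · rw [indicator_of_mem h, indicator_of_mem (show θ ∈ {θ | cr r θ ∈ A} from h)]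
  · rw [indicator_of_notMem h, indicator_of_notMem (show θ ∉ {θ | cr r θ ∈ A} from h)]

theorem lintegral_polar {F : ℂ → ℝ≥0∞} (hF : Measurable F) :
    ∫⁻ z, F z = ∫⁻ r in Ioi (0:ℝ), ∫⁻ θ in Ioo (-Real.pi) Real.pi, ENNReal.ofReal r * F (cr r θ) := by
  rw [← Complex.lintegral_comp_polarCoord_symm, polarCoord_target, Measure.volume_eq_prod,
    ← Measure.prod_restrict, lintegral_prod]
  · simp only [smul_eq_mul, cr_eq]
  · have h1 : Measurable (fun p : ℝ × ℝ => ENNReal.ofReal p.1 • F (Complex.polarCoord.symm p)) := by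
      have : (fun p : ℝ × ℝ => ENNReal.ofReal p.1 • F (Complex.polarCoord.symm p))
          = fun p : ℝ × ℝ => ENNReal.ofReal p.1 * F (cr p.1 p.2) := by
        ext p
        rw [smul_eq_mul, ← cr_eq]
      rw [this]
      exact (ENNReal.measurable_ofReal.comp measurable_fst).mul
        (hF.comp continuous_cr.measurable)
    exact h1.aemeasurable

theorem angular {A : Set ℂ} (hA : MeasurableSet A) {f : ℝ → ℝ} (hf : Continuous f)
    (hf0 : ∀ r, 0 ≤ f r) (hfi : Integrable (fun z : ℂ => f ‖z‖) (volume : Measure ℂ))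
    {C : ℝ} (hC : ∀ t : ℝ, 0 < t →
      (∫ z : ℂ, f ‖z‖ * |indC A (Complex.exp (t * Complex.I) * z) - indC A z|) / t ≤ C)
    (hnt : ∀ᵐ r, 0 < r → f r ≠ 0 → NT A r) :
    2 * ∫ r in Ioi (0:ℝ), r * f r ≤ C := by
  have hπ := Real.pi_pos
  set t : ℕ → ℝ := fun k => 1 / ((k:ℝ) + 1) with ht
  have htpos : ∀ k, 0 < t k := fun k => by simp only [ht]; positivity
  have ht0 : Tendsto t atTop (𝓝 0) := tendsto_one_div_add_atTop_nhds_zero_nat
  have hC0 : 0 ≤ C := (div_nonneg (integral_nonneg fun z => mul_nonneg (hf0 _) (abs_nonneg _))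
    zero_le_one).trans (hC 1 one_pos)
  -- the functions of the radius
  set V : ℕ → ℝ → ℝ := fun k r =>
    (∫ θ in (-Real.pi)..Real.pi, |indC A (cr r (θ + t k)) - indC A (cr r θ)|) / t k with hV
  have hrot : ∀ s : ℝ, Measurable (fun z : ℂ => indC A (Complex.exp (s * Complex.I) * z)) :=
    fun s => (measurable_indC hA).comp (measurable_id.const_mul _)
  have hgm : ∀ k, Measurable (fun z : ℂ => f ‖z‖ *
      |indC A (Complex.exp (t k * Complex.I) * z) - indC A z| / t k) := fun k =>
    (((hf.measurable.comp measurable_norm).mul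
      ((hrot (t k)).sub (measurable_indC hA)).abs)).div_const _
  have hgi : ∀ k, Integrable (fun z : ℂ => f ‖z‖ *
      |indC A (Complex.exp (t k * Complex.I) * z) - indC A z| / t k) (volume : Measure ℂ) := by
    intro k
    refine (hfi.div_const (t k)).mono (hgm k).aestronglyMeasurable ?_
    refine Filter.Eventually.of_forall fun z => ?_
    rw [Real.norm_eq_abs, Real.norm_eq_abs,
      abs_of_nonneg (div_nonneg (mul_nonneg (hf0 _) (abs_nonneg _)) (htpos k).le),
      abs_of_nonneg (div_nonneg (hf0 _) (htpos k).le)]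
    exact div_le_div_of_nonneg_right
      (mul_le_of_le_one_right (hf0 _) (abs_indC_sub_le _ _ _)) (htpos k).le
  -- the inner integral
  have hinner : ∀ k, ∀ r, 0 < r → ∫⁻ θ in Ioo (-Real.pi) Real.pi, ENNReal.ofReal r *
      ENNReal.ofReal (f ‖cr r θ‖ * |indC A (Complex.exp (t k * Complex.I) * cr r θ)
        - indC A (cr r θ)| / t k) = ENNReal.ofReal (r * f r * V k r) := by
    intro k r hr
    have hm : Measurable (fun θ : ℝ => |indC A (cr r (θ + t k)) - indC A (cr r θ)|) := by
      have h1 : Measurable (fun θ : ℝ => indC A (cr r θ)) :=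
        (measurable_indC hA).comp (continuous_cr.measurable.comp
          (measurable_const.prodMk measurable_id))
      exact ((h1.comp (measurable_id.add_const (t k))).sub h1).abs
    have hint : IntegrableOn (fun θ : ℝ => |indC A (cr r (θ + t k)) - indC A (cr r θ)|)
        (Ioo (-Real.pi) Real.pi) := by
      refine Measure.integrableOn_of_bounded (M := 1) (by simp) hm.aestronglyMeasurable ?_
      refine Filter.Eventually.of_forall fun θ => ?_
      rw [Real.norm_eq_abs, abs_abs]
      exact abs_indC_sub_le _ _ _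
    have h2 : ∀ θ, ENNReal.ofReal r * ENNReal.ofReal (f ‖cr r θ‖ *
        |indC A (Complex.exp (t k * Complex.I) * cr r θ) - indC A (cr r θ)| / t k)
        = ENNReal.ofReal (r * f r / t k) *
          ENNReal.ofReal (|indC A (cr r (θ + t k)) - indC A (cr r θ)|) := by
      intro θ
      rw [norm_cr hr.le, cr_add, ← ENNReal.ofReal_mul hr.le, ← ENNReal.ofReal_mul
        (div_nonneg (mul_nonneg hr.le (hf0 r)) (htpos k).le)]
      congr 1
      ring
    simp_rw [h2]
    rw [lintegral_const_mul _ hm.ennreal_ofReal,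
      ← ofReal_integral_eq_lintegral_ofReal hint (Filter.Eventually.of_forall fun θ => abs_nonneg _),
      ← ENNReal.ofReal_mul (div_nonneg (mul_nonneg hr.le (hf0 r)) (htpos k).le)]
    congr 1
    simp only [hV]
    rw [intervalIntegral.integral_of_le (by linarith), integral_Ioc_eq_integral_Ioo]
    ring
  have hbound : ∀ k, ∫⁻ r in Ioi (0:ℝ), ENNReal.ofReal (r * f r * V k r) ≤ ENNReal.ofReal C := by
    intro k
    have h1 : ∫⁻ z : ℂ, ENNReal.ofReal (f ‖z‖ *
        |indC A (Complex.exp (t k * Complex.I) * z) - indC A z| / t k)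
        = ∫⁻ r in Ioi (0:ℝ), ENNReal.ofReal (r * f r * V k r) := by
      rw [lintegral_polar (hgm k).ennreal_ofReal]
      refine setLIntegral_congr_fun measurableSet_Ioi fun r hr => ?_
      exact hinner k r hr
    rw [← h1, ← ofReal_integral_eq_lintegral_ofReal (hgi k)
      (Filter.Eventually.of_forall fun z => div_nonneg (mul_nonneg (hf0 _) (abs_nonneg _))
        (htpos k).le)]
    apply ENNReal.ofReal_le_ofReal
    have := hC (t k) (htpos k)
    rwa [integral_div]
  -- measurability in the radius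
  have hVm : ∀ k, AEMeasurable (fun r => ENNReal.ofReal (r * f r * V k r))
      (volume.restrict (Ioi (0:ℝ))) := by
    intro k
    have h1 : Measurable (fun p : ℝ × ℝ => ENNReal.ofReal p.1 *
      ENNReal.ofReal (f ‖cr p.1 p.2‖ * |indC A (Complex.exp (t k * Complex.I) * cr p.1 p.2)
        - indC A (cr p.1 p.2)| / t k)) :=
      (ENNReal.measurable_ofReal.comp measurable_fst).mul
        ((hgm k).ennreal_ofReal.comp continuous_cr.measurable)
    have h2 : Measurable (fun r : ℝ => ∫⁻ θ in Ioo (-Real.pi) Real.pi, ENNReal.ofReal r *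
      ENNReal.ofReal (f ‖cr r θ‖ * |indC A (Complex.exp (t k * Complex.I) * cr r θ)
        - indC A (cr r θ)| / t k)) := h1.lintegral_prod_right'
    refine h2.aemeasurable.congr ?_
    rw [Filter.EventuallyEq, ae_restrict_iff' measurableSet_Ioi]
    exact Filter.Eventually.of_forall fun r hr => hinner k r hr
  have hfatou : ∫⁻ r in Ioi (0:ℝ), liminf (fun k => ENNReal.ofReal (r * f r * V k r)) atTop
      ≤ liminf (fun k => ∫⁻ r in Ioi (0:ℝ), ENNReal.ofReal (r * f r * V k r)) atTop :=
    lintegral_liminf_le' hVm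
  have hlim : liminf (fun k => ∫⁻ r in Ioi (0:ℝ), ENNReal.ofReal (r * f r * V k r)) atTop
      ≤ ENNReal.ofReal C := by
    refine liminf_le_of_le (by isBoundedDefault) fun b hb => ?_
    obtain ⟨k, hk⟩ := hb.exists
    exact hk.trans (hbound k)
  have hpt : ∀ᵐ r ∂(volume.restrict (Ioi (0:ℝ))), ENNReal.ofReal (2 * (r * f r))
      ≤ liminf (fun k => ENNReal.ofReal (r * f r * V k r)) atTop := by
    rw [ae_restrict_iff' measurableSet_Ioi]
    filter_upwards [hnt] with r hr hrpos
    have hrpos' : 0 < r := hrpos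
    by_cases hfr : f r = 0
    · rw [hfr]; simp
    · have hNT := hr hrpos' hfr
      have hrf : 0 ≤ r * f r := mul_nonneg hrpos'.le (hf0 r)
      have hBm : MeasurableSet {θ : ℝ | cr r θ ∈ A} := by
        have : Measurable (fun θ : ℝ => cr r θ) :=
          continuous_cr.measurable.comp (measurable_const.prodMk measurable_id)
        exact this hA
      have hper : ∀ x, x + 2 * Real.pi ∈ {θ : ℝ | cr r θ ∈ A} ↔ x ∈ {θ : ℝ | cr r θ ∈ A} := by
        intro x
        simp only [mem_ofPred_eq, cr_periodic]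
      have hVeq : ∀ k, V k r = (∫ θ in (-Real.pi)..Real.pi,
          |ind1 {θ : ℝ | cr r θ ∈ A} (θ + t k) - ind1 {θ : ℝ | cr r θ ∈ A} θ|) / t k := by
        intro k
        simp only [hV]
        congr 1
      have hε : ∀ ε > 0, ENNReal.ofReal (r * f r * (2 - ε))
          ≤ liminf (fun k => ENNReal.ofReal (r * f r * V k r)) atTop := by
        intro ε hε
        refine le_liminf_of_le (by isBoundedDefault) ?_
        filter_upwards [circle_lower hBm hper hNT.1 hNT.2 htpos ht0 hε] with k hk
        rw [← hVeq] at hk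
        exact ENNReal.ofReal_le_ofReal (mul_le_mul_of_nonneg_left hk hrf)
      have hten : Tendsto (fun ε : ℝ => ENNReal.ofReal (r * f r * (2 - ε))) (𝓝[>] 0)
          (𝓝 (ENNReal.ofReal (r * f r * (2 - 0)))) := by
        refine ENNReal.tendsto_ofReal ?_
        have : Continuous (fun ε : ℝ => r * f r * (2 - ε)) := by fun_prop
        exact this.continuousAt.tendsto.mono_left nhdsWithin_le_nhds
      have := le_of_tendsto hten (by
        filter_upwards [self_mem_nhdsWithin] with ε hε'
        exact hε ε hε')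
      rwa [sub_zero, mul_comm (r * f r) 2] at this
  have hfinal : ∫⁻ r in Ioi (0:ℝ), ENNReal.ofReal (2 * (r * f r)) ≤ ENNReal.ofReal C :=
    (lintegral_mono_ae hpt).trans (hfatou.trans hlim)
  rw [← integral_const_mul]
  rw [integral_eq_lintegral_of_nonneg_ae]
  · exact ENNReal.toReal_le_of_le_ofReal hC0 hfinal
  · rw [Filter.EventuallyLE, ae_restrict_iff' measurableSet_Ioi]
    refine Filter.Eventually.of_forall fun r hr => ?_
    exact mul_nonneg zero_le_two (mul_nonneg (le_of_lt hr) (hf0 r))
  · exact (by fun_prop : Continuous fun r => 2 * (r * f r)).aestronglyMeasurable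

end Pool.Agent.Helper51
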