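import Pool.Agent.Helper51.Basic

set_option autoImplicit false
set_option linter.unusedSectionVars false

open MeasureTheory Set Filter Topology Metric
open scoped ENNReal NNReal Pointwise Convolution

namespace Pool.Agent.Helper51

variable {X : Type*} [NormedAddCommGroup X] [NormedSpace ℝ X] [FiniteDimensional ℝ X]
  [MeasurableSpace X] [BorelSpace X] (μ : Measure X) [μ.IsAddHaarMeasure]

/-- the relative perimeter of `E` in `Ω` is at most `M` (for the ambient norm). -/
def BVb (Ω : Set X) (M : ℝ) (E : Set X) : Prop :=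
  ∀ F : X → X, ContDiff ℝ 1 F → HasCompactSupport F → tsupport F ⊆ Ω → (∀ x, ‖F x‖ ≤ 1) →
    ∫ x in E, dv F x ∂μ ≤ M

/-- real valued indicator. -/
noncomputable def ind (E : Set X) : X → ℝ := E.indicator (fun _ => (1:ℝ))

theorem ind_mem {E : Set X} {x : X} (h : x ∈ E) : ind E x = 1 := indicator_of_mem h _
theorem ind_notMem {E : Set X} {x : X} (h : x ∉ E) : ind E x = 0 := indicator_of_notMem h _
theorem ind_nonneg (E : Set X) (x : X) : 0 ≤ ind E x := by
  unfold ind; exact indicator_nonneg (fun _ _ => zero_le_one) _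
theorem ind_le_one (E : Set X) (x : X) : ind E x ≤ 1 := by
  unfold ind indicator; split_ifs <;> simp
theorem measurable_ind {E : Set X} (hE : MeasurableSet E) : Measurable (ind E) :=
  measurable_const.indicator hE

theorem abs_ind_sub_le (E F : Set X) (x y : X) : |ind E x - ind F y| ≤ 1 := by
  have h1 := ind_nonneg E x; have h2 := ind_le_one E x
  have h3 := ind_nonneg F y; have h4 := ind_le_one F y
  rw [abs_le]; constructor <;> linarith

theorem setIntegral_eq_ind_mul {E : Set X} (hE : MeasurableSet E) (f : X → ℝ) :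
    ∫ x in E, f x ∂μ = ∫ x, ind E x * f x ∂μ := by
  rw [← integral_indicator hE]
  congr 1
  ext x
  by_cases hx : x ∈ E
  · rw [indicator_of_mem hx, ind_mem hx, one_mul]
  · rw [indicator_of_notMem hx, ind_notMem hx, zero_mul]

theorem translate_test {Ω U E : Set X} {M : ℝ} (hE : MeasurableSet E)
    (hb : BVb μ Ω M E) {h : X} (hh : h ≠ 0)
    (hUh : ∀ x ∈ U, ∀ t ∈ Icc (0:ℝ) 1, x + t • h ∈ Ω)
    {ψ : X → ℝ} (hψ : ContDiff ℝ 1 ψ) (hψc : HasCompactSupport ψ) (hψU : tsupport ψ ⊆ U)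
    (hψ1 : ∀ x, |ψ x| ≤ 1) :
    ∫ x, (ind E (x + h) - ind E x) * ψ x ∂μ ≤ ‖h‖ * M := by
  have hnorm : 0 < ‖h‖ := norm_pos_iff.mpr hh
  set S : X → ℝ := fun x => ∫ t in Icc (0:ℝ) 1, ψ (x - t • h) with hS
  have hSd : ∀ x, HasFDerivAt S (∫ t in Icc (0:ℝ) 1, fderiv ℝ ψ (x - t • h)) x :=
    fun x => steklov_hasFDerivAt hψ h x
  have hSC : ContDiff ℝ 1 S := steklov_contDiff hψ h
  set F : X → X := fun x => (-(‖h‖⁻¹) * S x) • h with hF
  have hFC : ContDiff ℝ 1 F := (contDiff_const.mul hSC).smul contDiff_const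
  set K2 : Set X := (fun p : X × ℝ => p.1 + p.2 • h) '' (tsupport ψ ×ˢ Icc (0:ℝ) 1) with hK2
  have hK2c : IsCompact K2 := (hψc.isCompact.prod isCompact_Icc).image (by fun_prop)
  have hSsupp : ∀ x, x ∉ K2 → S x = 0 := by
    intro x hx
    simp only [hS]
    refine setIntegral_eq_zero_of_forall_eq_zero fun t ht => ?_
    by_contra hne
    apply hx
    refine ⟨(x - t • h, t), ⟨subset_tsupport _ hne, ht⟩, ?_⟩
    simp
  have hFsupp : ∀ x, x ∉ K2 → F x = 0 := by
    intro x hx
    simp [hF, hSsupp x hx]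
  have hFcs : HasCompactSupport F := HasCompactSupport.intro hK2c hFsupp
  have hFt : tsupport F ⊆ Ω := by
    have h1 : tsupport F ⊆ K2 := closure_minimal (fun x hx => by
      by_contra hne; exact hx (hFsupp x hne)) hK2c.isClosed
    refine h1.trans ?_
    rintro _ ⟨⟨y, t⟩, ⟨hy, ht⟩, rfl⟩
    exact hUh y (hψU hy) t ht
  have hS1 : ∀ x, |S x| ≤ 1 := by
    intro x
    have : ‖S x‖ ≤ 1 * (volume.real (Icc (0:ℝ) 1)) := by
      refine norm_setIntegral_le_of_norm_le_const ?_ ?_
      · simp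
      · intro t _
        exact hψ1 _
    simpa using this
  have hF1 : ∀ x, ‖F x‖ ≤ 1 := by
    intro x
    simp only [hF, norm_smul, norm_mul, norm_neg, norm_inv, Real.norm_eq_abs, abs_norm]
    calc ‖h‖⁻¹ * |S x| * ‖h‖ = |S x| := by field_simp
      _ ≤ 1 := hS1 x
  have hdv : ∀ x, dv F x = ‖h‖⁻¹ * (ψ (x - h) - ψ x) := by
    intro x
    have h1 : HasFDerivAt (fun x => -(‖h‖⁻¹) * S x)
        ((-(‖h‖⁻¹)) • ∫ t in Icc (0:ℝ) 1, fderiv ℝ ψ (x - t • h)) x := (hSd x).const_mul _
    rw [hF, dv_smul_const h1]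
    rw [smul_apply, steklov_fderiv_apply hψ]
    simp; ring
  have hmain := hb F hFC hFcs hFt hF1
  have hint1 : Integrable (fun x => ψ (x - h)) μ :=
    (hψ.continuous.integrable_of_hasCompactSupport hψc).comp_sub_right h
  have hint2 : Integrable ψ μ := hψ.continuous.integrable_of_hasCompactSupport hψc
  have e1 : ∫ x in E, dv F x ∂μ = ‖h‖⁻¹ * ((∫ x in E, ψ (x - h) ∂μ) - ∫ x in E, ψ x ∂μ) := by
    rw [← integral_sub hint1.integrableOn hint2.integrableOn, ← integral_const_mul]
    exact integral_congr_ae (Filter.Eventually.of_forall fun x => hdv x)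
  have e2 : ∫ x in E, ψ (x - h) ∂μ = ∫ x, ind E (x + h) * ψ x ∂μ := by
    rw [setIntegral_eq_ind_mul μ hE]
    rw [← integral_add_right_eq_self (fun x => ind E x * ψ (x - h)) h]
    simp
  have e3 : ∫ x in E, ψ x ∂μ = ∫ x, ind E x * ψ x ∂μ := setIntegral_eq_ind_mul μ hE _
  have i1 : Integrable (fun x => ind E (x + h) * ψ x) μ := by
    refine hint2.bdd_mul (c := 1) ?_ ?_
    · exact ((measurable_ind hE).comp (measurable_id.add_const h)).aestronglyMeasurable
    · refine Filter.Eventually.of_forall fun x => ?_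
      rw [Real.norm_eq_abs, abs_of_nonneg (ind_nonneg _ _)]; exact ind_le_one _ _
  have i2 : Integrable (fun x => ind E x * ψ x) μ := by
    refine hint2.bdd_mul (c := 1) ?_ ?_
    · exact (measurable_ind hE).aestronglyMeasurable
    · refine Filter.Eventually.of_forall fun x => ?_
      rw [Real.norm_eq_abs, abs_of_nonneg (ind_nonneg _ _)]; exact ind_le_one _ _
  have e4 : ∫ x, (ind E (x + h) - ind E x) * ψ x ∂μ
      = (∫ x, ind E (x + h) * ψ x ∂μ) - ∫ x, ind E x * ψ x ∂μ := by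
    rw [← integral_sub i1 i2]
    congr 1; ext x; ring
  rw [e4, ← e2, ← e3]
  rw [e1] at hmain
  have := mul_le_mul_of_nonneg_left hmain hnorm.le
  rwa [← mul_assoc, mul_inv_cancel₀ hnorm.ne', one_mul] at this

theorem translate_estimate {Ω U K E : Set X} {M : ℝ} (hE : MeasurableSet E)
    (hb : BVb μ Ω M E) (hU : IsOpen U) (hK : IsCompact K) (hKU : K ⊆ U) {h : X}
    (hUh : ∀ x ∈ U, ∀ t ∈ Icc (0:ℝ) 1, x + t • h ∈ Ω) :
    ∫ x in K, |ind E (x + h) - ind E x| ∂μ ≤ ‖h‖ * M := by
  by_cases hh : h = 0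
  · subst hh; simp
  have hm : Measurable (fun x => ind E (x + h) - ind E x) :=
    ((measurable_ind hE).comp (measurable_id.add_const h)).sub (measurable_ind hE)
  refine integral_abs_le_of_test μ hU hK hKU ?_ hm ?_
  · refine (locallyIntegrable_const (μ := μ) (1:ℝ)).mono hm.aestronglyMeasurable ?_
    refine Filter.Eventually.of_forall fun x => ?_
    rw [Real.norm_eq_abs, Real.norm_eq_abs, abs_one]
    exact abs_ind_sub_le _ _ _ _
  · intro ψ h1 h2 h3 h4
    exact translate_test μ hE hb hh hUh h1 h2 h3 h4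

end Pool.Agent.Helper51
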