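import Pool.Agent.Helper51.Compact

set_option autoImplicit false
set_option linter.unusedSectionVars false

open MeasureTheory Set Filter Topology Metric
open scoped ENNReal NNReal Pointwise Convolution symmDiff

namespace Pool.Agent.Helper51

variable {X : Type*} [NormedAddCommGroup X] [NormedSpace ℝ X] [FiniteDimensional ℝ X]
  [MeasurableSpace X] [BorelSpace X] (μ : Measure X) [μ.IsAddHaarMeasure]

theorem BVb.nonneg {Ω E : Set X} {M : ℝ} (h : BVb μ Ω M E) : 0 ≤ M := by
  have := h (fun _ => 0) contDiff_const HasCompactSupport.zero (by simp [tsupport]) (by simp)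
  simpa [dv] using this

theorem dist_avg_le {Ω U K E : Set X} {M δ : ℝ} (hE : MeasurableSet E)
    (hb : BVb μ Ω M E) (hU : IsOpen U) (hK : IsCompact K) (hKU : K ⊆ U)
    {φ : X → ℝ} (hφc : Continuous φ) (hφi : Integrable φ μ) (hφ0 : ∀ x, 0 ≤ φ x)
    (hφ1 : ∫ x, φ x ∂μ = 1) (hφs : ∀ x, φ x ≠ 0 → ‖x‖ ≤ δ)
    (hUh : ∀ h : X, ‖h‖ ≤ δ → ∀ x ∈ U, ∀ t ∈ Icc (0:ℝ) 1, x + t • h ∈ Ω) :
    ∫ x in K, |ind E x - ∫ y, ind E (x + y) * φ y ∂μ| ∂μ ≤ δ * M := by
  have hM := hb.nonneg
  have : IsFiniteMeasure (μ.restrict K) := ⟨by simpa using hK.measure_lt_top⟩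
  have hmeas : Measurable (fun p : X × X => |ind E p.1 - ind E (p.1 + p.2)| * φ p.2) := by
    have h1 := measurable_ind (X := X) hE
    exact (((h1.comp measurable_fst).sub (h1.comp (measurable_fst.add measurable_snd))).abs).mul
      (hφc.measurable.comp measurable_snd)
  have hprod : Integrable (fun p : X × X => |ind E p.1 - ind E (p.1 + p.2)| * φ p.2)
      ((μ.restrict K).prod μ) := by
    refine (hφi.comp_snd (μ.restrict K)).mono' hmeas.aestronglyMeasurable ?_
    refine Filter.Eventually.of_forall fun p => ?_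
    rw [Real.norm_eq_abs, abs_mul, abs_abs, abs_of_nonneg (hφ0 _)]
    exact mul_le_of_le_one_left (hφ0 _) (abs_ind_sub_le _ _ _ _)
  have hi1 : ∀ x, Integrable (fun y => ind E (x + y) * φ y) μ := fun x => by
    refine hφi.bdd_mul (c := 1) ?_ ?_
    · exact ((measurable_ind hE).comp (measurable_id.const_add x)).aestronglyMeasurable
    · refine Filter.Eventually.of_forall fun y => ?_
      rw [Real.norm_eq_abs, abs_of_nonneg (ind_nonneg _ _)]; exact ind_le_one _ _
  have hi2 : ∀ x, Integrable (fun y => |ind E x - ind E (x + y)| * φ y) μ := fun x => by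
    refine hφi.bdd_mul (c := 1) ?_ ?_
    · exact ((measurable_const.sub ((measurable_ind hE).comp
        (measurable_id.const_add x))).abs).aestronglyMeasurable
    · refine Filter.Eventually.of_forall fun y => ?_
      rw [Real.norm_eq_abs, abs_abs]; exact abs_ind_sub_le _ _ _ _
  have hpt : ∀ x, |ind E x - ∫ y, ind E (x + y) * φ y ∂μ|
      ≤ ∫ y, |ind E x - ind E (x + y)| * φ y ∂μ := by
    intro x
    have h1 : ind E x - ∫ y, ind E (x + y) * φ y ∂μ
        = ∫ y, (ind E x - ind E (x + y)) * φ y ∂μ := by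
      have : ind E x = ∫ y, ind E x * φ y ∂μ := by rw [integral_const_mul, hφ1, mul_one]
      rw [this, ← integral_sub (hφi.const_mul _) (hi1 x)]
      rw [← this]
      congr 1; ext y; ring
    rw [h1]
    refine (abs_integral_le_integral_abs).trans ?_
    apply le_of_eq
    congr 1; ext y
    rw [abs_mul, abs_of_nonneg (hφ0 _)]
  calc ∫ x in K, |ind E x - ∫ y, ind E (x + y) * φ y ∂μ| ∂μ
      ≤ ∫ x in K, ∫ y, |ind E x - ind E (x + y)| * φ y ∂μ ∂μ := by
        refine integral_mono_of_nonneg (Filter.Eventually.of_forall fun x => abs_nonneg _) ?_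
          (Filter.Eventually.of_forall hpt)
        exact hprod.integral_prod_left
    _ = ∫ y, ∫ x in K, |ind E x - ind E (x + y)| * φ y ∂μ ∂μ :=
        integral_integral_swap hprod
    _ ≤ ∫ y, (δ * M) * φ y ∂μ := by
        refine integral_mono_of_nonneg (Filter.Eventually.of_forall fun y => ?_)
          (hφi.const_mul _) (Filter.Eventually.of_forall fun y => ?_)
        · exact integral_nonneg fun x => mul_nonneg (abs_nonneg _) (hφ0 _)
        · show ∫ x in K, |ind E x - ind E (x + y)| * φ y ∂μ ≤ δ * M * φ y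
          rw [integral_mul_const]
          by_cases hy : φ y = 0
          · rw [hy]; simp
          · refine mul_le_mul_of_nonneg_right ?_ (hφ0 _)
            have hyδ := hφs y hy
            have h1 := translate_estimate μ hE hb hU hK hKU (h := y) (hUh y hyδ)
            have h2 : ∫ x in K, |ind E x - ind E (x + y)| ∂μ
                = ∫ x in K, |ind E (x + y) - ind E x| ∂μ := by
              congr 1; ext x; rw [abs_sub_comm]
            rw [h2]
            exact h1.trans (mul_le_mul_of_nonneg_right hyδ hM)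
    _ = δ * M := by rw [integral_const_mul, hφ1, mul_one]

theorem setIntegral_abs_ind_sub {K E E' : Set X} (hE : MeasurableSet E) (hE' : MeasurableSet E') :
    ∫ x in K, |ind E x - ind E' x| ∂μ = μ.real (K ∩ (E ∆ E')) := by
  have h1 : ∀ x, |ind E x - ind E' x| = (E ∆ E').indicator (fun _ => (1:ℝ)) x := by
    intro x
    by_cases h1 : x ∈ E <;> by_cases h2 : x ∈ E' <;>
      simp [ind, indicator, h1, h2, mem_symmDiff]
  simp_rw [h1]
  rw [setIntegral_indicator (hE.symmDiff hE')]
  simp

theorem exists_discretization {Ω : Set X} (hΩ : IsOpen Ω) (hfin : μ Ω ≠ ∞) (M : ℝ) {ε : ℝ}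
    (hε : 0 < ε) :
    ∃ (m : ℕ) (G : Set X → Fin m), ∀ E E' : Set X, MeasurableSet E →
      MeasurableSet E' → E ⊆ Ω → E' ⊆ Ω → BVb μ Ω M E → BVb μ Ω M E' → G E = G E' →
      μ.real (E ∆ E') < ε := by
  classical
  rcases lt_or_ge M 0 with hM | hM
  · refine ⟨1, fun _ => 0, fun E E' _ _ _ _ hb _ _ => ?_⟩
    exact absurd (hb.nonneg) (not_le.mpr hM)
  obtain ⟨K, hKΩ, hK, hKε⟩ := hΩ.measurableSet.exists_isCompact_sdiff_lt hfin
    (ε := ENNReal.ofReal (ε / 4)) (by simpa using hε)
  obtain ⟨δ₀, hδ₀, hδΩ⟩ := hK.exists_cthickening_subset_open hΩ hKΩ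
  set U := thickening (δ₀ / 2) K with hU
  have hUo : IsOpen U := isOpen_thickening
  have hKU : K ⊆ U := self_subset_thickening (by positivity) K
  set δ : ℝ := min (δ₀ / 2) (ε / (16 * (M + 1))) with hδ
  have hδpos : 0 < δ := lt_min (by positivity) (by positivity)
  have hUh : ∀ h : X, ‖h‖ ≤ δ → ∀ x ∈ U, ∀ t ∈ Icc (0:ℝ) 1, x + t • h ∈ Ω := by
    intro h hh x hx t ht
    apply hδΩ
    rw [hU, mem_thickening_iff] at hx
    obtain ⟨z, hz, hxz⟩ := hx
    refine mem_cthickening_of_dist_le _ z _ _ hz ?_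
    have h1 : dist (x + t • h) x ≤ δ₀ / 2 := by
      rw [dist_eq_norm]; simp only [add_sub_cancel_left, norm_smul]
      rw [Real.norm_eq_abs, abs_of_nonneg ht.1]
      calc t * ‖h‖ ≤ 1 * ‖h‖ := mul_le_mul_of_nonneg_right ht.2 (norm_nonneg _)
        _ ≤ δ := by simpa using hh
        _ ≤ δ₀ / 2 := min_le_left _ _
    calc dist (x + t • h) z ≤ dist (x + t • h) x + dist x z := dist_triangle _ _ _
      _ ≤ δ₀ / 2 + δ₀ / 2 := add_le_add h1 hxz.le
      _ = δ₀ := by ring
  let b : ContDiffBump (0 : X) := ⟨δ / 2, δ, by positivity, by linarith⟩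
  set φ : X → ℝ := b.normed μ with hφ
  have hφc : Continuous φ := b.continuous_normed
  have hφi : Integrable φ μ := b.integrable_normed
  have hφ0 : ∀ x, 0 ≤ φ x := b.nonneg_normed
  have hφ1 : ∫ x, φ x ∂μ = 1 := b.integral_normed
  have hφcs : HasCompactSupport φ := b.hasCompactSupport_normed
  have hφs : ∀ x, φ x ≠ 0 → ‖x‖ ≤ δ := by
    intro x hx
    have : x ∈ Function.support φ := hx
    rw [hφ, b.support_normed_eq] at this
    simpa using (mem_ball_zero_iff.mp this).le
  set V := μ.real Ω with hV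
  have hV0 : 0 ≤ V := measureReal_nonneg
  -- average function
  set a : Set X → X → ℝ := fun E x => ∫ y, ind E (x + y) * φ y ∂μ with ha
  have hi1 : ∀ E, MeasurableSet E → ∀ x, Integrable (fun y => ind E (x + y) * φ y) μ := by
    intro E hE x
    refine hφi.bdd_mul (c := 1) ?_ ?_
    · exact ((measurable_ind hE).comp (measurable_id.const_add x)).aestronglyMeasurable
    · refine Filter.Eventually.of_forall fun y => ?_
      rw [Real.norm_eq_abs, abs_of_nonneg (ind_nonneg _ _)]; exact ind_le_one _ _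
  have ha0 : ∀ E x, 0 ≤ a E x := fun E x =>
    integral_nonneg fun y => mul_nonneg (ind_nonneg _ _) (hφ0 _)
  have ha1 : ∀ E, MeasurableSet E → ∀ x, a E x ≤ 1 := by
    intro E hE x
    rw [← hφ1]
    refine integral_mono (hi1 E hE x) hφi fun y => ?_
    exact mul_le_of_le_one_left (hφ0 _) (ind_le_one _ _)
  -- equicontinuity
  set η : ℝ := ε / (16 * (V + 1) ^ 2) with hη
  have hηpos : 0 < η := by positivity
  obtain ⟨τ, hτ, hτη⟩ := Metric.uniformContinuous_iff.mp
    (hφcs.uniformContinuous_of_continuous hφc) η hηpos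
  have haeq : ∀ E, MeasurableSet E → E ⊆ Ω → ∀ x x', dist x x' < τ →
      |a E x - a E x'| ≤ η * V := by
    intro E hE hEΩ x x' hxx
    have e : ∀ x, a E x = ∫ y in E, φ (y - x) ∂μ := by
      intro x
      rw [setIntegral_eq_ind_mul μ hE]
      rw [← integral_add_right_eq_self (fun y => ind E y * φ (y - x)) x]
      simp only [ha, add_sub_cancel_right]
      congr 1; ext y; rw [add_comm]
    have hEfin : μ E < ∞ := (measure_mono hEΩ).trans_lt hfin.lt_top
    have hint : ∀ x, IntegrableOn (fun y => φ (y - x)) E μ := fun x =>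
      (hφi.comp_sub_right x).integrableOn
    rw [e, e, ← integral_sub (hint x) (hint x')]
    have : ‖∫ y in E, (φ (y - x) - φ (y - x')) ∂μ‖ ≤ η * μ.real E := by
      refine norm_setIntegral_le_of_norm_le_const hEfin fun y _ => ?_
      have := hτη (a := y - x) (b := y - x') (by
        rw [dist_eq_norm] at hxx ⊢
        rw [sub_sub_sub_cancel_left, norm_sub_rev]; exact hxx)
      rw [Real.dist_eq] at this
      exact this.le
    refine this.trans (mul_le_mul_of_nonneg_left ?_ hηpos.le)
    exact measureReal_mono hEΩ hfin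
  -- finite net
  obtain ⟨t, htK, htfin, htcov⟩ := hK.finite_cover_balls hτ
  obtain ⟨N, hN⟩ := exists_nat_gt (16 * (V + 1) / ε)
  have hNpos : (0:ℝ) < N := lt_trans (by positivity) hN
  have htF : Fintype t := htfin.fintype
  let G₀ : Set X → (t → Fin (N + 1)) := fun E p => ⟨min ⌊a E p * N⌋₊ N, by
    exact Nat.lt_succ_of_le (min_le_right _ _)⟩
  refine ⟨Fintype.card (t → Fin (N + 1)), fun E => Fintype.equivFin _ (G₀ E), ?_⟩
  intro E E' hE hE' hEΩ hEΩ' hbE hbE' hG'
  have hG : G₀ E = G₀ E' := (Fintype.equivFin _).injective hG'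
  have hclose : ∀ p ∈ t, |a E p - a E' p| ≤ 1 / N := by
    intro p hp
    have h1 := congrFun hG ⟨p, hp⟩
    have h1 : min ⌊a E p * N⌋₊ N = min ⌊a E' p * N⌋₊ N := congrArg Fin.val h1
    have f1 : ⌊a E p * N⌋₊ ≤ N := by
      apply Nat.floor_le_of_le
      exact mul_le_of_le_one_left hNpos.le (ha1 E hE p)
    have f2 : ⌊a E' p * N⌋₊ ≤ N := by
      apply Nat.floor_le_of_le
      exact mul_le_of_le_one_left hNpos.le (ha1 E' hE' p)
    rw [min_eq_left f1, min_eq_left f2] at h1
    have g1 := Nat.floor_le (mul_nonneg (ha0 E p) hNpos.le)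
    have g2 := Nat.lt_floor_add_one (a E p * N)
    have g3 := Nat.floor_le (mul_nonneg (ha0 E' p) hNpos.le)
    have g4 := Nat.lt_floor_add_one (a E' p * N)
    rw [h1] at g1 g2
    rw [abs_le]
    constructor
    · rw [neg_le_iff_add_nonneg, ← sub_nonneg]
      have : 0 ≤ ((a E p - a E' p) * N + 1) := by nlinarith
      have h3 : a E p - a E' p + 1 / N = ((a E p - a E' p) * N + 1) / N := by
        field_simp
      rw [sub_zero, h3]; positivity
    · rw [le_div_iff₀ hNpos]; nlinarith
  have hall : ∀ x ∈ K, |a E x - a E' x| ≤ 2 * (η * V) + 1 / N := by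
    intro x hx
    obtain ⟨p, hp, hxp⟩ := mem_iUnion₂.mp (htcov hx)
    have h1 := haeq E hE hEΩ x p hxp
    have h2 := haeq E' hE' hEΩ' x p hxp
    have h3 := hclose p hp
    have : a E x - a E' x = (a E x - a E p) + (a E p - a E' p) - (a E' x - a E' p) := by ring
    rw [this]
    calc |(a E x - a E p) + (a E p - a E' p) - (a E' x - a E' p)|
        ≤ |(a E x - a E p) + (a E p - a E' p)| + |a E' x - a E' p| := abs_sub _ _
      _ ≤ |a E x - a E p| + |a E p - a E' p| + |a E' x - a E' p| := by
          gcongr; exact abs_add_le _ _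
      _ ≤ 2 * (η * V) + 1 / N := by linarith
  -- L1 estimate on K
  have hfinK : μ K < ∞ := hK.measure_lt_top
  have d1 := dist_avg_le μ hE hbE hUo hK hKU hφc hφi hφ0 hφ1 hφs hUh
  have d2 := dist_avg_le μ hE' hbE' hUo hK hKU hφc hφi hφ0 hφ1 hφs hUh
  have hameas : ∀ E, MeasurableSet E → StronglyMeasurable (fun x => a E x) := by
    intro E hE
    have : StronglyMeasurable (fun p : X × X => ind E (p.1 + p.2) * φ p.2) := by
      have h1 := measurable_ind (X := X) hE
      exact ((h1.comp (measurable_fst.add measurable_snd)).mul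
        (hφc.measurable.comp measurable_snd)).stronglyMeasurable
    exact this.integral_prod_right (ν := μ)
  have haint : ∀ E, MeasurableSet E → IntegrableOn (fun x => a E x) K μ := by
    intro E hE
    refine Measure.integrableOn_of_bounded (M := 1) hfinK.ne (hameas E hE).aestronglyMeasurable ?_
    refine Filter.Eventually.of_forall fun x => ?_
    rw [Real.norm_eq_abs, abs_of_nonneg (ha0 E x)]
    exact ha1 E hE x
  have hindint : ∀ E, MeasurableSet E → IntegrableOn (ind E) K μ := by
    intro E hE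
    refine Measure.integrableOn_of_bounded (M := 1) hfinK.ne
      (measurable_ind hE).aestronglyMeasurable ?_
    refine Filter.Eventually.of_forall fun x => ?_
    rw [Real.norm_eq_abs, abs_of_nonneg (ind_nonneg E x)]
    exact ind_le_one _ _
  have hmid : ∫ x in K, |a E x - a E' x| ∂μ ≤ (2 * (η * V) + 1 / N) * V := by
    have : ‖∫ x in K, |a E x - a E' x| ∂μ‖ ≤ (2 * (η * V) + 1 / N) * μ.real K := by
      refine norm_setIntegral_le_of_norm_le_const hfinK fun x hx => ?_
      rw [Real.norm_eq_abs, abs_abs]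
      exact hall x hx
    refine (le_abs_self _).trans (this.trans ?_)
    refine mul_le_mul_of_nonneg_left (measureReal_mono hKΩ hfin) (by positivity)
  have hsum : ∫ x in K, |ind E x - ind E' x| ∂μ ≤
      (δ * M) + (2 * (η * V) + 1 / N) * V + δ * M := by
    have i1 : IntegrableOn (fun x => |ind E x - a E x|) K μ :=
      ((hindint E hE).sub (haint E hE)).abs
    have i2 : IntegrableOn (fun x => |a E x - a E' x|) K μ :=
      ((haint E hE).sub (haint E' hE')).abs
    have i3 : IntegrableOn (fun x => |ind E' x - a E' x|) K μ :=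
      ((hindint E' hE').sub (haint E' hE')).abs
    calc ∫ x in K, |ind E x - ind E' x| ∂μ
        ≤ ∫ x in K, (|ind E x - a E x| + |a E x - a E' x| + |ind E' x - a E' x|) ∂μ := by
          refine integral_mono ((hindint E hE).sub (hindint E' hE')).abs ((i1.add i2).add i3)
            fun x => ?_
          show |ind E x - ind E' x| ≤ |ind E x - a E x| + |a E x - a E' x| + |ind E' x - a E' x|
          have : ind E x - ind E' x = (ind E x - a E x) + (a E x - a E' x) - (ind E' x - a E' x) := by
            ring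
          rw [this]
          exact (abs_sub _ _).trans (add_le_add_left (abs_add_le _ _) _)
      _ = (∫ x in K, |ind E x - a E x| ∂μ) + (∫ x in K, |a E x - a E' x| ∂μ)
            + ∫ x in K, |ind E' x - a E' x| ∂μ := by
          have j1 : ∫ x in K, ((|ind E x - a E x| + |a E x - a E' x|) + |ind E' x - a E' x|) ∂μ
              = (∫ x in K, (|ind E x - a E x| + |a E x - a E' x|) ∂μ)
                + ∫ x in K, |ind E' x - a E' x| ∂μ := integral_add (i1.add i2) i3
          have j2 : ∫ x in K, (|ind E x - a E x| + |a E x - a E' x|) ∂μ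
              = (∫ x in K, |ind E x - a E x| ∂μ) + ∫ x in K, |a E x - a E' x| ∂μ :=
            integral_add i1 i2
          rw [j1, j2]
      _ ≤ (δ * M) + (2 * (η * V) + 1 / N) * V + δ * M := by
          gcongr
  rw [setIntegral_abs_ind_sub μ hE hE'] at hsum
  have hrest : μ.real (Ω \ K) ≤ ε / 4 := by
    rw [Measure.real]
    exact ENNReal.toReal_le_of_le_ofReal (by positivity) hKε.le
  have hsub : E ∆ E' ⊆ (K ∩ (E ∆ E')) ∪ (Ω \ K) := by
    intro x hx
    have hxΩ : x ∈ Ω := by
      rcases hx with h | h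
      · exact hEΩ h.1
      · exact hEΩ' h.1
    by_cases hxK : x ∈ K
    · exact Or.inl ⟨hxK, hx⟩
    · exact Or.inr ⟨hxΩ, hxK⟩
  have hfin1 : μ ((K ∩ (E ∆ E')) ∪ (Ω \ K)) ≠ ∞ := by
    refine ne_of_lt ((measure_mono (?_ : _ ⊆ Ω)).trans_lt hfin.lt_top)
    exact union_subset (inter_subset_left.trans hKΩ) sdiff_subset
  have htot : μ.real (E ∆ E') ≤ μ.real (K ∩ (E ∆ E')) + μ.real (Ω \ K) :=
    (measureReal_mono hsub hfin1).trans (measureReal_union_le _ _)
  have hδM : δ * M ≤ ε / 16 := by
    have h1 : δ ≤ ε / (16 * (M + 1)) := min_le_right _ _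
    calc δ * M ≤ ε / (16 * (M + 1)) * M := mul_le_mul_of_nonneg_right h1 hM
      _ ≤ ε / (16 * (M + 1)) * (M + 1) := by gcongr; linarith
      _ = ε / 16 := by field_simp
  have hηV : 2 * (η * V) * V ≤ ε / 8 := by
    have : η * (V + 1) ^ 2 = ε / 16 := by rw [hη]; field_simp
    have h2 : η * (V * V) ≤ η * (V + 1) ^ 2 := mul_le_mul_of_nonneg_left (by nlinarith) hηpos.le
    nlinarith
  have hNV : 1 / (N:ℝ) * V ≤ ε / 16 := by
    have h1 : 16 * (V + 1) < N * ε := by rwa [div_lt_iff₀ hε] at hN
    rw [one_div, inv_mul_le_iff₀ hNpos]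
    nlinarith
  nlinarith

end Pool.Agent.Helper51
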