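import Pool.Agent.Helper51.Compact2

set_option autoImplicit false
set_option linter.unusedSectionVars false

open MeasureTheory Set Filter Topology Metric
open scoped ENNReal NNReal Pointwise Convolution symmDiff

namespace Pool.Agent.Helper51

universe u

variable {X : Type u} [NormedAddCommGroup X] [NormedSpace ℝ X] [FiniteDimensional ℝ X]
  [MeasurableSpace X] [BorelSpace X] (μ : Measure X) [μ.IsAddHaarMeasure]

theorem exists_subseq {Ω : Set X} (hΩ : IsOpen Ω) (hfin : μ Ω ≠ ∞) {M : ℝ} {E : ℕ → Set X}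
    (hE : ∀ k, MeasurableSet (E k)) (hEΩ : ∀ k, E k ⊆ Ω) (hb : ∀ k, BVb μ Ω M (E k)) :
    ∃ (φ : ℕ → ℕ) (E₀ : Set X), StrictMono φ ∧ MeasurableSet E₀ ∧ E₀ ⊆ Ω ∧
      Tendsto (fun k => μ.real (E (φ k) ∆ E₀)) atTop (𝓝 0) := by
  classical
  have hEf : ∀ k, μ (E k) ≠ ∞ := fun k => ((measure_mono (hEΩ k)).trans_lt hfin.lt_top).ne
  set f : ℕ → Lp ℝ 1 μ := fun k => indicatorConstLp 1 (hE k) (hEf k) (1:ℝ) with hf
  have hdist : ∀ k l, dist (f k) (f l) = μ.real (E k ∆ E l) := by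
    intro k l
    rw [hf]
    simp only
    rw [dist_indicatorConstLp_eq_norm, norm_indicatorConstLp one_ne_zero ENNReal.one_ne_top]
    simp
  have htb : TotallyBounded (range f) := by
    refine totallyBounded_of_finite_discretization fun ε hε => ?_
    obtain ⟨m, G, hG⟩ := exists_discretization μ hΩ hfin M hε
    refine ⟨ULift.{u} (Fin m), inferInstance, fun x => ULift.up (G (E x.2.choose)), ?_⟩
    intro x y hxy
    have h1 : G (E x.2.choose) = G (E y.2.choose) := ULift.up_injective hxy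
    rw [← x.2.choose_spec, ← y.2.choose_spec, hdist]
    exact hG _ _ (hE _) (hE _) (hEΩ _) (hEΩ _) (hb _) (hb _) h1
  have hcomp : IsCompact (closure (range f)) :=
    htb.closure.isCompact_of_isClosed isClosed_closure
  obtain ⟨a, -, φ, hφ, hlim⟩ := hcomp.tendsto_subseq (x := f)
    (fun n => subset_closure (mem_range_self n))
  have hmeas := tendstoInMeasure_of_tendsto_Lp hlim
  obtain ⟨ns, hns, hae⟩ := hmeas.exists_seq_tendsto_ae
  have hfae : ∀ᵐ x ∂μ, ∀ k, f k x = (E k).indicator (fun _ => (1:ℝ)) x := by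
    rw [ae_all_iff]
    intro k
    exact indicatorConstLp_coeFn
  have ham : StronglyMeasurable (a : X → ℝ) := Lp.stronglyMeasurable a
  set E₀ : Set X := Ω ∩ (a : X → ℝ) ⁻¹' {1} with hE₀
  have hE₀m : MeasurableSet E₀ := hΩ.measurableSet.inter (ham.measurable (measurableSet_singleton _))
  have hE₀f : μ E₀ ≠ ∞ := ((measure_mono inter_subset_left).trans_lt hfin.lt_top).ne
  have haE : (a : X → ℝ) =ᵐ[μ] E₀.indicator (fun _ => (1:ℝ)) := by
    filter_upwards [hae, hfae] with x hx hfx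
    have hx' : Tendsto (fun i => (E (φ (ns i))).indicator (fun _ => (1:ℝ)) x) atTop (𝓝 (a x)) := by
      refine hx.congr fun i => ?_
      simp only [Function.comp_apply]
      exact hfx _
    have h01 : a x ∈ ({0, 1} : Set ℝ) := by
      have hcl : IsClosed ({0, 1} : Set ℝ) := (Set.toFinite _).isClosed
      refine hcl.mem_of_tendsto hx' (Filter.Eventually.of_forall fun i => ?_)
      by_cases h : x ∈ E (φ (ns i))
      · rw [indicator_of_mem h]; simp
      · rw [indicator_of_notMem h]; simp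
    by_cases hxΩ : x ∈ Ω
    · rcases h01 with h | h
      · have : x ∉ E₀ := fun h' => by
          have : a x = 1 := h'.2
          rw [h] at this; norm_num at this
        rw [indicator_of_notMem this, h]
      · have h1 : a x = 1 := h
        have : x ∈ E₀ := ⟨hxΩ, h1⟩
        rw [indicator_of_mem this, h1]
    · have : x ∉ E₀ := fun h' => hxΩ h'.1
      rw [indicator_of_notMem this]
      have h0 : ∀ i, (E (φ (ns i))).indicator (fun _ => (1:ℝ)) x = 0 := fun i =>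
        indicator_of_notMem (fun h => hxΩ (hEΩ _ h)) _
      simp only [h0] at hx'
      exact (tendsto_nhds_unique hx' tendsto_const_nhds)
  have haeq : a = indicatorConstLp 1 hE₀m hE₀f (1:ℝ) := by
    apply Lp.ext
    exact haE.trans indicatorConstLp_coeFn.symm
  refine ⟨φ, E₀, hφ, hE₀m, inter_subset_left, ?_⟩
  have h1 := tendsto_iff_dist_tendsto_zero.mp hlim
  refine h1.congr fun k => ?_
  rw [haeq]
  simp only [Function.comp_apply, hf]
  rw [dist_indicatorConstLp_eq_norm, norm_indicatorConstLp one_ne_zero ENNReal.one_ne_top]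
  simp

/-- general admissible fields with gauge `N`. -/
structure TF (N : X → ℝ) (Ω : Set X) (F : X → X) : Prop where
  cd : ContDiff ℝ 1 F
  cs : HasCompactSupport F
  ts : tsupport F ⊆ Ω
  nb : ∀ x, N (F x) ≤ 1

/-- perimeter bound with gauge `N`. -/
def PB (N : X → ℝ) (Ω E : Set X) (M : ℝ) : Prop :=
  ∀ F : X → X, TF N Ω F → ∫ x in E, dv F x ∂μ ≤ M

theorem PB.nonneg {N : X → ℝ} (hN0 : N 0 ≤ 1) {Ω E : Set X} {M : ℝ} (h : PB μ N Ω E M) :
    0 ≤ M := by
  have := h (fun _ => 0) ⟨contDiff_const, HasCompactSupport.zero, by simp [tsupport], fun _ => hN0⟩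
  simpa [dv] using this

theorem PB.bvb {N : X → ℝ} {C : ℝ} (hC : 0 < C) (hN : ∀ v, ‖v‖ ≤ 1 → N (C⁻¹ • v) ≤ 1)
    {Ω E : Set X} {M : ℝ} (h : PB μ N Ω E M) : BVb μ Ω (C * M) E := by
  intro F h1 h2 h3 h4
  have h5 := h (fun x => C⁻¹ • F x) ⟨h1.const_smul _, h2.smul_left (f := fun _ => C⁻¹), ?_, fun x => hN _ (h4 x)⟩
  · have h6 : ∀ x, dv (fun x => C⁻¹ • F x) x = C⁻¹ * dv F x := by
      intro x
      have hd : HasFDerivAt F (fderiv ℝ F x) x :=
        (h1.differentiable one_ne_zero).differentiableAt.hasFDerivAt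
      have hd2 : HasFDerivAt (fun x => C⁻¹ • F x) (C⁻¹ • fderiv ℝ F x) x := hd.const_smul C⁻¹
      rw [dv_of_hasFDerivAt hd2, dv]
      simp
    simp only [h6] at h5
    rw [integral_const_mul] at h5
    rwa [inv_mul_le_iff₀ hC] at h5
  · exact (tsupport_smul_subset_right (fun _ => C⁻¹) F).trans h3

theorem tendsto_setIntegral_of_symmDiff {E : ℕ → Set X} {E₀ : Set X}
    (hE : ∀ k, MeasurableSet (E k)) (hE₀ : MeasurableSet E₀)
    (hf : ∀ k, μ (E k) ≠ ∞) (hf₀ : μ E₀ ≠ ∞)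
    (h : Tendsto (fun k => μ.real (E k ∆ E₀)) atTop (𝓝 0)) {g : X → ℝ} (hg : Continuous g)
    (hgc : HasCompactSupport g) :
    Tendsto (fun k => ∫ x in E k, g x ∂μ) atTop (𝓝 (∫ x in E₀, g x ∂μ)) := by
  obtain ⟨C, hC⟩ := hgc.exists_bound_of_continuous hg
  have hgi : Integrable g μ := hg.integrable_of_hasCompactSupport hgc
  rw [tendsto_iff_norm_sub_tendsto_zero]
  refine squeeze_zero (fun _ => norm_nonneg _) (g := fun k => |C| * μ.real (E k ∆ E₀)) ?_ ?_
  · intro k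
    have e1 : (∫ x in E k, g x ∂μ) - ∫ x in E₀, g x ∂μ
        = (∫ x in E k \ E₀, g x ∂μ) - ∫ x in E₀ \ E k, g x ∂μ := by
      rw [← integral_inter_add_sdiff hE₀ (hgi.integrableOn (s := E k)),
        ← integral_inter_add_sdiff (hE k) (hgi.integrableOn (s := E₀)), inter_comm E₀ (E k)]
      ring
    rw [e1]
    have b1 : ‖∫ x in E k \ E₀, g x ∂μ‖ ≤ |C| * μ.real (E k \ E₀) :=
      norm_setIntegral_le_of_norm_le_const ((measure_mono sdiff_subset).trans_lt (hf k).lt_top)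
        fun x _ => (hC x).trans (le_abs_self _)
    have b2 : ‖∫ x in E₀ \ E k, g x ∂μ‖ ≤ |C| * μ.real (E₀ \ E k) :=
      norm_setIntegral_le_of_norm_le_const ((measure_mono sdiff_subset).trans_lt hf₀.lt_top)
        fun x _ => (hC x).trans (le_abs_self _)
    have e2 : μ.real (E k ∆ E₀) = μ.real (E k \ E₀) + μ.real (E₀ \ E k) := by
      rw [Set.symmDiff_def]
      refine measureReal_union disjoint_sdiff_sdiff (hE₀.diff (hE k)) ?_ ?_
      · exact ((measure_mono sdiff_subset).trans_lt (hf k).lt_top).ne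
      · exact ((measure_mono sdiff_subset).trans_lt hf₀.lt_top).ne
    rw [e2, mul_add]
    exact (norm_sub_le _ _).trans (add_le_add b1 b2)
  · simpa using h.const_mul |C|

theorem tendsto_measureReal_of_symmDiff {E : ℕ → Set X} {E₀ : Set X}
    (hf : ∀ k, μ (E k) ≠ ∞) (hf₀ : μ E₀ ≠ ∞)
    (h : Tendsto (fun k => μ.real (E k ∆ E₀)) atTop (𝓝 0)) :
    Tendsto (fun k => μ.real (E k)) atTop (𝓝 (μ.real E₀)) := by
  rw [tendsto_iff_norm_sub_tendsto_zero]
  refine squeeze_zero (fun _ => norm_nonneg _) (g := fun k => μ.real (E k ∆ E₀)) ?_ h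
  intro k
  have hfs : μ (E k ∆ E₀) ≠ ∞ :=
    ((measure_mono (symmDiff_subset_union)).trans_lt
      (measure_union_lt_top (hf k).lt_top hf₀.lt_top)).ne
  have h1 : μ.real (E k) ≤ μ.real E₀ + μ.real (E k ∆ E₀) := by
    refine (measureReal_mono (s₂ := E₀ ∪ (E k ∆ E₀)) ?_ ?_).trans (measureReal_union_le _ _)
    · intro x hx
      by_cases hx0 : x ∈ E₀
      · exact Or.inl hx0
      · exact Or.inr (Or.inl ⟨hx, hx0⟩)
    · exact (measure_union_lt_top hf₀.lt_top hfs.lt_top).ne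
  have h2 : μ.real E₀ ≤ μ.real (E k) + μ.real (E k ∆ E₀) := by
    refine (measureReal_mono (s₂ := E k ∪ (E k ∆ E₀)) ?_ ?_).trans (measureReal_union_le _ _)
    · intro x hx
      by_cases hx0 : x ∈ E k
      · exact Or.inl hx0
      · exact Or.inr (Or.inr ⟨hx, hx0⟩)
    · exact (measure_union_lt_top (hf k).lt_top hfs.lt_top).ne
  rw [Real.norm_eq_abs, abs_le]
  constructor <;> linarith

/-- existence of minimizers. -/
theorem exists_minimizer {N : X → ℝ} (hN0 : N 0 ≤ 1) {C : ℝ} (hC : 0 < C)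
    (hN : ∀ v, ‖v‖ ≤ 1 → N (C⁻¹ • v) ≤ 1)
    {Ω : Set X} (hΩ : IsOpen Ω) (hfin : μ Ω ≠ ∞) {v : ℝ} {F₀ : Set X}
    (hF₀ : MeasurableSet F₀) (hF₀Ω : F₀ ⊆ Ω) (hF₀v : μ.real F₀ = v) {M₀ : ℝ}
    (hF₀b : PB μ N Ω F₀ M₀) :
    ∃ E : Set X, MeasurableSet E ∧ E ⊆ Ω ∧ μ.real E = v ∧
      ∀ F : Set X, MeasurableSet F → F ⊆ Ω → μ.real F = v → ∀ M, PB μ N Ω F M → PB μ N Ω E M := by
  classical
  set S : Set ℝ := {M | ∃ F : Set X, MeasurableSet F ∧ F ⊆ Ω ∧ μ.real F = v ∧ PB μ N Ω F M} with hS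
  have hSne : S.Nonempty := ⟨M₀, F₀, hF₀, hF₀Ω, hF₀v, hF₀b⟩
  have hSb : BddBelow S := ⟨0, by
    rintro M ⟨F, -, -, -, h⟩
    exact h.nonneg μ hN0⟩
  set m := sInf S with hm
  have hseq : ∀ k : ℕ, ∃ F : Set X, MeasurableSet F ∧ F ⊆ Ω ∧ μ.real F = v ∧
      PB μ N Ω F (m + 1 / (k + 1)) := by
    intro k
    obtain ⟨M, ⟨F, h1, h2, h3, h4⟩, hlt⟩ := exists_lt_of_csInf_lt hSne
      (show sInf S < m + 1 / (k + 1) by rw [← hm]; exact lt_add_of_pos_right _ (by positivity))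
    exact ⟨F, h1, h2, h3, fun G hG => (h4 G hG).trans hlt.le⟩
  choose F hFm hFΩ hFv hFb using hseq
  have hbv : ∀ k, BVb μ Ω (C * (m + 1)) (F k) := by
    intro k
    have h1 := (hFb k).bvb μ hC hN
    intro G g1 g2 g3 g4
    refine (h1 G g1 g2 g3 g4).trans (mul_le_mul_of_nonneg_left ?_ hC.le)
    have : (1:ℝ) / (k + 1) ≤ 1 := by
      rw [div_le_one (by positivity)]; linarith [k.cast_nonneg (α := ℝ)]
    linarith
  obtain ⟨φ, E, hφ, hEm, hEΩ, hlim⟩ := exists_subseq μ hΩ hfin hFm hFΩ hbv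
  have hff : ∀ k, μ (F k) ≠ ∞ := fun k => ((measure_mono (hFΩ k)).trans_lt hfin.lt_top).ne
  have hEf : μ E ≠ ∞ := ((measure_mono hEΩ).trans_lt hfin.lt_top).ne
  refine ⟨E, hEm, hEΩ, ?_, ?_⟩
  · have := tendsto_measureReal_of_symmDiff μ (fun k => hff (φ k)) hEf hlim
    simp only [hFv] at this
    exact (tendsto_nhds_unique this tendsto_const_nhds)
  · have hEb : PB μ N Ω E m := by
      intro G hG
      have h1 := tendsto_setIntegral_of_symmDiff μ (fun k => hFm (φ k)) hEm (fun k => hff (φ k)) hEf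
        hlim (continuous_dv hG.cd) (hasCompactSupport_dv hG.cs)
      have h2 : Tendsto (fun k : ℕ => m + 1 / ((φ k : ℝ) + 1)) atTop (𝓝 (m + 0)) := by
        refine tendsto_const_nhds.add ?_
        exact (tendsto_one_div_add_atTop_nhds_zero_nat (𝕜 := ℝ)).comp hφ.tendsto_atTop
      rw [add_zero] at h2
      exact le_of_tendsto_of_tendsto' h1 h2 fun k => hFb (φ k) G hG
    intro F' h1 h2 h3 M hM G hG
    exact (hEb G hG).trans (csInf_le hSb ⟨F', h1, h2, h3, hM⟩)

end Pool.Agent.Helper51
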