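import Pool.Agent.Helper51.Basic

set_option autoImplicit false
set_option linter.unusedSectionVars false

open MeasureTheory Set Filter Topology Metric
open scoped ENNReal NNReal Pointwise Convolution

namespace Pool.Agent.Helper51

section general

variable {X : Type*} [NormedAddCommGroup X] [NormedSpace ℝ X] [FiniteDimensional ℝ X]
  [MeasurableSpace X] [BorelSpace X] (μ : Measure X) [μ.IsAddHaarMeasure]

theorem dv_smul {s : X → ℝ} {G : X → X} {x : X} {l : X →L[ℝ] ℝ}
    (h : HasFDerivAt s l x) (hG : DifferentiableAt ℝ G x) :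
    dv (fun x => s x • G x) x = s x * dv G x + l (G x) := by
  have h1 : HasFDerivAt (fun x => s x • G x) (s x • fderiv ℝ G x + l.smulRight (G x)) x := by
    exact h.smul hG.hasFDerivAt
  rw [dv_of_hasFDerivAt h1]
  have : ((s x • fderiv ℝ G x + l.smulRight (G x) : X →L[ℝ] X) : X →ₗ[ℝ] X)
      = s x • (fderiv ℝ G x : X →ₗ[ℝ] X) + ((l.smulRight (G x) : X →L[ℝ] X) : X →ₗ[ℝ] X) := rfl
  rw [this, map_add, map_smul, trace_smulRight_clm, smul_eq_mul, dv]

theorem dv_add {F G : X → X} {x : X} (hF : DifferentiableAt ℝ F x) (hG : DifferentiableAt ℝ G x) :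
    dv (fun x => F x + G x) x = dv F x + dv G x := by
  have h1 : HasFDerivAt (fun x => F x + G x) (fderiv ℝ F x + fderiv ℝ G x) x := by
    exact hF.hasFDerivAt.add hG.hasFDerivAt
  rw [dv_of_hasFDerivAt h1]
  have : ((fderiv ℝ F x + fderiv ℝ G x : X →L[ℝ] X) : X →ₗ[ℝ] X)
      = (fderiv ℝ F x : X →ₗ[ℝ] X) + (fderiv ℝ G x : X →ₗ[ℝ] X) := rfl
  rw [this, map_add, dv, dv]

theorem dv_neg {F : X → X} {x : X} :
    dv (fun x => - F x) x = - dv F x := by
  have h1 : fderiv ℝ (fun x => - F x) x = - fderiv ℝ F x := fderiv_fun_neg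
  rw [dv, h1, dv]
  have : ((- fderiv ℝ F x : X →L[ℝ] X) : X →ₗ[ℝ] X)
      = - (fderiv ℝ F x : X →ₗ[ℝ] X) := rfl
  rw [this, map_neg]

theorem dv_congr {F G : X → X} {x : X} (h : F =ᶠ[𝓝 x] G) : dv F x = dv G x := by
  rw [dv, dv, h.fderiv_eq]

theorem integral_fderiv_apply_eq_zero {f : X → ℝ} (hf : ContDiff ℝ 1 f) (hc : HasCompactSupport f)
    (v : X) : ∫ x, fderiv ℝ f x v ∂μ = 0 := by
  have hfd : Continuous (fun x => fderiv ℝ f x v) :=
    (hf.continuous_fderiv one_ne_zero).clm_apply continuous_const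
  have hcd : HasCompactSupport (fun x => fderiv ℝ f x v) := hc.fderiv_apply (𝕜 := ℝ) v
  have h := integral_mul_fderiv_eq_neg_fderiv_mul_of_integrable (μ := μ) (f := fun _ : X => (1:ℝ))
    (g := f) (v := v) (by simp) (by simpa using hfd.integrable_of_hasCompactSupport hcd)
    (by simpa using hf.continuous.integrable_of_hasCompactSupport hc)
    (fun _ _ => differentiableAt_const _) (fun x _ => hf.differentiable one_ne_zero x)
  simpa using h

theorem integral_dv_eq_zero {F : X → X} (hF : ContDiff ℝ 1 F) (hc : HasCompactSupport F) :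
    ∫ x, dv F x ∂μ = 0 := by
  classical
  let b := Module.finBasis ℝ X
  have h1 : ∀ x, dv F x = ∑ i, fderiv ℝ (fun x => (b.equivFun (F x)) i) x (b i) := by
    intro x
    rw [dv, LinearMap.trace_eq_matrix_trace ℝ b, Matrix.trace]
    refine Finset.sum_congr rfl fun i _ => ?_
    rw [Matrix.diag_apply, LinearMap.toMatrix_apply]
    have hd : HasFDerivAt F (fderiv ℝ F x) x :=
      (hF.differentiable one_ne_zero).differentiableAt.hasFDerivAt
    let c : X →L[ℝ] ℝ := LinearMap.toContinuousLinearMap (b.coord i)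
    have h2 : HasFDerivAt (fun x => c (F x)) (c.comp (fderiv ℝ F x)) x := c.hasFDerivAt.comp x hd
    have h3 : (fun x => (b.equivFun (F x)) i) = fun x => c (F x) := by
      ext y; simp [c]
    rw [h3, h2.fderiv]
    simp [c]
  simp_rw [h1]
  rw [integral_finsetSum]
  · refine Finset.sum_eq_zero fun i _ => ?_
    let c : X →L[ℝ] ℝ := LinearMap.toContinuousLinearMap (b.coord i)
    have h3 : (fun x => (b.equivFun (F x)) i) = fun x => c (F x) := by
      ext y; simp [c]
    rw [h3]
    refine integral_fderiv_apply_eq_zero μ (c.contDiff.comp hF) ?_ _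
    exact hc.comp_left (g := c) (map_zero c)
  · intro i _
    let c : X →L[ℝ] ℝ := LinearMap.toContinuousLinearMap (b.coord i)
    have h3 : (fun x => (b.equivFun (F x)) i) = fun x => c (F x) := by
      ext y; simp [c]
    rw [h3]
    have hC : ContDiff ℝ 1 (fun x => c (F x)) := c.contDiff.comp hF
    have hcs : HasCompactSupport (fun x => c (F x)) := hc.comp_left (g := c) (map_zero c)
    exact ((hC.continuous_fderiv one_ne_zero).clm_apply
      continuous_const).integrable_of_hasCompactSupport (hcs.fderiv_apply (𝕜 := ℝ) _)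

theorem integrable_dv {F : X → X} (hF : ContDiff ℝ 1 F) (hc : HasCompactSupport F) :
    Integrable (dv F) μ :=
  (continuous_dv hF).integrable_of_hasCompactSupport (hasCompactSupport_dv hc)

theorem setIntegral_dv_eq_neg {F : X → X} (hF : ContDiff ℝ 1 F) (hc : HasCompactSupport F)
    {U D : Set X} (hD : MeasurableSet D) (hDU : D ⊆ U)
    (hs : ∀ x, x ∉ U → dv F x = 0) :
    ∫ x in D, dv F x ∂μ = - ∫ x in U \ D, dv F x ∂μ := by
  have h0 := integral_dv_eq_zero μ hF hc
  have hi := integrable_dv μ hF hc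
  have h1 : ∫ x in U, dv F x ∂μ = 0 := by
    rw [← h0]
    exact setIntegral_eq_integral_of_forall_compl_eq_zero fun x hx => hs x hx
  have h2 := integral_inter_add_sdiff hD (hi.integrableOn (s := U))
  rw [inter_eq_right.mpr hDU, h1] at h2
  linarith

end general

section theta

/-- the derivative of the cutoff. -/
noncomputable def thetad (t : ℝ) : ℝ := 6 * max 0 (t * (1 - t))

/-- a `C¹` cutoff on the line. -/
noncomputable def theta (t : ℝ) : ℝ := ∫ s in (0:ℝ)..t, thetad s

theorem continuous_thetad : Continuous thetad := by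
  unfold thetad
  fun_prop

theorem thetad_nonneg (t : ℝ) : 0 ≤ thetad t := by
  unfold thetad; positivity

theorem thetad_le (t : ℝ) : thetad t ≤ 2 := by
  unfold thetad
  have : max 0 (t * (1 - t)) ≤ 1 / 4 := by
    apply max_le (by norm_num)
    nlinarith [sq_nonneg (t - 1/2)]
  linarith

theorem thetad_of_nonpos {t : ℝ} (h : t ≤ 0) : thetad t = 0 := by
  unfold thetad
  rw [max_eq_left (by nlinarith)]; ring

theorem thetad_of_one_le {t : ℝ} (h : 1 ≤ t) : thetad t = 0 := by
  unfold thetad
  rw [max_eq_left (by nlinarith)]; ring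

theorem hasDerivAt_theta (t : ℝ) : HasDerivAt theta (thetad t) t :=
  intervalIntegral.integral_hasDerivAt_right (continuous_thetad.intervalIntegrable _ _)
    (continuous_thetad.stronglyMeasurableAtFilter _ _) continuous_thetad.continuousAt

theorem theta_of_nonpos {t : ℝ} (h : t ≤ 0) : theta t = 0 := by
  unfold theta
  rw [intervalIntegral.integral_symm]
  rw [intervalIntegral.integral_congr (g := fun _ => (0:ℝ))]
  · simp
  · intro s hs
    rw [uIcc_of_le h] at hs
    exact thetad_of_nonpos hs.2

theorem theta_one : theta 1 = 1 := by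
  unfold theta
  have h1 : ∀ t ∈ uIcc (0:ℝ) 1, HasDerivAt (fun t : ℝ => 3 * t ^ 2 - 2 * t ^ 3) (thetad t) t := by
    intro t ht
    rw [uIcc_of_le zero_le_one] at ht
    have h2 : thetad t = 3 * ((2:ℕ) * t ^ (2 - 1)) - 2 * ((3:ℕ) * t ^ (3 - 1)) := by
      unfold thetad
      rw [max_eq_right (mul_nonneg ht.1 (by linarith [ht.2]))]
      push_cast
      ring
    rw [h2]
    exact ((hasDerivAt_pow 2 t).const_mul 3).sub ((hasDerivAt_pow 3 t).const_mul 2)
  rw [intervalIntegral.integral_eq_sub_of_hasDerivAt h1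
    (continuous_thetad.intervalIntegrable _ _)]
  norm_num

theorem theta_of_one_le {t : ℝ} (h : 1 ≤ t) : theta t = 1 := by
  have h1 : theta t = theta 1 + ∫ s in (1:ℝ)..t, thetad s := by
    unfold theta
    rw [intervalIntegral.integral_add_adjacent_intervals
      (continuous_thetad.intervalIntegrable _ _) (continuous_thetad.intervalIntegrable _ _)]
  rw [h1, theta_one]
  rw [intervalIntegral.integral_congr (g := fun _ => (0:ℝ))]
  · simp
  · intro s hs
    rw [uIcc_of_le h] at hs
    exact thetad_of_one_le hs.1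

theorem monotone_theta : Monotone theta :=
  monotone_of_hasDerivAt_nonneg hasDerivAt_theta thetad_nonneg

theorem theta_nonneg (t : ℝ) : 0 ≤ theta t := by
  rcases le_total t 0 with h | h
  · rw [theta_of_nonpos h]
  · rw [← theta_of_nonpos (le_refl 0)]; exact monotone_theta h

theorem theta_le_one (t : ℝ) : theta t ≤ 1 := by
  rcases le_total t 1 with h | h
  · rw [← theta_of_one_le (le_refl 1)]; exact monotone_theta h
  · rw [theta_of_one_le h]

theorem deriv_theta : deriv theta = thetad := by
  ext t; exact (hasDerivAt_theta t).deriv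

theorem contDiff_theta : ContDiff ℝ 1 theta := by
  rw [contDiff_one_iff_deriv]
  exact ⟨fun t => (hasDerivAt_theta t).differentiableAt, by rw [deriv_theta]; exact continuous_thetad⟩

end theta

end Pool.Agent.Helper51
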