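import Pool.Agent.Helper51.Plane10

set_option autoImplicit false
set_option linter.unusedSectionVars false

open MeasureTheory Set Filter Topology Metric
open scoped ENNReal NNReal Pointwise Convolution

namespace Pool.Agent.Helper51

theorem q_le (j : ℕ) {t : ℝ} (h1 : t ≤ 1) :
    (1 - t) ^ (j + 1) ≤ Real.exp (-(((j:ℝ) + 1) * t)) := by
  have h2 : 1 - t ≤ Real.exp (-t) := Real.one_sub_le_exp_neg t
  have h3 : (1 - t) ^ (j + 1) ≤ (Real.exp (-t)) ^ (j + 1) := pow_le_pow_left₀ (by linarith) h2 _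
  refine h3.trans (le_of_eq ?_)
  rw [← Real.exp_nat_mul]
  congr 1
  push_cast; ring

theorem q_ge (j : ℕ) {t : ℝ} (h1 : t < 1) :
    Real.exp (-(((j:ℝ) + 1) * (t / (1 - t)))) ≤ (1 - t) ^ (j + 1) := by
  have hpos : 0 < 1 - t := by linarith
  have h2 : (1 - t)⁻¹ ≤ Real.exp (t / (1 - t)) := by
    have := Real.add_one_le_exp (t / (1 - t))
    refine le_trans (le_of_eq ?_) this
    field_simp
    ring
  have h3 : Real.exp (-(t / (1 - t))) ≤ 1 - t := by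
    rw [Real.exp_neg]
    exact inv_le_of_inv_le₀ hpos h2
  have h4 : (Real.exp (-(t / (1 - t)))) ^ (j + 1) ≤ (1 - t) ^ (j + 1) :=
    pow_le_pow_left₀ (Real.exp_pos _).le h3 _
  refine le_trans (le_of_eq ?_) h4
  rw [← Real.exp_nat_mul]
  congr 1
  push_cast; ring

theorem int_pow (j : ℕ) (a : ℝ) :
    ∫ r in (0:ℝ)..a, (1 - r) ^ j = (1 - (1 - a) ^ (j + 1)) / ((j:ℝ) + 1) := by
  have hj : ((j:ℝ) + 1) ≠ 0 := by positivity
  have h := intervalIntegral.integral_eq_sub_of_hasDerivAt (a := 0) (b := a)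
    (f := fun r => - ((1 - r) ^ (j + 1) / ((j:ℝ) + 1))) (f' := fun r => (1 - r) ^ j)
    (fun x _ => by
      have h1 : HasDerivAt (fun r : ℝ => 1 - r) (-1) x := by
        simpa using (hasDerivAt_id x).const_sub 1
      have h2 : HasDerivAt (fun r : ℝ => (1 - r) ^ (j + 1)) (((j + 1 : ℕ) : ℝ) * (1 - x) ^ j * (-1)) x :=
        h1.pow (j + 1)
      refine ((h2.div_const _).fun_neg).congr_deriv ?_
      push_cast
      field_simp)
    (Continuous.intervalIntegrable (by fun_prop) _ _)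
  rw [h]
  field_simp
  ring

theorem mm_eq (j : ℕ) (r : ℝ) :
    mm j r = (1 - (1 - r) ^ (j + 1) * (1 + ((j:ℝ) + 1) * r)) / (((j:ℝ) + 1) * (j + 2)) := by
  unfold mm Tm
  simp only [sub_zero, one_pow, mul_zero, add_zero, mul_one]
  ring

theorem phi_bound {j : ℕ} {r R B : ℝ} (hr : 0 < r) (hrR : r ≤ R) (hR : R < 1) (hB0 : 0 ≤ B)
    (hB : ((1 - R) ^ (j + 1))⁻¹ ≤ 1 + (1 + B) * (((j:ℝ) + 1) * R)) :
    ((j:ℝ) + 2) * mm j r ≤ B * (r * (1 - r) ^ j) := by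
  have hR0 : 0 < R := hr.trans_le hrR
  have hr1 : 0 < 1 - r := by linarith
  have hR1 : 0 < 1 - R := by linarith
  have hconv : ((1 - r) ^ (j + 1))⁻¹ ≤ 1 + (r / R) * (((1 - R) ^ (j + 1))⁻¹ - 1) := by
    have ha' : 0 ≤ 1 - r / R := by rw [sub_nonneg, div_le_one hR0]; exact hrR
    have hb' : 0 ≤ r / R := by positivity
    have hab : (1 - r / R) + r / R = 1 := by ring
    have hm1 : (1:ℝ) ∈ Ioi (0:ℝ) := mem_Ioi.mpr one_pos
    have hm2 : 1 - R ∈ Ioi (0:ℝ) := mem_Ioi.mpr hR1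
    have hc := (convexOn_zpow (-((j + 1 : ℕ) : ℤ))).2 hm1 hm2 ha' hb' hab
    have e1 : (1 - r / R) • (1:ℝ) + (r / R) • (1 - R) = 1 - r := by
      simp only [smul_eq_mul]; field_simp; ring
    simp only [e1] at hc
    simp only [zpow_neg, zpow_natCast, one_pow, inv_one, smul_eq_mul] at hc
    linarith
  set q : ℝ := (1 - r) ^ (j + 1) with hq
  have hqpos : 0 < q := by positivity
  have h1 : q⁻¹ ≤ 1 + (1 + B) * (((j:ℝ) + 1) * r) := by
    have h2 : (r / R) * (((1 - R) ^ (j + 1))⁻¹ - 1) ≤ (r / R) * ((1 + B) * (((j:ℝ) + 1) * R)) :=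
      mul_le_mul_of_nonneg_left (by linarith) (by positivity)
    have h3 : (r / R) * ((1 + B) * (((j:ℝ) + 1) * R)) = (1 + B) * (((j:ℝ) + 1) * r) := by
      field_simp
    linarith
  have h4 : 1 ≤ q * (1 + (1 + B) * (((j:ℝ) + 1) * r)) := by
    have := mul_le_mul_of_nonneg_left h1 hqpos.le
    rwa [mul_inv_cancel₀ hqpos.ne'] at this
  have h5 : q ≤ (1 - r) ^ j := by
    rw [hq, pow_succ]
    exact mul_le_of_le_one_right (by positivity) (by linarith)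
  rw [mm_eq, ← hq]
  have h6 : ((j:ℝ) + 2) * ((1 - q * (1 + ((j:ℝ) + 1) * r)) / (((j:ℝ) + 1) * (j + 2)))
      = (1 - q * (1 + ((j:ℝ) + 1) * r)) / ((j:ℝ) + 1) := by
    field_simp
  rw [h6, div_le_iff₀ (by positivity)]
  have h7 : 1 - q * (1 + ((j:ℝ) + 1) * r) ≤ B * r * ((j:ℝ) + 1) * q := by nlinarith
  refine h7.trans ?_
  have h8 : B * r * ((j:ℝ) + 1) * q ≤ B * r * ((j:ℝ) + 1) * (1 - r) ^ j :=
    mul_le_mul_of_nonneg_left h5 (by positivity)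
  linarith

theorem H_le {j : ℕ} (hj : 1 ≤ j) {lam t₁ t : ℝ} (hlam : 0 ≤ lam) (h0 : 0 < t₁) (h1 : t₁ ≤ t)
    (h2 : t ≤ 1) (hcond : 1 ≤ ((j:ℝ) + 1 - lam) * t₁) :
    t * (1 - t) ^ j - lam * Tm j t ≤ t₁ * (1 - t₁) ^ j - lam * Tm j t₁ := by
  have hder : ∀ x : ℝ, HasDerivAt (fun x : ℝ => x * (1 - x) ^ j - lam * Tm j x)
      (1 * (1 - x) ^ j + x * (j * (1 - x) ^ (j - 1) * (-1)) - lam * (-(x * (1 - x) ^ j))) x := by
    intro x
    have a1 : HasDerivAt (fun r : ℝ => 1 - r) (-1) x := by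
      simpa using (hasDerivAt_id x).const_sub 1
    exact ((hasDerivAt_id x).mul (a1.pow j)).sub ((hasDerivAt_Tm j x).const_mul lam)
  have hanti : AntitoneOn (fun x : ℝ => x * (1 - x) ^ j - lam * Tm j x) (Icc t₁ 1) := by
    refine antitoneOn_of_deriv_nonpos (convex_Icc _ _) ?_ ?_ ?_
    · intro x _
      exact (hder x).continuousAt.continuousWithinAt
    · intro x _
      exact (hder x).differentiableAt.differentiableWithinAt
    · intro x hx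
      rw [interior_Icc] at hx
      rw [(hder x).deriv]
      obtain ⟨i, rfl⟩ : ∃ i, j = i + 1 := ⟨j - 1, by omega⟩
      rw [Nat.add_sub_cancel]
      have h3 : 1 * (1 - x) ^ (i + 1) + x * (((i + 1 : ℕ) : ℝ) * (1 - x) ^ i * (-1))
          - lam * (-(x * (1 - x) ^ (i + 1)))
          = (1 - x) ^ i * ((1 - x) - ((i + 1 : ℕ) : ℝ) * x + lam * x * (1 - x)) := by
        rw [pow_succ]; ring
      rw [h3]
      have h4 : 0 ≤ (1 - x) ^ i := pow_nonneg (by linarith [hx.2]) _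
      refine mul_nonpos_of_nonneg_of_nonpos h4 ?_
      have hx0 : 0 < x := h0.trans hx.1
      have h5 : lam * x * (1 - x) ≤ lam * x :=
        mul_le_of_le_one_right (mul_nonneg hlam hx0.le) (by linarith)
      have h6 : 0 < ((i + 1 : ℕ) : ℝ) + 1 - lam := by
        by_contra hcon
        push Not at hcon
        have : (((i + 1 : ℕ) : ℝ) + 1 - lam) * t₁ ≤ 0 :=
          mul_nonpos_of_nonpos_of_nonneg hcon h0.le
        linarith
      have h7 : (((i + 1 : ℕ) : ℝ) + 1 - lam) * t₁ ≤ (((i + 1 : ℕ) : ℝ) + 1 - lam) * x :=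
        mul_le_mul_of_nonneg_left hx.1.le h6.le
      linarith
  exact hanti ⟨le_rfl, h1.trans h2⟩ ⟨h1, h2⟩ h1

theorem Tm_anti (j : ℕ) {r s : ℝ} (hr : 0 ≤ r) (hrs : r ≤ s) (hs : s ≤ 1) : Tm j s ≤ Tm j r := by
  have := mm_mono j hr hrs hs
  unfold mm at this
  linarith

theorem t_ge {j : ℕ} {t₁ t : ℝ} (h1 : t₁ ≤ 1) (ht : 0 ≤ t) (h : Tm j t < Tm j t₁) : t₁ ≤ t := by
  by_contra hcon
  push Not at hcon
  have := Tm_anti j ht hcon.le h1
  linarith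

theorem numB_of {j : ℕ} (hj : 1 ≤ j) {r₁ r₂ ra lam w b e t₁ B₁ B₂ : ℝ}
    (hra : 0 < ra) (hra1 : ra < r₁) (hra2 : ra < 1) (hlam : 0 ≤ lam) (hw : 0 < w) (he : 0 < e)
    (heb : e < b) (hb : b < 1) (hcase : r₂ ≤ b - e)
    (hB20 : 0 ≤ B₂) (hB2 : lam * B₂ ≤ (j:ℝ) + 2)
    (hφ2 : ((1 - b) ^ (j + 1))⁻¹ ≤ 1 + (1 + B₂) * (((j:ℝ) + 1) * b))
    (hB10 : 0 ≤ B₁) (hB1 : (lam * B₁ / ((j:ℝ) + 2)) ^ 2 + w ^ 2 ≤ 1)
    (hφ1 : ((1 - ra) ^ (j + 1))⁻¹ ≤ 1 + (1 + B₁) * (((j:ℝ) + 1) * ra))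
    (ht₁0 : 0 < t₁)
    (ht₁ : ∀ t, 0 < t → t < 1 → Tm j t ≤ Tm j 0 / 2 → Tm j t ≤ mm j r₂ → t₁ ≤ t)
    (hcond : 1 ≤ ((j:ℝ) + 1 - lam) * t₁)
    (hfin : t₁ * (1 - t₁) ^ j - lam * Tm j t₁ < w / Real.pi * ∫ r in (0:ℝ)..ra, (1 - r) ^ j) :
    NumB j r₁ r₂ := by
  refine ⟨ra, lam, w, b, e, hra, hra1, hra2, hlam, hw, he, heb, hb, Or.inr hcase, ?_, ?_, ?_⟩
  · intro r hr hrb
    have h1 := phi_bound hr hrb.le hb hB20 hφ2
    have hc : 0 ≤ r * (1 - r) ^ j := mul_nonneg hr.le (pow_nonneg (by linarith) _)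
    have h2 : lam * (((j:ℝ) + 2) * mm j r) ≤ ((j:ℝ) + 2) * (r * (1 - r) ^ j) := by
      calc lam * (((j:ℝ) + 2) * mm j r) ≤ lam * (B₂ * (r * (1 - r) ^ j)) :=
            mul_le_mul_of_nonneg_left h1 hlam
        _ = (lam * B₂) * (r * (1 - r) ^ j) := by ring
        _ ≤ _ := mul_le_mul_of_nonneg_right hB2 hc
    have h3 : ((j:ℝ) + 2) * (lam * mm j r) ≤ ((j:ℝ) + 2) * (r * (1 - r) ^ j) := by
      refine le_trans (le_of_eq (by ring)) h2
    exact le_of_mul_le_mul_left h3 (by positivity)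
  · intro r hr hrb
    have h1 := phi_bound hr hrb.le hra2 hB10 hφ1
    have hr1 : r ≤ 1 := by linarith
    have hc : 0 ≤ r * (1 - r) ^ j := mul_nonneg hr.le (pow_nonneg (by linarith) _)
    have hm : 0 ≤ mm j r := mm_nonneg j hr.le hr1
    have h2 : lam * mm j r ≤ (lam * B₁ / ((j:ℝ) + 2)) * (r * (1 - r) ^ j) := by
      have h3 : mm j r ≤ B₁ * (r * (1 - r) ^ j) / ((j:ℝ) + 2) := by
        rw [le_div_iff₀ (by positivity)]; linarith
      calc lam * mm j r ≤ lam * (B₁ * (r * (1 - r) ^ j) / ((j:ℝ) + 2)) :=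
            mul_le_mul_of_nonneg_left h3 hlam
        _ = _ := by ring
    have h4 : (lam * mm j r) ^ 2 ≤ ((lam * B₁ / ((j:ℝ) + 2)) * (r * (1 - r) ^ j)) ^ 2 :=
      pow_le_pow_left₀ (mul_nonneg hlam hm) h2 2
    have h5 : ((lam * B₁ / ((j:ℝ) + 2)) * (r * (1 - r) ^ j)) ^ 2 + (w * (r * (1 - r) ^ j)) ^ 2
        = ((lam * B₁ / ((j:ℝ) + 2)) ^ 2 + w ^ 2) * (r * (1 - r) ^ j) ^ 2 := by ring
    have h6 : ((lam * B₁ / ((j:ℝ) + 2)) ^ 2 + w ^ 2) * (r * (1 - r) ^ j) ^ 2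
        ≤ (r * (1 - r) ^ j) ^ 2 := mul_le_of_le_one_left (sq_nonneg _) hB1
    linarith
  · intro t h0 h1 h2 h3
    have h4 := ht₁ t h0 h1 h2 h3
    have h5 := H_le hj hlam ht₁0 h4 h1.le hcond
    linarith

theorem numB_zero {j : ℕ} {r₁ r₂ ra : ℝ}
    (hra : 0 < ra) (hra1 : ra < r₁) (hra2 : ra < 1)
    (h : ∀ t, 0 < t → t < 1 → Tm j t ≤ Tm j 0 / 2 → Tm j t ≤ mm j r₂ →
      t * (1 - t) ^ j < 1 / Real.pi * ∫ r in (0:ℝ)..ra, (1 - r) ^ j) :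
    NumB j r₁ r₂ := by
  refine ⟨ra, 0, 1, 1/2, 1/4, hra, hra1, hra2, le_rfl, one_pos, by norm_num, by norm_num,
    by norm_num, Or.inl rfl, ?_, ?_, ?_⟩
  · intro r hr hrb
    rw [zero_mul]
    exact mul_nonneg hr.le (pow_nonneg (by linarith) _)
  · intro r hr _
    rw [zero_mul, one_mul]; simp
  · intro t h0 h1 h2 h3
    rw [zero_mul, zero_add]
    exact h t h0 h1 h2 h3

end Pool.Agent.Helper51
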