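import Pool.Agent.Helper51.Num1

set_option autoImplicit false
set_option linter.unusedSectionVars false

open MeasureTheory Set Filter Topology Metric
open scoped ENNReal NNReal Pointwise Convolution

namespace Pool.Agent.Helper51

theorem exp_ub {x U : ℝ} (k : ℕ) (y : ℝ) (hx : x = k + y) (hy0 : 0 ≤ y) (hy1 : y ≤ 1)
    (hU : (2.7182818286:ℝ) ^ k * ((∑ m ∈ Finset.range 9, y ^ m / m.factorial)
      + y ^ 9 * (9 + 1) / (Nat.factorial 9 * 9)) ≤ U) : Real.exp x ≤ U := by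
  have h1 : Real.exp x = (Real.exp 1) ^ k * Real.exp y := by
    rw [hx, Real.exp_add, ← Real.exp_nat_mul, mul_one]
  have h2 := Real.exp_bound' hy0 hy1 (n := 9) (by norm_num)
  have h3 : (Real.exp 1) ^ k ≤ (2.7182818286:ℝ) ^ k :=
    pow_le_pow_left₀ (Real.exp_pos _).le Real.exp_one_lt_d9.le _
  rw [h1]
  refine le_trans (mul_le_mul h3 ?_ (Real.exp_pos _).le (by positivity)) hU
  refine h2.trans (le_of_eq ?_)
  push_cast
  ring

theorem exp_lb {x L : ℝ} (k : ℕ) (y : ℝ) (hx : x = k + y) (hy0 : 0 ≤ y)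
    (hL : L ≤ (2.7182818283:ℝ) ^ k * (∑ m ∈ Finset.range 9, y ^ m / m.factorial)) :
    L ≤ Real.exp x := by
  have h1 : Real.exp x = (Real.exp 1) ^ k * Real.exp y := by
    rw [hx, Real.exp_add, ← Real.exp_nat_mul, mul_one]
  have h2 := Real.sum_le_exp_of_nonneg hy0 9
  have h3 : (2.7182818283:ℝ) ^ k ≤ (Real.exp 1) ^ k :=
    pow_le_pow_left₀ (by norm_num) Real.exp_one_gt_d9.le _
  rw [h1]
  refine hL.trans (mul_le_mul h3 h2 ?_ (by positivity))
  exact Finset.sum_nonneg fun i _ => by positivity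

theorem inv_q_le {j : ℕ} (hn : (j:ℝ) + 1 = 10000) {t X U : ℝ} (h1 : t < 1)
    (hX : 10000 * (t / (1 - t)) ≤ X) (hU : Real.exp X ≤ U) : ((1 - t) ^ (j + 1))⁻¹ ≤ U := by
  have h2 := q_ge j h1
  rw [hn] at h2
  have h3 : Real.exp (-X) ≤ (1 - t) ^ (j + 1) :=
    le_trans (Real.exp_le_exp.mpr (by linarith)) h2
  have h4 := inv_anti₀ (Real.exp_pos _) h3
  rw [← Real.exp_neg, neg_neg] at h4
  exact h4.trans hU

theorem q_lower {j : ℕ} (hn : (j:ℝ) + 1 = 10000) {t X U : ℝ} (h1 : t < 1)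
    (hX : 10000 * (t / (1 - t)) ≤ X) (hU : Real.exp X ≤ U) : 1 / U ≤ (1 - t) ^ (j + 1) := by
  have h2 := q_ge j h1
  rw [hn] at h2
  have h3 : Real.exp (-X) ≤ (1 - t) ^ (j + 1) :=
    le_trans (Real.exp_le_exp.mpr (by linarith)) h2
  refine le_trans ?_ h3
  rw [Real.exp_neg, one_div]
  exact inv_anti₀ (Real.exp_pos _) hU

theorem q_upper {j : ℕ} (hn : (j:ℝ) + 1 = 10000) {t L : ℝ} (h1 : t ≤ 1) (hL0 : 0 < L)
    (hL : L ≤ Real.exp (10000 * t)) : (1 - t) ^ (j + 1) ≤ 1 / L := by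
  have h2 := q_le j h1
  rw [hn] at h2
  refine h2.trans ?_
  rw [Real.exp_neg, one_div]
  exact inv_anti₀ hL0 hL

theorem Tm_val {j : ℕ} (hn : (j:ℝ) + 1 = 10000) (t : ℝ) :
    Tm j t = (1 - t) ^ (j + 1) * (1 + 10000 * t) / (10000 * 10001) := by
  unfold Tm
  have : (j:ℝ) + 2 = 10001 := by linarith
  rw [hn, this]

theorem fin_bound {j : ℕ} (hn : (j:ℝ) + 1 = 10000) {ra E w C : ℝ} (hra1 : ra ≤ 1) (hE : 1 ≤ E)
    (hw : 0 ≤ w) (hEe : E ≤ Real.exp (10000 * ra)) (hC : C < w * (1 - 1 / E) / 3.1416) :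
    C / 10000 < w / Real.pi * ∫ r in (0:ℝ)..ra, (1 - r) ^ j := by
  have h1 := q_upper hn hra1 (by linarith) hEe
  rw [int_pow, hn]
  have hπ := Real.pi_pos
  have hπ4 := Real.pi_lt_d4
  have h2 : 0 ≤ 1 - 1 / E := by
    rw [sub_nonneg, div_le_one (by linarith)]; exact hE
  have h3 : w * (1 - 1 / E) / 3.1416 ≤ w * (1 - 1 / E) / Real.pi :=
    div_le_div_of_nonneg_left (mul_nonneg hw h2) hπ hπ4.le
  have h4 : w * (1 - 1 / E) / Real.pi ≤ w * (1 - (1 - ra) ^ (j + 1)) / Real.pi := by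
    apply div_le_div_of_nonneg_right _ hπ.le
    exact mul_le_mul_of_nonneg_left (by linarith) hw
  have h5 : C < w * (1 - (1 - ra) ^ (j + 1)) / Real.pi := by linarith
  have h6 : w / Real.pi * ((1 - (1 - ra) ^ (j + 1)) / 10000)
      = w * (1 - (1 - ra) ^ (j + 1)) / Real.pi / 10000 := by ring
  rw [h6]
  exact div_lt_div_of_pos_right h5 (by norm_num)

theorem mm_le_sq (j : ℕ) {r : ℝ} (h0 : 0 ≤ r) (h1 : r ≤ 1) : mm j r ≤ r ^ 2 / 2 := by
  unfold mm
  rw [← integral_weight_zero]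
  have h2 : ∫ x in (0:ℝ)..r, x * (1 - x) ^ j ≤ ∫ x in (0:ℝ)..r, x := by
    refine intervalIntegral.integral_mono_on h0
      ((by fun_prop : Continuous fun x : ℝ => x * (1 - x) ^ j).intervalIntegrable _ _)
      (continuous_id.intervalIntegrable _ _) fun x hx => ?_
    exact mul_le_of_le_one_right hx.1 (pow_le_one₀ (by linarith [hx.2]) (by linarith [hx.1]))
  refine h2.trans (le_of_eq ?_)
  rw [integral_id]; ring

section values

variable {j : ℕ} (hn : (j:ℝ) + 1 = 10000)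
include hn

theorem tau_q : 0.18686 ≤ (1 - (0.0001677:ℝ)) ^ (j + 1) := by
  have h1 : Real.exp 1.6773 ≤ 5.3515 :=
    exp_ub 1 0.6773 (by norm_num) (by norm_num) (by norm_num)
      (by norm_num [Finset.sum_range_succ, Nat.factorial])
  have h2 := q_lower hn (t := 0.0001677) (X := 1.6773) (U := 5.3515) (by norm_num) (by norm_num) h1
  refine le_trans ?_ h2
  norm_num

theorem tau_Tm : Tm j 0 / 2 ≤ Tm j 0.0001677 := by
  have h := tau_q hn
  rw [Tm_val hn, Tm_val hn]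
  rw [sub_zero, one_pow]
  have h2 : (0.18686:ℝ) * (1 + 10000 * 0.0001677) / (10000 * 10001)
      ≤ (1 - 0.0001677) ^ (j + 1) * (1 + 10000 * 0.0001677) / (10000 * 10001) := by
    gcongr
  refine le_trans ?_ h2
  norm_num

theorem tau_Tm_lt : Tm j 0 / 2 < Tm j 0.0001677 := by
  have h := tau_q hn
  rw [Tm_val hn, Tm_val hn]
  rw [sub_zero, one_pow]
  have h2 : (0.18686:ℝ) * (1 + 10000 * 0.0001677) / (10000 * 10001)
      ≤ (1 - 0.0001677) ^ (j + 1) * (1 + 10000 * 0.0001677) / (10000 * 10001) := by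
    gcongr
  refine lt_of_lt_of_le ?_ h2
  norm_num

theorem tau_c : (0.0001677:ℝ) * (1 - 0.0001677) ^ j ≤ 0.3136 / 10000 := by
  have h1 : (5.3494:ℝ) ≤ Real.exp (10000 * 0.0001677) :=
    exp_lb 1 0.677 (by norm_num) (by norm_num)
      (by norm_num [Finset.sum_range_succ, Nat.factorial])
  have h2 := q_upper hn (t := 0.0001677) (L := 5.3494) (by norm_num) (by norm_num) h1
  rw [pow_succ] at h2
  have h3 : (1 - (0.0001677:ℝ)) ^ j ≤ 1 / 5.3494 / (1 - 0.0001677) := by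
    rw [le_div_iff₀ (by norm_num)]; exact h2
  calc (0.0001677:ℝ) * (1 - 0.0001677) ^ j ≤ 0.0001677 * (1 / 5.3494 / (1 - 0.0001677)) := by
        gcongr
    _ ≤ 0.3136 / 10000 := by norm_num

theorem tau_le {t : ℝ} (h0 : 0 ≤ t) (h : Tm j t ≤ Tm j 0 / 2) : 0.0001677 ≤ t :=
  t_ge (by norm_num) h0 (lt_of_le_of_lt h (tau_Tm_lt hn))

theorem num3 (s : ℝ) (h0 : 0 < s) (h : Tm j s ≤ Tm j 0 / 2) : 1 ≤ ((j:ℝ) + 1) * s := by
  have h2 := tau_le hn h0.le h
  rw [hn]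
  linarith

end values

end Pool.Agent.Helper51
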