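import Pool.Agent.Helper51.Num2

set_option autoImplicit false
set_option linter.unusedSectionVars false

open MeasureTheory Set Filter Topology Metric
open scoped ENNReal NNReal Pointwise Convolution

namespace Pool.Agent.Helper51

section regimes

variable {j : ℕ} (hn : (j:ℝ) + 1 = 10000)
include hn

theorem regime5 (hj : 1 ≤ j) {r₁ : ℝ} (h : 0.00046 ≤ r₁) : NumB j r₁ 1 := by
  refine numB_zero (ra := 0.000455) (by norm_num) (by linarith) (by norm_num) ?_
  intro t h0 h1 h2 _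
  have h3 := tau_le hn h0.le h2
  have h4 := H_le hj (lam := 0) le_rfl (by norm_num : (0:ℝ) < 0.0001677) h3 h1.le
    (by rw [hn]; norm_num)
  have h5 := tau_c hn
  have h6 := fin_bound hn (ra := 0.000455) (E := 94.6) (w := 1) (C := 0.3136) (by norm_num)
    (by norm_num) (by norm_num)
    (exp_lb 4 0.55 (by norm_num) (by norm_num)
      (by norm_num [Finset.sum_range_succ, Nat.factorial])) (by norm_num)
  linarith

theorem tau_all (r₂ : ℝ) : ∀ t, 0 < t → t < 1 → Tm j t ≤ Tm j 0 / 2 →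
    Tm j t ≤ mm j r₂ → 0.0001677 ≤ t := fun _ h0 _ h2 _ => tau_le hn h0.le h2

theorem hfin_aux {Λ : ℝ} (hΛ : 0 ≤ Λ) :
    (0.0001677:ℝ) * (1 - 0.0001677) ^ j - (10001 * Λ) * Tm j 0.0001677
      ≤ (0.3136 - Λ / 2) / 10000 := by
  have h1 := tau_c hn
  have h2 := tau_Tm hn
  have h3 : Tm j 0 / 2 = 1 / (2 * (10000 * 10001)) := by
    rw [Tm_val hn, sub_zero, one_pow]; ring
  rw [h3] at h2
  have h4 : (10001 * Λ) * (1 / (2 * (10000 * 10001))) ≤ (10001 * Λ) * Tm j 0.0001677 :=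
    mul_le_mul_of_nonneg_left h2 (by positivity)
  have h5 : (10001 * Λ) * (1 / (2 * (10000 * 10001))) = Λ / 2 / 10000 := by ring
  rw [h5] at h4
  linarith

theorem regime4 (hj : 1 ≤ j) {r₁ : ℝ} (h : 0.00037 ≤ r₁) : NumB j r₁ 0.00046 := by
  have hj2 : (j:ℝ) + 2 = 10001 := by linarith
  refine numB_of hj (ra := 0.0003) (lam := 10001 * 0.048) (w := 0.96) (b := 0.000461)
    (e := 0.000001) (t₁ := 0.0001677) (B₁ := 5.368) (B₂ := 20.6269) (by norm_num)
    (by linarith) (by norm_num) (by norm_num) (by norm_num) (by norm_num) (by norm_num)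
    (by norm_num) (by norm_num) (by norm_num) ?_ ?_ (by norm_num) ?_ ?_ (by norm_num)
    (tau_all hn _) ?_ ?_
  · rw [hj2]; norm_num
  · rw [hn]
    refine (inv_q_le hn (X := 4.61213) (U := 100.7) (by norm_num) (by norm_num)
      (exp_ub 4 0.61213 (by norm_num) (by norm_num) (by norm_num)
        (by norm_num [Finset.sum_range_succ, Nat.factorial]))).trans (by norm_num)
  · rw [hj2]; norm_num
  · rw [hn]
    refine (inv_q_le hn (X := 3.00091) (U := 20.104) (by norm_num) (by norm_num)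
      (exp_ub 3 0.00091 (by norm_num) (by norm_num) (by norm_num)
        (by norm_num [Finset.sum_range_succ, Nat.factorial]))).trans (by norm_num)
  · rw [hn]; norm_num
  · refine lt_of_le_of_lt (hfin_aux hn (Λ := 0.048) (by norm_num)) ?_
    exact fin_bound hn (E := 20.085) (by norm_num) (by norm_num) (by norm_num)
      (exp_lb 3 0 (by norm_num) (by norm_num)
        (by norm_num [Finset.sum_range_succ, Nat.factorial])) (by norm_num)

theorem regime3 (hj : 1 ≤ j) {r₁ : ℝ} (h : 0.000215 < r₁) : NumB j r₁ 0.00037 := by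
  have hj2 : (j:ℝ) + 2 = 10001 := by linarith
  refine numB_of hj (ra := 0.000215) (lam := 10001 * 0.1) (w := 0.96) (b := 0.000371)
    (e := 0.000001) (t₁ := 0.0001677) (B₁ := 2.53) (B₂ := 9.76) (by norm_num)
    (by linarith) (by norm_num) (by norm_num) (by norm_num) (by norm_num) (by norm_num)
    (by norm_num) (by norm_num) (by norm_num) ?_ ?_ (by norm_num) ?_ ?_ (by norm_num)
    (tau_all hn _) ?_ ?_
  · rw [hj2]; norm_num
  · rw [hn]
    refine (inv_q_le hn (X := 3.7114) (U := 40.912) (by norm_num) (by norm_num)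
      (exp_ub 3 0.7114 (by norm_num) (by norm_num) (by norm_num)
        (by norm_num [Finset.sum_range_succ, Nat.factorial]))).trans (by norm_num)
  · rw [hj2]; norm_num
  · rw [hn]
    refine (inv_q_le hn (X := 2.15047) (U := 8.5895) (by norm_num) (by norm_num)
      (exp_ub 2 0.15047 (by norm_num) (by norm_num) (by norm_num)
        (by norm_num [Finset.sum_range_succ, Nat.factorial]))).trans (by norm_num)
  · rw [hn]; norm_num
  · refine lt_of_le_of_lt (hfin_aux hn (Λ := 0.1) (by norm_num)) ?_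
    exact fin_bound hn (E := 8.584) (by norm_num) (by norm_num) (by norm_num)
      (exp_lb 2 0.15 (by norm_num) (by norm_num)
        (by norm_num [Finset.sum_range_succ, Nat.factorial])) (by norm_num)

theorem regime2 (hj : 1 ≤ j) {r₁ : ℝ} (h : 0.00005 < r₁) : NumB j r₁ 0.000216 := by
  have hj2 : (j:ℝ) + 2 = 10001 := by linarith
  refine numB_of hj (ra := 0.00005) (lam := 10001 * 0.385) (w := 0.98) (b := 0.0002165)
    (e := 0.0000005) (t₁ := 0.0001677) (B₁ := 0.298) (B₂ := 2.566) (by norm_num)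
    (by linarith) (by norm_num) (by norm_num) (by norm_num) (by norm_num) (by norm_num)
    (by norm_num) (by norm_num) (by norm_num) ?_ ?_ (by norm_num) ?_ ?_ (by norm_num)
    (tau_all hn _) ?_ ?_
  · rw [hj2]; norm_num
  · rw [hn]
    refine (inv_q_le hn (X := 2.1655) (U := 8.7192) (by norm_num) (by norm_num)
      (exp_ub 2 0.1655 (by norm_num) (by norm_num) (by norm_num)
        (by norm_num [Finset.sum_range_succ, Nat.factorial]))).trans (by norm_num)
  · rw [hj2]; norm_num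
  · rw [hn]
    refine (inv_q_le hn (X := 0.50003) (U := 1.6488) (by norm_num) (by norm_num)
      (exp_ub 0 0.50003 (by norm_num) (by norm_num) (by norm_num)
        (by norm_num [Finset.sum_range_succ, Nat.factorial]))).trans (by norm_num)
  · rw [hn]; norm_num
  · refine lt_of_le_of_lt (hfin_aux hn (Λ := 0.385) (by norm_num)) ?_
    exact fin_bound hn (E := 1.6487) (by norm_num) (by norm_num) (by norm_num)
      (exp_lb 0 0.5 (by norm_num) (by norm_num)
        (by norm_num [Finset.sum_range_succ, Nat.factorial])) (by norm_num)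

theorem regime1b (hj : 1 ≤ j) {r₁ : ℝ} (h : 0.00004 < r₁) : NumB j r₁ 0.000051 := by
  refine numB_zero (ra := 0.00004) (by norm_num) (by linarith) (by norm_num) ?_
  intro t h0 h1 h2 h3
  have hq : 1 / 34.86 ≤ (1 - (0.000355:ℝ)) ^ (j + 1) :=
    q_lower hn (t := 0.000355) (X := 3.55127) (U := 34.86) (by norm_num) (by norm_num)
      (exp_ub 3 0.55127 (by norm_num) (by norm_num) (by norm_num)
        (by norm_num [Finset.sum_range_succ, Nat.factorial]))
  have hT : (0.000051:ℝ) ^ 2 / 2 < Tm j 0.000355 := by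
    rw [Tm_val hn]
    have h5 : (1 / 34.86:ℝ) * (1 + 10000 * 0.000355) / (10000 * 10001)
      ≤ (1 - 0.000355) ^ (j + 1) * (1 + 10000 * 0.000355) / (10000 * 10001) := by
      gcongr
    refine lt_of_lt_of_le ?_ h5
    norm_num
  have h4 : 0.000355 ≤ t := by
    refine t_ge (by norm_num) h0.le (lt_of_le_of_lt ?_ hT)
    exact h3.trans (mm_le_sq j (by norm_num) (by norm_num))
  have h5 := H_le hj (lam := 0) le_rfl (by norm_num : (0:ℝ) < 0.000355) h4 h1.le
    (by rw [hn]; norm_num)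
  have hc : (0.000355:ℝ) * (1 - 0.000355) ^ j ≤ 0.1024 / 10000 := by
    have g1 : (34.8:ℝ) ≤ Real.exp (10000 * 0.000355) :=
      exp_lb 3 0.55 (by norm_num) (by norm_num)
        (by norm_num [Finset.sum_range_succ, Nat.factorial])
    have g2 := q_upper hn (t := 0.000355) (L := 34.8) (by norm_num) (by norm_num) g1
    rw [pow_succ] at g2
    have g3 : (1 - (0.000355:ℝ)) ^ j ≤ 1 / 34.8 / (1 - 0.000355) := by
      rw [le_div_iff₀ (by norm_num)]; exact g2
    calc (0.000355:ℝ) * (1 - 0.000355) ^ j ≤ 0.000355 * (1 / 34.8 / (1 - 0.000355)) := by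
          gcongr
      _ ≤ 0.1024 / 10000 := by norm_num
  have h6 := fin_bound hn (ra := 0.00004) (E := 1.4918) (w := 1) (C := 0.1024) (by norm_num)
    (by norm_num) (by norm_num)
    (exp_lb 0 0.4 (by norm_num) (by norm_num)
      (by norm_num [Finset.sum_range_succ, Nat.factorial])) (by norm_num)
  linarith

theorem regime1a (hj : 2 ≤ j) {r₁ : ℝ} (h0' : 0 < r₁) (h : r₁ ≤ 0.00004) :
    NumB j r₁ (1.1 * r₁) := by
  refine numB_zero (ra := 0.9 * r₁) (by linarith) (by linarith) (by linarith) ?_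
  intro t h0 h1 h2 h3
  have hmm : mm j (1.1 * r₁) ≤ 0.605 * r₁ ^ 2 :=
    (mm_le_sq j (by linarith) (by linarith)).trans (le_of_eq (by ring))
  have hr1sq : r₁ ^ 2 ≤ 0.00004 ^ 2 := pow_le_pow_left₀ h0'.le h 2
  have hq : 1 / 44.77 ≤ (1 - (0.00038:ℝ)) ^ (j + 1) :=
    q_lower hn (t := 0.00038) (X := 3.80145) (U := 44.77) (by norm_num) (by norm_num)
      (exp_ub 3 0.80145 (by norm_num) (by norm_num) (by norm_num)
        (by norm_num [Finset.sum_range_succ, Nat.factorial]))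
  have hT : 0.605 * (0.00004:ℝ) ^ 2 < Tm j 0.00038 := by
    rw [Tm_val hn]
    have h5 : (1 / 44.77:ℝ) * (1 + 10000 * 0.00038) / (10000 * 10001)
      ≤ (1 - 0.00038) ^ (j + 1) * (1 + 10000 * 0.00038) / (10000 * 10001) := by
      gcongr
    refine lt_of_lt_of_le ?_ h5
    norm_num
  have h4 : 0.00038 ≤ t := by
    refine t_ge (by norm_num) h0.le (lt_of_le_of_lt ?_ hT)
    refine h3.trans (hmm.trans ?_)
    exact mul_le_mul_of_nonneg_left hr1sq (by norm_num)
  obtain ⟨i, rfl⟩ : ∃ i, j = i + 1 := ⟨j - 1, by omega⟩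
  have hi : ((i:ℝ) + 1) = 9999 := by push_cast at hn; linarith
  have h5 := H_le (j := i) (by omega) (lam := 0) le_rfl (by norm_num : (0:ℝ) < 0.00038) h4 h1.le
    (by rw [hi]; norm_num)
  rw [zero_mul, zero_mul, sub_zero, sub_zero] at h5
  have hc : 10001 * ((0.00038:ℝ) * (1 - 0.00038) ^ i) ≤ 0.0852 := by
    have g1 : (44.7:ℝ) ≤ Real.exp (10000 * 0.00038) :=
      exp_lb 3 0.8 (by norm_num) (by norm_num)
        (by norm_num [Finset.sum_range_succ, Nat.factorial])
    have g2 := q_upper hn (t := 0.00038) (L := 44.7) (by norm_num) (by norm_num) g1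
    rw [pow_succ, pow_succ] at g2
    have g3 : (1 - (0.00038:ℝ)) ^ i ≤ 1 / 44.7 / (1 - 0.00038) / (1 - 0.00038) := by
      rw [le_div_iff₀ (by norm_num), le_div_iff₀ (by norm_num)]; exact g2
    calc 10001 * ((0.00038:ℝ) * (1 - 0.00038) ^ i)
        ≤ 10001 * (0.00038 * (1 / 44.7 / (1 - 0.00038) / (1 - 0.00038))) := by
          gcongr
      _ ≤ 0.0852 := by norm_num
  have ht1 : 0 ≤ 1 - t := by linarith
  have hTm : Tm (i + 1) t ≤ 0.605 * r₁ ^ 2 := h3.trans hmm
  have hsq : (t * (1 - t) ^ (i + 1)) ^ 2 ≤ (0.2271 * r₁) ^ 2 := by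
    have e1 : (t * (1 - t) ^ (i + 1)) ^ 2 ≤ (10001 * (t * (1 - t) ^ i)) * Tm (i + 1) t := by
      rw [Tm_val hn]
      have hp : 0 ≤ t * ((1 - t) ^ i) ^ 2 * (1 - t) ^ 2 := by positivity
      have e2 : (10001 * (t * (1 - t) ^ i)) * ((1 - t) ^ (i + 1 + 1) * (1 + 10000 * t) / (10000 * 10001))
          = (t * ((1 - t) ^ i) ^ 2 * (1 - t) ^ 2) * ((1 + 10000 * t) / 10000) := by
        rw [pow_succ, pow_succ]; ring
      have e3 : (t * (1 - t) ^ (i + 1)) ^ 2 = (t * ((1 - t) ^ i) ^ 2 * (1 - t) ^ 2) * t := by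
        rw [pow_succ]; ring
      rw [e2, e3]
      exact mul_le_mul_of_nonneg_left (by linarith) hp
    have e4 : 10001 * (t * (1 - t) ^ i) ≤ 0.0852 := by linarith
    have e5 : (10001 * (t * (1 - t) ^ i)) * Tm (i + 1) t ≤ 0.0852 * (0.605 * r₁ ^ 2) := by
      refine mul_le_mul e4 hTm ?_ (by norm_num)
      have := Tm_anti (i + 1) h0.le h1.le le_rfl
      rw [Tm_one] at this
      exact this
    have e6 : 0.0852 * (0.605 * r₁ ^ 2) ≤ (0.2271 * r₁) ^ 2 := by
      have : 0 ≤ r₁ ^ 2 := sq_nonneg _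
      nlinarith
    linarith
  have hcle : t * (1 - t) ^ (i + 1) ≤ 0.2271 * r₁ := le_of_sq_le_sq hsq (by linarith)
  refine lt_of_le_of_lt hcle ?_
  -- right side
  have hx0 : 0 < 10000 * (0.9 * r₁) := by linarith
  have g1 := q_upper hn (t := 0.9 * r₁) (L := 1 + 10000 * (0.9 * r₁) + (10000 * (0.9 * r₁)) ^ 2 / 2)
    (by linarith) (by positivity) (Real.quadratic_le_exp_of_nonneg hx0.le)
  rw [int_pow, hn]
  set x : ℝ := 10000 * (0.9 * r₁) with hx
  have hx1 : x ≤ 0.36 := by rw [hx]; linarith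
  have hr : r₁ = x / 9000 := by rw [hx]; ring
  have g2 : 0.82 * x ≤ 1 - 1 / (1 + x + x ^ 2 / 2) := by
    have hpos : 0 < 1 + x + x ^ 2 / 2 := by positivity
    have : 1 - 1 / (1 + x + x ^ 2 / 2) = (x + x ^ 2 / 2) / (1 + x + x ^ 2 / 2) := by
      field_simp; ring
    rw [this, le_div_iff₀ hpos]
    nlinarith [mul_pos hx0 hx0, mul_nonneg hx0.le (sub_nonneg.mpr hx1)]
  have hπ := Real.pi_pos
  have hπ4 := Real.pi_lt_d4
  have g3 : 0.82 * x ≤ 1 - (1 - 0.9 * r₁) ^ (i + 1 + 1) := by linarith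
  have g4 : 1 / Real.pi * (0.82 * x / 10000)
      ≤ 1 / Real.pi * ((1 - (1 - 0.9 * r₁) ^ (i + 1 + 1)) / 10000) := by
    apply mul_le_mul_of_nonneg_left _ (by positivity)
    exact div_le_div_of_nonneg_right g3 (by norm_num)
  refine lt_of_lt_of_le ?_ g4
  have g5 : 1 / 3.1416 ≤ 1 / Real.pi := one_div_le_one_div_of_le hπ hπ4.le
  have g6 : 1 / 3.1416 * (0.82 * x / 10000) ≤ 1 / Real.pi * (0.82 * x / 10000) :=
    mul_le_mul_of_nonneg_right g5 (by positivity)
  refine lt_of_lt_of_le ?_ g6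
  rw [hr]
  have : 0.2271 * (x / 9000) = x * (0.2271 / 9000) := by ring
  rw [this]
  have : 1 / 3.1416 * (0.82 * x / 10000) = x * (0.82 / 10000 / 3.1416) := by ring
  rw [this]
  exact mul_lt_mul_of_pos_left (by norm_num) hx0

theorem num2 (hj : 2 ≤ j) (r₁ : ℝ) (h0 : 0 < r₁) (h1 : r₁ < 1) :
    ∃ r₂, r₁ < r₂ ∧ r₂ ≤ 1 ∧ NumB j r₁ r₂ := by
  rcases le_or_gt r₁ 0.00004 with a | a
  · exact ⟨1.1 * r₁, by linarith, by linarith, regime1a hn hj h0 a⟩
  rcases le_or_gt r₁ 0.00005 with b | b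
  · exact ⟨0.000051, by linarith, by norm_num, regime1b hn (by omega) a⟩
  rcases le_or_gt r₁ 0.000215 with c | c
  · exact ⟨0.000216, by linarith, by norm_num, regime2 hn (by omega) b⟩
  rcases lt_or_ge r₁ 0.00037 with d | d
  · exact ⟨0.00037, by linarith, by norm_num, regime3 hn (by omega) c⟩
  rcases lt_or_ge r₁ 0.00046 with e | e
  · exact ⟨0.00046, by linarith, by norm_num, regime4 hn (by omega) d⟩
  · exact ⟨1, h1, le_rfl, regime5 hn (by omega) e⟩

end regimes

theorem plane_final {j : ℕ} (hn : (j:ℝ) + 1 = 10000)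
    {D : Set ℂ} (hD : MeasurableSet D) (hD1 : D ⊆ ball 0 1)
    (hmass : ∫ z in D, (1 - ‖z‖) ^ j = Real.pi * Tm j 0) {P : ℝ}
    (hP : ∀ Y, TA j Y → ∫ z in D, dv Y z ≤ P)
    {re : ℝ} (hre : 0 < re) (hnt : ∀ᵐ r, 0 < r → r < re → NT D r) :
    ∃ D' : Set ℂ, MeasurableSet D' ∧ D' ⊆ ball 0 1 ∧
      ∫ z in D', (1 - ‖z‖) ^ j = Real.pi * Tm j 0 ∧
      ∃ q < P, ∀ X, TA' j X → ∫ z in D', dv X z ≤ q := by
  have hj : 2 ≤ j := by
    by_contra hcon
    push Not at hcon
    have : (j:ℝ) < 2 := by exact_mod_cast hcon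
    linarith
  exact plane_main hj (regime5 hn (by omega) (by norm_num)) (num2 hn hj)
    (fun s h0 _ h => num3 hn s h0 h) hD hD1 hmass hP hre hnt

theorem disc_final {j : ℕ} (hn : (j:ℝ) + 1 = 10000) :
    ∃ D' : Set ℂ, MeasurableSet D' ∧ D' ⊆ ball 0 1 ∧
      ∫ z in D', (1 - ‖z‖) ^ j = Real.pi * Tm j 0 ∧
      ∃ q : ℝ, ∀ X, TA' j X → ∫ z in D', dv X z ≤ q := by
  have hj : 2 ≤ j := by
    by_contra hcon
    push Not at hcon
    have : (j:ℝ) < 2 := by exact_mod_cast hcon
    linarith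
  exact disc_bound hj (fun s h0 _ h => num3 hn s h0 h)

end Pool.Agent.Helper51
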