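import Pool.Agent.Helper51.Div

set_option autoImplicit false
set_option linter.unusedSectionVars false

open MeasureTheory Set Filter Topology Metric
open scoped ENNReal NNReal Pointwise Convolution

namespace Pool.Agent.Helper51

/-- a radial profile: `C¹` away from the origin and constant near it. -/
structure Rad (h h' : ℝ → ℝ) (a c : ℝ) : Prop where
  pos : 0 < a
  near : ∀ r, r < a → h r = c
  near' : ∀ r, r < a → h' r = 0
  der : ∀ r, 0 < r → HasDerivAt h (h' r) r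
  cont : ∀ r, 0 < r → ContinuousAt h' r

theorem hasFDerivAt_norm' {z : ℂ} (hz : z ≠ 0) :
    HasFDerivAt (fun z : ℂ => ‖z‖) (‖z‖⁻¹ • innerSL ℝ z) z := by
  have h1 : HasFDerivAt (fun z : ℂ => ‖z‖ ^ 2) (2 • (innerSL ℝ z)) z :=
    (hasStrictFDerivAt_norm_sq z).hasFDerivAt
  have hne : ‖z‖ ^ 2 ≠ 0 := by simpa using hz
  have h2 := h1.sqrt hne
  have h3 : (fun z : ℂ => ‖z‖) = fun z : ℂ => √(‖z‖ ^ 2) := by
    ext w; rw [Real.sqrt_sq (norm_nonneg _)]
  rw [h3]
  refine h2.congr_fderiv ?_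
  rw [Real.sqrt_sq (norm_nonneg _)]
  ext w
  have : ‖z‖ ≠ 0 := by simpa using hz
  simp only [smul_apply, innerSL_apply_apply, smul_eq_mul, nsmul_eq_mul]
  field_simp
  push_cast
  ring

theorem Rad.hasFDerivAt {h h' : ℝ → ℝ} {a c : ℝ} (H : Rad h h' a c) (z : ℂ) :
    HasFDerivAt (fun z : ℂ => h ‖z‖) ((h' ‖z‖ * ‖z‖⁻¹) • innerSL ℝ z) z := by
  by_cases hz : ‖z‖ < a
  · have h1 : (fun z : ℂ => h ‖z‖) =ᶠ[𝓝 z] fun _ => c := by
      have : {w : ℂ | ‖w‖ < a} ∈ 𝓝 z := (isOpen_lt continuous_norm continuous_const).mem_nhds hz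
      filter_upwards [this] with w hw
      exact H.near _ hw
    rw [H.near' _ hz, zero_mul, zero_smul]
    exact (hasFDerivAt_const c z).congr_of_eventuallyEq h1
  · have hpos : 0 < ‖z‖ := lt_of_lt_of_le H.pos (not_lt.mp hz)
    have hz0 : z ≠ 0 := norm_pos_iff.mp hpos
    have h1 := (H.der _ hpos).comp_hasFDerivAt z (hasFDerivAt_norm' hz0)
    rw [smul_smul] at h1
    exact h1

theorem Rad.contDiff {h h' : ℝ → ℝ} {a c : ℝ} (H : Rad h h' a c) :
    ContDiff ℝ 1 (fun z : ℂ => h ‖z‖) := by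
  rw [contDiff_one_iff_fderiv]
  refine ⟨fun z => (H.hasFDerivAt z).differentiableAt, ?_⟩
  have h1 : fderiv ℝ (fun z : ℂ => h ‖z‖) = fun z => (h' ‖z‖ * ‖z‖⁻¹) • innerSL ℝ z := by
    ext1 z; exact (H.hasFDerivAt z).fderiv
  rw [h1, continuous_iff_continuousAt]
  intro z
  by_cases hz : ‖z‖ < a
  · have h2 : (fun z : ℂ => (h' ‖z‖ * ‖z‖⁻¹) • innerSL ℝ z) =ᶠ[𝓝 z] fun _ => 0 := by
      have : {w : ℂ | ‖w‖ < a} ∈ 𝓝 z := (isOpen_lt continuous_norm continuous_const).mem_nhds hz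
      filter_upwards [this] with w hw
      rw [H.near' _ hw, zero_mul, zero_smul]
    exact (continuousAt_const).congr h2.symm
  · have hpos : 0 < ‖z‖ := lt_of_lt_of_le H.pos (not_lt.mp hz)
    have c1 : ContinuousAt (fun z : ℂ => h' ‖z‖) z :=
      ContinuousAt.comp (g := h') (f := fun z : ℂ => ‖z‖) (x := z) (H.cont _ hpos)
        continuous_norm.continuousAt
    have c2 : ContinuousAt (fun z : ℂ => ‖z‖⁻¹) z := continuous_norm.continuousAt.inv₀ hpos.ne'
    have hc : Continuous (fun z : ℂ => innerSL ℝ z) := ContinuousLinearMap.continuous (innerSL ℝ)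
    exact (c1.mul c2).smul hc.continuousAt

/-- the trace of the identity of the plane. -/
theorem dv_id (z : ℂ) : dv (fun z : ℂ => z) z = 2 := by
  have h1 : HasFDerivAt (fun z : ℂ => z) (ContinuousLinearMap.id ℝ ℂ) z := hasFDerivAt_id z
  rw [dv_of_hasFDerivAt h1]
  have : ((ContinuousLinearMap.id ℝ ℂ : ℂ →L[ℝ] ℂ) : ℂ →ₗ[ℝ] ℂ) = LinearMap.id := rfl
  rw [this, LinearMap.trace_id]
  simp

theorem dv_mulI (z : ℂ) : dv (fun z : ℂ => Complex.I * z) z = 0 := by
  have h1 : HasFDerivAt (fun z : ℂ => Complex.I * z)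
      (LinearMap.toContinuousLinearMap (LinearMap.mulLeft ℝ Complex.I)) z :=
    (LinearMap.toContinuousLinearMap (LinearMap.mulLeft ℝ Complex.I)).hasFDerivAt
  rw [dv_of_hasFDerivAt h1]
  have h2 : LinearMap.trace ℝ ℂ (LinearMap.mulLeft ℝ Complex.I) = 0 := by
    have := Algebra.trace_complex_apply Complex.I
    rw [Algebra.trace_apply] at this
    rw [Complex.I_re, mul_zero] at this
    exact this
  exact h2

theorem Rad.dv_smul {h h' : ℝ → ℝ} {a c : ℝ} (H : Rad h h' a c) {Y : ℂ → ℂ} {z : ℂ}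
    (hY : DifferentiableAt ℝ Y z) :
    dv (fun z => h ‖z‖ • Y z) z = h ‖z‖ * dv Y z + h' ‖z‖ * ‖z‖⁻¹ * inner ℝ z (Y z) := by
  rw [Helper51.dv_smul (H.hasFDerivAt z) hY]
  simp only [smul_apply, innerSL_apply_apply, smul_eq_mul]

theorem Rad.dv_smul_self {h h' : ℝ → ℝ} {a c : ℝ} (H : Rad h h' a c) (z : ℂ) :
    dv (fun z : ℂ => h ‖z‖ • z) z = 2 * h ‖z‖ + h' ‖z‖ * ‖z‖ := by
  rw [H.dv_smul (Y := fun z => z) differentiableAt_id, dv_id, real_inner_self_eq_norm_sq]
  by_cases hz : z = 0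
  · subst hz; simp; ring
  · have : ‖z‖ ≠ 0 := by simpa using hz
    field_simp

/-- fields of the plane with the weight bound; the support stays off the rim. -/
structure TA' (j : ℕ) (Y : ℂ → ℂ) : Prop where
  cd : ContDiff ℝ 1 Y
  rm : ∃ R < 1, ∀ z, R ≤ ‖z‖ → Y z = 0
  nb : ∀ z, ‖z‖ < 1 → ‖Y z‖ ≤ (1 - ‖z‖) ^ j

/-- fields of the plane with the weight bound; the support also stays off the origin. -/
structure TA (j : ℕ) (Y : ℂ → ℂ) : Prop extends TA' j Y where
  z0 : ∃ a > 0, ∀ z, ‖z‖ ≤ a → Y z = 0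

theorem TA'.cs {j : ℕ} {Y : ℂ → ℂ} (h : TA' j Y) : HasCompactSupport Y := by
  obtain ⟨R, -, hR⟩ := h.rm
  refine HasCompactSupport.intro (isCompact_closedBall 0 R) fun z hz => hR z ?_
  rw [mem_closedBall_zero_iff, not_le] at hz
  exact hz.le

theorem TA'.dv_zero {j : ℕ} {Y : ℂ → ℂ} (h : TA' j Y) {z : ℂ} (hz : 1 ≤ ‖z‖) : dv Y z = 0 := by
  obtain ⟨R, hR1, hR⟩ := h.rm
  have : Y =ᶠ[𝓝 z] fun _ => 0 := by
    have : {w : ℂ | R < ‖w‖} ∈ 𝓝 z :=
      (isOpen_lt continuous_const continuous_norm).mem_nhds (lt_of_lt_of_le hR1 hz)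
    filter_upwards [this] with w hw
    exact hR _ (le_of_lt hw)
  rw [dv_congr this]
  simp [dv]

theorem TA'.neg {j : ℕ} {Y : ℂ → ℂ} (h : TA' j Y) : TA' j (fun z => - Y z) :=
  ⟨h.cd.neg, by
    obtain ⟨R, hR1, hR⟩ := h.rm
    exact ⟨R, hR1, fun z hz => by rw [hR z hz, neg_zero]⟩, fun z hz => by
    rw [norm_neg]; exact h.nb z hz⟩

theorem TA.neg {j : ℕ} {Y : ℂ → ℂ} (h : TA j Y) : TA j (fun z => - Y z) :=
  ⟨h.toTA'.neg, by
    obtain ⟨a, ha, h0⟩ := h.z0
    exact ⟨a, ha, fun z hz => by rw [h0 z hz, neg_zero]⟩⟩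

theorem TA'.zero (j : ℕ) : TA' j (fun _ => 0) :=
  ⟨contDiff_const, ⟨0, one_pos, fun _ _ => rfl⟩, fun z hz => by
    rw [norm_zero]; exact pow_nonneg (by linarith) _⟩

theorem TA.zero (j : ℕ) : TA j (fun _ => 0) := ⟨TA'.zero j, 1, one_pos, fun _ _ => rfl⟩

/-- inner cutoff profile. -/
noncomputable def hin (r δ : ℝ) (t : ℝ) : ℝ := 1 - theta ((t - (r - δ)) / δ)
noncomputable def hin' (r δ : ℝ) (t : ℝ) : ℝ := -(thetad ((t - (r - δ)) / δ) / δ)
/-- outer cutoff profile. -/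
noncomputable def hout (r δ : ℝ) (t : ℝ) : ℝ := theta ((t - r) / δ)
noncomputable def hout' (r δ : ℝ) (t : ℝ) : ℝ := thetad ((t - r) / δ) / δ

theorem rad_hin {r δ : ℝ} (hδ : 0 < δ) (hr : δ < r) : Rad (hin r δ) (hin' r δ) (r - δ) 1 where
  pos := by linarith
  near := fun t ht => by
    unfold hin; rw [theta_of_nonpos, sub_zero]
    exact div_nonpos_of_nonpos_of_nonneg (by linarith) hδ.le
  near' := fun t ht => by
    unfold hin'; rw [thetad_of_nonpos, zero_div, neg_zero]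
    exact div_nonpos_of_nonpos_of_nonneg (by linarith) hδ.le
  der := fun t _ => by
    unfold hin hin'
    have h1 : HasDerivAt (fun t : ℝ => (t - (r - δ)) / δ) (1 / δ) t :=
      ((hasDerivAt_id t).sub_const _).div_const δ
    have h2 := ((hasDerivAt_theta ((t - (r - δ)) / δ)).comp t h1).const_sub 1
    rw [mul_one_div] at h2
    exact h2
  cont := fun t _ => by
    unfold hin'
    have := continuous_thetad
    fun_prop

theorem rad_hout {r δ : ℝ} (hδ : 0 < δ) (hr : 0 < r) : Rad (hout r δ) (hout' r δ) r 0 where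
  pos := hr
  near := fun t ht => by
    unfold hout; rw [theta_of_nonpos]
    exact div_nonpos_of_nonpos_of_nonneg (by linarith) hδ.le
  near' := fun t ht => by
    unfold hout'; rw [thetad_of_nonpos, zero_div]
    exact div_nonpos_of_nonpos_of_nonneg (by linarith) hδ.le
  der := fun t _ => by
    unfold hout hout'
    have h1 : HasDerivAt (fun t : ℝ => (t - r) / δ) (1 / δ) t :=
      ((hasDerivAt_id t).sub_const _).div_const δ
    have h2 := ((hasDerivAt_theta ((t - r) / δ)).comp t h1)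
    rw [mul_one_div] at h2
    exact h2
  cont := fun t _ => by
    unfold hout'
    have := continuous_thetad
    fun_prop

theorem continuous_hin (r δ : ℝ) : Continuous (hin r δ) := by
  unfold hin
  have := contDiff_theta.continuous
  fun_prop
theorem continuous_hout (r δ : ℝ) : Continuous (hout r δ) := by
  unfold hout
  have := contDiff_theta.continuous
  fun_prop
theorem measurable_hin (r δ : ℝ) : Measurable (hin r δ) := (continuous_hin r δ).measurable
theorem measurable_hout (r δ : ℝ) : Measurable (hout r δ) := (continuous_hout r δ).measurable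

theorem hin_nonneg (r δ t : ℝ) : 0 ≤ hin r δ t := by
  unfold hin; linarith [theta_le_one ((t - (r - δ)) / δ)]
theorem hin_le_one (r δ t : ℝ) : hin r δ t ≤ 1 := by
  unfold hin; linarith [theta_nonneg ((t - (r - δ)) / δ)]
theorem hout_nonneg (r δ t : ℝ) : 0 ≤ hout r δ t := theta_nonneg _
theorem hout_le_one (r δ t : ℝ) : hout r δ t ≤ 1 := theta_le_one _

theorem hin_eq_zero {r δ t : ℝ} (hδ : 0 < δ) (h : r ≤ t) : hin r δ t = 0 := by
  unfold hin; rw [theta_of_one_le, sub_self]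
  rw [le_div_iff₀ hδ]; linarith
theorem hin_eq_one {r δ t : ℝ} (hδ : 0 < δ) (h : t ≤ r - δ) : hin r δ t = 1 := by
  unfold hin; rw [theta_of_nonpos, sub_zero]
  exact div_nonpos_of_nonpos_of_nonneg (by linarith) hδ.le
theorem hout_eq_zero {r δ t : ℝ} (hδ : 0 < δ) (h : t ≤ r) : hout r δ t = 0 := by
  unfold hout; rw [theta_of_nonpos]
  exact div_nonpos_of_nonpos_of_nonneg (by linarith) hδ.le
theorem hout_eq_one {r δ t : ℝ} (hδ : 0 < δ) (h : r + δ ≤ t) : hout r δ t = 1 := by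
  unfold hout; rw [theta_of_one_le]
  rw [le_div_iff₀ hδ]; linarith

theorem hin'_eq_zero {r δ t : ℝ} (hδ : 0 < δ) (h : t ≤ r - δ ∨ r ≤ t) : hin' r δ t = 0 := by
  unfold hin'
  rcases h with h | h
  · rw [thetad_of_nonpos, zero_div, neg_zero]
    exact div_nonpos_of_nonpos_of_nonneg (by linarith) hδ.le
  · rw [thetad_of_one_le, zero_div, neg_zero]
    rw [le_div_iff₀ hδ]; linarith
theorem hout'_eq_zero {r δ t : ℝ} (hδ : 0 < δ) (h : t ≤ r ∨ r + δ ≤ t) : hout' r δ t = 0 := by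
  unfold hout'
  rcases h with h | h
  · rw [thetad_of_nonpos, zero_div]
    exact div_nonpos_of_nonpos_of_nonneg (by linarith) hδ.le
  · rw [thetad_of_one_le, zero_div]
    rw [le_div_iff₀ hδ]; linarith

theorem abs_hin'_le {r δ : ℝ} (hδ : 0 < δ) (t : ℝ) : |hin' r δ t| ≤ 2 / δ := by
  unfold hin'
  rw [abs_neg, abs_of_nonneg (div_nonneg (thetad_nonneg _) hδ.le)]
  exact div_le_div_of_nonneg_right (thetad_le _) hδ.le
theorem abs_hout'_le {r δ : ℝ} (hδ : 0 < δ) (t : ℝ) : |hout' r δ t| ≤ 2 / δ := by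
  unfold hout'
  rw [abs_of_nonneg (div_nonneg (thetad_nonneg _) hδ.le)]
  exact div_le_div_of_nonneg_right (thetad_le _) hδ.le
theorem hin'_nonpos {r δ : ℝ} (hδ : 0 < δ) (t : ℝ) : hin' r δ t ≤ 0 := by
  unfold hin'
  have := div_nonneg (thetad_nonneg ((t - (r - δ)) / δ)) hδ.le
  linarith
theorem hout'_nonneg {r δ : ℝ} (hδ : 0 < δ) (t : ℝ) : 0 ≤ hout' r δ t := by
  unfold hout'
  exact div_nonneg (thetad_nonneg _) hδ.le

end Pool.Agent.Helper51
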