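import Pool.Agent.Helper51.Plane9

set_option autoImplicit false
set_option linter.unusedSectionVars false

open MeasureTheory Set Filter Topology Metric
open scoped ENNReal NNReal Pointwise Convolution

namespace Pool.Agent.Helper51

/-- the numerical input for a first bad radius `r₁` and upper end `r₂`. -/
def NumB (j : ℕ) (r₁ r₂ : ℝ) : Prop :=
  ∃ ra lam w b e : ℝ, 0 < ra ∧ ra < r₁ ∧ ra < 1 ∧ 0 ≤ lam ∧ 0 < w ∧ 0 < e ∧ e < b ∧ b < 1 ∧
    (lam = 0 ∨ r₂ ≤ b - e) ∧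
    (∀ r, 0 < r → r < b → lam * mm j r ≤ r * (1 - r) ^ j) ∧
    (∀ r, 0 < r → r < ra →
      (lam * mm j r) ^ 2 + (w * (r * (1 - r) ^ j)) ^ 2 ≤ (r * (1 - r) ^ j) ^ 2) ∧
    (∀ t, 0 < t → t < 1 → Tm j t ≤ Tm j 0 / 2 → Tm j t ≤ mm j r₂ →
      t * (1 - t) ^ j < lam * Tm j t + w / Real.pi * ∫ r in (0:ℝ)..ra, (1 - r) ^ j)

theorem mm_mono (j : ℕ) {r s : ℝ} (hr : 0 ≤ r) (hrs : r ≤ s) (hs : s ≤ 1) : mm j r ≤ mm j s := by
  have h1 : mm j s - mm j r = ∫ x in r..s, x * (1 - x) ^ j := by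
    have h := intervalIntegral.integral_eq_sub_of_hasDerivAt (a := r) (b := s)
      (f := mm j) (f' := fun s => s * (1 - s) ^ j)
      (fun x _ => hasDerivAt_mm j x)
      (Continuous.intervalIntegrable (by fun_prop) _ _)
    exact h.symm
  have h2 : 0 ≤ ∫ x in r..s, x * (1 - x) ^ j :=
    intervalIntegral.integral_nonneg hrs fun x hx =>
      mul_nonneg (by linarith [hx.1]) (pow_nonneg (by linarith [hx.2]) _)
  linarith

theorem NT_compl {D : Set ℂ} {r : ℝ} (hr : 0 < r) (hr1 : r < 1) (h : NT D r) :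
    NT (ball 0 1 \ D) r := by
  have hset : {θ : ℝ | cr r θ ∈ ball (0:ℂ) 1 \ D} = {θ : ℝ | cr r θ ∈ D}ᶜ := by
    ext θ
    constructor
    · intro h; exact h.2
    · intro h; exact ⟨by rw [mem_ball_zero_iff, norm_cr hr.le]; exact hr1, h⟩
  unfold NT
  rw [hset]
  constructor
  · rw [← Set.sdiff_eq]; exact h.2
  · rw [Set.sdiff_eq, compl_compl]; exact h.1

theorem plane_main {j : ℕ} (hj : 2 ≤ j) (num1 : NumB j 1 1)
    (num2 : ∀ r₁, 0 < r₁ → r₁ < 1 → ∃ r₂, r₁ < r₂ ∧ r₂ ≤ 1 ∧ NumB j r₁ r₂)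
    (num3 : ∀ s, 0 < s → s < 1 → Tm j s ≤ Tm j 0 / 2 → 1 ≤ ((j:ℝ) + 1) * s)
    {D : Set ℂ} (hD : MeasurableSet D) (hD1 : D ⊆ ball 0 1)
    (hmass : ∫ z in D, (1 - ‖z‖) ^ j = Real.pi * Tm j 0) {P : ℝ}
    (hP : ∀ Y, TA j Y → ∫ z in D, dv Y z ≤ P)
    {re : ℝ} (hre : 0 < re) (hnt : ∀ᵐ r, 0 < r → r < re → NT D r) :
    ∃ D' : Set ℂ, MeasurableSet D' ∧ D' ⊆ ball 0 1 ∧
      ∫ z in D', (1 - ‖z‖) ^ j = Real.pi * Tm j 0 ∧
      ∃ q < P, ∀ X, TA' j X → ∫ z in D', dv X z ≤ q := by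
  have hπ := Real.pi_pos
  set G₀ : Set ℂ := ball 0 1 \ D with hG₀
  have hG₀m : MeasurableSet G₀ := measurableSet_ball.diff hD
  have hG₀1 : G₀ ⊆ ball 0 1 := sdiff_subset
  have hG₀mass : ∫ z in G₀, (1 - ‖z‖) ^ j = Real.pi * Tm j 0 := by
    have h5 : (∫ z in ball (0:ℂ) 1 ∩ D, (1 - ‖z‖) ^ j)
        + ∫ z in ball (0:ℂ) 1 \ D, (1 - ‖z‖) ^ j
        = ∫ z in ball (0:ℂ) 1, (1 - ‖z‖) ^ j :=
      integral_inter_add_sdiff hD (integrableOn_weight j (subset_refl _))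
    rw [inter_eq_right.mpr hD1, mass_ball j zero_le_one, mm, Tm_one, sub_zero, hmass] at h5
    rw [hG₀]
    linarith
  have hG₀P : ∀ Y, TA j Y → - ∫ z in G₀, dv Y z ≤ P := by
    intro Y hY
    have h1 := setIntegral_dv_eq_neg volume hY.cd hY.cs hD hD1 (fun z hz => hY.dv_zero (by
        rwa [mem_ball_zero_iff, not_lt] at hz))
    rw [← h1]
    exact hP Y hY
  have hDP : ∀ Y, TA j Y → - ∫ z in D, dv Y z ≤ P := by
    intro Y hY
    have h1 := hP _ hY.neg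
    simp_rw [dv_neg] at h1
    rwa [integral_neg] at h1
  -- the first bad radius
  set S : Set ℝ := {r | 0 ≤ r ∧ r ≤ 1 ∧ ∀ᵐ x, 0 < x → x < r → NT D x} with hS
  have hS0 : min re 1 ∈ S := by
    refine ⟨(lt_min hre one_pos).le, min_le_right _ _, ?_⟩
    filter_upwards [hnt] with x hx h0 h1
    exact hx h0 (h1.trans_le (min_le_left _ _))
  have hSb : BddAbove S := ⟨1, fun r hr => hr.2.1⟩
  set r₁ := sSup S with hr₁
  have hr₁pos : 0 < r₁ := (lt_min hre one_pos).trans_le (le_csSup hSb hS0)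
  have hr₁le : r₁ ≤ 1 := csSup_le ⟨_, hS0⟩ fun r hr => hr.2.1
  rcases hr₁le.eq_or_lt with hr1 | hr1
  · -- no bad radius
    obtain ⟨ra, lam, w, b, e, hra, hra1, hra2, hlam, hw, he, heb, hb, h1, h2, h3, h4⟩ := num1
    obtain ⟨r, hr, hrr⟩ := exists_lt_of_lt_csSup ⟨_, hS0⟩ (show ra < sSup S by
      rw [← hr₁, hr1]; exact hra1)
    refine core hj hG₀m hG₀1 hG₀mass one_pos le_rfl ?_ hra hra2 hra2.le ?_ hlam hw he heb hb h1
      h2 h3 h4 num3
    · intro Ya Yb ha _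
      have e1 : G₀ ∩ ball 0 1 = G₀ := inter_eq_left.mpr hG₀1
      have e2 : G₀ \ ball 0 1 = ∅ := sdiff_eq_empty.mpr hG₀1
      rw [e1, e2]
      simpa using hG₀P Ya ha
    · filter_upwards [hr.2.2] with x hx h0 h1'
      exact NT_compl h0 (h1'.trans hra2) (hx h0 (h1'.trans hrr))
  · obtain ⟨r₂, hr12, hr21, ra, lam, w, b, e, hra, hra1, hra2, hlam, hw, he, heb, hb, h1, h2, h3, h4⟩ :=
      num2 r₁ hr₁pos hr1
    obtain ⟨r, hr, hrr⟩ := exists_lt_of_lt_csSup ⟨_, hS0⟩ (show ra < sSup S from hra1)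
    have hr2S : r₂ ∉ S := fun h => not_lt.mpr (le_csSup hSb h) hr12
    have hbad : ¬ ∀ᵐ x, 0 < x → x < r₂ → NT D x := fun h =>
      hr2S ⟨(hr₁pos.trans hr12).le, hr21, h⟩
    have hae1 := _root_.LocallyIntegrable.ae_hasDerivAt_integral (locallyIntegrable_ang hD)
    have hae2 := _root_.LocallyIntegrable.ae_hasDerivAt_integral (locallyIntegrable_ang hG₀m)
    obtain ⟨r', hr', hgood⟩ :=
      ((Filter.not_eventually.mp hbad).and_eventually ((hae1.and hae2).and hr.2.2)).exists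
    push Not at hr'
    obtain ⟨hr'0, hr'2, hr'N⟩ := hr'
    have hr'ra : ra ≤ r' := by
      by_contra hcon
      push Not at hcon
      exact hr'N (hgood.2 hr'0 (hcon.trans hrr))
    have hr'1 : r' < 1 := hr'2.trans_le hr21
    have hbm : Tm j 0 / 2 = Tm j 0 / 2 := rfl
    have h1' : lam = 0 ∨ r' ≤ b - e := by
      rcases h1 with h | h
      · exact Or.inl h
      · exact Or.inr (hr'2.le.trans h)
    have h4' : ∀ t, 0 < t → t < 1 → Tm j t ≤ Tm j 0 / 2 → Tm j t ≤ mm j r' →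
      t * (1 - t) ^ j < lam * Tm j t + w / Real.pi * ∫ r in (0:ℝ)..ra, (1 - r) ^ j :=
      fun t a1 a2 a3 a4 => h4 t a1 a2 a3 (a4.trans (mm_mono j hr'0.le hr'2.le hr21))
    have hntD : ∀ᵐ x, 0 < x → x < ra → NT D x := by
      filter_upwards [hr.2.2] with x hx h0 h1'
      exact hx h0 (h1'.trans hrr)
    unfold NT at hr'N
    rw [not_and_or, not_lt, not_lt, nonpos_iff_eq_zero, nonpos_iff_eq_zero] at hr'N
    rcases hr'N with hN | hN
    · -- the circle misses `D`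
      have hz : ang D r' = 0 := by unfold ang; rw [Measure.real, hN]; rfl
      have hnull : NullTrace D r' := nullTrace_of hD hr'1.le (hgood.1.1 0) hz
      exact core hj hD hD1 hmass hr'0 hr'1.le
        (fun Ya Yb ha hb' => lemma_G hD1 hDP hr'0 hnull ha hb') hra hra2 hr'ra hntD hlam hw
        he heb hb h1' h2 h3 h4' num3
    · -- the circle lies in `D`
      have hz : ang G₀ r' = 0 := by
        have hset : Ioo (-Real.pi) Real.pi ∩ {θ : ℝ | cr r' θ ∈ G₀}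
            = Ioo (-Real.pi) Real.pi \ {θ : ℝ | cr r' θ ∈ D} := by
          ext θ
          constructor
          · intro h; exact ⟨h.1, h.2.2⟩
          · intro h
            refine ⟨h.1, ?_, h.2⟩
            rw [mem_ball_zero_iff, norm_cr hr'0.le]; exact hr'1
        unfold ang; rw [hset, Measure.real, hN]; rfl
      have hnull : NullTrace G₀ r' := nullTrace_of hG₀m hr'1.le (hgood.1.2 0) hz
      refine core hj hG₀m hG₀1 hG₀mass hr'0 hr'1.le
        (fun Ya Yb ha hb' => lemma_G hG₀1 hG₀P hr'0 hnull ha hb') hra hra2 hr'ra ?_ hlam hw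
        he heb hb h1' h2 h3 h4' num3
      filter_upwards [hntD] with x hx h0 h1'
      exact NT_compl h0 (h1'.trans hra2) (hx h0 h1')

/-- a disc as competitor. -/
theorem disc_bound {j : ℕ} (hj : 2 ≤ j)
    (num3 : ∀ s, 0 < s → s < 1 → Tm j s ≤ Tm j 0 / 2 → 1 ≤ ((j:ℝ) + 1) * s) :
    ∃ D' : Set ℂ, MeasurableSet D' ∧ D' ⊆ ball 0 1 ∧
      ∫ z in D', (1 - ‖z‖) ^ j = Real.pi * Tm j 0 ∧
      ∃ q : ℝ, ∀ X, TA' j X → ∫ z in D', dv X z ≤ q := by
  have hT0 := Tm_zero_pos j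
  have hmem : Tm j 0 / 2 ∈ Icc (Tm j 1) (Tm j 0) := by
    rw [Tm_one]; constructor <;> linarith
  obtain ⟨s, ⟨hs0, hs1⟩, hs⟩ := intermediate_value_Icc' zero_le_one
    (continuous_Tm j).continuousOn hmem
  have hs0' : 0 < s := by
    rcases hs0.eq_or_lt with h | h
    · rw [← h] at hs; linarith
    · exact h
  have hs1' : s < 1 := by
    rcases hs1.eq_or_lt with h | h
    · rw [h, Tm_one] at hs; linarith
    · exact h
  refine ⟨ball 0 s, measurableSet_ball, ball_subset_ball hs1, ?_,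
    0 + ∫ z in ball (0:ℂ) 1 \ ball 0 s, kr j ‖z‖, ?_⟩
  · rw [mass_ball j hs0, mm, hs]; ring
  · intro X hX
    have h := lemma_F hj measurableSet_ball (subset_refl (ball (0:ℂ) 1)) (P₁ := 0) ?_ hs0' hs1'
      (num3 s hs0' hs1' hs.le) hX
    · rwa [inter_eq_right.mpr (ball_subset_ball hs1)] at h
    · intro Y hY
      have h1 := setIntegral_dv_eq_neg volume hY.cd hY.cs measurableSet_ball
        (subset_refl (ball (0:ℂ) 1)) (fun z hz => hY.dv_zero (by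
        rwa [mem_ball_zero_iff, not_lt] at hz))
      rw [h1]; simp

end Pool.Agent.Helper51
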