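import Pool.Agent.Helper51.Plane1

set_option autoImplicit false
set_option linter.unusedSectionVars false

open MeasureTheory Set Filter Topology Metric
open scoped ENNReal NNReal Pointwise Convolution

namespace Pool.Agent.Helper51

theorem Rad.cross_bound {h h' : ℝ → ℝ} {a c : ℝ} (_H : Rad h h' a c) (Y : ℂ → ℂ) (z : ℂ) :
    |h' ‖z‖ * ‖z‖⁻¹ * inner ℝ z (Y z)| ≤ |h' ‖z‖| * ‖Y z‖ := by
  rw [abs_mul, abs_mul, abs_inv, abs_norm]
  by_cases hz : z = 0
  · subst hz; simp; positivity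
  · have hpos : 0 < ‖z‖ := norm_pos_iff.mpr hz
    have h1 := abs_real_inner_le_norm z (Y z)
    calc |h' ‖z‖| * ‖z‖⁻¹ * |inner ℝ z (Y z)| ≤ |h' ‖z‖| * ‖z‖⁻¹ * (‖z‖ * ‖Y z‖) := by
          gcongr
      _ = |h' ‖z‖| * ‖Y z‖ := by field_simp

theorem hcs_smul (f : ℂ → ℝ) {Y : ℂ → ℂ} (hc : HasCompactSupport Y) :
    HasCompactSupport (fun z => f z • Y z) := by
  refine HasCompactSupport.intro hc.isCompact fun z hz => ?_
  rw [image_eq_zero_of_notMem_tsupport hz, smul_zero]

theorem tendsto_cut_integral {g : ℂ → ℝ} (hg : Integrable g (volume : Measure ℂ)) (G : Set ℂ)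
    {h : ℕ → ℝ → ℝ} (hm : ∀ k, Measurable (h k)) (h0 : ∀ k t, 0 ≤ h k t) (h1 : ∀ k t, h k t ≤ 1)
    {r : ℝ} {S : Set ℂ} (hS : MeasurableSet S)
    (hlim : ∀ z : ℂ, ‖z‖ ≠ r → Tendsto (fun k => h k ‖z‖) atTop
      (𝓝 (S.indicator (fun _ => (1:ℝ)) z))) :
    Tendsto (fun k => ∫ z in G, h k ‖z‖ * g z) atTop (𝓝 (∫ z in G ∩ S, g z)) := by
  rw [← setIntegral_indicator hS]
  refine tendsto_integral_of_dominated_convergence (fun z => |g z|) ?_ ?_ ?_ ?_
  · intro k
    exact (((hm k).comp measurable_norm).aestronglyMeasurable.mul hg.aestronglyMeasurable).restrict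
  · exact hg.abs.integrableOn
  · intro k
    refine Filter.Eventually.of_forall fun z => ?_
    rw [norm_mul, Real.norm_eq_abs, Real.norm_eq_abs, abs_of_nonneg (h0 k _)]
    exact mul_le_of_le_one_left (abs_nonneg _) (h1 k _)
  · have hsph : (volume : Measure ℂ) (sphere (0:ℂ) r) = 0 := Measure.addHaar_sphere _ _ _
    have : ∀ᵐ z ∂(volume : Measure ℂ), ‖z‖ ≠ r := by
      rw [ae_iff]
      convert hsph using 2
      ext z; simp
    filter_upwards [ae_restrict_of_ae this] with z hz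
    have h2 := (hlim z hz).mul_const (g z)
    convert h2 using 2
    by_cases hzS : z ∈ S
    · rw [indicator_of_mem hzS, indicator_of_mem hzS, one_mul]
    · rw [indicator_of_notMem hzS, indicator_of_notMem hzS, zero_mul]

theorem cut_limit {Y : ℂ → ℂ} (hY : ContDiff ℝ 1 Y) (hc : HasCompactSupport Y) {G : Set ℂ}
    {h h' : ℕ → ℝ → ℝ} {a c : ℕ → ℝ} (H : ∀ k, Rad (h k) (h' k) (a k) (c k))
    (hm : ∀ k, Measurable (h k)) (h0 : ∀ k t, 0 ≤ h k t) (h1 : ∀ k t, h k t ≤ 1)
    {δ : ℕ → ℝ} (hδ : ∀ k, 0 < δ k) {r : ℝ}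
    (hb : ∀ k t, |h' k t| ≤ 2 / δ k) (hs : ∀ k t, δ k < |t - r| → h' k t = 0)
    (hfin : ∀ k, volume (G ∩ {z : ℂ | |‖z‖ - r| ≤ δ k}) ≠ ∞)
    (hann : Tendsto (fun k => volume.real (G ∩ {z : ℂ | |‖z‖ - r| ≤ δ k}) / δ k) atTop (𝓝 0))
    {S : Set ℂ} (hS : MeasurableSet S)
    (hlim : ∀ z : ℂ, ‖z‖ ≠ r → Tendsto (fun k => h k ‖z‖) atTop
      (𝓝 (S.indicator (fun _ => (1:ℝ)) z))) :
    Tendsto (fun k => ∫ z in G, dv (fun z => h k ‖z‖ • Y z) z) atTop
      (𝓝 (∫ z in G ∩ S, dv Y z)) := by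
  have hYd : ∀ z, DifferentiableAt ℝ Y z := fun z => hY.differentiable one_ne_zero z
  obtain ⟨C, hC⟩ := hc.exists_bound_of_continuous hY.continuous
  have hC0 : 0 ≤ C := (norm_nonneg _).trans (hC 0)
  have idv : Integrable (dv Y) (volume : Measure ℂ) := integrable_dv _ hY hc
  have hfc : ∀ k, Continuous (fun z : ℂ => h k ‖z‖) := fun k => (H k).contDiff.continuous
  have i1 : ∀ k, Integrable (fun z : ℂ => h k ‖z‖ * dv Y z) (volume : Measure ℂ) := fun k =>
    ((hfc k).mul (continuous_dv hY)).integrable_of_hasCompactSupport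
      ((hasCompactSupport_dv hc).mul_left)
  have hYk : ∀ k, ContDiff ℝ 1 (fun z : ℂ => h k ‖z‖ • Y z) := fun k => (H k).contDiff.smul hY
  have hYc : ∀ k, HasCompactSupport (fun z : ℂ => h k ‖z‖ • Y z) := fun k =>
    hcs_smul (fun z => h k ‖z‖) hc
  have i2 : ∀ k, Integrable (dv (fun z : ℂ => h k ‖z‖ • Y z)) (volume : Measure ℂ) := fun k =>
    integrable_dv _ (hYk k) (hYc k)
  have e : ∀ k, ∫ z in G, dv (fun z => h k ‖z‖ • Y z) z
      = (∫ z in G, h k ‖z‖ * dv Y z)
        + ∫ z in G, (dv (fun z => h k ‖z‖ • Y z) z - h k ‖z‖ * dv Y z) := by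
    intro k
    rw [integral_sub (i2 k).integrableOn (i1 k).integrableOn]
    ring
  have t1 : Tendsto (fun k => ∫ z in G, h k ‖z‖ * dv Y z) atTop (𝓝 (∫ z in G ∩ S, dv Y z)) :=
    tendsto_cut_integral idv G hm h0 h1 hS hlim
  have t2 : Tendsto (fun k => ∫ z in G, (dv (fun z => h k ‖z‖ • Y z) z - h k ‖z‖ * dv Y z))
      atTop (𝓝 0) := by
    refine squeeze_zero_norm (a := fun k => 2 * C *
      (volume.real (G ∩ {z : ℂ | |‖z‖ - r| ≤ δ k}) / δ k)) ?_ ?_
    · intro k
      have hAm : MeasurableSet {z : ℂ | |‖z‖ - r| ≤ δ k} :=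
        (isClosed_le (by fun_prop) continuous_const).measurableSet
      have hpt : ∀ z : ℂ, dv (fun z => h k ‖z‖ • Y z) z - h k ‖z‖ * dv Y z
          = h' k ‖z‖ * ‖z‖⁻¹ * inner ℝ z (Y z) := fun z => by
        rw [(H k).dv_smul (hYd z)]; ring
      have e2 : ∫ z in G, (dv (fun z => h k ‖z‖ • Y z) z - h k ‖z‖ * dv Y z)
          = ∫ z in G ∩ {z : ℂ | |‖z‖ - r| ≤ δ k},
            (dv (fun z => h k ‖z‖ • Y z) z - h k ‖z‖ * dv Y z) := by
        rw [← setIntegral_indicator hAm]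
        congr 1
        ext z
        by_cases hz : |‖z‖ - r| ≤ δ k
        · rw [indicator_of_mem (show z ∈ {z : ℂ | |‖z‖ - r| ≤ δ k} from hz)]
        · rw [indicator_of_notMem (show z ∉ {z : ℂ | |‖z‖ - r| ≤ δ k} from hz), hpt,
            hs k _ (not_le.mp hz)]
          ring
      rw [e2]
      have := norm_setIntegral_le_of_norm_le_const (μ := (volume : Measure ℂ))
        (s := G ∩ {z : ℂ | |‖z‖ - r| ≤ δ k}) (C := 2 / δ k * C)
        (f := fun z => (dv (fun z => h k ‖z‖ • Y z) z - h k ‖z‖ * dv Y z))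
        (hfin k).lt_top (fun z _ => by
          rw [hpt, Real.norm_eq_abs]
          refine ((H k).cross_bound Y z).trans ?_
          exact mul_le_mul (hb k _) (hC z) (norm_nonneg _) (div_nonneg zero_le_two (hδ k).le))
      refine this.trans (le_of_eq ?_)
      ring
    · simpa using hann.const_mul (2 * C)
  simp_rw [e]
  simpa using t1.add t2

/-- the trace of `G` on the circle of radius `r` vanishes. -/
def NullTrace (G : Set ℂ) (r : ℝ) : Prop :=
  Tendsto (fun δ : ℝ => volume.real (G ∩ {z : ℂ | |‖z‖ - r| ≤ δ}) / δ) (𝓝[>] 0) (𝓝 0)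

theorem lemma_G {j : ℕ} {G : Set ℂ} (hG1 : G ⊆ ball 0 1) {P : ℝ}
    (hP : ∀ Y, TA j Y → - ∫ z in G, dv Y z ≤ P) {r : ℝ} (hr : 0 < r)
    (hnull : NullTrace G r) {Ya Yb : ℂ → ℂ} (ha : TA j Ya) (hb : TA' j Yb) :
    - (∫ z in G ∩ ball 0 r, dv Ya z) - ∫ z in G \ ball 0 r, dv Yb z ≤ P := by
  set δ : ℕ → ℝ := fun k => r / 2 * (1 / ((k:ℝ) + 1)) with hδ
  have hδpos : ∀ k, 0 < δ k := fun k => by simp only [hδ]; positivity
  have hδr : ∀ k, δ k < r := fun k => by
    have : (1:ℝ) / (k + 1) ≤ 1 := by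
      rw [div_le_one (by positivity)]; linarith [k.cast_nonneg (α := ℝ)]
    simp only [hδ]
    nlinarith
  have hδ0 : Tendsto δ atTop (𝓝 0) := by
    have := (tendsto_one_div_add_atTop_nhds_zero_nat (𝕜 := ℝ)).const_mul (r / 2)
    rw [mul_zero] at this
    exact this
  have hδ0' : Tendsto δ atTop (𝓝[>] 0) :=
    tendsto_nhdsWithin_iff.mpr ⟨hδ0, Filter.Eventually.of_forall hδpos⟩
  have hann := hnull.comp hδ0'
  have hGf : volume G ≠ ∞ := ((measure_mono hG1).trans_lt measure_ball_lt_top).ne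
  have hfin : ∀ k, volume (G ∩ {z : ℂ | |‖z‖ - r| ≤ δ k}) ≠ ∞ := fun k =>
    ((measure_mono inter_subset_left).trans_lt hGf.lt_top).ne
  have ta := cut_limit ha.cd ha.cs (h := fun k => hin r (δ k)) (h' := fun k => hin' r (δ k))
    (fun k => rad_hin (hδpos k) (hδr k)) (fun k => measurable_hin _ _) (fun k t => hin_nonneg _ _ _)
    (fun k t => hin_le_one _ _ _) hδpos (r := r) (fun k t => abs_hin'_le (hδpos k) t)
    (fun k t ht => hin'_eq_zero (hδpos k) (by
      rcases lt_abs.mp ht with h | h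
      · right; linarith [hδpos k]
      · left; linarith)) hfin hann (S := ball 0 r) measurableSet_ball (fun z hz => by
      rcases lt_or_gt_of_ne hz with h | h
      · have hz' : z ∈ ball (0:ℂ) r := mem_ball_zero_iff.mpr h
        rw [indicator_of_mem hz']
        refine tendsto_const_nhds.congr' ?_
        have : ∀ᶠ k in atTop, δ k < r - ‖z‖ :=
          (tendsto_order.1 hδ0).2 _ (by linarith)
        filter_upwards [this] with k hk
        rw [hin_eq_one (hδpos k) (by linarith)]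
      · have hz' : z ∉ ball (0:ℂ) r := by rw [mem_ball_zero_iff, not_lt]; exact h.le
        rw [indicator_of_notMem hz']
        refine tendsto_const_nhds.congr fun k => ?_
        rw [hin_eq_zero (hδpos k) h.le])
  have tb := cut_limit hb.cd hb.cs (h := fun k => hout r (δ k)) (h' := fun k => hout' r (δ k))
    (fun k => rad_hout (hδpos k) hr) (fun k => measurable_hout _ _) (fun k t => hout_nonneg _ _ _)
    (fun k t => hout_le_one _ _ _) hδpos (r := r) (fun k t => abs_hout'_le (hδpos k) t)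
    (fun k t ht => hout'_eq_zero (hδpos k) (by
      rcases lt_abs.mp ht with h | h
      · right; linarith [hδpos k]
      · left; linarith [hδpos k])) hfin hann (S := (ball 0 r)ᶜ) measurableSet_ball.compl (fun z hz => by
      rcases lt_or_gt_of_ne hz with h | h
      · have hz' : z ∉ (ball (0:ℂ) r)ᶜ := fun h' => h' (mem_ball_zero_iff.mpr h)
        rw [indicator_of_notMem hz']
        refine tendsto_const_nhds.congr fun k => ?_
        rw [hout_eq_zero (hδpos k) h.le]
      · have hz' : z ∈ (ball (0:ℂ) r)ᶜ := by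
          rw [mem_compl_iff, mem_ball_zero_iff, not_lt]; exact h.le
        rw [indicator_of_mem hz']
        refine tendsto_const_nhds.congr' ?_
        have : ∀ᶠ k in atTop, δ k < ‖z‖ - r :=
          (tendsto_order.1 hδ0).2 _ (by linarith)
        filter_upwards [this] with k hk
        rw [hout_eq_one (hδpos k) (by linarith)])
  have hmain : ∀ k, - (∫ z in G, dv (fun z => hin r (δ k) ‖z‖ • Ya z) z)
      - (∫ z in G, dv (fun z => hout r (δ k) ‖z‖ • Yb z) z) ≤ P := by
    intro k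
    have ra := rad_hin (hδpos k) (hδr k)
    have rb := rad_hout (hδpos k) hr
    have ca : ContDiff ℝ 1 (fun z => hin r (δ k) ‖z‖ • Ya z) := ra.contDiff.smul ha.cd
    have cb : ContDiff ℝ 1 (fun z => hout r (δ k) ‖z‖ • Yb z) := rb.contDiff.smul hb.cd
    have hY : TA j (fun z => hin r (δ k) ‖z‖ • Ya z + hout r (δ k) ‖z‖ • Yb z) := by
      refine ⟨⟨ca.add cb, ?_, ?_⟩, ?_⟩
      · obtain ⟨R1, h1, h1'⟩ := ha.rm
        obtain ⟨R2, h2, h2'⟩ := hb.rm
        refine ⟨max R1 R2, max_lt h1 h2, fun z hz => ?_⟩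
        rw [h1' z ((le_max_left _ _).trans hz), h2' z ((le_max_right _ _).trans hz)]
        simp
      · intro z hz
        rcases le_total ‖z‖ r with h | h
        · rw [hout_eq_zero (hδpos k) h, zero_smul, add_zero, norm_smul, Real.norm_eq_abs,
            abs_of_nonneg (hin_nonneg _ _ _)]
          exact (mul_le_of_le_one_left (norm_nonneg _) (hin_le_one _ _ _)).trans (ha.nb z hz)
        · rw [hin_eq_zero (hδpos k) h, zero_smul, zero_add, norm_smul, Real.norm_eq_abs,
            abs_of_nonneg (hout_nonneg _ _ _)]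
          exact (mul_le_of_le_one_left (norm_nonneg _) (hout_le_one _ _ _)).trans (hb.nb z hz)
      · obtain ⟨b, hb0, hb'⟩ := ha.z0
        refine ⟨min b r, lt_min hb0 hr, fun z hz => ?_⟩
        rw [hb' z (hz.trans (min_le_left _ _)), hout_eq_zero (hδpos k) (hz.trans (min_le_right _ _))]
        simp
    have h3 := hP _ hY
    have h4 : ∫ z in G, dv (fun z => hin r (δ k) ‖z‖ • Ya z + hout r (δ k) ‖z‖ • Yb z) z
        = (∫ z in G, dv (fun z => hin r (δ k) ‖z‖ • Ya z) z)
          + ∫ z in G, dv (fun z => hout r (δ k) ‖z‖ • Yb z) z := by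
      rw [← integral_add]
      · refine integral_congr_ae (Filter.Eventually.of_forall fun z => ?_)
        exact dv_add (ca.differentiable one_ne_zero z) (cb.differentiable one_ne_zero z)
      · exact (integrable_dv _ ca (hcs_smul (fun z => hin r (δ k) ‖z‖) ha.cs)).integrableOn
      · exact (integrable_dv _ cb (hcs_smul (fun z => hout r (δ k) ‖z‖) hb.cs)).integrableOn
    rw [h4] at h3
    linarith
  have hlim := (ta.neg).sub tb
  have := le_of_tendsto' hlim hmain
  rw [sdiff_eq]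
  exact this

end Pool.Agent.Helper51
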