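import Pool.Agent.Helper51.Plane2

set_option autoImplicit false
set_option linter.unusedSectionVars false

open MeasureTheory Set Filter Topology Metric
open scoped ENNReal NNReal Pointwise Convolution

namespace Pool.Agent.Helper51

/-- minus the divergence of the weighted radial unit field. -/
noncomputable def kr (j : ℕ) (r : ℝ) : ℝ := j * (1 - r) ^ (j - 1) - (1 - r) ^ j / r

theorem kr_nonneg {j : ℕ} (hj : 1 ≤ j) {r : ℝ} (hr : 0 < r) (hr1 : r ≤ 1)
    (h : 1 ≤ (j + 1) * r) : 0 ≤ kr j r := by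
  unfold kr
  obtain ⟨i, rfl⟩ : ∃ i, j = i + 1 := ⟨j - 1, by omega⟩
  rw [sub_nonneg, div_le_iff₀ hr, Nat.add_sub_cancel, pow_succ]
  have h1 : 0 ≤ (1 - r) ^ i := pow_nonneg (by linarith) _
  have h2 : 1 - r ≤ ((i + 1 : ℕ) : ℝ) * r := by push_cast at h ⊢; linarith
  calc (1 - r) ^ i * (1 - r) ≤ (1 - r) ^ i * (((i + 1 : ℕ) : ℝ) * r) :=
        mul_le_mul_of_nonneg_left h2 h1
    _ = ((i + 1 : ℕ) : ℝ) * (1 - r) ^ i * r := by ring

theorem abs_kr_le {j : ℕ} {s r : ℝ} (hs : 0 < s) (hr : s ≤ r) (hr1 : r ≤ 1) :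
    |kr j r| ≤ j + 1 / s := by
  unfold kr
  have hr0 : 0 < r := lt_of_lt_of_le hs hr
  have h1 : 0 ≤ (1 - r) ^ (j - 1) := pow_nonneg (by linarith) _
  have h2 : (1 - r) ^ (j - 1) ≤ 1 := pow_le_one₀ (by linarith) (by linarith)
  have h3 : 0 ≤ (1 - r) ^ j := pow_nonneg (by linarith) _
  have h4 : (1 - r) ^ j ≤ 1 := pow_le_one₀ (by linarith) (by linarith)
  have h5 : (1 - r) ^ j / r ≤ 1 / s := div_le_div₀ zero_le_one h4 hs hr
  have h6 : 0 ≤ (1 - r) ^ j / r := div_nonneg h3 hr0.le
  have h7 : (j:ℝ) * (1 - r) ^ (j - 1) ≤ j := mul_le_of_le_one_right (Nat.cast_nonneg _) h2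
  have h8 : 0 ≤ (j:ℝ) * (1 - r) ^ (j - 1) := mul_nonneg (Nat.cast_nonneg _) h1
  have h9 : 0 < 1 / s := by positivity
  rw [abs_le]; constructor <;> linarith

theorem measurable_kr (j : ℕ) : Measurable (kr j) := by
  unfold kr
  fun_prop

theorem lemma_F {j : ℕ} (hj : 2 ≤ j) {D : Set ℂ} (hD : MeasurableSet D) (hD1 : D ⊆ ball 0 1)
    {P₁ : ℝ} (hP : ∀ Y, TA' j Y → ∫ z in D, dv Y z ≤ P₁)
    {s : ℝ} (hs0 : 0 < s) (hs1 : s < 1) (hκ : 1 ≤ (j + 1) * s) {X : ℂ → ℂ} (hX : TA' j X) :
    ∫ z in D ∩ ball 0 s, dv X z ≤ P₁ + ∫ z in D \ ball 0 s, kr j ‖z‖ := by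
  set δ₀ : ℝ := (1 - s) / 4 with hδ₀
  have hδ₀pos : 0 < δ₀ := by rw [hδ₀]; linarith
  set δ : ℕ → ℝ := fun k => δ₀ * (1 / ((k:ℝ) + 1)) with hδ
  have hδpos : ∀ k, 0 < δ k := fun k => by simp only [hδ]; positivity
  have hδle : ∀ k, δ k ≤ δ₀ := fun k => by
    have : (1:ℝ) / (k + 1) ≤ 1 := by
      rw [div_le_one (by positivity)]; linarith [k.cast_nonneg (α := ℝ)]
    simp only [hδ]
    exact mul_le_of_le_one_right hδ₀pos.le this
  have hδ0 : Tendsto δ atTop (𝓝 0) := by
    have := (tendsto_one_div_add_atTop_nhds_zero_nat (𝕜 := ℝ)).const_mul δ₀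
    rw [mul_zero] at this
    exact this
  have hDf : volume D ≠ ∞ := ((measure_mono hD1).trans_lt measure_ball_lt_top).ne
  have hkrint : IntegrableOn (fun z : ℂ => kr j ‖z‖) (D \ ball 0 s) := by
    refine Measure.integrableOn_of_bounded (M := j + 1 / s)
      ((measure_mono sdiff_subset).trans_lt hDf.lt_top).ne
      ((measurable_kr j).comp measurable_norm).aestronglyMeasurable ?_
    rw [ae_restrict_iff' (hD.diff measurableSet_ball)]
    refine Filter.Eventually.of_forall fun z hz => ?_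
    have h1 : s ≤ ‖z‖ := by
      have := hz.2; rwa [mem_ball_zero_iff, not_lt] at this
    have h2 : ‖z‖ < 1 := mem_ball_zero_iff.mp (hD1 hz.1)
    exact abs_kr_le hs0 h1 h2.le
  have idv : Integrable (dv X) (volume : Measure ℂ) := integrable_dv _ hX.cd hX.cs
  -- the test fields
  set g : ℕ → ℝ → ℝ := fun k r => hout s (δ k) r * hin (1 - δ k) (δ k) r * ((1 - r) ^ j / r) with hg
  set g' : ℕ → ℝ → ℝ := fun k r => (hout' s (δ k) r * hin (1 - δ k) (δ k) r
      + hout s (δ k) r * hin' (1 - δ k) (δ k) r) * ((1 - r) ^ j / r)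
      + hout s (δ k) r * hin (1 - δ k) (δ k) r *
        (((j * (1 - r) ^ (j - 1) * (-1)) * r - (1 - r) ^ j * 1) / r ^ 2) with hg'
  have hδ1 : ∀ k, δ k < 1 - δ k := fun k => by have := hδle k; rw [hδ₀] at this; linarith
  have hrad : ∀ k, Rad (g k) (g' k) s 0 := by
    intro k
    have ro := rad_hout (hδpos k) hs0
    have ri := rad_hin (hδpos k) (hδ1 k)
    refine ⟨hs0, ?_, ?_, ?_, ?_⟩
    · intro r hr; simp only [hg]; rw [hout_eq_zero (hδpos k) hr.le]; ring
    · intro r hr; simp only [hg']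
      rw [hout_eq_zero (hδpos k) hr.le, hout'_eq_zero (hδpos k) (Or.inl hr.le)]; ring
    · intro r hr
      have w : HasDerivAt (fun r : ℝ => (1 - r) ^ j / r)
          (((j * (1 - r) ^ (j - 1) * (-1)) * r - (1 - r) ^ j * 1) / r ^ 2) r := by
        have h1 : HasDerivAt (fun r : ℝ => 1 - r) (-1) r := by
          simpa using (hasDerivAt_id r).const_sub 1
        exact (h1.pow j).div (hasDerivAt_id r) hr.ne'
      exact ((ro.der r hr).mul (ri.der r hr)).mul w
    · intro r hr
      have c1 : ContinuousAt (hout s (δ k)) r := (continuous_hout _ _).continuousAt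
      have c2 : ContinuousAt (hin (1 - δ k) (δ k)) r := (continuous_hin _ _).continuousAt
      have c3 : ContinuousAt (hout' s (δ k)) r := ro.cont r hr
      have c4 : ContinuousAt (hin' (1 - δ k) (δ k)) r := ri.cont r hr
      have c5 : ContinuousAt (fun r : ℝ => (1 - r) ^ j / r) r :=
        ContinuousAt.div (by fun_prop) continuousAt_id hr.ne'
      have c6 : ContinuousAt (fun r : ℝ => ((j * (1 - r) ^ (j - 1) * (-1)) * r - (1 - r) ^ j * 1) / r ^ 2) r :=
        ContinuousAt.div (by fun_prop) (by fun_prop) (by positivity)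
      exact (((c3.mul c2).add (c1.mul c4)).mul c5).add ((c1.mul c2).mul c6)
  set η : ℕ → ℝ → ℝ := fun k r => 1 - hout s (δ k) r with hη
  set η' : ℕ → ℝ → ℝ := fun k r => - hout' s (δ k) r with hη'
  have hradη : ∀ k, Rad (η k) (η' k) s 1 := by
    intro k
    have ro := rad_hout (hδpos k) hs0
    refine ⟨hs0, ?_, ?_, ?_, ?_⟩
    · intro r hr; simp only [hη]; rw [hout_eq_zero (hδpos k) hr.le]; ring
    · intro r hr; simp only [hη']; rw [hout'_eq_zero (hδpos k) (Or.inl hr.le)]; ring
    · intro r hr; exact (ro.der r hr).const_sub 1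
    · intro r hr; exact (ro.cont r hr).neg
  have hη0 : ∀ k t, 0 ≤ η k t := fun k t => by simp only [hη]; linarith [hout_le_one s (δ k) t]
  have hη1 : ∀ k t, η k t ≤ 1 := fun k t => by simp only [hη]; linarith [hout_nonneg s (δ k) t]
  have hYT : ∀ k, TA' j (fun z => η k ‖z‖ • X z + g k ‖z‖ • z) := by
    intro k
    refine ⟨((hradη k).contDiff.smul hX.cd).add ((hrad k).contDiff.smul contDiff_id), ?_, ?_⟩
    · obtain ⟨R, h1, h1'⟩ := hX.rm
      refine ⟨max R (1 - δ k), max_lt h1 (by linarith [hδpos k]), fun z hz => ?_⟩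
      rw [h1' z ((le_max_left _ _).trans hz)]
      simp only [hg]
      rw [hin_eq_zero (hδpos k) ((le_max_right _ _).trans hz)]
      simp
    · intro z hz
      have h1 : ‖η k ‖z‖ • X z‖ ≤ η k ‖z‖ * (1 - ‖z‖) ^ j := by
        rw [norm_smul, Real.norm_eq_abs, abs_of_nonneg (hη0 k _)]
        exact mul_le_mul_of_nonneg_left (hX.nb z hz) (hη0 k _)
      have hp : 0 ≤ (1 - ‖z‖) ^ j := pow_nonneg (by linarith) _
      have h2 : ‖g k ‖z‖ • z‖ ≤ hout s (δ k) ‖z‖ * (1 - ‖z‖) ^ j := by
        by_cases hz0 : z = 0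
        · have : ‖g k ‖z‖ • z‖ = 0 := by rw [hz0, smul_zero, norm_zero]
          rw [this]
          exact mul_nonneg (hout_nonneg _ _ _) hp
        · have hpos : 0 < ‖z‖ := norm_pos_iff.mpr hz0
          rw [norm_smul, Real.norm_eq_abs]
          simp only [hg]
          rw [abs_of_nonneg (mul_nonneg (mul_nonneg (hout_nonneg _ _ _) (hin_nonneg _ _ _))
            (div_nonneg hp hpos.le))]
          have : hout s (δ k) ‖z‖ * hin (1 - δ k) (δ k) ‖z‖ * ((1 - ‖z‖) ^ j / ‖z‖) * ‖z‖
              = (hout s (δ k) ‖z‖ * (1 - ‖z‖) ^ j) * hin (1 - δ k) (δ k) ‖z‖ := by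
            field_simp
          rw [this]
          exact mul_le_of_le_one_right (mul_nonneg (hout_nonneg _ _ _) hp) (hin_le_one _ _ _)
      refine (norm_add_le _ _).trans ((add_le_add h1 h2).trans (le_of_eq ?_))
      simp only [hη]; ring
  -- pointwise lower bound
  have hlow : ∀ k, ∀ z ∈ D, η k ‖z‖ * dv X z - 8 * δ k
      - ((ball (0:ℂ) s)ᶜ).indicator (fun z => kr j ‖z‖) z
      ≤ dv (fun z => η k ‖z‖ • X z + g k ‖z‖ • z) z := by
    intro k z hzD
    have hz1 : ‖z‖ < 1 := mem_ball_zero_iff.mp (hD1 hzD)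
    have e1 : dv (fun z => η k ‖z‖ • X z + g k ‖z‖ • z) z
        = dv (fun z => η k ‖z‖ • X z) z + dv (fun z : ℂ => g k ‖z‖ • z) z :=
      dv_add (((hradη k).contDiff.smul hX.cd).differentiable one_ne_zero z)
        (((hrad k).contDiff.smul contDiff_id).differentiable one_ne_zero z)
    rw [e1, (hradη k).dv_smul (hX.cd.differentiable one_ne_zero z), (hrad k).dv_smul_self]
    rcases lt_or_ge ‖z‖ s with hzs | hzs
    · have hzb : z ∉ (ball (0:ℂ) s)ᶜ := fun h => h (mem_ball_zero_iff.mpr hzs)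
      rw [indicator_of_notMem hzb, (hrad k).near _ hzs, (hrad k).near' _ hzs,
        (hradη k).near' _ hzs]
      have := hδpos k
      linarith
    · have hzb : z ∈ (ball (0:ℂ) s)ᶜ := fun h => not_lt.mpr hzs (mem_ball_zero_iff.mp h)
      rw [indicator_of_mem hzb]
      set r := ‖z‖ with hr
      have hr0 : 0 < r := lt_of_lt_of_le hs0 hzs
      have hp : 0 ≤ (1 - r) ^ j := pow_nonneg (by linarith) _
      have hkr : 0 ≤ kr j r := kr_nonneg (by omega) hr0 hz1.le (hκ.trans
        (mul_le_mul_of_nonneg_left hzs (by positivity)))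
      have e2 : 2 * g k r + g' k r * r
          = hout' s (δ k) r * (hin (1 - δ k) (δ k) r * (1 - r) ^ j)
            + hout s (δ k) r * hin' (1 - δ k) (δ k) r * (1 - r) ^ j
            - hout s (δ k) r * hin (1 - δ k) (δ k) r * kr j r := by
        simp only [hg, hg', kr]
        field_simp
        ring
      rw [e2]
      -- cross term
      have hin1 : r⁻¹ * inner ℝ z (X z) ≤ (1 - r) ^ j := by
        have h1 := real_inner_le_norm z (X z)
        rw [inv_mul_le_iff₀ hr0]
        refine h1.trans ?_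
        exact mul_le_mul_of_nonneg_left (hX.nb z hz1) (norm_nonneg _)
      have hcross : 0 ≤ hout' s (δ k) r * (hin (1 - δ k) (δ k) r * (1 - r) ^ j)
          + η' k r * r⁻¹ * inner ℝ z (X z) := by
        by_cases hrs : r ≤ s + δ k
        · have : hin (1 - δ k) (δ k) r = 1 := hin_eq_one (hδpos k) (by
            have := hδle k; rw [hδ₀] at this; linarith)
          rw [this]
          simp only [hη']
          have := hout'_nonneg (r := s) (hδpos k) r
          nlinarith
        · have : hout' s (δ k) r = 0 := hout'_eq_zero (hδpos k) (Or.inr (not_le.mp hrs).le)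
          simp only [hη', this]; simp
      -- rim term
      have hrim : - (8 * δ k) ≤ hout s (δ k) r * hin' (1 - δ k) (δ k) r * (1 - r) ^ j := by
        by_cases hrr : r ≤ 1 - δ k - δ k
        · rw [hin'_eq_zero (hδpos k) (Or.inl hrr)]
          have := hδpos k
          simp; positivity
        · have hb := abs_hin'_le (r := 1 - δ k) (hδpos k) r
          have hq : (1 - r) ^ j ≤ (2 * δ k) ^ 2 := by
            have h1 : 1 - r ≤ 2 * δ k := by linarith [not_le.mp hrr]
            calc (1 - r) ^ j ≤ (1 - r) ^ 2 := pow_le_pow_of_le_one (by linarith) (by linarith) hj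
              _ ≤ (2 * δ k) ^ 2 := pow_le_pow_left₀ (by linarith) h1 2
          have h3 : |hout s (δ k) r * hin' (1 - δ k) (δ k) r * (1 - r) ^ j|
              ≤ 1 * (2 / δ k) * (2 * δ k) ^ 2 := by
            rw [abs_mul, abs_mul, abs_of_nonneg (hout_nonneg _ _ _), abs_of_nonneg hp]
            have := hδpos k
            gcongr
            exact hout_le_one _ _ _
          have h4 : 1 * (2 / δ k) * (2 * δ k) ^ 2 = 8 * δ k := by
            have := hδpos k
            field_simp; ring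
          rw [h4] at h3
          exact (abs_le.mp h3).1
      have hlast : hout s (δ k) r * hin (1 - δ k) (δ k) r * kr j r ≤ kr j r := by
        have h1 := mul_le_one₀ (hout_le_one s (δ k) r) (hin_nonneg (1 - δ k) (δ k) r)
          (hin_le_one (1 - δ k) (δ k) r)
        exact mul_le_of_le_one_left hkr h1
      linarith
  have hkey : ∀ k, (∫ z in D, η k ‖z‖ * dv X z) - 8 * δ k * volume.real D
      - ∫ z in D \ ball 0 s, kr j ‖z‖ ≤ P₁ := by
    intro k
    have i1 : IntegrableOn (fun z : ℂ => η k ‖z‖ * dv X z) D := by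
      have : Continuous (fun z : ℂ => η k ‖z‖) := (hradη k).contDiff.continuous
      exact ((this.mul (continuous_dv hX.cd)).integrable_of_hasCompactSupport
        ((hasCompactSupport_dv hX.cs).mul_left)).integrableOn
    have i2 : IntegrableOn (fun _ : ℂ => 8 * δ k) D := integrableOn_const hDf
    have i3 : IntegrableOn (((ball (0:ℂ) s)ᶜ).indicator (fun z => kr j ‖z‖)) D := by
      rw [integrableOn_indicator_iff measurableSet_ball.compl, inter_comm, ← Set.sdiff_eq]
      exact hkrint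
    have i4 : IntegrableOn (dv (fun z => η k ‖z‖ • X z + g k ‖z‖ • z)) D :=
      (integrable_dv _ (hYT k).cd (hYT k).cs).integrableOn
    have h1 := setIntegral_mono_on ((i1.sub i2).sub i3) i4 hD (hlow k)
    have h2 := hP _ (hYT k)
    have h3 : ∫ z in D, (η k ‖z‖ * dv X z - 8 * δ k
        - ((ball (0:ℂ) s)ᶜ).indicator (fun z => kr j ‖z‖) z)
        = (∫ z in D, η k ‖z‖ * dv X z) - 8 * δ k * volume.real D
          - ∫ z in D \ ball 0 s, kr j ‖z‖ := by
      have j1 : ∫ z in D, (η k ‖z‖ * dv X z - 8 * δ k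
          - ((ball (0:ℂ) s)ᶜ).indicator (fun z => kr j ‖z‖) z)
          = (∫ z in D, (η k ‖z‖ * dv X z - 8 * δ k))
            - ∫ z in D, ((ball (0:ℂ) s)ᶜ).indicator (fun z => kr j ‖z‖) z :=
        integral_sub (i1.sub i2) i3
      have j2 : ∫ z in D, (η k ‖z‖ * dv X z - 8 * δ k)
          = (∫ z in D, η k ‖z‖ * dv X z) - ∫ z in D, 8 * δ k := integral_sub i1 i2
      rw [j1, j2, setIntegral_indicator measurableSet_ball.compl, setIntegral_const, smul_eq_mul,
        Set.sdiff_eq, mul_comm (volume.real D)]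
    rw [← h3]
    exact h1.trans h2
  have t1 : Tendsto (fun k => ∫ z in D, η k ‖z‖ * dv X z) atTop
      (𝓝 (∫ z in D ∩ ball 0 s, dv X z)) := by
    refine tendsto_cut_integral idv D ?_ hη0 hη1 (r := s) measurableSet_ball ?_
    · intro k; exact measurable_const.sub (measurable_hout _ _)
    · intro z hz
      rcases lt_or_gt_of_ne hz with h | h
      · have hz' : z ∈ ball (0:ℂ) s := mem_ball_zero_iff.mpr h
        rw [indicator_of_mem hz']
        refine tendsto_const_nhds.congr fun k => ?_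
        simp only [hη]; rw [hout_eq_zero (hδpos k) h.le]; ring
      · have hz' : z ∉ ball (0:ℂ) s := by rw [mem_ball_zero_iff, not_lt]; exact h.le
        rw [indicator_of_notMem hz']
        refine tendsto_const_nhds.congr' ?_
        have : ∀ᶠ k in atTop, δ k < ‖z‖ - s := (tendsto_order.1 hδ0).2 _ (by linarith)
        filter_upwards [this] with k hk
        simp only [hη]; rw [hout_eq_one (hδpos k) (by linarith)]; ring
  have t2 : Tendsto (fun k => (∫ z in D, η k ‖z‖ * dv X z) - 8 * δ k * volume.real D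
      - ∫ z in D \ ball 0 s, kr j ‖z‖) atTop
      (𝓝 ((∫ z in D ∩ ball 0 s, dv X z) - 8 * 0 * volume.real D
      - ∫ z in D \ ball 0 s, kr j ‖z‖)) :=
    (t1.sub ((hδ0.const_mul 8).mul_const _)).sub_const _
  have := le_of_tendsto' t2 hkey
  linarith

end Pool.Agent.Helper51
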