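import Pool.Agent.Helper51.Plane3

set_option autoImplicit false
set_option linter.unusedSectionVars false

open MeasureTheory Set Filter Topology Metric
open scoped ENNReal NNReal Pointwise Convolution

namespace Pool.Agent.Helper51

theorem integral_radial (f : ℝ → ℝ) :
    ∫ z : ℂ, f ‖z‖ = 2 * Real.pi * ∫ r in Ioi (0:ℝ), r * f r := by
  rw [integral_fun_norm_addHaar (volume : Measure ℂ) f]
  have h1 : (volume : Measure ℂ).real (ball 0 1) = Real.pi := by
    rw [Measure.real, Complex.volume_ball]; simp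
  rw [h1, Complex.finrank_real_complex]
  simp only [smul_eq_mul, nsmul_eq_mul]
  norm_num
  ring

theorem setIntegral_annulus (f : ℝ → ℝ) {s t : ℝ} (hs : 0 ≤ s) (hst : s ≤ t) :
    ∫ z in ball (0:ℂ) t \ ball 0 s, f ‖z‖ = 2 * Real.pi * ∫ r in s..t, r * f r := by
  have h1 : ∫ z in ball (0:ℂ) t \ ball 0 s, f ‖z‖
      = ∫ z : ℂ, (Ico s t).indicator f ‖z‖ := by
    rw [← integral_indicator (measurableSet_ball.diff measurableSet_ball)]
    congr 1
    ext z
    by_cases hz : z ∈ ball (0:ℂ) t \ ball 0 s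
    · rw [indicator_of_mem hz, indicator_of_mem]
      exact ⟨not_lt.mp fun h => hz.2 (mem_ball_zero_iff.mpr h), mem_ball_zero_iff.mp hz.1⟩
    · rw [indicator_of_notMem hz, indicator_of_notMem]
      intro h
      exact hz ⟨mem_ball_zero_iff.mpr h.2, fun h' => not_lt.mpr h.1 (mem_ball_zero_iff.mp h')⟩
  rw [h1, integral_radial]
  congr 1
  have h2 : ∀ r, r * (Ico s t).indicator f r = (Ico s t).indicator (fun r => r * f r) r := by
    intro r
    by_cases hr : r ∈ Ico s t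
    · rw [indicator_of_mem hr, indicator_of_mem hr]
    · rw [indicator_of_notMem hr, indicator_of_notMem hr, mul_zero]
  simp_rw [h2]
  rw [setIntegral_indicator measurableSet_Ico, intervalIntegral.integral_of_le hst,
    ← integral_Ico_eq_integral_Ioc]
  rcases hs.eq_or_lt with h0 | h0
  · subst h0
    have : Ioi (0:ℝ) ∩ Ico 0 t = Ioo 0 t := by
      ext x; simp only [mem_inter_iff, mem_Ioi, mem_Ico, mem_Ioo]
      constructor
      · rintro ⟨h1, h2, h3⟩; exact ⟨h1, h3⟩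
      · rintro ⟨h1, h2⟩; exact ⟨h1, h1.le, h2⟩
    rw [this, integral_Ico_eq_integral_Ioo]
  · have : Ioi (0:ℝ) ∩ Ico s t = Ico s t := by
      refine inter_eq_right.mpr fun x hx => ?_
      exact lt_of_lt_of_le h0 hx.1
    rw [this]

/-- the tail of the weighted mass, divided by `2π`. -/
noncomputable def Tm (j : ℕ) (s : ℝ) : ℝ :=
  (1 - s) ^ (j + 1) * (1 + (j + 1) * s) / ((j + 1) * (j + 2))

theorem hasDerivAt_Tm (j : ℕ) (s : ℝ) : HasDerivAt (Tm j) (-(s * (1 - s) ^ j)) s := by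
  unfold Tm
  have h1 : HasDerivAt (fun r : ℝ => 1 - r) (-1) s := by
    simpa using (hasDerivAt_id s).const_sub 1
  have h2 : HasDerivAt (fun r : ℝ => (1 - r) ^ (j + 1)) (((j + 1 : ℕ) : ℝ) * (1 - s) ^ j * (-1)) s :=
    h1.pow (j + 1)
  have h3 : HasDerivAt (fun r : ℝ => 1 + ((j:ℝ) + 1) * r) ((j:ℝ) + 1) s := by
    simpa using ((hasDerivAt_id s).const_mul ((j:ℝ) + 1)).const_add 1
  have h4 := (h2.mul h3).div_const (((j:ℝ) + 1) * (j + 2))
  refine h4.congr_deriv ?_
  have hj1 : ((j:ℝ) + 1) ≠ 0 := by positivity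
  have hj2 : ((j:ℝ) + 2) ≠ 0 := by positivity
  push_cast
  field_simp
  ring

theorem integral_weight (j : ℕ) (s : ℝ) : ∫ r in s..1, r * (1 - r) ^ j = Tm j s := by
  have h := intervalIntegral.integral_eq_sub_of_hasDerivAt (a := s) (b := 1)
    (f := fun s => - Tm j s) (f' := fun s => s * (1 - s) ^ j)
    (fun x _ => by simpa using (hasDerivAt_Tm j x).fun_neg)
    (Continuous.intervalIntegrable (by fun_prop) _ _)
  rw [h]
  have : Tm j 1 = 0 := by unfold Tm; simp
  rw [this]; ring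

theorem integral_weight_zero (j : ℕ) (s : ℝ) :
    ∫ r in (0:ℝ)..s, r * (1 - r) ^ j = Tm j 0 - Tm j s := by
  have h := intervalIntegral.integral_eq_sub_of_hasDerivAt (a := 0) (b := s)
    (f := fun s => - Tm j s) (f' := fun s => s * (1 - s) ^ j)
    (fun x _ => by simpa using (hasDerivAt_Tm j x).fun_neg)
    (Continuous.intervalIntegrable (by fun_prop) _ _)
  rw [h]; ring

theorem integral_kr {j : ℕ} (hj : 1 ≤ j) {s : ℝ} (hs : 0 < s) (hs1 : s ≤ 1) :
    ∫ r in s..1, r * kr j r = s * (1 - s) ^ j := by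
  have h := intervalIntegral.integral_eq_sub_of_hasDerivAt (a := s) (b := 1)
    (f := fun s => - (s * (1 - s) ^ j)) (f' := fun r => r * kr j r)
    (fun x hx => by
      rw [uIcc_of_le hs1] at hx
      have hx0 : 0 < x := lt_of_lt_of_le hs hx.1
      have h1 : HasDerivAt (fun r : ℝ => 1 - r) (-1) x := by
        simpa using (hasDerivAt_id x).const_sub 1
      have h2 := ((hasDerivAt_id x).mul (h1.pow j)).neg
      refine h2.congr_deriv ?_
      unfold kr
      simp only [id, Pi.pow_apply]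
      field_simp
      ring)
    (by
      refine ContinuousOn.intervalIntegrable ?_
      rw [uIcc_of_le hs1]
      intro x hx
      have hx0 : 0 < x := lt_of_lt_of_le hs hx.1
      unfold kr
      refine ContinuousAt.continuousWithinAt ?_
      refine continuousAt_id.mul (ContinuousAt.sub (by fun_prop) ?_)
      exact ContinuousAt.div (by fun_prop) continuousAt_id hx0.ne')
  rw [h]
  have : (1 - (1:ℝ)) ^ j = 0 := by rw [sub_self]; exact zero_pow (by omega)
  rw [this]; ring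

theorem kr_eq {j : ℕ} (hj : 1 ≤ j) {r : ℝ} (hr : 0 < r) (hr1 : r < 1) :
    kr j r = (1 - r) ^ j * (j / (1 - r) - 1 / r) := by
  unfold kr
  obtain ⟨i, rfl⟩ : ∃ i, j = i + 1 := ⟨j - 1, by omega⟩
  have h1 : 1 - r ≠ 0 := by linarith
  rw [Nat.add_sub_cancel]
  field_simp
  ring

theorem kappa_mono (j : ℕ) {r t : ℝ} (hr : 0 < r) (hrt : r ≤ t) (ht : t < 1) :
    (j:ℝ) / (1 - r) - 1 / r ≤ j / (1 - t) - 1 / t := by
  have h1 : (j:ℝ) / (1 - r) ≤ j / (1 - t) :=
    div_le_div_of_nonneg_left (Nat.cast_nonneg _) (by linarith) (by linarith)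
  have h2 : 1 / t ≤ 1 / r := one_div_le_one_div_of_le hr hrt
  linarith

theorem integrableOn_weight (j : ℕ) {G : Set ℂ} (hG : G ⊆ ball 0 1) :
    IntegrableOn (fun z : ℂ => (1 - ‖z‖) ^ j) G := by
  have : IntegrableOn (fun z : ℂ => (1 - ‖z‖) ^ j) (closedBall 0 1) :=
    (by fun_prop : Continuous fun z : ℂ => (1 - ‖z‖) ^ j).continuousOn.integrableOn_compact
      (isCompact_closedBall _ _)
  exact this.mono_set (hG.trans ball_subset_closedBall)

theorem integrableOn_kr (j : ℕ) {G : Set ℂ} (hGm : MeasurableSet G) (hG : G ⊆ ball 0 1) {s : ℝ}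
    (hs : 0 < s) (hGs : ∀ z ∈ G, s ≤ ‖z‖) :
    IntegrableOn (fun z : ℂ => kr j ‖z‖) G := by
  refine Measure.integrableOn_of_bounded (M := j + 1 / s)
    ((measure_mono hG).trans_lt measure_ball_lt_top).ne
    ((measurable_kr j).comp measurable_norm).aestronglyMeasurable ?_
  rw [ae_restrict_iff' hGm]
  refine Filter.Eventually.of_forall fun z hz => ?_
  exact abs_kr_le hs (hGs z hz) (mem_ball_zero_iff.mp (hG hz)).le

theorem bathtub {j : ℕ} (hj : 1 ≤ j) {G : Set ℂ} (hGm : MeasurableSet G) (hG : G ⊆ ball 0 1)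
    {s : ℝ} (hs : 0 < s) (hGs : ∀ z ∈ G, s ≤ ‖z‖) {t : ℝ} (ht : 0 < t) (ht1 : t < 1)
    (hmass : ∫ z in G, (1 - ‖z‖) ^ j = 2 * Real.pi * Tm j t) :
    ∫ z in G, kr j ‖z‖ ≤ 2 * Real.pi * (t * (1 - t) ^ j) := by
  set H : Set ℂ := ball 0 1 \ ball 0 t with hH
  have hHm : MeasurableSet H := measurableSet_ball.diff measurableSet_ball
  have hH1 : H ⊆ ball 0 1 := sdiff_subset
  have hHt : ∀ z ∈ H, t ≤ ‖z‖ := fun z hz =>
    not_lt.mp fun h => hz.2 (mem_ball_zero_iff.mpr h)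
  set κ : ℝ := (j:ℝ) / (1 - t) - 1 / t with hκ
  have e1 : ∫ z in H, (1 - ‖z‖) ^ j = 2 * Real.pi * Tm j t := by
    rw [hH, setIntegral_annulus (fun r => (1 - r) ^ j) ht.le ht1.le, integral_weight]
  have e2 : ∫ z in H, kr j ‖z‖ = 2 * Real.pi * (t * (1 - t) ^ j) := by
    rw [hH, setIntegral_annulus (kr j) ht.le ht1.le, integral_kr hj ht ht1.le]
  have iGw := integrableOn_weight j hG
  have iHw := integrableOn_weight j hH1
  have iGk := integrableOn_kr j hGm hG hs hGs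
  have iHk := integrableOn_kr j hHm hH1 ht hHt
  have hpos : ∀ z ∈ H, 0 ≤ kr j ‖z‖ - κ * (1 - ‖z‖) ^ j := by
    intro z hz
    have h1 := hHt z hz
    have h2 : ‖z‖ < 1 := mem_ball_zero_iff.mp (hH1 hz)
    rw [kr_eq hj (lt_of_lt_of_le ht h1) h2]
    have h3 := kappa_mono j ht h1 h2
    have h4 : 0 ≤ (1 - ‖z‖) ^ j := pow_nonneg (by linarith) _
    nlinarith
  have hneg : ∀ z ∈ G \ H, kr j ‖z‖ - κ * (1 - ‖z‖) ^ j ≤ 0 := by
    intro z hz
    have h1 : s ≤ ‖z‖ := hGs z hz.1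
    have h2 : ‖z‖ < t := by
      by_contra hcon
      exact hz.2 ⟨hG hz.1, fun h => hcon (mem_ball_zero_iff.mp h)⟩
    have h0 : 0 < ‖z‖ := lt_of_lt_of_le hs h1
    rw [kr_eq hj h0 (h2.trans ht1)]
    have h3 := kappa_mono j h0 h2.le ht1
    have h4 : 0 ≤ (1 - ‖z‖) ^ j := pow_nonneg (by linarith) _
    nlinarith
  have iG : IntegrableOn (fun z : ℂ => kr j ‖z‖ - κ * (1 - ‖z‖) ^ j) G :=
    iGk.sub (iGw.const_mul κ)
  have iH : IntegrableOn (fun z : ℂ => kr j ‖z‖ - κ * (1 - ‖z‖) ^ j) H :=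
    iHk.sub (iHw.const_mul κ)
  have h1 : ∫ z in G, (kr j ‖z‖ - κ * (1 - ‖z‖) ^ j)
      ≤ ∫ z in H, (kr j ‖z‖ - κ * (1 - ‖z‖) ^ j) := by
    rw [← integral_inter_add_sdiff hHm iG]
    have a1 : ∫ z in G \ H, (kr j ‖z‖ - κ * (1 - ‖z‖) ^ j) ≤ 0 :=
      setIntegral_nonpos (hGm.diff hHm) hneg
    have a2 : ∫ z in G ∩ H, (kr j ‖z‖ - κ * (1 - ‖z‖) ^ j)
        ≤ ∫ z in H, (kr j ‖z‖ - κ * (1 - ‖z‖) ^ j) := by
      refine setIntegral_mono_set iH ?_ (Filter.Eventually.of_forall inter_subset_right)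
      rw [Filter.EventuallyLE, ae_restrict_iff' hHm]
      exact Filter.Eventually.of_forall hpos
    linarith
  have h2 : ∫ z in G, (kr j ‖z‖ - κ * (1 - ‖z‖) ^ j)
      = (∫ z in G, kr j ‖z‖) - κ * ∫ z in G, (1 - ‖z‖) ^ j := by
    rw [integral_sub iGk (iGw.const_mul κ), integral_const_mul]
  have h3 : ∫ z in H, (kr j ‖z‖ - κ * (1 - ‖z‖) ^ j)
      = (∫ z in H, kr j ‖z‖) - κ * ∫ z in H, (1 - ‖z‖) ^ j := by
    rw [integral_sub iHk (iHw.const_mul κ), integral_const_mul]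
  rw [h2, h3, e1, e2, hmass] at h1
  linarith

theorem continuous_tail (j : ℕ) {D : Set ℂ} (hD : D ⊆ ball 0 1) :
    Continuous (fun s : ℝ => ∫ z in D \ ball 0 s, (1 - ‖z‖) ^ j) := by
  have h1 : (fun s : ℝ => ∫ z in D \ ball 0 s, (1 - ‖z‖) ^ j)
      = fun s => ∫ z in D, ((ball (0:ℂ) s)ᶜ).indicator (fun z => (1 - ‖z‖) ^ j) z := by
    ext s
    rw [setIntegral_indicator measurableSet_ball.compl, Set.sdiff_eq]
  rw [h1, continuous_iff_continuousAt]
  intro s
  refine continuousAt_of_dominated (bound := fun z : ℂ => |(1 - ‖z‖) ^ j|) ?_ ?_ ?_ ?_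
  · refine Filter.Eventually.of_forall fun s => ?_
    exact ((by fun_prop : Measurable fun z : ℂ => (1 - ‖z‖) ^ j).indicator
      measurableSet_ball.compl).aestronglyMeasurable
  · refine Filter.Eventually.of_forall fun s => Filter.Eventually.of_forall fun z => ?_
    exact norm_indicator_le_norm_self _ _
  · exact (integrableOn_weight j hD).abs
  · have hsph : (volume : Measure ℂ) (sphere (0:ℂ) s) = 0 := Measure.addHaar_sphere _ _ _
    have : ∀ᵐ z ∂(volume : Measure ℂ), ‖z‖ ≠ s := by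
      rw [ae_iff]
      convert hsph using 2
      ext z; simp
    filter_upwards [ae_restrict_of_ae this] with z hz
    rcases lt_or_gt_of_ne hz with h | h
    · have : ∀ᶠ s' in 𝓝 s, ‖z‖ < s' := lt_mem_nhds h
      refine (continuousAt_const (y := (0:ℝ))).congr ?_
      filter_upwards [this] with s' hs'
      rw [indicator_of_notMem]
      exact fun h' => h' (mem_ball_zero_iff.mpr hs')
    · have : ∀ᶠ s' in 𝓝 s, s' < ‖z‖ := gt_mem_nhds h
      refine (continuousAt_const (y := (1 - ‖z‖) ^ j)).congr ?_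
      filter_upwards [this] with s' hs'
      rw [indicator_of_mem]
      exact fun h' => not_lt.mpr hs'.le (mem_ball_zero_iff.mp h')

end Pool.Agent.Helper51
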