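import Pool.Agent.Helper51.Circle2

set_option autoImplicit false
set_option linter.unusedSectionVars false

open MeasureTheory Set Filter Topology Metric
open scoped ENNReal NNReal Pointwise Convolution

namespace Pool.Agent.Helper51

/-- multiplication by a complex number as a real linear map. -/
noncomputable def mulL (c : ℂ) : ℂ →L[ℝ] ℂ := ContinuousLinearMap.mul ℝ ℂ c

theorem mulL_apply (c z : ℂ) : mulL c z = c * z := rfl

theorem continuous_mulL : Continuous mulL := (ContinuousLinearMap.mul ℝ ℂ).continuous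

/-- circular average. -/
noncomputable def xi (ψ : ℂ → ℝ) (t : ℝ) (z : ℂ) : ℝ :=
  ∫ u in Icc (0:ℝ) 1, ψ (Complex.exp (-(u * t : ℝ) * Complex.I) * z)

theorem xi_aux {ψ : ℂ → ℝ} (hψ : ContDiff ℝ 1 ψ) (t : ℝ) :
    (∀ (z : ℂ) (u : ℝ), HasFDerivAt (fun z => ψ (Complex.exp (-(u * t : ℝ) * Complex.I) * z))
      ((fderiv ℝ ψ (Complex.exp (-(u * t : ℝ) * Complex.I) * z)).comp
        (mulL (Complex.exp (-(u * t : ℝ) * Complex.I)))) z) ∧
    Continuous (Function.uncurry fun (z : ℂ) (u : ℝ) =>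
      ψ (Complex.exp (-(u * t : ℝ) * Complex.I) * z)) ∧
    Continuous (Function.uncurry fun (z : ℂ) (u : ℝ) =>
      (fderiv ℝ ψ (Complex.exp (-(u * t : ℝ) * Complex.I) * z)).comp
        (mulL (Complex.exp (-(u * t : ℝ) * Complex.I)))) := by
  refine ⟨?_, ?_, ?_⟩
  · intro z u
    have h1 : HasFDerivAt ψ (fderiv ℝ ψ (Complex.exp (-(u * t : ℝ) * Complex.I) * z))
        (Complex.exp (-(u * t : ℝ) * Complex.I) * z) :=
      (hψ.differentiable one_ne_zero).differentiableAt.hasFDerivAt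
    have h2 : HasFDerivAt (fun z : ℂ => Complex.exp (-(u * t : ℝ) * Complex.I) * z)
        (mulL (Complex.exp (-(u * t : ℝ) * Complex.I))) z :=
      (mulL (Complex.exp (-(u * t : ℝ) * Complex.I))).hasFDerivAt
    exact h1.comp z h2
  · have := hψ.continuous
    simp only [Function.uncurry_def]
    fun_prop
  · have h1 := hψ.continuous_fderiv one_ne_zero
    have h2 := continuous_mulL
    simp only [Function.uncurry_def]
    refine Continuous.clm_comp ?_ ?_
    · fun_prop
    · exact h2.comp (by fun_prop)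

theorem xi_contDiff {ψ : ℂ → ℝ} (hψ : ContDiff ℝ 1 ψ) (t : ℝ) : ContDiff ℝ 1 (xi ψ t) := by
  obtain ⟨h1, h2, h3⟩ := xi_aux hψ t
  exact contDiff_setIntegral_param isCompact_Icc h1 h2 h3

theorem xi_hasFDerivAt {ψ : ℂ → ℝ} (hψ : ContDiff ℝ 1 ψ) (t : ℝ) (z : ℂ) :
    HasFDerivAt (xi ψ t) (∫ u in Icc (0:ℝ) 1,
      (fderiv ℝ ψ (Complex.exp (-(u * t : ℝ) * Complex.I) * z)).comp
        (mulL (Complex.exp (-(u * t : ℝ) * Complex.I)))) z := by
  obtain ⟨h1, h2, h3⟩ := xi_aux hψ t
  exact hasFDerivAt_setIntegral_param isCompact_Icc h1 h2 h3 z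

theorem xi_deriv {ψ : ℂ → ℝ} (hψ : ContDiff ℝ 1 ψ) {t : ℝ} (ht : 0 < t) (z : ℂ) :
    fderiv ℝ (xi ψ t) z (Complex.I * z) = (ψ z - ψ (Complex.exp (-t * Complex.I) * z)) / t := by
  rw [(xi_hasFDerivAt hψ t z).fderiv]
  obtain ⟨h1, h2, h3⟩ := xi_aux hψ t
  have hc : Continuous (fun u : ℝ => (fderiv ℝ ψ (Complex.exp (-(u * t : ℝ) * Complex.I) * z)).comp
        (mulL (Complex.exp (-(u * t : ℝ) * Complex.I)))) := h3.comp (Continuous.prodMk_right z)
  rw [ContinuousLinearMap.integral_apply (hc.continuousOn.integrableOn_compact isCompact_Icc)]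
  have hd : ∀ u ∈ uIcc (0:ℝ) 1, HasDerivAt
      (fun u : ℝ => -(ψ (Complex.exp (-(u * t : ℝ) * Complex.I) * z) / t))
      (((fderiv ℝ ψ (Complex.exp (-(u * t : ℝ) * Complex.I) * z)).comp
        (mulL (Complex.exp (-(u * t : ℝ) * Complex.I)))) (Complex.I * z)) u := by
    intro u _
    have g1 : HasFDerivAt ψ (fderiv ℝ ψ (Complex.exp (-(u * t : ℝ) * Complex.I) * z))
        (Complex.exp (-(u * t : ℝ) * Complex.I) * z) :=
      (hψ.differentiable one_ne_zero).differentiableAt.hasFDerivAt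
    have g2 : HasDerivAt (fun u : ℝ => Complex.exp (-(u * t : ℝ) * Complex.I) * z)
        (Complex.exp (-(u * t : ℝ) * Complex.I) * (-(t : ℂ) * Complex.I) * z) u := by
      have a1 : HasDerivAt (fun u : ℝ => (-(u * t : ℝ) : ℂ) * Complex.I) (-(t:ℂ) * Complex.I) u := by
        have b1 : HasDerivAt (fun u : ℝ => u * t) t u := by
          simpa using (hasDerivAt_id u).mul_const t
        have b2 := (b1.ofReal_comp.fun_neg).mul_const Complex.I
        simpa using b2
      exact (a1.cexp).mul_const z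
    have g3 := g1.comp_hasDerivAt u g2
    have g4 := (g3.div_const t).fun_neg
    refine g4.congr_deriv ?_
    rw [ContinuousLinearMap.comp_apply, mulL_apply]
    have e : Complex.exp (-(u * t : ℝ) * Complex.I) * (-(t : ℂ) * Complex.I) * z
        = (-t : ℝ) • (Complex.exp (-(u * t : ℝ) * Complex.I) * (Complex.I * z)) := by
      rw [Complex.real_smul]; push_cast; ring
    rw [e, map_smul, smul_eq_mul]
    field_simp
  have h4 := intervalIntegral.integral_eq_sub_of_hasDerivAt hd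
    ((hc.clm_apply continuous_const).intervalIntegrable _ _)
  rw [integral_Icc_eq_integral_Ioc, ← intervalIntegral.integral_of_le zero_le_one, h4]
  simp only [one_mul, zero_mul]
  simp
  ring

theorem abs_xi_le {ψ : ℂ → ℝ} (hψ1 : ∀ z, |ψ z| ≤ 1) (t : ℝ) (z : ℂ) : |xi ψ t z| ≤ 1 := by
  have : ‖xi ψ t z‖ ≤ 1 * (volume.real (Icc (0:ℝ) 1)) := by
    refine norm_setIntegral_le_of_norm_le_const ?_ ?_
    · simp
    · intro u _
      exact hψ1 _
  simpa using this

end Pool.Agent.Helper51
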