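import Pool.Agent.Helper51.Plane5

set_option autoImplicit false
set_option linter.unusedSectionVars false

open MeasureTheory Set Filter Topology Metric
open scoped ENNReal NNReal Pointwise Convolution

namespace Pool.Agent.Helper51

theorem Rad.mul {h h' g g' : ℝ → ℝ} {a c a2 c2 : ℝ} (H : Rad h h' a c) (G : Rad g g' a2 c2) :
    Rad (fun r => h r * g r) (fun r => h' r * g r + h r * g' r) (min a a2) (c * c2) where
  pos := lt_min H.pos G.pos
  near := fun r hr => by
    rw [H.near r (hr.trans_le (min_le_left _ _)), G.near r (hr.trans_le (min_le_right _ _))]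
  near' := fun r hr => by
    rw [H.near' r (hr.trans_le (min_le_left _ _)), G.near' r (hr.trans_le (min_le_right _ _))]
    ring
  der := fun r hr => (H.der r hr).mul (G.der r hr)
  cont := fun r hr => ((H.cont r hr).mul (G.der r hr).continuousAt).add
    ((H.der r hr).continuousAt.mul (G.cont r hr))

theorem Rad.smooth_mul {h h' g g' : ℝ → ℝ} {a : ℝ} (H : Rad h h' a 0)
    (hg : ∀ r, 0 < r → HasDerivAt g (g' r) r) (hg' : ∀ r, 0 < r → ContinuousAt g' r) :
    Rad (fun r => g r * h r) (fun r => g' r * h r + g r * h' r) a 0 where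
  pos := H.pos
  near := fun r hr => by rw [H.near r hr, mul_zero]
  near' := fun r hr => by rw [H.near r hr, H.near' r hr]; ring
  der := fun r hr => (hg r hr).mul (H.der r hr)
  cont := fun r hr => ((hg' r hr).mul (H.der r hr).continuousAt).add
    ((hg r hr).continuousAt.mul (H.cont r hr))

theorem Rad.continuous {h h' : ℝ → ℝ} {a c : ℝ} (H : Rad h h' a c) : Continuous h := by
  rw [continuous_iff_continuousAt]
  intro r
  rcases lt_or_ge r a with hr | hr
  · have : h =ᶠ[𝓝 r] fun _ => c := by
      filter_upwards [gt_mem_nhds hr] with x hx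
      exact H.near x hx
    exact continuousAt_const.congr this.symm
  · exact (H.der r (H.pos.trans_le hr)).continuousAt

/-- the inner weighted mass over `2π`. -/
noncomputable def mm (j : ℕ) (r : ℝ) : ℝ := Tm j 0 - Tm j r

theorem hasDerivAt_mm (j : ℕ) (r : ℝ) : HasDerivAt (mm j) (r * (1 - r) ^ j) r := by
  unfold mm
  simpa using (hasDerivAt_Tm j r).const_sub (Tm j 0)

theorem mm_nonneg (j : ℕ) {r : ℝ} (hr : 0 ≤ r) (hr1 : r ≤ 1) : 0 ≤ mm j r := by
  unfold mm
  rw [← integral_weight_zero]
  refine intervalIntegral.integral_nonneg hr fun x hx => ?_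
  exact mul_nonneg hx.1 (pow_nonneg (by linarith [hx.2]) _)

theorem dv_tangential {f f' : ℝ → ℝ} {a : ℝ} (H : Rad f f' a 0) {ξ : ℂ → ℝ}
    (hξ : ContDiff ℝ 1 ξ) (z : ℂ) :
    dv (fun z => (f ‖z‖ * ξ z) • (Complex.I * z)) z
      = f ‖z‖ * fderiv ℝ ξ z (Complex.I * z) := by
  have h1 : HasFDerivAt ξ (fderiv ℝ ξ z) z :=
    (hξ.differentiable one_ne_zero).differentiableAt.hasFDerivAt
  have h2 : HasFDerivAt (fun z : ℂ => f ‖z‖ * ξ z)
      (f ‖z‖ • fderiv ℝ ξ z + ξ z • (f' ‖z‖ * ‖z‖⁻¹) • innerSL ℝ z) z := (H.hasFDerivAt z).mul h1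
  have h3 : DifferentiableAt ℝ (fun z : ℂ => Complex.I * z) z :=
    (mulL Complex.I).differentiableAt
  rw [Helper51.dv_smul h2 h3, dv_mulI]
  have h4 : inner ℝ z (Complex.I * z) = (0:ℝ) := by
    rw [Complex.inner]
    simp [Complex.mul_re]
    ring
  simp only [add_apply, smul_apply, innerSL_apply_apply, smul_eq_mul, h4]
  ring

theorem norm_combo (a b : ℝ) (z : ℂ) :
    ‖a • z + b • (Complex.I * z)‖ ^ 2 = (a ^ 2 + b ^ 2) * ‖z‖ ^ 2 := by
  have h1 : a • z + b • (Complex.I * z) = (a + b * Complex.I) * z := by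
    rw [Complex.real_smul, Complex.real_smul]; ring
  rw [h1, norm_mul, mul_pow]
  congr 1
  rw [Complex.sq_norm, Complex.normSq_add_mul_I]

theorem rot_integral (t : ℝ) (g : ℂ → ℝ) :
    ∫ z, g (Complex.exp (t * Complex.I) * z) = ∫ z, g z := by
  have h := ((rotation (Circle.exp t)).measurePreserving).integral_comp
    (rotation (Circle.exp t)).toHomeomorph.measurableEmbedding g
  simp only [rotation_apply, Circle.coe_exp] at h
  exact h

theorem tangential_test {A : Set ℂ} (hA : MeasurableSet A) {f f' : ℝ → ℝ} {a : ℝ}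
    (H : Rad f f' a 0) (hf0 : ∀ r, 0 ≤ f r) (hf1 : ∀ r, 1 ≤ r → f r = 0) {Q : ℝ}
    (hQ : ∀ ξ : ℂ → ℝ, ContDiff ℝ 1 ξ → (∀ z, |ξ z| ≤ 1) →
      ∫ z in A, f ‖z‖ * fderiv ℝ ξ z (Complex.I * z) ≤ Q)
    (hnt : ∀ᵐ r, 0 < r → f r ≠ 0 → NT A r) :
    2 * ∫ r in Ioi (0:ℝ), r * f r ≤ Q := by
  have hfc : Continuous f := H.continuous
  have hfz : Continuous (fun z : ℂ => f ‖z‖) := hfc.comp continuous_norm
  have hfcs : HasCompactSupport (fun z : ℂ => f ‖z‖) := by
    refine HasCompactSupport.intro (isCompact_closedBall 0 1) fun z hz => hf1 _ ?_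
    rw [mem_closedBall_zero_iff, not_le] at hz
    exact hz.le
  have hfi : Integrable (fun z : ℂ => f ‖z‖) (volume : Measure ℂ) :=
    hfz.integrable_of_hasCompactSupport hfcs
  refine angular hA hfc hf0 hfi ?_ hnt
  intro t ht
  have hrot : Measurable (fun z : ℂ => indC A (Complex.exp (t * Complex.I) * z)) :=
    (measurable_indC hA).comp (measurable_id.const_mul _)
  set g : ℂ → ℝ := fun z => f ‖z‖ * (indC A z - indC A (Complex.exp (t * Complex.I) * z)) / t with hg
  have hgm : Measurable g :=
    ((hfz.measurable).mul ((measurable_indC hA).sub hrot)).div_const _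
  have hgi : Integrable g (volume : Measure ℂ) := by
    refine (hfi.div_const t).mono hgm.aestronglyMeasurable ?_
    refine Filter.Eventually.of_forall fun z => ?_
    simp only [hg]
    rw [Real.norm_eq_abs, Real.norm_eq_abs, abs_div, abs_div, abs_mul]
    exact div_le_div_of_nonneg_right
      (mul_le_of_le_one_right (abs_nonneg _) (abs_indC_sub_le _ _ _)) (abs_nonneg _)
  have key : ∫ z in closedBall (0:ℂ) 1, |g z| ≤ Q := by
    refine integral_abs_le_of_test volume isOpen_univ (isCompact_closedBall 0 1) (subset_univ _)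
      hgi.locallyIntegrable hgm ?_
    intro ψ hψ hψc _ hψ1
    have h1 := hQ (xi ψ t) (xi_contDiff hψ t) (fun z => abs_xi_le hψ1 t z)
    refine le_trans (le_of_eq ?_) h1
    simp_rw [xi_deriv hψ ht]
    have hψi : Integrable ψ (volume : Measure ℂ) :=
      hψ.continuous.integrable_of_hasCompactSupport hψc
    have i1 : Integrable (fun z : ℂ => indC A z * (f ‖z‖ * ψ z) / t) (volume : Measure ℂ) := by
      refine Integrable.div_const ?_ t
      refine ((hfz.mul hψ.continuous).integrable_of_hasCompactSupport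
        (hfcs.mul_right)).bdd_mul (c := 1) (measurable_indC hA).aestronglyMeasurable ?_
      refine Filter.Eventually.of_forall fun z => ?_
      rw [Real.norm_eq_abs, abs_of_nonneg (indC_nonneg _ _)]; exact indC_le_one _ _
    have hc2 : Continuous (fun z : ℂ => ψ (Complex.exp (-t * Complex.I) * z)) := by
      have := hψ.continuous
      fun_prop
    have i2 : Integrable (fun z : ℂ => indC A z * (f ‖z‖ * ψ (Complex.exp (-t * Complex.I) * z)) / t)
        (volume : Measure ℂ) := by
      refine Integrable.div_const ?_ t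
      refine ((hfz.mul hc2).integrable_of_hasCompactSupport
        (hfcs.mul_right)).bdd_mul (c := 1) (measurable_indC hA).aestronglyMeasurable ?_
      refine Filter.Eventually.of_forall fun z => ?_
      rw [Real.norm_eq_abs, abs_of_nonneg (indC_nonneg _ _)]; exact indC_le_one _ _
    have e1 : ∫ z in A, f ‖z‖ * ((ψ z - ψ (Complex.exp (-t * Complex.I) * z)) / t)
        = (∫ z, indC A z * (f ‖z‖ * ψ z) / t)
          - ∫ z, indC A z * (f ‖z‖ * ψ (Complex.exp (-t * Complex.I) * z)) / t := by
      rw [← integral_sub i1 i2, ← integral_indicator hA]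
      congr 1
      ext z
      by_cases hz : z ∈ A
      · rw [indicator_of_mem hz, indC, indicator_of_mem hz]; ring
      · rw [indicator_of_notMem hz, indC, indicator_of_notMem hz]; ring
    have e2 : ∫ z, indC A z * (f ‖z‖ * ψ (Complex.exp (-t * Complex.I) * z)) / t
        = ∫ z, indC A (Complex.exp (t * Complex.I) * z) * (f ‖z‖ * ψ z) / t := by
      rw [← rot_integral t]
      congr 1
      ext z
      have n1 : ‖Complex.exp (t * Complex.I) * z‖ = ‖z‖ := by
        rw [norm_mul, Complex.norm_exp_ofReal_mul_I, one_mul]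
      have n2 : Complex.exp (-t * Complex.I) * (Complex.exp (t * Complex.I) * z) = z := by
        rw [← mul_assoc, ← Complex.exp_add]
        simp
      rw [n1, n2]
    have i3 : Integrable (fun z : ℂ => indC A (Complex.exp (t * Complex.I) * z) * (f ‖z‖ * ψ z) / t)
        (volume : Measure ℂ) := by
      refine Integrable.div_const ?_ t
      refine ((hfz.mul hψ.continuous).integrable_of_hasCompactSupport
        (hfcs.mul_right)).bdd_mul (c := 1) hrot.aestronglyMeasurable ?_
      refine Filter.Eventually.of_forall fun z => ?_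
      rw [Real.norm_eq_abs, abs_of_nonneg (indC_nonneg _ _)]; exact indC_le_one _ _
    rw [e1, e2, ← integral_sub i1 i3]
    congr 1
    ext z
    simp only [hg]
    ring
  have e3 : (∫ z : ℂ, f ‖z‖ * |indC A (Complex.exp (t * Complex.I) * z) - indC A z|) / t
      = ∫ z in closedBall (0:ℂ) 1, |g z| := by
    rw [← integral_div, setIntegral_eq_integral_of_forall_compl_eq_zero]
    · congr 1
      ext z
      simp only [hg]
      rw [abs_div, abs_mul, abs_of_nonneg (hf0 _), abs_of_pos ht, abs_sub_comm]
    · intro z hz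
      rw [mem_closedBall_zero_iff, not_le] at hz
      simp only [hg]
      rw [hf1 _ hz.le]
      simp
  rw [e3]
  exact key

end Pool.Agent.Helper51
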