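import Pool.Agent.Helper51.Plane6

set_option autoImplicit false
set_option linter.unusedSectionVars false

open MeasureTheory Set Filter Topology Metric
open scoped ENNReal NNReal Pointwise Convolution

namespace Pool.Agent.Helper51

theorem real_volume_ball {r : ℝ} (hr : 0 ≤ r) :
    (volume : Measure ℂ).real (ball 0 r) = Real.pi * r ^ 2 := by
  rw [Measure.real, Complex.volume_ball]
  rw [ENNReal.toReal_mul, ENNReal.toReal_pow, ENNReal.toReal_ofReal hr]
  simp
  ring

theorem interior_lower_aux {j : ℕ} {A : Set ℂ} (hA : MeasurableSet A) {r' : ℝ}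
    (hA1 : A ⊆ ball 0 r')
    (hr' : r' ≤ 1) {Q : ℝ} (hQ : ∀ Y, TA j Y → ∫ z in A, dv Y z ≤ Q)
    {ra : ℝ} (hra1 : ra < 1)
    (hnt : ∀ᵐ r, 0 < r → r < ra → NT A r)
    {lam w b e : ℝ} (hlam : 0 ≤ lam) (hw : 0 ≤ w) (he : 0 < e) (heb : e < b) (hb : b < 1)
    (h1 : lam = 0 ∨ r' ≤ b - e)
    (h2 : ∀ r, 0 < r → r < b → lam * mm j r ≤ r * (1 - r) ^ j)
    (h3 : ∀ r, 0 < r → r < ra →
      (lam * mm j r) ^ 2 + (w * (r * (1 - r) ^ j)) ^ 2 ≤ (r * (1 - r) ^ j) ^ 2)
    {δ : ℝ} (hδ : 0 < δ) (hδra : 8 * δ ≤ ra) :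
    lam * ((∫ z in A, (1 - ‖z‖) ^ j) - Real.pi * (2 * δ) ^ 2)
      + 2 * w * ((∫ r in (0:ℝ)..ra, (1 - r) ^ j) - 4 * δ) ≤ Q := by
  set ho : ℝ → ℝ := hout δ δ with hho
  set hi : ℝ → ℝ := hin b e with hhi
  set h4 : ℝ → ℝ := hin (ra - δ) δ with hh4
  have ro : Rad (hout δ δ) (hout' δ δ) δ 0 := rad_hout hδ hδ
  have ri : Rad (hin b e) (hin' b e) (b - e) 1 := rad_hin he heb
  have r4 : Rad (hin (ra - δ) δ) (hin' (ra - δ) δ) (ra - δ - δ) 1 := rad_hin hδ (by linarith)
  have ho0 : ∀ r, 0 ≤ ho r := hout_nonneg _ _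
  have ho1 : ∀ r, ho r ≤ 1 := hout_le_one _ _
  have hi0 : ∀ r, 0 ≤ hi r := hin_nonneg _ _
  have hi1 : ∀ r, hi r ≤ 1 := hin_le_one _ _
  have h40 : ∀ r, 0 ≤ h4 r := hin_nonneg _ _
  have h41 : ∀ r, h4 r ≤ 1 := hin_le_one _ _
  -- radial profile
  set G : ℝ → ℝ := fun r => lam * (mm j r / r ^ 2) with hG
  set G' : ℝ → ℝ := fun r => lam * ((r * (1 - r) ^ j * r ^ 2 - mm j r * (2 * r)) / (r ^ 2) ^ 2)
    with hG'
  have hGd : ∀ r, 0 < r → HasDerivAt G (G' r) r := by
    intro r hr
    have a1 : HasDerivAt (fun r : ℝ => r ^ 2) (2 * r) r := by simpa using hasDerivAt_pow 2 r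
    exact (((hasDerivAt_mm j r).div a1 (by positivity)).const_mul lam)
  have hmc : Continuous (mm j) := by
    rw [continuous_iff_continuousAt]; exact fun r => (hasDerivAt_mm j r).continuousAt
  have hGc : ∀ r, 0 < r → ContinuousAt G' r := by
    intro r hr
    refine continuousAt_const.mul (ContinuousAt.div ?_ ?_ ?_)
    · have := hmc
      fun_prop
    · fun_prop
    · positivity
  have hmin : min δ (b - e) ≤ δ := min_le_left _ _
  have rprod0 := ro.mul ri
  have rprod : Rad (fun r => hout δ δ r * hin b e r)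
      (fun r => hout' δ δ r * hin b e r + hout δ δ r * hin' b e r) (min δ (b - e)) 0 := by
    have := rprod0; rwa [zero_mul] at this
  have rR := rprod.smooth_mul hGd hGc
  -- tangential profile
  set T : ℝ → ℝ := fun r => w * ((1 - r) ^ j / r) with hT
  set T' : ℝ → ℝ := fun r => w * (((j * (1 - r) ^ (j - 1) * (-1)) * r - (1 - r) ^ j * 1) / r ^ 2)
    with hT'
  have hTd : ∀ r, 0 < r → HasDerivAt T (T' r) r := by
    intro r hr
    have a1 : HasDerivAt (fun r : ℝ => 1 - r) (-1) r := by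
      simpa using (hasDerivAt_id r).const_sub 1
    exact ((a1.pow j).div (hasDerivAt_id r) hr.ne').const_mul w
  have hTc : ∀ r, 0 < r → ContinuousAt T' r := by
    intro r hr
    exact continuousAt_const.mul (ContinuousAt.div (by fun_prop) (by fun_prop) (by positivity))
  have tprod0 := ro.mul r4
  have tprod : Rad (fun r => hout δ δ r * hin (ra - δ) δ r)
      (fun r => hout' δ δ r * hin (ra - δ) δ r + hout δ δ r * hin' (ra - δ) δ r)
      (min δ (ra - δ - δ)) 0 := by
    have := tprod0; rwa [zero_mul] at this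
  have rT := tprod.smooth_mul hTd hTc
  set Rf : ℝ → ℝ := fun r => G r * (hout δ δ r * hin b e r) with hRf
  set Rf' : ℝ → ℝ := fun r => G' r * (hout δ δ r * hin b e r) + G r *
    (hout' δ δ r * hin b e r + hout δ δ r * hin' b e r) with hRf'
  set ff : ℝ → ℝ := fun r => T r * (hout δ δ r * hin (ra - δ) δ r) with hff
  have hRf_small : ∀ r, r ≤ δ → Rf r = 0 := fun r hr => by
    simp only [hRf]; rw [hout_eq_zero hδ hr]; ring
  have hff_small : ∀ r, r ≤ δ → ff r = 0 := fun r hr => by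
    simp only [hff]; rw [hout_eq_zero hδ hr]; ring
  have hff_large : ∀ r, ra - δ ≤ r → ff r = 0 := fun r hr => by
    simp only [hff]; rw [hin_eq_zero hδ hr]; ring
  have hRf_large : ∀ r, b ≤ r → Rf r = 0 := fun r hr => by
    simp only [hRf]; rw [hin_eq_zero he hr]; ring
  have hff0 : ∀ r, 0 ≤ ff r := by
    intro r
    rcases le_or_gt r δ with hr | hr
    · rw [hff_small r hr]
    rcases le_or_gt (ra - δ) r with hr2 | hr2
    · rw [hff_large r hr2]
    · simp only [hff, hT]
      have : 0 ≤ (1 - r) ^ j := pow_nonneg (by linarith) _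
      have hrp : 0 < r := hδ.trans hr
      exact mul_nonneg (mul_nonneg hw (div_nonneg this hrp.le)) (mul_nonneg (ho0 r) (h40 r))
  -- the test field
  have hY : ∀ ξ : ℂ → ℝ, ContDiff ℝ 1 ξ → (∀ z, |ξ z| ≤ 1) →
      TA j (fun z => Rf ‖z‖ • z + (ff ‖z‖ * ξ z) • (Complex.I * z)) := by
    intro ξ hξ hξ1
    have c1 : ContDiff ℝ 1 (fun z : ℂ => Rf ‖z‖ • z) := rR.contDiff.smul contDiff_id
    have c2 : ContDiff ℝ 1 (fun z : ℂ => (ff ‖z‖ * ξ z) • (Complex.I * z)) :=
      (rT.contDiff.mul hξ).smul (mulL Complex.I).contDiff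
    refine ⟨⟨c1.add c2, ?_, ?_⟩, ?_⟩
    · refine ⟨max b (ra - δ), max_lt hb (by linarith), fun z hz => ?_⟩
      rw [hRf_large _ ((le_max_left _ _).trans hz), hff_large _ ((le_max_right _ _).trans hz)]
      simp
    · intro z hz
      set r := ‖z‖ with hr
      have hp : 0 ≤ (1 - r) ^ j := pow_nonneg (by linarith) _
      rcases le_or_gt r δ with hrδ | hrδ
      · rw [hRf_small _ hrδ, hff_small _ hrδ]
        simpa using hp
      have hrp : 0 < r := hδ.trans hrδ
      refine le_of_sq_le_sq ?_ hp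
      rw [norm_combo, ← hr]
      have hM : 0 ≤ mm j r := mm_nonneg j hrp.le hz.le
      have hgz : 0 ≤ G r := mul_nonneg hlam (div_nonneg hM (by positivity))
      have q1 : (Rf r) ^ 2 * r ^ 2 ≤ (lam * mm j r / r) ^ 2 := by
        have : (Rf r) ^ 2 * r ^ 2 = (lam * mm j r / r) ^ 2 * (ho r * hi r) ^ 2 := by
          simp only [hRf, hG, hho, hhi]; field_simp
        rw [this]
        refine mul_le_of_le_one_right (sq_nonneg _) ?_
        have h5 : ho r * hi r ≤ 1 := mul_le_one₀ (ho1 r) (hi0 r) (hi1 r)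
        exact pow_le_one₀ (mul_nonneg (ho0 r) (hi0 r)) h5
      have q2 : (ff r * ξ z) ^ 2 * r ^ 2 ≤ (w * (1 - r) ^ j) ^ 2 := by
        have : (ff r * ξ z) ^ 2 * r ^ 2
            = (w * (1 - r) ^ j) ^ 2 * ((ho r * h4 r) ^ 2 * (ξ z) ^ 2) := by
          simp only [hff, hT, hho, hh4]; field_simp
        rw [this]
        refine mul_le_of_le_one_right (sq_nonneg _) ?_
        have h5 : ho r * h4 r ≤ 1 := mul_le_one₀ (ho1 r) (h40 r) (h41 r)
        have h6 : (ho r * h4 r) ^ 2 ≤ 1 := pow_le_one₀ (mul_nonneg (ho0 r) (h40 r)) h5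
        have h7 : (ξ z) ^ 2 ≤ 1 := by
          rw [← sq_abs]; exact pow_le_one₀ (abs_nonneg _) (hξ1 z)
        exact mul_le_one₀ h6 (sq_nonneg _) h7
      rcases lt_or_ge r ra with hra2 | hra2
      · have h8 := h3 r hrp hra2
        have h9 : (lam * mm j r / r) ^ 2 + (w * (1 - r) ^ j) ^ 2 ≤ ((1 - r) ^ j) ^ 2 := by
          have e1 : (lam * mm j r / r) ^ 2 + (w * (1 - r) ^ j) ^ 2
              = ((lam * mm j r) ^ 2 + (w * (r * (1 - r) ^ j)) ^ 2) / r ^ 2 := by
            field_simp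
          have e2 : ((1 - r) ^ j) ^ 2 = (r * (1 - r) ^ j) ^ 2 / r ^ 2 := by field_simp
          rw [e1, e2]
          exact div_le_div_of_nonneg_right h8 (by positivity)
        linarith
      · rw [hff_large r (by linarith)]
        rcases lt_or_ge r b with hrb | hrb
        · have h8 := h2 r hrp hrb
          have h9 : lam * mm j r / r ≤ (1 - r) ^ j := by
            rw [div_le_iff₀ hrp]; linarith
          have h10 : (lam * mm j r / r) ^ 2 ≤ ((1 - r) ^ j) ^ 2 :=
            pow_le_pow_left₀ (div_nonneg (mul_nonneg hlam hM) hrp.le) h9 2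
          nlinarith
        · rw [hRf_large r hrb]
          have : 0 ≤ ((1 - r) ^ j) ^ 2 := sq_nonneg _
          simpa using this
    · refine ⟨δ, hδ, fun z hz => ?_⟩
      rw [hRf_small _ hz, hff_small _ hz]
      simp
  -- lower bound for the radial part
  have hrad : ∀ z ∈ A, lam * ((1 - ‖z‖) ^ j - (ball (0:ℂ) (2 * δ)).indicator (fun _ => (1:ℝ)) z)
      ≤ dv (fun z : ℂ => Rf ‖z‖ • z) z := by
    intro z hz
    have hzr' : ‖z‖ < r' := mem_ball_zero_iff.mp (hA1 hz)
    have e0 : dv (fun z : ℂ => Rf ‖z‖ • z) z = 2 * Rf ‖z‖ + Rf' ‖z‖ * ‖z‖ := rR.dv_smul_self z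
    rw [e0]
    rcases h1 with h1 | h1
    · have a1 : Rf ‖z‖ = 0 := by simp only [hRf, hG, h1]; ring
      have a2 : Rf' ‖z‖ = 0 := by simp only [hRf', hG, hG', h1]; ring
      rw [a1, a2, h1]
      simp
    · set r := ‖z‖ with hr
      have hp : 0 ≤ (1 - r) ^ j := pow_nonneg (by linarith) _
      have hp1 : (1 - r) ^ j ≤ 1 := pow_le_one₀ (by linarith) (by linarith [norm_nonneg z])
      rcases lt_or_ge r δ with hrδ | hrδ
      · have b1 : z ∈ ball (0:ℂ) (2 * δ) := mem_ball_zero_iff.mpr (by linarith)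
        have a1 : Rf r = 0 := hRf_small r hrδ.le
        have a2 : Rf' r = 0 := by
          simp only [hRf']
          rw [hout_eq_zero hδ hrδ.le, hout'_eq_zero hδ (Or.inl hrδ.le)]; ring
        rw [a1, a2, indicator_of_mem b1]
        nlinarith
      · have hrp : 0 < r := hδ.trans_le hrδ
        have hrb : r ≤ b - e := hzr'.le.trans h1
        have a3 : hin b e r = 1 := hin_eq_one he hrb
        have a4 : hin' b e r = 0 := hin'_eq_zero he (Or.inl hrb)
        have hM : 0 ≤ mm j r := mm_nonneg j hrp.le (by linarith)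
        have e1 : 2 * Rf r + Rf' r * r
            = ho r * (lam * (1 - r) ^ j) + (lam * (mm j r / r ^ 2)) * r * hout' δ δ r := by
          simp only [hRf, hRf', hG, hG', a3, a4, hho]
          field_simp
          ring
        rw [e1]
        have h5 : 0 ≤ (lam * (mm j r / r ^ 2)) * r * hout' δ δ r :=
          mul_nonneg (mul_nonneg (mul_nonneg hlam (div_nonneg hM (by positivity))) hrp.le)
            (hout'_nonneg hδ r)
        rcases lt_or_ge r (2 * δ) with h6 | h6
        · have b1 : z ∈ ball (0:ℂ) (2 * δ) := mem_ball_zero_iff.mpr h6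
          rw [indicator_of_mem b1]
          have h7 : 0 ≤ ho r * (lam * (1 - r) ^ j) := mul_nonneg (ho0 r) (mul_nonneg hlam hp)
          nlinarith
        · have b1 : z ∉ ball (0:ℂ) (2 * δ) := fun h => not_lt.mpr h6 (mem_ball_zero_iff.mp h)
          rw [indicator_of_notMem b1]
          have h7 : ho r = 1 := hout_eq_one hδ (by linarith)
          rw [h7]
          linarith
  have cR : ContDiff ℝ 1 (fun z : ℂ => Rf ‖z‖ • z) := rR.contDiff.smul contDiff_id
  have sR : HasCompactSupport (fun z : ℂ => Rf ‖z‖ • z) := by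
    refine HasCompactSupport.intro (isCompact_closedBall 0 b) fun z hz => ?_
    rw [mem_closedBall_zero_iff, not_le] at hz
    rw [hRf_large _ hz.le, zero_smul]
  have iR : Integrable (dv (fun z : ℂ => Rf ‖z‖ • z)) (volume : Measure ℂ) := integrable_dv _ cR sR
  have hAball : A ⊆ ball 0 1 := hA1.trans (ball_subset_ball hr')
  have hAf : volume A ≠ ∞ := ((measure_mono hAball).trans_lt measure_ball_lt_top).ne
  set c1 : ℝ := ∫ z in A, dv (fun z : ℂ => Rf ‖z‖ • z) z with hc1
  have hc1low : lam * ((∫ z in A, (1 - ‖z‖) ^ j) - Real.pi * (2 * δ) ^ 2) ≤ c1 := by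
    have i1 : IntegrableOn (fun z : ℂ => (1 - ‖z‖) ^ j) A := integrableOn_weight j hAball
    have i2 : IntegrableOn ((ball (0:ℂ) (2 * δ)).indicator (fun _ => (1:ℝ))) A :=
      (integrableOn_const hAf).indicator measurableSet_ball
    have h5 : ∫ z in A, lam * ((1 - ‖z‖) ^ j - (ball (0:ℂ) (2 * δ)).indicator (fun _ => (1:ℝ)) z)
        ≤ c1 := setIntegral_mono_on ((i1.sub i2).const_mul lam) iR.integrableOn hA hrad
    refine le_trans ?_ h5
    rw [integral_const_mul, integral_sub i1 i2]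
    refine mul_le_mul_of_nonneg_left ?_ hlam
    have h6 : ∫ z in A, (ball (0:ℂ) (2 * δ)).indicator (fun _ => (1:ℝ)) z
        ≤ Real.pi * (2 * δ) ^ 2 := by
      rw [setIntegral_indicator measurableSet_ball, setIntegral_const, smul_eq_mul, mul_one,
        ← real_volume_ball (by positivity : 0 ≤ 2 * δ)]
      exact measureReal_mono inter_subset_right measure_ball_lt_top.ne
    linarith
  -- tangential part
  have htan : 2 * ∫ r in Ioi (0:ℝ), r * ff r ≤ Q - c1 := by
    refine tangential_test hA rT hff0 (fun r hr => hff_large r (by linarith)) ?_ ?_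
    · intro ξ hξ hξ1
      have h5 := hQ _ (hY ξ hξ hξ1)
      have c2 : ContDiff ℝ 1 (fun z : ℂ => (ff ‖z‖ * ξ z) • (Complex.I * z)) :=
        (rT.contDiff.mul hξ).smul (mulL Complex.I).contDiff
      have s2 : HasCompactSupport (fun z : ℂ => (ff ‖z‖ * ξ z) • (Complex.I * z)) := by
        refine HasCompactSupport.intro (isCompact_closedBall 0 (ra - δ)) fun z hz => ?_
        rw [mem_closedBall_zero_iff, not_le] at hz
        rw [hff_large _ hz.le, zero_mul, zero_smul]
      have e1 : ∫ z in A, dv (fun z => Rf ‖z‖ • z + (ff ‖z‖ * ξ z) • (Complex.I * z)) z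
          = c1 + ∫ z in A, ff ‖z‖ * fderiv ℝ ξ z (Complex.I * z) := by
        have e2 : ∀ z, dv (fun z => Rf ‖z‖ • z + (ff ‖z‖ * ξ z) • (Complex.I * z)) z
            = dv (fun z : ℂ => Rf ‖z‖ • z) z
              + dv (fun z => (ff ‖z‖ * ξ z) • (Complex.I * z)) z := fun z =>
          dv_add (cR.differentiable one_ne_zero z) (c2.differentiable one_ne_zero z)
        simp_rw [e2]
        rw [integral_add iR.integrableOn (integrable_dv _ c2 s2).integrableOn]
        congr 1
        exact integral_congr_ae (Filter.Eventually.of_forall fun z => dv_tangential rT hξ z)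
      rw [e1] at h5
      linarith
    · filter_upwards [hnt] with r hr hr0 hfr
      refine hr hr0 ?_
      by_contra hcon
      exact hfr (hff_large r (by linarith [not_lt.mp hcon]))
  -- lower bound of the profile integral
  have hprof : w * ((∫ r in (0:ℝ)..ra, (1 - r) ^ j) - 4 * δ) ≤ ∫ r in Ioi (0:ℝ), r * ff r := by
    have hcont : Continuous (fun r : ℝ => r * ff r) := continuous_id.mul rT.continuous
    have hcs : HasCompactSupport (fun r : ℝ => r * ff r) := by
      refine HasCompactSupport.intro (isCompact_Icc (a := δ) (b := ra - δ)) fun r hr => ?_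
      rw [mem_Icc, not_and_or, not_le, not_le] at hr
      rcases hr with hr | hr
      · rw [hff_small r hr.le, mul_zero]
      · rw [hff_large r hr.le, mul_zero]
    have hint : Integrable (fun r : ℝ => r * ff r) := hcont.integrable_of_hasCompactSupport hcs
    have h5 : ∫ r in Ioc (2 * δ) (ra - 2 * δ), r * ff r ≤ ∫ r in Ioi (0:ℝ), r * ff r := by
      refine setIntegral_mono_set hint.integrableOn ?_ (Filter.Eventually.of_forall ?_)
      · rw [Filter.EventuallyLE, ae_restrict_iff' measurableSet_Ioi]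
        exact Filter.Eventually.of_forall fun r hr => mul_nonneg (le_of_lt hr) (hff0 r)
      · intro r hr
        exact lt_trans (by positivity) hr.1
    have h6 : ∫ r in Ioc (2 * δ) (ra - 2 * δ), r * ff r
        = w * ∫ r in (2 * δ)..(ra - 2 * δ), (1 - r) ^ j := by
      rw [intervalIntegral.integral_of_le (by linarith), ← integral_const_mul]
      refine setIntegral_congr_fun measurableSet_Ioc fun r hr => ?_
      have hrp : 0 < r := lt_trans (by positivity) hr.1
      simp only [hff, hT]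
      rw [hout_eq_one hδ (by linarith [hr.1]), hin_eq_one hδ (by linarith [hr.2])]
      field_simp
    have hii : ∀ x y : ℝ, IntervalIntegrable (fun r : ℝ => (1 - r) ^ j) volume x y := fun x y =>
      (by fun_prop : Continuous fun r : ℝ => (1 - r) ^ j).intervalIntegrable _ _
    have h7 : (∫ r in (0:ℝ)..ra, (1 - r) ^ j) = (∫ r in (0:ℝ)..(2 * δ), (1 - r) ^ j)
        + (∫ r in (2 * δ)..(ra - 2 * δ), (1 - r) ^ j) + ∫ r in (ra - 2 * δ)..ra, (1 - r) ^ j := by
      rw [intervalIntegral.integral_add_adjacent_intervals (hii _ _) (hii _ _),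
        intervalIntegral.integral_add_adjacent_intervals (hii _ _) (hii _ _)]
    have hsmall : ∀ x y : ℝ, 0 ≤ x → x ≤ y → y ≤ 1 → ∫ r in x..y, (1 - r) ^ j ≤ y - x := by
      intro x y hx hxy hy
      have : ∫ r in x..y, (1 - r) ^ j ≤ ∫ r in x..y, (1:ℝ) := by
        refine intervalIntegral.integral_mono_on hxy (hii _ _) (by simp) fun r hr => ?_
        exact pow_le_one₀ (by linarith [hr.2]) (by linarith [hr.1])
      simpa using this
    have h8 := hsmall 0 (2 * δ) le_rfl (by linarith) (by linarith)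
    have h9 := hsmall (ra - 2 * δ) ra (by linarith) (by linarith) hra1.le
    have h10 : (∫ r in (0:ℝ)..ra, (1 - r) ^ j) - 4 * δ ≤ ∫ r in (2 * δ)..(ra - 2 * δ), (1 - r) ^ j := by
      linarith
    calc w * ((∫ r in (0:ℝ)..ra, (1 - r) ^ j) - 4 * δ)
        ≤ w * ∫ r in (2 * δ)..(ra - 2 * δ), (1 - r) ^ j := mul_le_mul_of_nonneg_left h10 hw
      _ ≤ _ := by rw [← h6]; exact h5
  linarith

theorem interior_lower {j : ℕ} {A : Set ℂ} (hA : MeasurableSet A) {r' : ℝ}
    (hA1 : A ⊆ ball 0 r')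
    (hr' : r' ≤ 1) {Q : ℝ} (hQ : ∀ Y, TA j Y → ∫ z in A, dv Y z ≤ Q)
    {ra : ℝ} (hra : 0 < ra) (hra1 : ra < 1)
    (hnt : ∀ᵐ r, 0 < r → r < ra → NT A r)
    {lam w b e : ℝ} (hlam : 0 ≤ lam) (hw : 0 ≤ w) (he : 0 < e) (heb : e < b) (hb : b < 1)
    (h1 : lam = 0 ∨ r' ≤ b - e)
    (h2 : ∀ r, 0 < r → r < b → lam * mm j r ≤ r * (1 - r) ^ j)
    (h3 : ∀ r, 0 < r → r < ra →
      (lam * mm j r) ^ 2 + (w * (r * (1 - r) ^ j)) ^ 2 ≤ (r * (1 - r) ^ j) ^ 2) :
    lam * (∫ z in A, (1 - ‖z‖) ^ j) + 2 * w * (∫ r in (0:ℝ)..ra, (1 - r) ^ j) ≤ Q := by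
  have hcont : Continuous (fun δ : ℝ => lam * ((∫ z in A, (1 - ‖z‖) ^ j) - Real.pi * (2 * δ) ^ 2)
      + 2 * w * ((∫ r in (0:ℝ)..ra, (1 - r) ^ j) - 4 * δ)) := by fun_prop
  have hten := (hcont.continuousAt (x := 0)).tendsto.mono_left
    (nhdsWithin_le_nhds (s := Ioi 0))
  have hev : ∀ᶠ δ : ℝ in 𝓝[>] 0, lam * ((∫ z in A, (1 - ‖z‖) ^ j) - Real.pi * (2 * δ) ^ 2)
      + 2 * w * ((∫ r in (0:ℝ)..ra, (1 - r) ^ j) - 4 * δ) ≤ Q := by
    have h4 : Ioo 0 (ra / 8) ∈ 𝓝[>] (0:ℝ) := Ioo_mem_nhdsGT (by positivity)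
    filter_upwards [h4] with δ hδ
    exact interior_lower_aux hA hA1 hr' hQ hra1 hnt hlam hw he heb hb h1 h2 h3 hδ.1
      (by linarith [hδ.2])
  have := le_of_tendsto hten hev
  simpa using this

end Pool.Agent.Helper51
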