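import Pool.Agent.Helper51.Plane7

set_option autoImplicit false
set_option linter.unusedSectionVars false

open MeasureTheory Set Filter Topology Metric
open scoped ENNReal NNReal Pointwise Convolution

namespace Pool.Agent.Helper51

theorem Tm_one (j : ℕ) : Tm j 1 = 0 := by unfold Tm; simp

theorem continuous_Tm (j : ℕ) : Continuous (Tm j) := by
  rw [continuous_iff_continuousAt]; exact fun r => (hasDerivAt_Tm j r).continuousAt

theorem Tm_zero_pos (j : ℕ) : 0 < Tm j 0 := by unfold Tm; simp; positivity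

theorem mass_ball (j : ℕ) {s : ℝ} (hs : 0 ≤ s) :
    ∫ z in ball (0:ℂ) s, (1 - ‖z‖) ^ j = 2 * Real.pi * mm j s := by
  have h := setIntegral_annulus (fun r => (1 - r) ^ j) le_rfl hs
  rw [ball_zero, sdiff_empty] at h
  rw [h, integral_weight_zero]; rfl

theorem mass_nonneg {j : ℕ} {G : Set ℂ} (hGm : MeasurableSet G) (hG : G ⊆ ball 0 1) :
    0 ≤ ∫ z in G, (1 - ‖z‖) ^ j :=
  setIntegral_nonneg hGm fun z hz => pow_nonneg (by linarith [mem_ball_zero_iff.mp (hG hz)]) _

theorem mass_mono {j : ℕ} {G H : Set ℂ} (hHm : MeasurableSet H) (hGH : G ⊆ H) (hH : H ⊆ ball 0 1) :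
    ∫ z in G, (1 - ‖z‖) ^ j ≤ ∫ z in H, (1 - ‖z‖) ^ j := by
  refine setIntegral_mono_set (integrableOn_weight j hH) ?_ (Filter.Eventually.of_forall hGH)
  rw [Filter.EventuallyLE, ae_restrict_iff' hHm]
  exact Filter.Eventually.of_forall fun z hz =>
    pow_nonneg (by linarith [mem_ball_zero_iff.mp (hH hz)]) _

theorem core {j : ℕ} (hj : 2 ≤ j) {G : Set ℂ} (hG : MeasurableSet G) (hG1 : G ⊆ ball 0 1)
    (hmass : ∫ z in G, (1 - ‖z‖) ^ j = Real.pi * Tm j 0) {P : ℝ}
    {r' : ℝ} (hr0 : 0 < r') (hr' : r' ≤ 1)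
    (HG : ∀ Ya Yb, TA j Ya → TA' j Yb →
      - (∫ z in G ∩ ball 0 r', dv Ya z) - ∫ z in G \ ball 0 r', dv Yb z ≤ P)
    {ra : ℝ} (hra : 0 < ra) (hra1 : ra < 1) (hra' : ra ≤ r')
    (hnt : ∀ᵐ r, 0 < r → r < ra → NT G r)
    {lam w b e : ℝ} (hlam : 0 ≤ lam) (hw : 0 < w) (he : 0 < e) (heb : e < b) (hb : b < 1)
    (h1 : lam = 0 ∨ r' ≤ b - e)
    (h2 : ∀ r, 0 < r → r < b → lam * mm j r ≤ r * (1 - r) ^ j)
    (h3 : ∀ r, 0 < r → r < ra →
      (lam * mm j r) ^ 2 + (w * (r * (1 - r) ^ j)) ^ 2 ≤ (r * (1 - r) ^ j) ^ 2)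
    (hN : ∀ t, 0 < t → t < 1 → Tm j t ≤ Tm j 0 / 2 → Tm j t ≤ mm j r' →
      t * (1 - t) ^ j < lam * Tm j t + w / Real.pi * ∫ r in (0:ℝ)..ra, (1 - r) ^ j)
    (hN2 : ∀ s, 0 < s → s < 1 → Tm j s ≤ Tm j 0 / 2 → 1 ≤ ((j:ℝ) + 1) * s) :
    ∃ D' : Set ℂ, MeasurableSet D' ∧ D' ⊆ ball 0 1 ∧
      ∫ z in D', (1 - ‖z‖) ^ j = Real.pi * Tm j 0 ∧
      ∃ q < P, ∀ X, TA' j X → ∫ z in D', dv X z ≤ q := by
  have hπ := Real.pi_pos
  have hT0 := Tm_zero_pos j
  set A : Set ℂ := G ∩ ball 0 r' with hA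
  have hAm : MeasurableSet A := hG.inter measurableSet_ball
  have hA1 : A ⊆ ball 0 r' := inter_subset_right
  set D : Set ℂ := ball 0 1 \ (G \ ball 0 r') with hD
  have hDm : MeasurableSet D := measurableSet_ball.diff (hG.diff measurableSet_ball)
  have hD1 : D ⊆ ball 0 1 := sdiff_subset
  have iball := integrableOn_weight j (subset_refl (ball (0:ℂ) 1))
  have iG := integrableOn_weight j hG1
  set J : ℝ := ∫ r in (0:ℝ)..ra, (1 - r) ^ j with hJ
  have hJpos : 0 < J := by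
    rw [hJ]
    refine intervalIntegral.intervalIntegral_pos_of_pos_on
      ((by fun_prop : Continuous fun r : ℝ => (1 - r) ^ j).intervalIntegrable _ _) ?_ hra
    intro x hx
    exact pow_pos (by linarith [hx.2]) _
  -- masses
  set a : ℝ := (∫ z in A, (1 - ‖z‖) ^ j) / (2 * Real.pi) with ha
  have hAa : ∫ z in A, (1 - ‖z‖) ^ j = 2 * Real.pi * a := by rw [ha]; field_simp
  have ha0 : 0 ≤ a := div_nonneg (mass_nonneg hAm (inter_subset_left.trans hG1)) (by positivity)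
  have haT : a ≤ Tm j 0 / 2 := by
    have := mass_mono (j := j) hG (inter_subset_left : A ⊆ G) hG1
    rw [hAa, hmass] at this
    by_contra hcon
    push Not at hcon
    nlinarith
  have ham : a ≤ mm j r' := by
    have := mass_mono (j := j) (measurableSet_ball) hA1 (ball_subset_ball hr')
    rw [hAa, mass_ball j hr0.le] at this
    exact le_of_mul_le_mul_left this (by positivity)
  have hmball : ∫ z in ball (0:ℂ) 1, (1 - ‖z‖) ^ j = 2 * Real.pi * Tm j 0 := by
    rw [mass_ball j zero_le_one, mm, Tm_one, sub_zero]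
  have hGsplit : (∫ z in G ∩ ball 0 r', (1 - ‖z‖) ^ j) + ∫ z in G \ ball 0 r', (1 - ‖z‖) ^ j
      = ∫ z in G, (1 - ‖z‖) ^ j := integral_inter_add_sdiff measurableSet_ball iG
  have hDmass : ∫ z in D, (1 - ‖z‖) ^ j = Real.pi * Tm j 0 + 2 * Real.pi * a := by
    have h5 : (∫ z in ball (0:ℂ) 1 ∩ (G \ ball 0 r'), (1 - ‖z‖) ^ j)
        + ∫ z in ball (0:ℂ) 1 \ (G \ ball 0 r'), (1 - ‖z‖) ^ j
        = ∫ z in ball (0:ℂ) 1, (1 - ‖z‖) ^ j :=
      integral_inter_add_sdiff (hG.diff measurableSet_ball) iball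
    rw [inter_eq_right.mpr (sdiff_subset.trans hG1), hmball] at h5
    rw [← hA, hAa, hmass] at hGsplit
    rw [hD]
    linarith
  -- the bound for the exterior set
  set P₁ : ℝ := P - lam * (2 * Real.pi * a) - 2 * w * J with hP₁
  have hext : ∀ X, TA' j X → ∫ z in D, dv X z ≤ P₁ := by
    intro X hX
    have hQ : ∀ Y, TA j Y → ∫ z in A, dv Y z ≤ P + ∫ z in G \ ball 0 r', dv X z := by
      intro Y hY
      have h5 := HG _ X hY.neg hX
      have h6 : ∫ z in G ∩ ball 0 r', dv (fun z => - Y z) z = - ∫ z in A, dv Y z := by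
        simp_rw [dv_neg]
        rw [integral_neg]
      rw [h6] at h5
      linarith
    have h7 := interior_lower hAm hA1 hr' hQ hra hra1 (by
      filter_upwards [hnt] with r hr h0 h1'
      have hNT := hr h0 h1'
      have hset : {θ : ℝ | cr r θ ∈ A} = {θ : ℝ | cr r θ ∈ G} := by
        ext θ
        refine ⟨fun h => h.1, fun h => ⟨h, ?_⟩⟩
        rw [mem_ball_zero_iff, norm_cr h0.le]
        linarith
      unfold NT
      rw [hset]
      exact hNT) hlam hw.le he heb hb h1 h2 h3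
    rw [hAa] at h7
    have h8 : ∫ z in D, dv X z = - ∫ z in ball (0:ℂ) 1 \ D, dv X z :=
      setIntegral_dv_eq_neg _ hX.cd hX.cs hDm hD1 (fun z hz => hX.dv_zero (by
        rwa [mem_ball_zero_iff, not_lt] at hz))
    have h9 : ball (0:ℂ) 1 \ D = G \ ball 0 r' := by
      rw [hD, sdiff_sdiff_cancel_left]
      exact sdiff_subset.trans hG1
    rw [h8, h9, hP₁]
    linarith
  rcases ha0.eq_or_lt with ha0' | hapos
  · -- trivial case
    refine ⟨D, hDm, hD1, ?_, P₁, ?_, hext⟩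
    · rw [hDmass, ← ha0']; ring
    · rw [hP₁, ← ha0']
      have : 0 < 2 * w * J := by positivity
      linarith
  -- choose the cut
  have hF := continuous_tail j hD1
  have hF0 : ∫ z in D \ ball 0 (0:ℝ), (1 - ‖z‖) ^ j = Real.pi * Tm j 0 + 2 * Real.pi * a := by
    rw [ball_zero, sdiff_empty, hDmass]
  have hF1 : ∫ z in D \ ball 0 (1:ℝ), (1 - ‖z‖) ^ j = 0 := by
    rw [sdiff_eq_empty.mpr hD1]; simp
  have hmem : 2 * Real.pi * a ∈ Icc (∫ z in D \ ball 0 (1:ℝ), (1 - ‖z‖) ^ j)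
      (∫ z in D \ ball 0 (0:ℝ), (1 - ‖z‖) ^ j) := by
    rw [hF0, hF1]
    constructor
    · positivity
    · have : 0 < Real.pi * Tm j 0 := by positivity
      linarith
  obtain ⟨s, ⟨hs0, hs1⟩, hs⟩ := intermediate_value_Icc' zero_le_one hF.continuousOn hmem
  have hs' : ∫ z in D \ ball 0 s, (1 - ‖z‖) ^ j = 2 * Real.pi * a := hs
  have hs0' : 0 < s := by
    rcases hs0.eq_or_lt with h | h
    · rw [← h, hF0] at hs'
      have : 0 < Real.pi * Tm j 0 := by positivity
      linarith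
    · exact h
  have hs1' : s < 1 := by
    rcases hs1.eq_or_lt with h | h
    · rw [h, hF1] at hs'
      have : 0 < 2 * Real.pi * a := by positivity
      linarith
    · exact h
  have hDs : ∫ z in D ∩ ball 0 s, (1 - ‖z‖) ^ j = Real.pi * Tm j 0 := by
    have h5 : (∫ z in D ∩ ball 0 s, (1 - ‖z‖) ^ j) + ∫ z in D \ ball 0 s, (1 - ‖z‖) ^ j
        = ∫ z in D, (1 - ‖z‖) ^ j :=
      integral_inter_add_sdiff measurableSet_ball (integrableOn_weight j hD1)
    rw [hs', hDmass] at h5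
    linarith
  have hTs : Tm j s ≤ Tm j 0 / 2 := by
    have h5 := mass_mono (j := j) (measurableSet_ball) (inter_subset_right : D ∩ ball 0 s ⊆ ball 0 s)
      (ball_subset_ball hs1)
    rw [hDs, mass_ball j hs0, mm] at h5
    by_contra hcon
    push Not at hcon
    nlinarith
  have hκ := hN2 s hs0' hs1' hTs
  -- choose the bathtub radius
  have hmemt : a ∈ Icc (Tm j 1) (Tm j 0) := by
    rw [Tm_one]; exact ⟨ha0, by linarith⟩
  obtain ⟨t, ⟨ht0, ht1⟩, ht⟩ := intermediate_value_Icc' zero_le_one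
    (continuous_Tm j).continuousOn hmemt
  have ht0' : 0 < t := by
    rcases ht0.eq_or_lt with h | h
    · rw [← h] at ht; linarith
    · exact h
  have ht1' : t < 1 := by
    rcases ht1.eq_or_lt with h | h
    · rw [h, Tm_one] at ht; linarith
    · exact h
  have hgap := hN t ht0' ht1' (by rw [ht]; exact haT) (by rw [ht]; exact ham)
  rw [ht] at hgap
  refine ⟨D ∩ ball 0 s, hDm.inter measurableSet_ball, inter_subset_left.trans hD1, hDs,
    P₁ + 2 * Real.pi * (t * (1 - t) ^ j), ?_, ?_⟩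
  · rw [hP₁]
    have h5 := mul_lt_mul_of_pos_left hgap (by positivity : 0 < 2 * Real.pi)
    have h6 : 2 * Real.pi * (lam * a + w / Real.pi * J) = lam * (2 * Real.pi * a) + 2 * w * J := by
      field_simp
    rw [h6] at h5
    linarith
  · intro X hX
    have h5 := lemma_F hj hDm hD1 hext hs0' hs1' hκ hX
    have h6 : ∫ z in D \ ball 0 s, kr j ‖z‖ ≤ 2 * Real.pi * (t * (1 - t) ^ j) := by
      refine bathtub (by omega) (hDm.diff measurableSet_ball) (sdiff_subset.trans hD1) hs0' ?_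
        ht0' ht1' ?_
      · intro z hz
        exact not_lt.mp fun h => hz.2 (mem_ball_zero_iff.mpr h)
      · rw [hs', ht]
    linarith

end Pool.Agent.Helper51
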