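import Pool.Agent.Helper51.Plane8

set_option autoImplicit false
set_option linter.unusedSectionVars false

open MeasureTheory Set Filter Topology Metric
open scoped ENNReal NNReal Pointwise Convolution

namespace Pool.Agent.Helper51

/-- angular measure of a set at a radius. -/
noncomputable def ang (G : Set ℂ) (r : ℝ) : ℝ :=
  (volume : Measure ℝ).real (Ioo (-Real.pi) Real.pi ∩ {θ | cr r θ ∈ G})

theorem ang_nonneg (G : Set ℂ) (r : ℝ) : 0 ≤ ang G r := measureReal_nonneg

theorem ang_le (G : Set ℂ) (r : ℝ) : ang G r ≤ 2 * Real.pi := by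
  unfold ang
  refine (measureReal_mono inter_subset_left (by simp)).trans ?_
  rw [Real.volume_real_Ioo_of_le (by linarith [Real.pi_pos])]
  linarith

theorem measurable_ang {G : Set ℂ} (hG : MeasurableSet G) : Measurable (ang G) := by
  have hS : MeasurableSet {p : ℝ × ℝ | p.2 ∈ Ioo (-Real.pi) Real.pi ∧ cr p.1 p.2 ∈ G} :=
    (measurableSet_Ioo.preimage measurable_snd).inter (hG.preimage continuous_cr.measurable)
  have h1 := measurable_measure_prodMk_left (ν := (volume : Measure ℝ)) hS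
  exact h1.ennreal_toReal

theorem locallyIntegrable_ang {G : Set ℂ} (hG : MeasurableSet G) :
    LocallyIntegrable (ang G) volume := by
  refine (locallyIntegrable_const (2 * Real.pi)).mono (measurable_ang hG).aestronglyMeasurable ?_
  refine Filter.Eventually.of_forall fun x => ?_
  rw [Real.norm_eq_abs, Real.norm_eq_abs, abs_of_nonneg (ang_nonneg G x),
    abs_of_nonneg (by positivity)]
  exact ang_le G x

theorem ang_intervalIntegrable {G : Set ℂ} (hG : MeasurableSet G) (x y : ℝ) :
    IntervalIntegrable (ang G) volume x y :=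
  intervalIntegrable_of_bdd (measurable_ang hG) (C := 2 * Real.pi)
    (fun x => by rw [abs_of_nonneg (ang_nonneg G x)]; exact ang_le G x) x y

theorem volume_annulus_le {G : Set ℂ} (hG : MeasurableSet G) {r δ : ℝ} (hr1 : r ≤ 1)
    (hδ : 0 < δ) (hδ1 : δ ≤ 1) :
    (volume : Measure ℂ).real (G ∩ {z : ℂ | |‖z‖ - r| ≤ δ})
      ≤ 2 * ∫ s in (r - δ)..(r + δ), ang G s := by
  have hAm : MeasurableSet {z : ℂ | |‖z‖ - r| ≤ δ} :=
    (isClosed_le (by fun_prop) continuous_const).measurableSet
  have hm : Measurable (fun z : ℂ => (G ∩ {z : ℂ | |‖z‖ - r| ≤ δ}).indicator (fun _ => (1:ℝ≥0∞)) z) :=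
    measurable_const.indicator (hG.inter hAm)
  have h0 : 0 ≤ ∫ s in (r - δ)..(r + δ), ang G s :=
    intervalIntegral.integral_nonneg (by linarith) fun s _ => ang_nonneg G s
  refine ENNReal.toReal_le_of_le_ofReal (by positivity) ?_
  have e1 : volume (G ∩ {z : ℂ | |‖z‖ - r| ≤ δ})
      = ∫⁻ z : ℂ, (G ∩ {z : ℂ | |‖z‖ - r| ≤ δ}).indicator (fun _ => (1:ℝ≥0∞)) z := by
    rw [lintegral_indicator (hG.inter hAm)]; simp
  rw [e1, lintegral_polar hm]
  have hpt : ∀ s ∈ Ioi (0:ℝ), ∫⁻ θ in Ioo (-Real.pi) Real.pi, ENNReal.ofReal s *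
      (G ∩ {z : ℂ | |‖z‖ - r| ≤ δ}).indicator (fun _ => (1:ℝ≥0∞)) (cr s θ)
      ≤ (Ioc (r - δ - 1) (r + δ)).indicator (fun s => if r - δ ≤ s then ENNReal.ofReal (2 * ang G s) else 0) s := by
    intro s hs
    have hs0 : (0:ℝ) < s := hs
    by_cases hsδ : |s - r| ≤ δ
    · have h1 := abs_le.mp hsδ
      rw [indicator_of_mem (show s ∈ Ioc (r - δ - 1) (r + δ) from ⟨by linarith, by linarith⟩),
        if_pos (by linarith)]
      have h2 : ∀ θ, (G ∩ {z : ℂ | |‖z‖ - r| ≤ δ}).indicator (fun _ => (1:ℝ≥0∞)) (cr s θ)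
          = {θ : ℝ | cr s θ ∈ G}.indicator (fun _ => (1:ℝ≥0∞)) θ := by
        intro θ
        by_cases h : cr s θ ∈ G
        · have : cr s θ ∈ G ∩ {z : ℂ | |‖z‖ - r| ≤ δ} := ⟨h, by
            show |‖cr s θ‖ - r| ≤ δ
            rw [norm_cr hs0.le]; exact hsδ⟩
          rw [indicator_of_mem this, indicator_of_mem (show θ ∈ {θ : ℝ | cr s θ ∈ G} from h)]
        · rw [indicator_of_notMem (fun h' => h h'.1),
            indicator_of_notMem (show θ ∉ {θ : ℝ | cr s θ ∈ G} from h)]
      simp_rw [h2]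
      have hBm : MeasurableSet {θ : ℝ | cr s θ ∈ G} := by
        have : Measurable (fun θ : ℝ => cr s θ) :=
          continuous_cr.measurable.comp (measurable_const.prodMk measurable_id)
        exact this hG
      rw [lintegral_const_mul _ (measurable_const.indicator hBm), lintegral_indicator hBm]
      simp only [lintegral_const, MeasurableSet.univ, Measure.restrict_apply, univ_inter, one_mul]
      rw [Measure.restrict_apply hBm, inter_comm, ENNReal.ofReal_mul zero_le_two]
      refine mul_le_mul' (ENNReal.ofReal_le_ofReal (by linarith)) ?_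
      rw [ang, Measure.real, ENNReal.ofReal_toReal]
      exact ((measure_mono inter_subset_left).trans_lt (by simp)).ne
    · have h2 : ∀ θ, (G ∩ {z : ℂ | |‖z‖ - r| ≤ δ}).indicator (fun _ => (1:ℝ≥0∞)) (cr s θ) = 0 := by
        intro θ
        refine indicator_of_notMem (fun h => hsδ ?_) _
        have h3 : |‖cr s θ‖ - r| ≤ δ := h.2
        rwa [norm_cr hs0.le] at h3
      simp_rw [h2]
      simp
  refine (setLIntegral_mono' measurableSet_Ioi hpt).trans ?_
  refine (setLIntegral_le_lintegral _ _).trans ?_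
  rw [lintegral_indicator measurableSet_Ioc]
  have h3 : ∫⁻ s in Ioc (r - δ - 1) (r + δ), (if r - δ ≤ s then ENNReal.ofReal (2 * ang G s) else 0)
      = ∫⁻ s in Icc (r - δ) (r + δ), ENNReal.ofReal (2 * ang G s) := by
    rw [← lintegral_indicator measurableSet_Ioc, ← lintegral_indicator measurableSet_Icc]
    congr 1
    ext s
    by_cases h : s ∈ Icc (r - δ) (r + δ)
    · rw [indicator_of_mem h, indicator_of_mem (show s ∈ Ioc (r - δ - 1) (r + δ) from
        ⟨by linarith [h.1], h.2⟩), if_pos h.1]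
    · rw [indicator_of_notMem h]
      by_cases h' : s ∈ Ioc (r - δ - 1) (r + δ)
      · rw [indicator_of_mem h', if_neg (fun h'' => h ⟨h'', h'.2⟩)]
      · rw [indicator_of_notMem h']
  rw [h3, ← ofReal_integral_eq_lintegral_ofReal]
  · rw [integral_const_mul, integral_Icc_eq_integral_Ioc,
      ← intervalIntegral.integral_of_le (by linarith)]
  · refine Integrable.const_mul ?_ 2
    have := (locallyIntegrable_ang hG).integrableOn_isCompact (isCompact_Icc (a := r - δ) (b := r + δ))
    exact this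
  · exact Filter.Eventually.of_forall fun s => mul_nonneg zero_le_two (ang_nonneg G s)

theorem nullTrace_of {G : Set ℂ} (hG : MeasurableSet G) {r : ℝ} (hr1 : r ≤ 1)
    (hd : HasDerivAt (fun x => ∫ s in (0:ℝ)..x, ang G s) (ang G r) r) (h0 : ang G r = 0) :
    NullTrace G r := by
  set F : ℝ → ℝ := fun x => ∫ s in (0:ℝ)..x, ang G s with hF
  rw [h0] at hd
  have h1 := hd.tendsto_slope_zero
  have hr : Tendsto (fun δ : ℝ => δ⁻¹ * (F (r + δ) - F r)) (𝓝[>] 0) (𝓝 0) :=
    h1.mono_left (nhdsWithin_mono _ fun x hx => ne_of_gt hx)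
  have hl : Tendsto (fun δ : ℝ => (-δ)⁻¹ * (F (r + -δ) - F r)) (𝓝[>] 0) (𝓝 0) := by
    have h2 : Tendsto (fun δ : ℝ => -δ) (𝓝[>] 0) (𝓝[≠] 0) := by
      refine tendsto_nhdsWithin_iff.mpr ⟨?_, ?_⟩
      · have : Tendsto (fun δ : ℝ => -δ) (𝓝 0) (𝓝 (-0)) := tendsto_id.neg
        rw [neg_zero] at this
        exact this.mono_left nhdsWithin_le_nhds
      · filter_upwards [self_mem_nhdsWithin] with δ hδ
        have : (0:ℝ) < δ := hδ
        simp only [mem_compl_iff, mem_singleton_iff, neg_eq_zero]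
        exact this.ne'
    exact h1.comp h2
  unfold NullTrace
  have hsum : Tendsto (fun δ : ℝ => 2 * (δ⁻¹ * (F (r + δ) - F r) + (-δ)⁻¹ * (F (r + -δ) - F r)))
      (𝓝[>] 0) (𝓝 0) := by
    have := (hr.add hl).const_mul 2
    simpa using this
  refine squeeze_zero' ?_ ?_ hsum
  · filter_upwards [self_mem_nhdsWithin] with δ hδ
    exact div_nonneg measureReal_nonneg (le_of_lt hδ)
  · have h4 : Ioo (0:ℝ) 1 ∈ 𝓝[>] (0:ℝ) := Ioo_mem_nhdsGT one_pos
    filter_upwards [h4] with δ hδ
    have h5 := volume_annulus_le hG hr1 hδ.1 hδ.2.le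
    have h6 : ∫ s in (r - δ)..(r + δ), ang G s = F (r + δ) - F (r - δ) := by
      simp only [hF]
      rw [intervalIntegral.integral_interval_sub_left (ang_intervalIntegrable hG _ _)
        (ang_intervalIntegrable hG _ _)]
    rw [h6] at h5
    rw [div_le_iff₀ hδ.1]
    refine h5.trans (le_of_eq ?_)
    have : δ ≠ 0 := hδ.1.ne'
    rw [← sub_eq_add_neg]
    field_simp
    ring

end Pool.Agent.Helper51
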