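import Pool.Agent.Helper51.Num3
import Pool.Agent.Helper51.Compact3

set_option autoImplicit false
set_option linter.unusedSectionVars false

open MeasureTheory Set Filter Topology Metric
open scoped ENNReal NNReal Pointwise Convolution

namespace Pool.Agent.Helper51

section trace

variable {X Y : Type*} [NormedAddCommGroup X] [NormedSpace ℝ X] [FiniteDimensional ℝ X]
  [NormedAddCommGroup Y] [NormedSpace ℝ Y] [FiniteDimensional ℝ Y]

theorem trace_prod_split (L : X × Y →ₗ[ℝ] X × Y) :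
    LinearMap.trace ℝ (X × Y) L
      = LinearMap.trace ℝ X (LinearMap.fst ℝ X Y ∘ₗ L ∘ₗ LinearMap.inl ℝ X Y)
        + LinearMap.trace ℝ Y (LinearMap.snd ℝ X Y ∘ₗ L ∘ₗ LinearMap.inr ℝ X Y) := by
  have h : L = L ∘ₗ (LinearMap.inl ℝ X Y ∘ₗ LinearMap.fst ℝ X Y)
      + L ∘ₗ (LinearMap.inr ℝ X Y ∘ₗ LinearMap.snd ℝ X Y) := by
    have h0 : L (0, 0) = 0 := map_zero L
    ext x <;> simp [h0]
  conv_lhs => rw [h]
  rw [map_add]
  congr 1
  · rw [← LinearMap.comp_assoc, LinearMap.trace_comp_comm']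
  · rw [← LinearMap.comp_assoc, LinearMap.trace_comp_comm']

/-- the trace as a continuous linear functional. -/
noncomputable def trL (X : Type*) [NormedAddCommGroup X] [NormedSpace ℝ X]
    [FiniteDimensional ℝ X] : (X →L[ℝ] X) →L[ℝ] ℝ :=
  LinearMap.toContinuousLinearMap
    ((LinearMap.trace ℝ X) ∘ₗ (ContinuousLinearMap.coeLM ℝ : (X →L[ℝ] X) →ₗ[ℝ] (X →ₗ[ℝ] X)))

theorem trL_apply (L : X →L[ℝ] X) : trL X L = LinearMap.trace ℝ X (L : X →ₗ[ℝ] X) := rfl

theorem dv_prod {F : X × Y → X × Y} {p : X × Y} (hF : DifferentiableAt ℝ F p) :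
    dv F p = dv (fun x => (F (x, p.2)).1) p.1 + dv (fun y => (F (p.1, y)).2) p.2 := by
  have h := hF.hasFDerivAt
  have h1 : HasFDerivAt (fun x => (F (x, p.2)).1)
      ((ContinuousLinearMap.fst ℝ X Y).comp ((fderiv ℝ F p).comp
        (ContinuousLinearMap.inl ℝ X Y))) p.1 := by
    have a1 : HasFDerivAt (fun x : X => (x, p.2)) (ContinuousLinearMap.inl ℝ X Y) p.1 :=
      hasFDerivAt_prodMk_left p.1 p.2
    have a2 : HasFDerivAt F (fderiv ℝ F p) ((fun x : X => (x, p.2)) p.1) := h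
    exact (ContinuousLinearMap.fst ℝ X Y).hasFDerivAt.comp p.1 (a2.comp p.1 a1)
  have h2 : HasFDerivAt (fun y => (F (p.1, y)).2)
      ((ContinuousLinearMap.snd ℝ X Y).comp ((fderiv ℝ F p).comp
        (ContinuousLinearMap.inr ℝ X Y))) p.2 := by
    have a1 : HasFDerivAt (fun y : Y => (p.1, y)) (ContinuousLinearMap.inr ℝ X Y) p.2 :=
      hasFDerivAt_prodMk_right p.1 p.2
    have a2 : HasFDerivAt F (fderiv ℝ F p) ((fun y : Y => (p.1, y)) p.2) := h
    exact (ContinuousLinearMap.snd ℝ X Y).hasFDerivAt.comp p.2 (a2.comp p.2 a1)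
  rw [dv_of_hasFDerivAt h1, dv_of_hasFDerivAt h2, dv, trace_prod_split]
  rfl

end trace

/-- the fibre space. -/
abbrev WW (j : ℕ) := EuclideanSpace ℝ (Fin j)

instance instHaarProd (j : ℕ) : (volume : Measure (ℂ × WW j)).IsAddHaarMeasure := by
  rw [Measure.volume_eq_prod]; infer_instance

/-- the model body. -/
def Om (j : ℕ) : Set (ℂ × WW j) := {p | ‖p.1‖ + ‖p.2‖ < 1}

/-- the cylinder over a planar set. -/
def cyl (j : ℕ) (D : Set ℂ) : Set (ℂ × WW j) := Om j ∩ Prod.fst ⁻¹' D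

/-- volume of the unit ball of the fibre. -/
noncomputable def kap (j : ℕ) : ℝ := (volume : Measure (WW j)).real (ball 0 1)

theorem kap_pos (j : ℕ) : 0 < kap j := by
  unfold kap
  exact ENNReal.toReal_pos (measure_ball_pos _ _ one_pos).ne' measure_ball_lt_top.ne

theorem isOpen_Om (j : ℕ) : IsOpen (Om j) := isOpen_lt (by fun_prop) continuous_const

theorem measurableSet_cyl {j : ℕ} {D : Set ℂ} (hD : MeasurableSet D) : MeasurableSet (cyl j D) :=
  (isOpen_Om j).measurableSet.inter (hD.preimage measurable_fst)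

theorem Om_subset (j : ℕ) : Om j ⊆ closedBall (0:ℂ) 1 ×ˢ closedBall (0 : WW j) 1 := by
  intro p hp
  have hp' : ‖p.1‖ + ‖p.2‖ < 1 := hp
  constructor
  · rw [mem_closedBall_zero_iff]; linarith [norm_nonneg p.2]
  · rw [mem_closedBall_zero_iff]; linarith [norm_nonneg p.1]

theorem Om_finite (j : ℕ) : (volume : Measure (ℂ × WW j)) (Om j) ≠ ∞ := by
  refine ((measure_mono (Om_subset j)).trans_lt ?_).ne
  exact ((isCompact_closedBall _ _).prod (isCompact_closedBall _ _)).measure_lt_top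

theorem real_volume_fibre (j : ℕ) {r : ℝ} (hr : 0 < r) :
    (volume : Measure (WW j)).real (ball 0 r) = r ^ j * kap j := by
  have h := Measure.addHaar_ball_of_pos (volume : Measure (WW j)) (0 : WW j) hr
  rw [Measure.real, h, finrank_euclideanSpace_fin, ENNReal.toReal_mul,
    ENNReal.toReal_ofReal (by positivity)]
  rfl

end Pool.Agent.Helper51
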