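import Pool.Agent.Helper51.Thin1

set_option autoImplicit false
set_option linter.unusedSectionVars false

open MeasureTheory Set Filter Topology Metric
open scoped ENNReal NNReal Pointwise Convolution

namespace Pool.Agent.Helper51

theorem cyl_bound {j : ℕ} {D' : Set ℂ} (hD' : MeasurableSet D') {q : ℝ}
    (hq : ∀ X, TA' j X → ∫ z in D', dv X z ≤ q) {F : ℂ × WW j → ℂ × WW j}
    (hF : ContDiff ℝ 1 F) (hc : HasCompactSupport F)
    (hs : tsupport F ⊆ Om j) (hN : ∀ p, ‖(F p).1‖ ≤ 1) :
    ∫ p in cyl j D', dv F p ≤ kap j * q := by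
  have hκ := kap_pos j
  set K : Set (WW j) := closedBall 0 1 with hK
  have hKc : IsCompact K := isCompact_closedBall _ _
  have hFzero : ∀ p, p ∉ Om j → F p = 0 := fun p hp => by
    by_contra hne
    exact hp (hs (subset_tsupport _ hne))
  have hFd : ∀ p, HasFDerivAt F (fderiv ℝ F p) p := fun p =>
    (hF.differentiable one_ne_zero p).hasFDerivAt
  have hF' : Continuous (fderiv ℝ F) := hF.continuous_fderiv one_ne_zero
  set f : ℂ → WW j → ℂ := fun z y => (F (z, y)).1 with hf
  set f' : ℂ → WW j → (ℂ →L[ℝ] ℂ) := fun z y => (ContinuousLinearMap.fst ℝ ℂ (WW j)).comp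
    ((fderiv ℝ F (z, y)).comp (ContinuousLinearMap.inl ℝ ℂ (WW j))) with hf'
  have hfd : ∀ z y, HasFDerivAt (fun z => f z y) (f' z y) z := by
    intro z y
    have a1 : HasFDerivAt (fun x : ℂ => (x, y)) (ContinuousLinearMap.inl ℝ ℂ (WW j)) z :=
      hasFDerivAt_prodMk_left z y
    have a2 : HasFDerivAt F (fderiv ℝ F (z, y)) ((fun x : ℂ => (x, y)) z) := hFd (z, y)
    exact (ContinuousLinearMap.fst ℝ ℂ (WW j)).hasFDerivAt.comp z (a2.comp z a1)
  have hfc : Continuous (Function.uncurry f) := by
    have h1 : Continuous (fun p : ℂ × WW j => (F p).1) := hF.continuous.fst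
    exact h1
  have hfc' : Continuous (Function.uncurry f') := by
    simp only [Function.uncurry_def, hf']
    refine Continuous.clm_comp continuous_const (Continuous.clm_comp ?_ continuous_const)
    exact hF'
  set Xb : ℂ → ℂ := fun z => ∫ y in K, f z y with hXb
  have hXbC : ContDiff ℝ 1 Xb := contDiff_setIntegral_param hKc hfd hfc hfc'
  have hXbd : ∀ z, HasFDerivAt Xb (∫ y in K, f' z y) z := fun z =>
    hasFDerivAt_setIntegral_param hKc hfd hfc hfc' z
  -- admissibility
  have hTA : TA' j (fun z => (kap j)⁻¹ • Xb z) := by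
    refine ⟨hXbC.const_smul _, ?_, ?_⟩
    · -- support away from the rim
      rcases (tsupport F).eq_empty_or_nonempty with he | he
      · refine ⟨0, one_pos, fun z _ => ?_⟩
        have : ∀ y, f z y = 0 := fun y => by
          have : F (z, y) = 0 := by
            by_contra hne
            have := subset_tsupport F hne
            rw [he] at this; exact this
          simp only [hf, this, Prod.fst_zero]
        simp only [hXb, this]; simp
      · obtain ⟨p₀, hp₀, hmax⟩ := hc.isCompact.exists_isMaxOn he
          (f := fun p : ℂ × WW j => ‖p.1‖) (by fun_prop)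
        have hp₀1 : ‖p₀.1‖ < 1 := by
          have : ‖p₀.1‖ + ‖p₀.2‖ < 1 := hs hp₀
          linarith [norm_nonneg p₀.2]
        refine ⟨(‖p₀.1‖ + 1) / 2, by linarith, fun z hz => ?_⟩
        have : ∀ y, f z y = 0 := fun y => by
          have : F (z, y) = 0 := by
            by_contra hne
            have h1 : ‖z‖ ≤ ‖p₀.1‖ := hmax (subset_tsupport F hne)
            linarith
          simp only [hf, this, Prod.fst_zero]
        simp only [hXb, this]; simp
    · intro z hz
      have h1 : ‖Xb z‖ ≤ 1 * (volume : Measure (WW j)).real (ball 0 (1 - ‖z‖)) := by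
        have e1 : Xb z = ∫ y in ball (0 : WW j) (1 - ‖z‖), f z y := by
          simp only [hXb]
          refine (setIntegral_eq_of_subset_of_forall_sdiff_eq_zero measurableSet_closedBall ?_ ?_)
          · intro y hy
            rw [mem_ball_zero_iff] at hy
            rw [hK, mem_closedBall_zero_iff]
            linarith [norm_nonneg z]
          · intro y hy
            have hy2 : 1 - ‖z‖ ≤ ‖y‖ := by
              have := hy.2; rwa [mem_ball_zero_iff, not_lt] at this
            have : F (z, y) = 0 := hFzero _ (fun h => by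
              have h' : ‖z‖ + ‖y‖ < 1 := h
              linarith)
            simp only [hf, this, Prod.fst_zero]
        rw [e1]
        exact norm_setIntegral_le_of_norm_le_const measure_ball_lt_top fun y _ => hN _
      rw [real_volume_fibre j (by linarith), one_mul] at h1
      rw [norm_smul, Real.norm_eq_abs, abs_of_pos (inv_pos.mpr hκ), inv_mul_le_iff₀ hκ]
      linarith
  have hqX := hq _ hTA
  -- identify the divergences
  have hdvX : ∀ z, dv (fun z => (kap j)⁻¹ • Xb z) z = (kap j)⁻¹ * ∫ y in K, dv (fun x => f x y) z := by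
    intro z
    have h1 : HasFDerivAt (fun z => (kap j)⁻¹ • Xb z) ((kap j)⁻¹ • ∫ y in K, f' z y) z :=
      (hXbd z).const_smul (kap j)⁻¹
    have hint : IntegrableOn (fun y => f' z y) K :=
      (hfc'.comp (Continuous.prodMk_right z)).continuousOn.integrableOn_compact hKc
    rw [dv_of_hasFDerivAt h1, ← trL_apply, map_smul, smul_eq_mul,
      ← ContinuousLinearMap.integral_comp_comm _ hint]
    congr 1
    refine integral_congr_ae (Filter.Eventually.of_forall fun y => ?_)
    show trL ℂ (f' z y) = dv (fun x => f x y) z
    rw [dv_of_hasFDerivAt (hfd z y)]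
    rfl
  have hcyl : ∫ p in cyl j D', dv F p = ∫ p in D' ×ˢ (univ : Set (WW j)), dv F p := by
    have hsub : cyl j D' ⊆ D' ×ˢ (univ : Set (WW j)) := fun p hp => ⟨hp.2, mem_univ _⟩
    refine (setIntegral_eq_of_subset_of_forall_sdiff_eq_zero
      (hD'.prod MeasurableSet.univ) hsub ?_).symm
    intro p hp
    have hpO : p ∉ Om j := fun h => hp.2 ⟨h, hp.1.1⟩
    exact dv_eq_zero_of_notMem_tsupport fun h => hpO (hs h)
  have hidv : Integrable (dv F) (volume : Measure (ℂ × WW j)) := integrable_dv _ hF hc
  have hfub : ∫ p in D' ×ˢ (univ : Set (WW j)), dv F p = ∫ z in D', ∫ y, dv F (z, y) := by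
    rw [Measure.volume_eq_prod, ← Measure.prod_restrict, Measure.restrict_univ, integral_prod]
    have : IntegrableOn (dv F) (D' ×ˢ (univ : Set (WW j))) (volume : Measure (ℂ × WW j)) :=
      hidv.integrableOn
    rw [Measure.volume_eq_prod, IntegrableOn, ← Measure.prod_restrict, Measure.restrict_univ] at this
    exact this
  have hinner : ∀ z, ∫ y, dv F (z, y) = ∫ y in K, dv (fun x => f x y) z := by
    intro z
    have e1 : ∀ y, dv F (z, y) = dv (fun x => f x y) z + dv (fun y => (F (z, y)).2) y := fun y =>
      dv_prod (hF.differentiable one_ne_zero (z, y))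
    have hG : ContDiff ℝ 1 (fun y : WW j => (F (z, y)).2) :=
      (contDiff_snd.comp hF).comp (contDiff_prodMk_right z)
    have hGc : HasCompactSupport (fun y : WW j => (F (z, y)).2) := by
      refine HasCompactSupport.intro hKc fun y hy => ?_
      have : F (z, y) = 0 := hFzero _ (fun h => by
        have h' : ‖z‖ + ‖y‖ < 1 := h
        rw [hK, mem_closedBall_zero_iff, not_le] at hy
        linarith [norm_nonneg z])
      rw [this, Prod.snd_zero]
    have hg1c : Continuous (fun y => dv (fun x => f x y) z) := by
      have : (fun y => dv (fun x => f x y) z) = fun y => trL ℂ (f' z y) := by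
        ext y; rw [dv_of_hasFDerivAt (hfd z y)]; rfl
      rw [this]
      exact (trL ℂ).continuous.comp (hfc'.comp (Continuous.prodMk_right z))
    have hg1z : ∀ y, y ∉ K → dv (fun x => f x y) z = 0 := by
      intro y hy
      have : (fun x => f x y) = fun _ => 0 := by
        ext x
        have : F (x, y) = 0 := hFzero _ (fun h => by
          have h' : ‖x‖ + ‖y‖ < 1 := h
          rw [hK, mem_closedBall_zero_iff, not_le] at hy
          linarith [norm_nonneg x])
        simp only [hf, this, Prod.fst_zero]
      rw [this]; simp [dv]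
    have hg1i : Integrable (fun y => dv (fun x => f x y) z) :=
      hg1c.integrable_of_hasCompactSupport (HasCompactSupport.intro hKc hg1z)
    simp_rw [e1]
    rw [integral_add hg1i (integrable_dv _ hG hGc), integral_dv_eq_zero _ hG hGc, add_zero]
    exact (setIntegral_eq_integral_of_forall_compl_eq_zero fun y hy => hg1z y hy).symm
  rw [hcyl, hfub]
  simp_rw [hinner]
  have hfin : ∫ z in D', dv (fun z => (kap j)⁻¹ • Xb z) z
      = (kap j)⁻¹ * ∫ z in D', ∫ y in K, dv (fun x => f x y) z := by
    simp_rw [hdvX]
    rw [integral_const_mul]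
  rw [hfin, inv_mul_le_iff₀ hκ] at hqX
  exact hqX

end Pool.Agent.Helper51
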