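import Pool.Agent.Helper51.Thin2

set_option autoImplicit false
set_option linter.unusedSectionVars false

open MeasureTheory Set Filter Topology Metric
open scoped ENNReal NNReal Pointwise Convolution

namespace Pool.Agent.Helper51

/-- gauge with a vertical weight. -/
noncomputable def NN (j : ℕ) (ε : ℝ) (p : ℂ × WW j) : ℝ := √(‖p.1‖ ^ 2 + (ε * ‖p.2‖) ^ 2)

/-- a smooth replacement of the reciprocal of the distance to the rim. -/
theorem exists_omega {a R : ℝ} (ha : 0 < a) (haR : a ≤ R) (hR : R < 1) :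
    ∃ ω ω' nn nn' : ℝ → ℝ, ∃ c, Rad ω ω' (a / 2) c ∧ Rad nn nn' (a / 2) 0 ∧ (∀ r, 0 < ω r) ∧
      (∀ r, a ≤ r → r ≤ R → ω r = (1 - r)⁻¹) ∧ (∀ r, a ≤ r → r ≤ R → nn r = r⁻¹) ∧
      (∀ r, 0 < r → ω' r * r⁻¹ = nn r * (ω r) ^ 2) := by
  set R2 : ℝ := (1 + R) / 2 with hR2
  set δ2 : ℝ := (1 - R) / 2 with hδ2
  have hδ2pos : 0 < δ2 := by rw [hδ2]; linarith
  have hδR : δ2 < R2 := by rw [hδ2, hR2]; linarith
  have ro : Rad (hout (a / 2) (a / 2)) (hout' (a / 2) (a / 2)) (a / 2) 0 :=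
    rad_hout (by linarith) (by linarith)
  have ri : Rad (hin R2 δ2) (hin' R2 δ2) (R2 - δ2) 1 := rad_hin hδ2pos hδR
  have hR2δ : R2 - δ2 = R := by rw [hR2, hδ2]; ring
  set ζ : ℝ → ℝ := fun r => hout (a / 2) (a / 2) r * hin R2 δ2 r with hζ
  have hζc : Continuous ζ := (continuous_hout _ _).mul (continuous_hin _ _)
  have hζ0 : ∀ r, 0 ≤ ζ r := fun r => mul_nonneg (hout_nonneg _ _ _) (hin_nonneg _ _ _)
  have hζ1 : ∀ r, ζ r ≤ 1 := fun r => mul_le_one₀ (hout_le_one _ _ _) (hin_nonneg _ _ _)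
    (hin_le_one _ _ _)
  have hζa : ∀ r, r ≤ a / 2 → ζ r = 0 := fun r hr => by
    simp only [hζ]; rw [hout_eq_zero (by linarith) hr, zero_mul]
  have hζR : ∀ r, R2 ≤ r → ζ r = 0 := fun r hr => by
    simp only [hζ]; rw [hin_eq_zero hδ2pos hr, mul_zero]
  have hζm : ∀ r, a ≤ r → r ≤ R → ζ r = 1 := fun r h1 h2 => by
    simp only [hζ]
    rw [hout_eq_one (by linarith) (by linarith), hin_eq_one hδ2pos (by rw [hR2δ]; exact h2), mul_one]
  set μ : ℝ → ℝ := fun r => a + ∫ s in a..r, ζ s with hμ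
  have hμd : ∀ r, HasDerivAt μ (ζ r) r := fun r =>
    (intervalIntegral.integral_hasDerivAt_right (hζc.intervalIntegrable _ _)
      (hζc.stronglyMeasurableAtFilter _ _) hζc.continuousAt).const_add a
  have hii : ∀ x y, IntervalIntegrable ζ volume x y := fun x y => hζc.intervalIntegrable _ _
  have hμsub : ∀ x y, μ y - μ x = ∫ s in x..y, ζ s := fun x y => by
    simp only [hμ]
    rw [add_sub_add_left_eq_sub, intervalIntegral.integral_interval_sub_left (hii _ _) (hii _ _)]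
  have hμa : μ a = a := by simp [hμ]
  have hμm : ∀ r, a ≤ r → r ≤ R → μ r = r := by
    intro r h1 h2
    have h3 : ∫ s in a..r, ζ s = ∫ s in a..r, (1:ℝ) := by
      refine intervalIntegral.integral_congr fun s hs => ?_
      rw [uIcc_of_le h1] at hs
      exact hζm s hs.1 (hs.2.trans h2)
    have h4 := hμsub a r
    rw [h3, hμa] at h4
    simp at h4
    linarith
  have hμle1 : ∀ r, μ r ≤ R2 := by
    have hmono : Monotone μ := monotone_of_hasDerivAt_nonneg hμd hζ0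
    have hRR : μ R2 ≤ R2 := by
      have h3 : ∫ s in a..R2, ζ s ≤ ∫ s in a..R2, (1:ℝ) := by
        refine intervalIntegral.integral_mono_on ?_ (hii _ _) (by simp) fun s _ => hζ1 s
        rw [hR2]; linarith
      have h4 := hμsub a R2
      rw [hμa] at h4
      simp at h3
      linarith
    intro r
    rcases le_total r R2 with h | h
    · exact (hmono h).trans hRR
    · have h3 : ∫ s in R2..r, ζ s = ∫ s in R2..r, (0:ℝ) := by
        refine intervalIntegral.integral_congr fun s hs => ?_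
        rw [uIcc_of_le h] at hs
        exact hζR s hs.1
      have h4 := hμsub R2 r
      rw [h3] at h4
      simp at h4
      linarith
  have hμa2 : ∀ r, r < a / 2 → μ r = μ (a / 2) := by
    intro r hr
    have h3 : ∫ s in r..(a / 2), ζ s = ∫ s in r..(a / 2), (0:ℝ) := by
      refine intervalIntegral.integral_congr fun s hs => ?_
      rw [uIcc_of_le hr.le] at hs
      exact hζa s hs.2
    have h4 := hμsub r (a / 2)
    rw [h3] at h4
    simp at h4
    linarith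
  have hpos : ∀ r, 0 < 1 - μ r := fun r => by
    have := hμle1 r
    rw [hR2] at this
    linarith
  refine ⟨fun r => (1 - μ r)⁻¹, fun r => ζ r * ((1 - μ r)⁻¹) ^ 2, fun r => ζ r * r⁻¹,
    fun r => (hout' (a / 2) (a / 2) r * hin R2 δ2 r + hout (a / 2) (a / 2) r * hin' R2 δ2 r) * r⁻¹
      + ζ r * (-(r ^ 2)⁻¹), (1 - μ (a / 2))⁻¹, ?_, ?_, ?_, ?_, ?_, ?_⟩
  · refine ⟨by linarith, ?_, ?_, ?_, ?_⟩
    · intro r hr; rw [hμa2 r hr]
    · intro r hr; rw [hζa r hr.le, zero_mul]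
    · intro r _
      have h1 : HasDerivAt (fun r => 1 - μ r) (-ζ r) r := (hμd r).const_sub 1
      refine (h1.inv (hpos r).ne').congr_deriv ?_
      rw [neg_neg, inv_pow, div_eq_mul_inv]
    · intro r _
      have h1 : Continuous (fun r => 1 - μ r) := by
        rw [continuous_iff_continuousAt]
        exact fun x => ((hμd x).const_sub 1).continuousAt
      exact (hζc.mul ((h1.inv₀ fun x => (hpos x).ne').pow 2)).continuousAt
  · refine ⟨by linarith, ?_, ?_, ?_, ?_⟩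
    · intro r hr; rw [hζa r hr.le, zero_mul]
    · intro r hr
      rw [hζa r hr.le, hout_eq_zero (by linarith) hr.le, hout'_eq_zero (by linarith) (Or.inl hr.le)]
      ring
    · intro r hr
      have h1 := (ro.der r hr).mul (ri.der r hr)
      have h2 : HasDerivAt (fun r : ℝ => r⁻¹) (-(r ^ 2)⁻¹) r := hasDerivAt_inv hr.ne'
      exact h1.mul h2
    · intro r hr
      have c1 := ro.cont r hr
      have c2 := ri.cont r hr
      have c3 : ContinuousAt (hout (a / 2) (a / 2)) r := (continuous_hout _ _).continuousAt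
      have c4 : ContinuousAt (hin R2 δ2) r := (continuous_hin _ _).continuousAt
      have c5 : ContinuousAt (fun r : ℝ => r⁻¹) r := continuousAt_inv₀ hr.ne'
      have c6 : ContinuousAt (fun r : ℝ => -(r ^ 2)⁻¹) r := by
        refine ContinuousAt.neg (ContinuousAt.inv₀ (by fun_prop) (by positivity))
      exact (((c1.mul c4).add (c3.mul c2)).mul c5).add (hζc.continuousAt.mul c6)
  · intro r; exact inv_pos.mpr (hpos r)
  · intro r h1 h2
    show (1 - μ r)⁻¹ = (1 - r)⁻¹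
    rw [hμm r h1 h2]
  · intro r h1 h2
    show ζ r * r⁻¹ = r⁻¹
    rw [hζm r h1 h2, one_mul]
  · intro r _; ring

theorem dv_fibre_smul (j : ℕ) (c : ℝ) (y : WW j) : dv (fun y : WW j => c • y) y = c * j := by
  have h1 : HasFDerivAt (fun y : WW j => c • y) (c • ContinuousLinearMap.id ℝ (WW j)) y :=
    (hasFDerivAt_id y).const_smul c
  rw [dv_of_hasFDerivAt h1]
  have : ((c • ContinuousLinearMap.id ℝ (WW j) : WW j →L[ℝ] WW j) : WW j →ₗ[ℝ] WW j)
      = c • LinearMap.id := rfl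
  rw [this, map_smul, LinearMap.trace_id, finrank_euclideanSpace_fin, smul_eq_mul]

/-- the fibre mass of the cutoff. -/
noncomputable def kchi (j : ℕ) (δ : ℝ) : ℝ := ∫ y : WW j, hin (1 - δ) δ (‖y‖ ^ 2)

theorem lift_exists {j : ℕ} {Y : ℂ → ℂ} (hY : TA j Y) {δ : ℝ} (hδ : 0 < δ) (hδ1 : 2 * δ < 1) :
    ∃ F : ℂ × WW j → ℂ × WW j, ContDiff ℝ 1 F ∧ HasCompactSupport F ∧ tsupport F ⊆ Om j ∧
      (∀ ε : ℝ, ∀ p, NN j ε (F p) ≤ √(1 + ε ^ 2)) ∧
      ∀ D : Set ℂ, MeasurableSet D → ∫ p in cyl j D, dv F p = kchi j δ * ∫ z in D, dv Y z := by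
  obtain ⟨a₀, ha₀, hYa₀⟩ := hY.z0
  obtain ⟨R₀, hR₀, hYR₀⟩ := hY.rm
  set a : ℝ := min a₀ (1/2) with haa
  set R : ℝ := max R₀ (3/4) with hRR
  have ha : 0 < a := lt_min ha₀ (by norm_num)
  have haR : a ≤ R := (min_le_right _ _).trans ((by norm_num : (1/2:ℝ) ≤ 3/4).trans (le_max_right _ _))
  have hR : R < 1 := max_lt hR₀ (by norm_num)
  have hYa : ∀ z, ‖z‖ ≤ a → Y z = 0 := fun z hz => hYa₀ z (hz.trans (min_le_left _ _))
  have hYR : ∀ z, R ≤ ‖z‖ → Y z = 0 := fun z hz => hYR₀ z ((le_max_left _ _).trans hz)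
  obtain ⟨ω, ω', nn, nn', c, Hω, Hnn, hωpos, hωeq, hnneq, hωnn⟩ := exists_omega ha haR hR
  have hYne : ∀ z, Y z ≠ 0 → a ≤ ‖z‖ ∧ ‖z‖ ≤ R := fun z hz =>
    ⟨not_lt.mp fun h => hz (hYa z h.le), not_lt.mp fun h => hz (hYR z h.le)⟩
  have hYd : ∀ z, HasFDerivAt Y (fderiv ℝ Y z) z := fun z =>
    (hY.cd.differentiable one_ne_zero z).hasFDerivAt
  -- scalar functions
  set g : ℂ → ℝ := fun z => -(nn ‖z‖ * inner ℝ z (Y z) * ω ‖z‖) with hg
  have hgC : ContDiff ℝ 1 g := by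
    have h1 : ContDiff ℝ 1 (fun z : ℂ => inner ℝ z (Y z)) := contDiff_id.inner ℝ hY.cd
    exact ((Hnn.contDiff.mul h1).mul Hω.contDiff).neg
  set χ : ℝ → ℝ := hin (1 - δ) δ with hχ
  set χ' : ℝ → ℝ := hin' (1 - δ) δ with hχ'
  have hχd : ∀ t, HasDerivAt χ (χ' t) t := by
    intro t
    have h1 : HasDerivAt (fun t : ℝ => (t - (1 - δ - δ)) / δ) (1 / δ) t :=
      ((hasDerivAt_id t).sub_const _).div_const δ
    have h2 := ((hasDerivAt_theta ((t - (1 - δ - δ)) / δ)).comp t h1).const_sub 1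
    rw [mul_one_div] at h2
    exact h2
  have hχC : ContDiff ℝ 1 χ := by
    rw [contDiff_one_iff_deriv]
    refine ⟨fun t => (hχd t).differentiableAt, ?_⟩
    have : deriv χ = χ' := by ext t; exact (hχd t).deriv
    rw [this, hχ']
    unfold hin'
    have := continuous_thetad
    fun_prop
  set s : ℂ × WW j → ℝ := fun p => χ (‖p.2‖ ^ 2 * (ω ‖p.1‖) ^ 2) * (ω ‖p.1‖) ^ j with hs
  have hωC : ContDiff ℝ 1 (fun p : ℂ × WW j => ω ‖p.1‖) := Hω.contDiff.comp contDiff_fst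
  have hsC : ContDiff ℝ 1 s := by
    have h1 : ContDiff ℝ 1 (fun p : ℂ × WW j => ‖p.2‖ ^ 2) := contDiff_snd.norm_sq ℝ
    exact (hχC.comp (h1.mul (hωC.pow 2))).mul (hωC.pow j)
  set G : ℂ × WW j → ℂ × WW j := fun p => (Y p.1, g p.1 • p.2) with hG
  have hGC : ContDiff ℝ 1 G :=
    (hY.cd.comp contDiff_fst).prodMk ((hgC.comp contDiff_fst).smul contDiff_snd)
  set F : ℂ × WW j → ℂ × WW j := fun p => s p • G p with hF
  have hFC : ContDiff ℝ 1 F := hsC.smul hGC
  -- support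
  have hFne : ∀ p, F p ≠ 0 → a ≤ ‖p.1‖ ∧ ‖p.1‖ ≤ R ∧ ‖p.2‖ ≤ √(1 - δ) * (1 - ‖p.1‖) := by
    intro p hp
    have hYp : Y p.1 ≠ 0 := by
      intro h0
      apply hp
      have hg0 : g p.1 = 0 := by simp only [hg, h0, inner_zero_right]; ring
      simp only [hF, hG, h0, hg0, zero_smul]
      rw [← Prod.zero_eq_mk, smul_zero]
    obtain ⟨h1, h2⟩ := hYne _ hYp
    refine ⟨h1, h2, ?_⟩
    have hsp : s p ≠ 0 := fun h0 => hp (by simp only [hF, h0, zero_smul])
    have hχp : χ (‖p.2‖ ^ 2 * (ω ‖p.1‖) ^ 2) ≠ 0 := fun h0 => hsp (by simp only [hs, h0, zero_mul])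
    have hlt : ‖p.2‖ ^ 2 * (ω ‖p.1‖) ^ 2 < 1 - δ := by
      by_contra hcon
      exact hχp (hin_eq_zero hδ (not_lt.mp hcon))
    rw [hωeq _ h1 h2] at hlt
    have hp1 : 0 < 1 - ‖p.1‖ := by linarith
    have h3 : ‖p.2‖ ^ 2 ≤ (√(1 - δ) * (1 - ‖p.1‖)) ^ 2 := by
      rw [mul_pow, Real.sq_sqrt (by linarith)]
      rw [inv_pow, ← div_eq_mul_inv, div_lt_iff₀ (by positivity)] at hlt
      exact hlt.le
    exact le_of_sq_le_sq h3 (by positivity)
  have hsqrt : √(1 - δ) < 1 := by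
    rw [Real.sqrt_lt' one_pos]; linarith
  set S : Set (ℂ × WW j) := {p | a ≤ ‖p.1‖ ∧ ‖p.1‖ ≤ R ∧ ‖p.2‖ ≤ √(1 - δ) * (1 - ‖p.1‖)} with hS
  have hSc : IsClosed S := by
    have e1 : S = {p : ℂ × WW j | a ≤ ‖p.1‖} ∩ ({p | ‖p.1‖ ≤ R} ∩
      {p | ‖p.2‖ ≤ √(1 - δ) * (1 - ‖p.1‖)}) := rfl
    rw [e1]
    have c1 : IsClosed {p : ℂ × WW j | a ≤ ‖p.1‖} := isClosed_le (by fun_prop) (by fun_prop)
    have c2 : IsClosed {p : ℂ × WW j | ‖p.1‖ ≤ R} := isClosed_le (by fun_prop) (by fun_prop)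
    have c3 : IsClosed {p : ℂ × WW j | ‖p.2‖ ≤ √(1 - δ) * (1 - ‖p.1‖)} :=
      isClosed_le (by fun_prop) (by fun_prop)
    exact c1.inter (c2.inter c3)
  have hSO : S ⊆ Om j := by
    rintro p ⟨h1, h2, h3⟩
    show ‖p.1‖ + ‖p.2‖ < 1
    have hp1 : 0 < 1 - ‖p.1‖ := by linarith
    nlinarith
  have hts : tsupport F ⊆ S := closure_minimal (fun p hp => hFne p hp) hSc
  have hcs : HasCompactSupport F := by
    have hK : IsCompact (closedBall (0:ℂ) 1 ×ˢ closedBall (0 : WW j) 1) :=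
      (isCompact_closedBall _ _).prod (isCompact_closedBall _ _)
    exact hK.of_isClosed_subset (isClosed_tsupport F) ((hts.trans hSO).trans (Om_subset j))
  -- divergence
  have hdv : ∀ p, dv F p = s p * dv Y p.1 := by
    intro p
    have hGd : DifferentiableAt ℝ G p := hGC.differentiable one_ne_zero p
    have d1 : HasFDerivAt (fun p : ℂ × WW j => ω ‖p.1‖)
        (((ω' ‖p.1‖ * ‖p.1‖⁻¹) • innerSL ℝ p.1).comp (ContinuousLinearMap.fst ℝ ℂ (WW j))) p :=
      (Hω.hasFDerivAt p.1).comp p hasFDerivAt_fst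
    have d2 : HasFDerivAt (fun p : ℂ × WW j => ‖p.2‖ ^ 2)
        ((2 • innerSL ℝ p.2).comp (ContinuousLinearMap.snd ℝ ℂ (WW j))) p :=
      ((hasStrictFDerivAt_norm_sq p.2).hasFDerivAt).comp p hasFDerivAt_snd
    have d3 : HasFDerivAt (fun p : ℂ × WW j => ‖p.2‖ ^ 2 * (ω ‖p.1‖) ^ 2) _ p := d2.mul (d1.pow 2)
    have d4' := (hχd (‖p.2‖ ^ 2 * (ω ‖p.1‖) ^ 2)).comp_hasFDerivAt p d3
    have d4 : HasFDerivAt (fun p : ℂ × WW j => χ (‖p.2‖ ^ 2 * (ω ‖p.1‖) ^ 2)) _ p := d4'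
    have d5 : HasFDerivAt (fun p : ℂ × WW j => χ (‖p.2‖ ^ 2 * (ω ‖p.1‖) ^ 2) * (ω ‖p.1‖) ^ j) _ p :=
      d4.mul (d1.pow j)
    have hdG : dv G p = dv Y p.1 + g p.1 * j := by
      rw [dv_prod hGd]
      congr 1
      exact dv_fibre_smul j (g p.1) p.2
    have hkey : ω' ‖p.1‖ * ‖p.1‖⁻¹ * inner ℝ p.1 (Y p.1) = - (g p.1 * ω ‖p.1‖) := by
      by_cases h0 : Y p.1 = 0
      · simp only [hg, h0, inner_zero_right]; ring
      · obtain ⟨h1, _⟩ := hYne _ h0
        rw [hωnn _ (ha.trans_le h1)]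
        simp only [hg]; ring
    have e1 : dv F p = s p * dv G p + _ := Helper51.dv_smul (s := s) d5 hGd
    rw [e1, hdG]
    simp only [hG, add_apply, smul_apply,
      ContinuousLinearMap.comp_apply, ContinuousLinearMap.coe_fst', ContinuousLinearMap.coe_snd',
      innerSL_apply_apply, smul_eq_mul, nsmul_eq_mul, hkey, real_inner_smul_right,
      real_inner_self_eq_norm_sq]
    rcases Nat.eq_zero_or_pos j with hj | hj
    · simp only [hs, hj]
      push_cast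
      ring
    · obtain ⟨i, hi⟩ : ∃ i, j = i + 1 := ⟨j - 1, by omega⟩
      have hpw : (ω ‖p.1‖) ^ j = (ω ‖p.1‖) ^ (j - 1) * ω ‖p.1‖ := by
        rw [← pow_succ]; congr 1; omega
      simp only [hs]
      rw [hpw]
      push_cast
      ring
  refine ⟨F, hFC, hcs, hts.trans hSO, ?_, ?_⟩
  · intro ε p
    by_cases hp : F p = 0
    · rw [hp]
      unfold NN
      simp
    · obtain ⟨h1, h2, h3⟩ := hFne p hp
      have hp1 : 0 < 1 - ‖p.1‖ := by linarith
      unfold NN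
      apply Real.sqrt_le_sqrt
      have hωv := hωeq _ h1 h2
      have hnv := hnneq _ h1 h2
      have hz0 : 0 < ‖p.1‖ := ha.trans_le h1
      have hs0 : 0 ≤ s p := mul_nonneg (hin_nonneg _ _ _) (pow_nonneg (hωpos _).le _)
      have hs1 : s p ≤ ((1 - ‖p.1‖)⁻¹) ^ j := by
        simp only [hs]
        rw [hωv]
        exact mul_le_of_le_one_left (by positivity) (hin_le_one _ _ _)
      have hYn : ‖Y p.1‖ ≤ (1 - ‖p.1‖) ^ j := hY.nb _ (by linarith)
      have hsY : s p * ‖Y p.1‖ ≤ 1 := by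
        calc s p * ‖Y p.1‖ ≤ ((1 - ‖p.1‖)⁻¹) ^ j * (1 - ‖p.1‖) ^ j :=
              mul_le_mul hs1 hYn (norm_nonneg _) (by positivity)
          _ = 1 := by rw [← mul_pow, inv_mul_cancel₀ hp1.ne', one_pow]
      have hgb : |g p.1| * ‖p.2‖ ≤ ‖Y p.1‖ := by
        have h4 : |g p.1| ≤ ‖Y p.1‖ * (1 - ‖p.1‖)⁻¹ := by
          simp only [hg]
          rw [hωv, hnv, abs_neg, abs_mul, abs_mul, abs_of_pos (inv_pos.mpr hz0),
            abs_of_pos (inv_pos.mpr hp1)]
          refine mul_le_mul_of_nonneg_right ?_ (inv_pos.mpr hp1).le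
          rw [inv_mul_le_iff₀ hz0]
          exact abs_real_inner_le_norm _ _
        have h5 : ‖p.2‖ ≤ 1 - ‖p.1‖ := by
          refine h3.trans ?_
          exact mul_le_of_le_one_left hp1.le hsqrt.le
        calc |g p.1| * ‖p.2‖ ≤ (‖Y p.1‖ * (1 - ‖p.1‖)⁻¹) * (1 - ‖p.1‖) :=
              mul_le_mul h4 h5 (norm_nonneg _) (by positivity)
          _ = ‖Y p.1‖ := by field_simp
      have n1 : ‖(F p).1‖ ≤ 1 := by
        have : (F p).1 = s p • Y p.1 := rfl
        rw [this, norm_smul, Real.norm_eq_abs, abs_of_nonneg hs0]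
        exact hsY
      have n2 : ‖(F p).2‖ ≤ 1 := by
        have : (F p).2 = s p • (g p.1 • p.2) := rfl
        rw [this, norm_smul, norm_smul, Real.norm_eq_abs, Real.norm_eq_abs, abs_of_nonneg hs0]
        exact (mul_le_mul_of_nonneg_left hgb hs0).trans hsY
      have n3 : ‖(F p).1‖ ^ 2 ≤ 1 := pow_le_one₀ (norm_nonneg _) n1
      have n4 : ‖(F p).2‖ ^ 2 ≤ 1 := pow_le_one₀ (norm_nonneg _) n2
      rw [mul_pow]
      have : ε ^ 2 * ‖(F p).2‖ ^ 2 ≤ ε ^ 2 := mul_le_of_le_one_right (sq_nonneg _) n4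
      linarith
  · intro D hD
    have hcyl : ∫ p in cyl j D, dv F p = ∫ p in D ×ˢ (univ : Set (WW j)), dv F p := by
      have hsub : cyl j D ⊆ D ×ˢ (univ : Set (WW j)) := fun p hp => ⟨hp.2, mem_univ _⟩
      refine (setIntegral_eq_of_subset_of_forall_sdiff_eq_zero
        (hD.prod MeasurableSet.univ) hsub ?_).symm
      intro p hp
      have hpO : p ∉ Om j := fun h => hp.2 ⟨h, hp.1.1⟩
      exact dv_eq_zero_of_notMem_tsupport fun h => hpO (hSO (hts h))
    have hidv : Integrable (dv F) (volume : Measure (ℂ × WW j)) := integrable_dv _ hFC hcs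
    have hfub : ∫ p in D ×ˢ (univ : Set (WW j)), dv F p = ∫ z in D, ∫ y, dv F (z, y) := by
      rw [Measure.volume_eq_prod, ← Measure.prod_restrict, Measure.restrict_univ, integral_prod]
      have : IntegrableOn (dv F) (D ×ˢ (univ : Set (WW j))) (volume : Measure (ℂ × WW j)) :=
        hidv.integrableOn
      rw [Measure.volume_eq_prod, IntegrableOn, ← Measure.prod_restrict, Measure.restrict_univ] at this
      exact this
    have hin' : ∀ z, ∫ y, dv F (z, y) = kchi j δ * dv Y z := by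
      intro z
      simp_rw [hdv]
      rw [integral_mul_const]
      congr 1
      have hw := hωpos ‖z‖
      have e1 : ∀ y : WW j, s (z, y) = (ω ‖z‖) ^ j * hin (1 - δ) δ (‖ω ‖z‖ • y‖ ^ 2) := by
        intro y
        simp only [hs, hχ]
        rw [norm_smul, Real.norm_eq_abs, abs_of_pos hw, mul_pow, mul_comm]
        congr 2
        ring
      simp_rw [e1]
      rw [integral_const_mul, Measure.integral_comp_smul volume
        (fun y : WW j => hin (1 - δ) δ (‖y‖ ^ 2)) (ω ‖z‖), finrank_euclideanSpace_fin,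
        abs_of_pos (by positivity), smul_eq_mul, ← mul_assoc, mul_inv_cancel₀ (by positivity),
        one_mul]
      rfl
    rw [hcyl, hfub]
    simp_rw [hin']
    rw [integral_const_mul]

end Pool.Agent.Helper51
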