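import Pool.Agent.Helper51.Thin3

set_option autoImplicit false
set_option linter.unusedSectionVars false

open MeasureTheory Set Filter Topology Metric
open scoped ENNReal NNReal Pointwise Convolution symmDiff

namespace Pool.Agent.Helper51

section gen

variable {X : Type*} [NormedAddCommGroup X] [NormedSpace ℝ X] [FiniteDimensional ℝ X]
  [MeasurableSpace X] [BorelSpace X] (μ : Measure X) [μ.IsAddHaarMeasure]

theorem translate_gen {Ω U E : Set X} (hE : MeasurableSet E) {C : ℝ} {h : X}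
    (hv : ∀ s : X → ℝ, ContDiff ℝ 1 s → HasCompactSupport s → tsupport s ⊆ Ω →
      (∀ x, |s x| ≤ 1) → ∫ x in E, fderiv ℝ s x h ∂μ ≤ C)
    (hUh : ∀ x ∈ U, ∀ t ∈ Icc (0:ℝ) 1, x + t • h ∈ Ω)
    {ψ : X → ℝ} (hψ : ContDiff ℝ 1 ψ) (hψc : HasCompactSupport ψ) (hψU : tsupport ψ ⊆ U)
    (hψ1 : ∀ x, |ψ x| ≤ 1) :
    ∫ x, (ind E (x + h) - ind E x) * ψ x ∂μ ≤ C := by
  set S : X → ℝ := fun x => ∫ t in Icc (0:ℝ) 1, ψ (x - t • h) with hS
  have hSd : ∀ x, HasFDerivAt S (∫ t in Icc (0:ℝ) 1, fderiv ℝ ψ (x - t • h)) x :=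
    fun x => steklov_hasFDerivAt hψ h x
  have hSC : ContDiff ℝ 1 S := steklov_contDiff hψ h
  set K2 : Set X := (fun p : X × ℝ => p.1 + p.2 • h) '' (tsupport ψ ×ˢ Icc (0:ℝ) 1) with hK2
  have hK2c : IsCompact K2 := (hψc.isCompact.prod isCompact_Icc).image (by fun_prop)
  have hSsupp : ∀ x, x ∉ K2 → S x = 0 := by
    intro x hx
    simp only [hS]
    refine setIntegral_eq_zero_of_forall_eq_zero fun t ht => ?_
    by_contra hne
    apply hx
    refine ⟨(x - t • h, t), ⟨subset_tsupport _ hne, ht⟩, ?_⟩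
    simp
  have hSt : tsupport S ⊆ Ω := by
    have h1 : tsupport S ⊆ K2 := closure_minimal (fun x hx => by
      by_contra hne; exact hx (hSsupp x hne)) hK2c.isClosed
    refine h1.trans ?_
    rintro _ ⟨⟨y, t⟩, ⟨hy, ht⟩, rfl⟩
    exact hUh y (hψU hy) t ht
  have hS1 : ∀ x, |S x| ≤ 1 := by
    intro x
    have : ‖S x‖ ≤ 1 * (volume.real (Icc (0:ℝ) 1)) := by
      refine norm_setIntegral_le_of_norm_le_const ?_ ?_
      · simp
      · intro t _
        exact hψ1 _
    simpa using this
  have hmain := hv (fun x => - S x) hSC.neg (by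
      refine HasCompactSupport.intro hK2c fun x hx => ?_
      rw [hSsupp x hx, neg_zero]) (by
      have : tsupport (fun x => - S x) = tsupport S := by
        unfold tsupport; congr 1; ext x; simp
      rw [this]; exact hSt) (fun x => by rw [abs_neg]; exact hS1 x)
  have hder : ∀ x, fderiv ℝ (fun x => - S x) x h = ψ (x - h) - ψ x := by
    intro x
    have h1 : HasFDerivAt (fun x => - S x) (-(∫ t in Icc (0:ℝ) 1, fderiv ℝ ψ (x - t • h))) x :=
      (hSd x).neg
    rw [h1.fderiv, neg_apply, steklov_fderiv_apply hψ]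
    ring
  simp_rw [hder] at hmain
  have hint1 : Integrable (fun x => ψ (x - h)) μ :=
    (hψ.continuous.integrable_of_hasCompactSupport hψc).comp_sub_right h
  have hint2 : Integrable ψ μ := hψ.continuous.integrable_of_hasCompactSupport hψc
  rw [integral_sub hint1.integrableOn hint2.integrableOn] at hmain
  have e2 : ∫ x in E, ψ (x - h) ∂μ = ∫ x, ind E (x + h) * ψ x ∂μ := by
    rw [setIntegral_eq_ind_mul μ hE]
    rw [← integral_add_right_eq_self (fun x => ind E x * ψ (x - h)) h]
    simp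
  have e3 : ∫ x in E, ψ x ∂μ = ∫ x, ind E x * ψ x ∂μ := setIntegral_eq_ind_mul μ hE _
  have i1 : Integrable (fun x => ind E (x + h) * ψ x) μ := by
    refine hint2.bdd_mul (c := 1) ?_ ?_
    · exact ((measurable_ind hE).comp (measurable_id.add_const h)).aestronglyMeasurable
    · refine Filter.Eventually.of_forall fun x => ?_
      rw [Real.norm_eq_abs, abs_of_nonneg (ind_nonneg _ _)]; exact ind_le_one _ _
  have i2 : Integrable (fun x => ind E x * ψ x) μ := by
    refine hint2.bdd_mul (c := 1) ?_ ?_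
    · exact (measurable_ind hE).aestronglyMeasurable
    · refine Filter.Eventually.of_forall fun x => ?_
      rw [Real.norm_eq_abs, abs_of_nonneg (ind_nonneg _ _)]; exact ind_le_one _ _
  have e4 : ∫ x, (ind E (x + h) - ind E x) * ψ x ∂μ
      = (∫ x, ind E (x + h) * ψ x ∂μ) - ∫ x, ind E x * ψ x ∂μ := by
    rw [← integral_sub i1 i2]
    congr 1; ext x; ring
  rw [e4, ← e2, ← e3]
  exact hmain

end gen

theorem convex_Om (j : ℕ) : Convex ℝ (Om j) := by
  intro p hp q hq a b ha hb hab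
  have hp' : ‖p.1‖ + ‖p.2‖ < 1 := hp
  have hq' : ‖q.1‖ + ‖q.2‖ < 1 := hq
  show ‖(a • p + b • q).1‖ + ‖(a • p + b • q).2‖ < 1
  have h1 : ‖(a • p + b • q).1‖ ≤ a * ‖p.1‖ + b * ‖q.1‖ := by
    refine (norm_add_le _ _).trans (le_of_eq ?_)
    rw [Prod.smul_fst, Prod.smul_fst, norm_smul, norm_smul, Real.norm_eq_abs, Real.norm_eq_abs,
      abs_of_nonneg ha, abs_of_nonneg hb]
  have h2 : ‖(a • p + b • q).2‖ ≤ a * ‖p.2‖ + b * ‖q.2‖ := by
    refine (norm_add_le _ _).trans (le_of_eq ?_)
    rw [Prod.smul_snd, Prod.smul_snd, norm_smul, norm_smul, Real.norm_eq_abs, Real.norm_eq_abs,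
      abs_of_nonneg ha, abs_of_nonneg hb]
  have h3 : a * (‖p.1‖ + ‖p.2‖) + b * (‖q.1‖ + ‖q.2‖) < 1 := by
    rcases ha.eq_or_lt with ha0 | ha0
    · have hb1 : b = 1 := by linarith
      rw [← ha0, hb1]; linarith
    · nlinarith
  linarith

theorem vertical_null {j : ℕ} {E : Set (ℂ × WW j)} (hE : MeasurableSet E) (hEΩ : E ⊆ Om j)
    (hv : ∀ s : ℂ × WW j → ℝ, ContDiff ℝ 1 s → HasCompactSupport s → tsupport s ⊆ Om j →
      (∀ x, |s x| ≤ 1) → ∀ w : WW j, ∫ p in E, fderiv ℝ s p (0, w) ≤ 0) (w : WW j) :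
    (volume : Measure (ℂ × WW j)) {p | p ∈ E ∧ p + (0, w) ∈ Om j \ E} = 0 := by
  set h : ℂ × WW j := (0, w) with hh
  have hshift : Measurable (fun p : ℂ × WW j => p + h) := measurable_id.add_const h
  have hBm : MeasurableSet {p : ℂ × WW j | p ∈ E ∧ p + h ∈ Om j \ E} :=
    hE.inter (((isOpen_Om j).measurableSet.diff hE).preimage hshift)
  by_contra hne
  have hpos : 0 < (volume : Measure (ℂ × WW j)) {p | p ∈ E ∧ p + h ∈ Om j \ E} :=
    pos_iff_ne_zero.mpr hne
  obtain ⟨K, hKB, hKc, hKpos⟩ := hBm.exists_lt_isCompact hpos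
  set U : Set (ℂ × WW j) := Om j ∩ (fun p => p + h) ⁻¹' Om j with hU
  have hUo : IsOpen U := (isOpen_Om j).inter ((isOpen_Om j).preimage (by fun_prop))
  have hKU : K ⊆ U := fun p hp => ⟨hEΩ (hKB hp).1, (hKB hp).2.1⟩
  have hUh : ∀ x ∈ U, ∀ t ∈ Icc (0:ℝ) 1, x + t • h ∈ Om j := by
    intro x hx t ht
    have h1 := convex_Om j hx.1 hx.2 (sub_nonneg.mpr ht.2) ht.1 (by ring)
    convert h1 using 1
    module
  have hm : Measurable (fun x => ind E (x + h) - ind E x) :=
    ((measurable_ind hE).comp hshift).sub (measurable_ind hE)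
  have key : ∫ x in K, |ind E (x + h) - ind E x| ≤ 0 := by
    refine integral_abs_le_of_test volume hUo hKc hKU ?_ hm ?_
    · refine (locallyIntegrable_const (1:ℝ)).mono hm.aestronglyMeasurable ?_
      refine Filter.Eventually.of_forall fun x => ?_
      rw [Real.norm_eq_abs, Real.norm_eq_abs, abs_one]
      exact abs_ind_sub_le _ _ _ _
    · intro ψ h1 h2 h3 h4
      exact translate_gen volume hE (fun s a1 a2 a3 a4 => hv s a1 a2 a3 a4 w) hUh h1 h2 h3 h4
  have e1 : ∫ x in K, |ind E (x + h) - ind E x| = ∫ x in K, (1:ℝ) := by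
    refine setIntegral_congr_fun hKc.measurableSet fun x hx => ?_
    have hx' := hKB hx
    show |ind E (x + h) - ind E x| = 1
    rw [ind_mem hx'.1, ind_notMem hx'.2.2]; norm_num
  rw [e1] at key
  simp only [integral_const, MeasurableSet.univ, measureReal_restrict_apply, univ_inter,
    smul_eq_mul, mul_one] at key
  have : 0 < (volume : Measure (ℂ × WW j)).real K :=
    ENNReal.toReal_pos hKpos.ne' hKc.measure_lt_top.ne
  linarith

theorem vertical_invariant {j : ℕ} {E : Set (ℂ × WW j)} (hE : MeasurableSet E) (hEΩ : E ⊆ Om j)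
    (hv : ∀ s : ℂ × WW j → ℝ, ContDiff ℝ 1 s → HasCompactSupport s → tsupport s ⊆ Om j →
      (∀ x, |s x| ≤ 1) → ∀ w : WW j, ∫ p in E, fderiv ℝ s p (0, w) ≤ 0) :
    ∃ D : Set ℂ, MeasurableSet D ∧ D ⊆ ball 0 1 ∧
      (volume : Measure (ℂ × WW j)) (E ∆ cyl j D) = 0 := by
  have hOmm : MeasurableSet (Om j) := (isOpen_Om j).measurableSet
  have hEc : MeasurableSet (Om j \ E) := hOmm.diff hE
  set u : ℂ → ℝ≥0∞ := fun z => volume (Prod.mk z ⁻¹' E) with hu
  set v : ℂ → ℝ≥0∞ := fun z => volume (Prod.mk z ⁻¹' (Om j \ E)) with hv'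
  have hum : Measurable u := measurable_measure_prodMk_left hE
  have hvm : Measurable v := measurable_measure_prodMk_left hEc
  -- the joint integral
  have hf : Measurable (fun q : (ℂ × WW j) × WW j => E.indicator (fun _ => (1:ℝ≥0∞)) q.1 *
      (Om j \ E).indicator (fun _ => (1:ℝ≥0∞)) (q.1 + (0, q.2))) := by
    have h1 : Measurable (fun q : (ℂ × WW j) × WW j => q.1 + ((0 : ℂ), q.2)) :=
      measurable_fst.add (measurable_const.prodMk measurable_snd)
    exact ((measurable_const.indicator hE).comp measurable_fst).mul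
      ((measurable_const.indicator hEc).comp h1)
  have hzero : ∫⁻ w : WW j, ∫⁻ p : ℂ × WW j, E.indicator (fun _ => (1:ℝ≥0∞)) p *
      (Om j \ E).indicator (fun _ => (1:ℝ≥0∞)) (p + (0, w)) = 0 := by
    have : ∀ w : WW j, ∫⁻ p : ℂ × WW j, E.indicator (fun _ => (1:ℝ≥0∞)) p *
      (Om j \ E).indicator (fun _ => (1:ℝ≥0∞)) (p + (0, w)) = 0 := by
      intro w
      rw [← vertical_null hE hEΩ hv w]
      have hshift : Measurable (fun p : ℂ × WW j => p + (0, w)) := measurable_id.add_const _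
      have hBm : MeasurableSet {p : ℂ × WW j | p ∈ E ∧ p + (0, w) ∈ Om j \ E} :=
        hE.inter (hEc.preimage hshift)
      rw [← lintegral_indicator_one hBm]
      congr 1
      ext p
      by_cases h1 : p ∈ E <;> by_cases h2 : p + (0, w) ∈ Om j \ E <;>
        simp [indicator, h1, h2]
    simp_rw [this]
    simp
  rw [← lintegral_lintegral_swap hf.aemeasurable] at hzero
  have hin : ∀ p : ℂ × WW j, ∫⁻ w : WW j, E.indicator (fun _ => (1:ℝ≥0∞)) p *
      (Om j \ E).indicator (fun _ => (1:ℝ≥0∞)) (p + (0, w))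
      = E.indicator (fun _ => (1:ℝ≥0∞)) p * v p.1 := by
    intro p
    have h1 : Measurable (fun w : WW j => (Om j \ E).indicator (fun _ => (1:ℝ≥0∞)) (p + (0, w))) := by
      have : Measurable (fun w : WW j => p + ((0 : ℂ), w)) :=
        measurable_const.add (measurable_const.prodMk measurable_id)
      exact (measurable_const.indicator hEc).comp this
    rw [lintegral_const_mul _ h1]
    congr 1
    have e1 : ∀ w : WW j, (Om j \ E).indicator (fun _ => (1:ℝ≥0∞)) (p + (0, w))
        = (Prod.mk p.1 ⁻¹' (Om j \ E)).indicator (fun _ => (1:ℝ≥0∞)) (p.2 + w) := by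
      intro w
      have : p + ((0:ℂ), w) = (p.1, p.2 + w) := by
        ext <;> simp
      rw [this]
      rfl
    simp_rw [e1]
    rw [lintegral_add_left_eq_self (fun w => (Prod.mk p.1 ⁻¹' (Om j \ E)).indicator
      (fun _ => (1:ℝ≥0∞)) w) p.2]
    have hm : MeasurableSet (Prod.mk p.1 ⁻¹' (Om j \ E) : Set (WW j)) := measurable_prodMk_left hEc
    exact lintegral_indicator_one hm
  simp_rw [hin] at hzero
  have hprod : ∫⁻ z, u z * v z = 0 := by
    rw [← hzero, Measure.volume_eq_prod, lintegral_prod]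
    · congr 1
      ext z
      have hm : MeasurableSet (Prod.mk z ⁻¹' E : Set (WW j)) := measurable_prodMk_left hE
      have h1 : Measurable (fun y : WW j => E.indicator (fun _ => (1:ℝ≥0∞)) (z, y)) :=
        (measurable_const.indicator hE).comp measurable_prodMk_left
      show u z * v z = ∫⁻ y, E.indicator (fun _ => (1:ℝ≥0∞)) (z, y) * v z
      rw [lintegral_mul_const _ h1]
      congr 1
      exact (lintegral_indicator_one hm).symm
    · exact ((measurable_const.indicator hE).mul (hvm.comp measurable_fst)).aemeasurable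
  have hae : ∀ᵐ z : ℂ, u z * v z = 0 := by
    have := (lintegral_eq_zero_iff (hum.mul hvm)).mp hprod
    filter_upwards [this] with z hz
    exact hz
  refine ⟨ball 0 1 ∩ {z | u z ≠ 0}, measurableSet_ball.inter
    ((measurableSet_singleton (0:ℝ≥0∞)).compl.preimage hum), inter_subset_left, ?_⟩
  set D : Set ℂ := ball 0 1 ∩ {z | u z ≠ 0} with hD
  have hDm : MeasurableSet D := measurableSet_ball.inter
    ((measurableSet_singleton (0:ℝ≥0∞)).compl.preimage hum)
  rw [Measure.volume_eq_prod, Measure.measure_prod_null (hE.symmDiff (measurableSet_cyl hDm))]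
  filter_upwards [hae] with z hz
  show volume (Prod.mk z ⁻¹' (E ∆ cyl j D)) = 0
  by_cases hzD : z ∈ D
  · have hv0 : v z = 0 := by
      rcases mul_eq_zero.mp hz with h | h
      · exact absurd h hzD.2
      · exact h
    refine measure_mono_null ?_ hv0
    rintro y (⟨h1, h2⟩ | ⟨h1, h2⟩)
    · exact absurd ⟨hEΩ h1, hzD⟩ h2
    · exact ⟨h1.1, h2⟩
  · by_cases hzb : z ∈ ball (0:ℂ) 1
    · have hu0 : u z = 0 := by
        by_contra hne
        exact hzD ⟨hzb, hne⟩
      refine measure_mono_null ?_ hu0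
      rintro y (⟨h1, h2⟩ | ⟨h1, h2⟩)
      · exact h1
      · exact absurd h1.2 hzD
    · have : Prod.mk z ⁻¹' (E ∆ cyl j D) = (∅ : Set (WW j)) := by
        ext y
        simp only [mem_preimage, mem_empty_iff_false, iff_false]
        intro h
        apply hzb
        rw [mem_ball_zero_iff]
        have hOm : (z, y) ∈ Om j := by
          rcases h with h | h
          · exact hEΩ h.1
          · exact h.1.1
        have h' : ‖z‖ + ‖y‖ < 1 := hOm
        linarith [norm_nonneg y]
      rw [this]; simp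

end Pool.Agent.Helper51
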