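import Pool.Agent.Helper51.Thin4

set_option autoImplicit false
set_option linter.unusedSectionVars false

open MeasureTheory Set Filter Topology Metric
open scoped ENNReal NNReal Pointwise Convolution symmDiff

namespace Pool.Agent.Helper51

theorem star_lower {j : ℕ} {T : Set (ℂ × WW j)} (hT : MeasurableSet T) (hTΩ : T ⊆ Om j)
    (hstar : ∀ p ∈ T, ∀ l : ℝ, 0 < l → l ≤ 1 → l • p ∈ T)
    {re t₀ : ℝ} (ht₀ : 0 < t₀) (hre : 0 < re) {Z : Set ℝ}
    (hZ : MeasurableSet Z) (hZs : Z ⊆ Ioo t₀ re) :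
    ENNReal.ofReal (t₀ ^ Module.finrank ℝ (ℂ × WW j)) * (volume Z *
      (volume : Measure (ℂ × WW j)) (T ∩ {p | re ≤ ‖p.1‖}))
      ≤ (volume : Measure (ℂ × WW j)) (T ∩ {p | ‖p.1‖ ∈ Z}) := by
  set N := Module.finrank ℝ (ℂ × WW j) with hN
  set T' : Set (ℂ × WW j) := T ∩ {p | re ≤ ‖p.1‖} with hT'
  have hT'm : MeasurableSet T' := hT.inter (isClosed_le (by fun_prop) (by fun_prop)).measurableSet
  have hPZ : MeasurableSet {p : ℂ × WW j | ‖p.1‖ ∈ Z} :=
    hZ.preimage (by fun_prop : Measurable fun p : ℂ × WW j => ‖p.1‖)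
  have hf : Measurable (fun q : ℝ × (ℂ × WW j) => T'.indicator (fun _ => (1:ℝ≥0∞)) q.2 *
      Z.indicator (fun _ => (1:ℝ≥0∞)) (q.1 * ‖q.2.1‖)) := by
    have h1 : Measurable (fun q : ℝ × (ℂ × WW j) => q.1 * ‖q.2.1‖) := by fun_prop
    exact ((measurable_const.indicator hT'm).comp measurable_snd).mul
      ((measurable_const.indicator hZ).comp h1)
  -- slices in `l`
  have hA : ∀ l ∈ Ioo (0:ℝ) 1, ENNReal.ofReal (t₀ ^ N) *
      ∫⁻ p : ℂ × WW j, T'.indicator (fun _ => (1:ℝ≥0∞)) p *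
        Z.indicator (fun _ => (1:ℝ≥0∞)) (l * ‖p.1‖)
      ≤ (volume : Measure (ℂ × WW j)) (T ∩ {p | ‖p.1‖ ∈ Z}) := by
    intro l hl
    set Q : Set (ℂ × WW j) := T' ∩ {p | l * ‖p.1‖ ∈ Z} with hQ
    have hQm : MeasurableSet Q :=
      hT'm.inter (hZ.preimage (by fun_prop : Measurable fun p : ℂ × WW j => l * ‖p.1‖))
    have e1 : ∫⁻ p : ℂ × WW j, T'.indicator (fun _ => (1:ℝ≥0∞)) p *
        Z.indicator (fun _ => (1:ℝ≥0∞)) (l * ‖p.1‖) = volume Q := by
      rw [← lintegral_indicator_one hQm]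
      congr 1
      ext p
      by_cases h1 : p ∈ T' <;> by_cases h2 : l * ‖p.1‖ ∈ Z <;>
        simp [indicator, h1, h2, hQ]
    rw [e1]
    rcases Q.eq_empty_or_nonempty with hQe | ⟨p, hp⟩
    · rw [hQe]; simp
    · have hp1 : ‖p.1‖ < 1 := by
        have : ‖p.1‖ + ‖p.2‖ < 1 := hTΩ hp.1.1
        linarith [norm_nonneg p.2]
      have hlt : t₀ ≤ l := by
        have h1 : t₀ < l * ‖p.1‖ := (hZs hp.2).1
        nlinarith [hl.1, norm_nonneg p.1]
      have h2 : ENNReal.ofReal (t₀ ^ N) * volume Q ≤ volume (l • Q) := by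
        rw [Measure.addHaar_smul, abs_of_nonneg (by have := hl.1; positivity), ← hN]
        gcongr
      refine h2.trans (measure_mono ?_)
      rintro _ ⟨x, hx, rfl⟩
      refine ⟨hstar x hx.1.1 l hl.1 hl.2.le, ?_⟩
      show ‖(l • x).1‖ ∈ Z
      rw [Prod.smul_fst, norm_smul, Real.norm_eq_abs, abs_of_pos hl.1]
      exact hx.2
  have hB : ENNReal.ofReal (t₀ ^ N) * ∫⁻ l in Ioo (0:ℝ) 1, ∫⁻ p : ℂ × WW j,
      T'.indicator (fun _ => (1:ℝ≥0∞)) p * Z.indicator (fun _ => (1:ℝ≥0∞)) (l * ‖p.1‖)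
      ≤ (volume : Measure (ℂ × WW j)) (T ∩ {p | ‖p.1‖ ∈ Z}) := by
    rw [← lintegral_const_mul _ hf.lintegral_prod_right']
    calc ∫⁻ l in Ioo (0:ℝ) 1, ENNReal.ofReal (t₀ ^ N) * ∫⁻ p : ℂ × WW j,
          T'.indicator (fun _ => (1:ℝ≥0∞)) p * Z.indicator (fun _ => (1:ℝ≥0∞)) (l * ‖p.1‖)
        ≤ ∫⁻ l in Ioo (0:ℝ) 1, (volume : Measure (ℂ × WW j)) (T ∩ {p | ‖p.1‖ ∈ Z}) :=
          setLIntegral_mono' measurableSet_Ioo hA
      _ = _ := by
          rw [setLIntegral_const]; simp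
  refine le_trans ?_ hB
  refine mul_le_mul_right ?_ _
  rw [lintegral_lintegral_swap hf.aemeasurable]
  have hC : ∀ p : ℂ × WW j, T'.indicator (fun _ => volume Z) p ≤
      ∫⁻ l in Ioo (0:ℝ) 1, T'.indicator (fun _ => (1:ℝ≥0∞)) p *
        Z.indicator (fun _ => (1:ℝ≥0∞)) (l * ‖p.1‖) := by
    intro p
    by_cases hp : p ∈ T'
    · have hp1 : ‖p.1‖ < 1 := by
        have : ‖p.1‖ + ‖p.2‖ < 1 := hTΩ hp.1
        linarith [norm_nonneg p.2]
      have hpre : re ≤ ‖p.1‖ := hp.2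
      have hp0 : 0 < ‖p.1‖ := hre.trans_le hpre
      rw [indicator_of_mem hp, indicator_of_mem hp]
      simp only [one_mul]
      have hpm : MeasurableSet ((fun l : ℝ => l * ‖p.1‖) ⁻¹' Z) :=
        hZ.preimage (measurable_id.mul_const _)
      have e1 : ∫⁻ l in Ioo (0:ℝ) 1, Z.indicator (fun _ => (1:ℝ≥0∞)) (l * ‖p.1‖)
          = volume ((fun l : ℝ => l * ‖p.1‖) ⁻¹' Z) := by
        have e2 : ∀ l : ℝ, Z.indicator (fun _ => (1:ℝ≥0∞)) (l * ‖p.1‖)
            = ((fun l : ℝ => l * ‖p.1‖) ⁻¹' Z).indicator 1 l := fun l => rfl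
        simp_rw [e2]
        rw [lintegral_indicator_one hpm, Measure.restrict_apply hpm]
        congr 1
        refine inter_eq_left.mpr fun l hl => ?_
        have h3 := hZs hl
        constructor
        · by_contra hcon
          have : l * ‖p.1‖ ≤ 0 := mul_nonpos_of_nonpos_of_nonneg (not_lt.mp hcon) hp0.le
          linarith [h3.1]
        · by_contra hcon
          have : ‖p.1‖ ≤ l * ‖p.1‖ := le_mul_of_one_le_left hp0.le (not_lt.mp hcon)
          linarith [h3.2]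
      rw [e1, Real.volume_preimage_mul_right hp0.ne']
      refine le_mul_of_one_le_left zero_le ?_
      rw [ENNReal.one_le_ofReal, abs_of_pos (inv_pos.mpr hp0)]
      exact (one_le_inv₀ hp0).mpr hp1.le
    · rw [indicator_of_notMem hp]; exact zero_le
  calc volume Z * volume T' = ∫⁻ p : ℂ × WW j, T'.indicator (fun _ => volume Z) p := by
        rw [lintegral_indicator hT'm, setLIntegral_const]
    _ ≤ _ := lintegral_mono hC

theorem null_of_ang {D : Set ℂ} (hD : MeasurableSet D) {Z : Set ℝ} (hZ : MeasurableSet Z)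
    (hZD : ∀ r ∈ Z, ang D r = 0) :
    (volume : Measure ℂ) (D ∩ {z | ‖z‖ ∈ Z}) = 0 := by
  have hPm : MeasurableSet {z : ℂ | ‖z‖ ∈ Z} := hZ.preimage measurable_norm
  have hm : MeasurableSet (D ∩ {z : ℂ | ‖z‖ ∈ Z}) := hD.inter hPm
  rw [← lintegral_indicator_one hm]
  rw [lintegral_polar (measurable_one.indicator hm)]
  have : ∀ r ∈ Ioi (0:ℝ), ∫⁻ θ in Ioo (-Real.pi) Real.pi, ENNReal.ofReal r *
      (D ∩ {z : ℂ | ‖z‖ ∈ Z}).indicator 1 (cr r θ) = 0 := by
    intro r hr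
    have hr0 : (0:ℝ) < r := hr
    by_cases hrZ : r ∈ Z
    · have hBm : MeasurableSet {θ : ℝ | cr r θ ∈ D} := by
        have : Measurable (fun θ : ℝ => cr r θ) :=
          continuous_cr.measurable.comp (measurable_const.prodMk measurable_id)
        exact this hD
      have h2 : ∀ θ, (D ∩ {z : ℂ | ‖z‖ ∈ Z}).indicator (1 : ℂ → ℝ≥0∞) (cr r θ)
          = {θ : ℝ | cr r θ ∈ D}.indicator (1 : ℝ → ℝ≥0∞) θ := by
        intro θ
        by_cases h : cr r θ ∈ D
        · have : cr r θ ∈ D ∩ {z : ℂ | ‖z‖ ∈ Z} := ⟨h, by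
            show ‖cr r θ‖ ∈ Z
            rw [norm_cr hr0.le]; exact hrZ⟩
          rw [indicator_of_mem this, indicator_of_mem (show θ ∈ {θ : ℝ | cr r θ ∈ D} from h)]
          rfl
        · rw [indicator_of_notMem (fun h' => h h'.1),
            indicator_of_notMem (show θ ∉ {θ : ℝ | cr r θ ∈ D} from h)]
      simp_rw [h2]
      rw [lintegral_const_mul _ (measurable_one.indicator hBm), lintegral_indicator_one hBm,
        Measure.restrict_apply hBm]
      have h3 : volume ({θ : ℝ | cr r θ ∈ D} ∩ Ioo (-Real.pi) Real.pi) = 0 := by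
        have h4 := hZD r hrZ
        unfold ang at h4
        rw [Measure.real, ENNReal.toReal_eq_zero_iff] at h4
        rw [inter_comm]
        rcases h4 with h4 | h4
        · exact h4
        · exact absurd h4 ((measure_mono inter_subset_left).trans_lt (by simp)).ne
      rw [h3, mul_zero]
    · have h2 : ∀ θ, (D ∩ {z : ℂ | ‖z‖ ∈ Z}).indicator (1 : ℂ → ℝ≥0∞) (cr r θ) = 0 := by
        intro θ
        refine indicator_of_notMem (fun h => hrZ ?_) _
        have : ‖cr r θ‖ ∈ Z := h.2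
        rwa [norm_cr hr0.le] at this
      simp_rw [h2]; simp
  rw [setLIntegral_congr_fun measurableSet_Ioi this]
  simp

theorem star_nontrivial {j : ℕ} {c : ℝ} (hc : 0 < c) {D : Set ℂ} (hD : MeasurableSet D)
    {re : ℝ} (hre : 0 < re)
    (hsmall : (volume : Measure (ℂ × WW j)).real (Om j ∩ {p | ‖p.1‖ < re}) ≤ c / 2)
    {T A : ℕ → Set (ℂ × WW j)} (hT : ∀ k, MeasurableSet (T k)) (hTΩ : ∀ k, T k ⊆ Om j)
    (hstar : ∀ k, ∀ p ∈ T k, ∀ l : ℝ, 0 < l → l ≤ 1 → l • p ∈ T k)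
    (hTc : ∀ k, c ≤ (volume : Measure (ℂ × WW j)).real (T k))
    (hAΩ : ∀ k, A k ⊆ Om j)
    (hTA : ∀ k, (volume : Measure (ℂ × WW j)) (T k \ A k) = 0)
    {A₀ : Set (ℂ × WW j)} (hA₀Ω : A₀ ⊆ Om j)
    (hlim : Tendsto (fun k => (volume : Measure (ℂ × WW j)).real (A k ∆ A₀)) atTop (𝓝 0))
    (hA₀ : (volume : Measure (ℂ × WW j)) (A₀ ∆ cyl j D) = 0) :
    ∀ᵐ r, 0 < r → r < re → 0 < ang D r := by
  set Z₀ : Set ℝ := {r | 0 < r ∧ r < re ∧ ang D r = 0} with hZ₀
  have hZ₀m : MeasurableSet Z₀ :=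
    (measurableSet_Ioi (a := (0:ℝ))).inter ((measurableSet_Iio (a := re)).inter
      ((measurableSet_singleton (0:ℝ)).preimage (measurable_ang hD)))
  by_contra hcon
  have hpos : volume Z₀ ≠ 0 := by
    intro h0
    apply hcon
    rw [ae_iff]
    refine measure_mono_null ?_ h0
    intro r hr
    simp only [mem_ofPred_eq] at hr
    push Not at hr
    exact ⟨hr.1, hr.2.1, le_antisymm hr.2.2 (ang_nonneg D r)⟩
  -- restrict away from zero
  have hex : ∃ n : ℕ, volume (Z₀ ∩ Ioi (1 / ((n:ℝ) + 1))) ≠ 0 := by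
    by_contra hno
    push Not at hno
    apply hpos
    have hsub : Z₀ ⊆ ⋃ n : ℕ, Z₀ ∩ Ioi (1 / ((n:ℝ) + 1)) := by
      intro r hr
      obtain ⟨n, hn⟩ := exists_nat_one_div_lt hr.1
      exact mem_iUnion.mpr ⟨n, hr, hn⟩
    exact measure_mono_null hsub (measure_iUnion_null hno)
  obtain ⟨n, hn⟩ := hex
  set t₀ : ℝ := 1 / ((n:ℝ) + 1) with ht₀
  have ht₀pos : 0 < t₀ := by rw [ht₀]; positivity
  set Z : Set ℝ := Z₀ ∩ Ioi t₀ with hZ
  have hZm : MeasurableSet Z := hZ₀m.inter measurableSet_Ioi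
  have hZs : Z ⊆ Ioo t₀ re := fun r hr => ⟨hr.2, hr.1.2.1⟩
  have hZpos : 0 < volume Z := pos_iff_ne_zero.mpr hn
  have hZfin : volume Z ≠ ∞ := ((measure_mono hZs).trans_lt (by simp)).ne
  set N := Module.finrank ℝ (ℂ × WW j) with hN
  have hOf := Om_finite j
  have hTf : ∀ k, (volume : Measure (ℂ × WW j)) (T k) ≠ ∞ := fun k =>
    ((measure_mono (hTΩ k)).trans_lt hOf.lt_top).ne
  -- null sets
  have hnull2 : (volume : Measure (ℂ × WW j)) (A₀ ∩ {p | ‖p.1‖ ∈ Z}) = 0 := by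
    have h1 : (volume : Measure ℂ) (D ∩ {z | ‖z‖ ∈ Z}) = 0 :=
      null_of_ang hD hZm (fun r hr => hr.1.2.2)
    have h2 : (volume : Measure (ℂ × WW j)) ((D ∩ {z | ‖z‖ ∈ Z}) ×ˢ (univ : Set (WW j))) = 0 := by
      rw [Measure.volume_eq_prod, Measure.prod_prod, h1, zero_mul]
    refine measure_mono_null (t := (A₀ ∆ cyl j D) ∪ ((D ∩ {z | ‖z‖ ∈ Z}) ×ˢ (univ : Set (WW j)))) ?_
      (measure_union_null hA₀ h2)
    intro p hp
    by_cases hpc : p ∈ cyl j D
    · exact Or.inr ⟨⟨hpc.2, hp.2⟩, mem_univ _⟩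
    · exact Or.inl (Or.inl ⟨hp.1, hpc⟩)
  have hbound : ∀ k, t₀ ^ N * ((volume Z).toReal * (c / 2))
      ≤ (volume : Measure (ℂ × WW j)).real (A k ∆ A₀) := by
    intro k
    have h1 := star_lower (hT k) (hTΩ k) (hstar k) ht₀pos hre hZm hZs
    have hfs : (volume : Measure (ℂ × WW j)) (A k ∆ A₀) ≠ ∞ := by
      refine ((measure_mono (?_ : _ ⊆ Om j)).trans_lt hOf.lt_top).ne
      exact symmDiff_subset_union.trans (union_subset (hAΩ k) hA₀Ω)
    have h2 : (volume : Measure (ℂ × WW j)) (T k ∩ {p | ‖p.1‖ ∈ Z}) ≤ volume (A k ∆ A₀) := by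
      have hsub : T k ∩ {p | ‖p.1‖ ∈ Z} ⊆ (T k \ A k) ∪ ((A₀ ∩ {p | ‖p.1‖ ∈ Z}) ∪ (A k ∆ A₀)) := by
        intro p hp
        by_cases h3 : p ∈ A k
        · by_cases h4 : p ∈ A₀
          · exact Or.inr (Or.inl ⟨h4, hp.2⟩)
          · exact Or.inr (Or.inr (Or.inl ⟨h3, h4⟩))
        · exact Or.inl ⟨hp.1, h3⟩
      refine (measure_mono hsub).trans ((measure_union_le _ _).trans ?_)
      rw [hTA k, zero_add]
      refine (measure_union_le _ _).trans ?_
      rw [hnull2, zero_add]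
    have h3 := h1.trans h2
    have h4 : c / 2 ≤ (volume : Measure (ℂ × WW j)).real (T k ∩ {p | re ≤ ‖p.1‖}) := by
      have h5 : (volume : Measure (ℂ × WW j)).real (T k)
          ≤ (volume : Measure (ℂ × WW j)).real (T k ∩ {p | re ≤ ‖p.1‖})
            + (volume : Measure (ℂ × WW j)).real (Om j ∩ {p | ‖p.1‖ < re}) := by
        refine (measureReal_mono (s₂ := (T k ∩ {p | re ≤ ‖p.1‖}) ∪ (Om j ∩ {p | ‖p.1‖ < re}))
          ?_ ?_).trans (measureReal_union_le _ _)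
        · intro p hp
          rcases lt_or_ge ‖p.1‖ re with h | h
          · exact Or.inr ⟨hTΩ k hp, h⟩
          · exact Or.inl ⟨hp, h⟩
        · refine ((measure_mono (?_ : _ ⊆ Om j)).trans_lt hOf.lt_top).ne
          exact union_subset (inter_subset_left.trans (hTΩ k)) inter_subset_left
      have h6 := hTc k
      linarith
    have h5 := ENNReal.toReal_mono hfs h3
    rw [ENNReal.toReal_mul, ENNReal.toReal_mul, ENNReal.toReal_ofReal (by positivity)] at h5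
    refine le_trans ?_ h5
    have : 0 ≤ (volume Z).toReal := ENNReal.toReal_nonneg
    gcongr
    exact h4
  have hle := ge_of_tendsto' hlim hbound
  have hZr : 0 < (volume Z).toReal := ENNReal.toReal_pos hZpos.ne' hZfin
  have : 0 < t₀ ^ N * ((volume Z).toReal * (c / 2)) := by positivity
  linarith

end Pool.Agent.Helper51
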