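import Pool.Agent.Helper51.Thin5

set_option autoImplicit false
set_option linter.unusedSectionVars false

open MeasureTheory Set Filter Topology Metric
open scoped ENNReal NNReal Pointwise Convolution symmDiff

namespace Pool.Agent.Helper51

theorem volume_cyl {j : ℕ} {D : Set ℂ} (hD : MeasurableSet D) (hD1 : D ⊆ ball 0 1) :
    (volume : Measure (ℂ × WW j)).real (cyl j D) = kap j * ∫ z in D, (1 - ‖z‖) ^ j := by
  have hκ := kap_pos j
  have h1 : (volume : Measure (ℂ × WW j)) (cyl j D)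
      = ∫⁻ z in D, ENNReal.ofReal ((1 - ‖z‖) ^ j * kap j) := by
    rw [Measure.volume_eq_prod, Measure.prod_apply (measurableSet_cyl hD),
      ← lintegral_indicator hD]
    congr 1
    ext z
    by_cases hz : z ∈ D
    · rw [indicator_of_mem hz]
      have hz1 : ‖z‖ < 1 := mem_ball_zero_iff.mp (hD1 hz)
      have e1 : (Prod.mk z ⁻¹' cyl j D : Set (WW j)) = ball 0 (1 - ‖z‖) := by
        ext y
        rw [mem_ball_zero_iff]
        constructor
        · intro h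
          have h' : ‖z‖ + ‖y‖ < 1 := h.1
          linarith
        · intro h
          refine ⟨?_, hz⟩
          show ‖z‖ + ‖y‖ < 1
          linarith
      rw [e1, ← real_volume_fibre j (by linarith), Measure.real, ENNReal.ofReal_toReal]
      exact measure_ball_lt_top.ne
    · rw [indicator_of_notMem hz]
      have e1 : (Prod.mk z ⁻¹' cyl j D : Set (WW j)) = ∅ := by
        ext y
        simp only [mem_preimage, mem_empty_iff_false, iff_false]
        exact fun h => hz h.2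
      rw [e1]; simp
  have h2 : IntegrableOn (fun z : ℂ => (1 - ‖z‖) ^ j * kap j) D :=
    (integrableOn_weight j hD1).mul_const _
  rw [Measure.real, h1, ← ofReal_integral_eq_lintegral_ofReal h2, ENNReal.toReal_ofReal,
    integral_mul_const, mul_comm]
  · rw [integral_mul_const]
    exact mul_nonneg (mass_nonneg hD hD1) hκ.le
  · rw [Filter.EventuallyLE, ae_restrict_iff' hD]
    refine Filter.Eventually.of_forall fun z hz => ?_
    have hz1 : ‖z‖ < 1 := mem_ball_zero_iff.mp (hD1 hz)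
    exact mul_nonneg (pow_nonneg (by linarith) _) hκ.le

theorem cyl_ball (j : ℕ) : cyl j (ball 0 1) = Om j := by
  unfold cyl
  refine inter_eq_left.mpr fun p hp => ?_
  have h' : ‖p.1‖ + ‖p.2‖ < 1 := hp
  show p.1 ∈ ball (0:ℂ) 1
  rw [mem_ball_zero_iff]
  linarith [norm_nonneg p.2]

theorem volume_Om (j : ℕ) :
    (volume : Measure (ℂ × WW j)).real (Om j) = kap j * (2 * Real.pi * Tm j 0) := by
  rw [← cyl_ball, volume_cyl measurableSet_ball (subset_refl _), mass_ball j zero_le_one, mm,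
    Tm_one, sub_zero]

theorem NN_smul (j : ℕ) (ε t : ℝ) (p : ℂ × WW j) : NN j ε (t • p) = |t| * NN j ε p := by
  unfold NN
  rw [Prod.smul_fst, Prod.smul_snd, norm_smul, norm_smul, Real.norm_eq_abs]
  have : (|t| * ‖p.1‖) ^ 2 + (ε * (|t| * ‖p.2‖)) ^ 2 = |t| ^ 2 * (‖p.1‖ ^ 2 + (ε * ‖p.2‖) ^ 2) := by
    ring
  rw [this, Real.sqrt_mul (sq_nonneg _), Real.sqrt_sq (abs_nonneg _)]

theorem PB_scaled {j : ℕ} {ε : ℝ} {E : Set (ℂ × WW j)} {M : ℝ}
    (hE : PB volume (NN j ε) (Om j) E M) {F : ℂ × WW j → ℂ × WW j} (hF : ContDiff ℝ 1 F)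
    (hc : HasCompactSupport F) (hs : tsupport F ⊆ Om j) {t : ℝ} (ht : 0 < t)
    (hN : ∀ p, NN j ε (F p) ≤ t) : ∫ p in E, dv F p ≤ t * M := by
  have h1 := hE (fun p => t⁻¹ • F p) ⟨hF.const_smul _, ?_, ?_, ?_⟩
  · have h6 : ∀ x, dv (fun x => t⁻¹ • F x) x = t⁻¹ * dv F x := by
      intro x
      have hd : HasFDerivAt F (fderiv ℝ F x) x :=
        (hF.differentiable one_ne_zero).differentiableAt.hasFDerivAt
      have hd2 : HasFDerivAt (fun x => t⁻¹ • F x) (t⁻¹ • fderiv ℝ F x) x := hd.const_smul t⁻¹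
      rw [dv_of_hasFDerivAt hd2, dv]
      simp
    simp only [h6] at h1
    rw [integral_const_mul, inv_mul_le_iff₀ ht] at h1
    exact h1
  · exact hc.smul_left (f := fun _ => t⁻¹)
  · exact (tsupport_smul_subset_right (fun _ => t⁻¹) F).trans hs
  · intro p
    rw [NN_smul, abs_of_pos (inv_pos.mpr ht), inv_mul_le_iff₀ ht, mul_one]
    exact hN p

theorem kchi_lower (j : ℕ) {δ : ℝ} (hδ : 0 < δ) (hδ1 : 2 * δ < 1) :
    (√(1 - 2 * δ)) ^ j * kap j ≤ kchi j δ := by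
  have hs : 0 < √(1 - 2 * δ) := Real.sqrt_pos.mpr (by linarith)
  rw [← real_volume_fibre j hs]
  unfold kchi
  have hcont : Continuous (fun y : WW j => hin (1 - δ) δ (‖y‖ ^ 2)) :=
    (continuous_hin _ _).comp (by fun_prop)
  have hcs : HasCompactSupport (fun y : WW j => hin (1 - δ) δ (‖y‖ ^ 2)) := by
    refine HasCompactSupport.intro (isCompact_closedBall 0 1) fun y hy => ?_
    rw [mem_closedBall_zero_iff, not_le] at hy
    refine hin_eq_zero hδ ?_
    nlinarith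
  have hint := hcont.integrable_of_hasCompactSupport hcs (μ := (volume : Measure (WW j)))
  have h1 : ∫ y in ball (0 : WW j) (√(1 - 2 * δ)), (1:ℝ)
      ≤ ∫ y in ball (0 : WW j) (√(1 - 2 * δ)), hin (1 - δ) δ (‖y‖ ^ 2) := by
    refine setIntegral_mono_on (integrableOn_const measure_ball_lt_top.ne) hint.integrableOn
      measurableSet_ball fun y hy => ?_
    rw [mem_ball_zero_iff] at hy
    rw [hin_eq_one hδ]
    have h2 : ‖y‖ ^ 2 ≤ (√(1 - 2 * δ)) ^ 2 := pow_le_pow_left₀ (norm_nonneg _) hy.le 2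
    rw [Real.sq_sqrt (by linarith)] at h2
    linarith
  have h2 : ∫ y in ball (0 : WW j) (√(1 - 2 * δ)), hin (1 - δ) δ (‖y‖ ^ 2)
      ≤ ∫ y : WW j, hin (1 - δ) δ (‖y‖ ^ 2) :=
    setIntegral_le_integral hint (Filter.Eventually.of_forall fun y => hin_nonneg _ _ _)
  refine le_trans ?_ (h1.trans h2)
  simp

/-- a planar competitor with bound `q`. -/
def Comp (j : ℕ) (q : ℝ) : Prop :=
  ∃ D' : Set ℂ, MeasurableSet D' ∧ D' ⊆ ball 0 1 ∧
    ∫ z in D', (1 - ‖z‖) ^ j = Real.pi * Tm j 0 ∧ ∀ X, TA' j X → ∫ z in D', dv X z ≤ q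

theorem Comp.nonneg {j : ℕ} {q : ℝ} (h : Comp j q) : 0 ≤ q := by
  obtain ⟨D', -, -, -, h⟩ := h
  have := h _ (TA'.zero j)
  simpa [dv] using this

theorem exists_small (j : ℕ) {c : ℝ} (hc : 0 < c) :
    ∃ re : ℝ, 0 < re ∧ re ≤ 1 ∧
      (volume : Measure (ℂ × WW j)).real (Om j ∩ {p | ‖p.1‖ < re}) ≤ c / 2 := by
  have hκ := kap_pos j
  have hπ := Real.pi_pos
  set re : ℝ := min 1 (c / (2 * (kap j * Real.pi))) with hre
  have hre0 : 0 < re := lt_min one_pos (by positivity)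
  have hre1 : re ≤ 1 := min_le_left _ _
  refine ⟨re, hre0, hre1, ?_⟩
  have h1 : Om j ∩ {p | ‖p.1‖ < re} = cyl j (ball 0 re) := by
    unfold cyl
    congr 1
    ext p
    simp
  rw [h1, volume_cyl measurableSet_ball (ball_subset_ball hre1), mass_ball j hre0.le]
  have h2 := mm_le_sq j hre0.le hre1
  have h3 : re ^ 2 ≤ re := by nlinarith
  have h4 : re ≤ c / (2 * (kap j * Real.pi)) := min_le_right _ _
  rw [le_div_iff₀ (by positivity)] at h4
  calc kap j * (2 * Real.pi * mm j re) ≤ kap j * (2 * Real.pi * (re ^ 2 / 2)) := by gcongr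
    _ ≤ kap j * (2 * Real.pi * (re / 2)) := by gcongr
    _ ≤ c / 2 := by linarith

theorem thin_contradiction {j : ℕ} (hn : (j:ℝ) + 1 = 10000) {c : ℝ} (hc : 0 < c)
    (H : ∀ k : ℕ, ∀ E : Set (ℂ × WW j), MeasurableSet E → E ⊆ Om j →
      (volume : Measure (ℂ × WW j)).real E = (volume : Measure (ℂ × WW j)).real (Om j) / 2 →
      (∀ F : Set (ℂ × WW j), MeasurableSet F → F ⊆ Om j →
        (volume : Measure (ℂ × WW j)).real F = (volume : Measure (ℂ × WW j)).real (Om j) / 2 →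
        ∀ M, PB volume (NN j (1 / ((k:ℝ) + 1))) (Om j) F M →
          PB volume (NN j (1 / ((k:ℝ) + 1))) (Om j) E M) →
      ∃ S : Set (ℂ × WW j), IsOpen S ∧ (∀ p ∈ S, ∀ l : ℝ, 0 < l → l • p ∈ S) ∧
        (volume : Measure (ℂ × WW j)) ((Om j ∩ S) \ E) = 0 ∧
        (volume : Measure (ℂ × WW j)) ((Om j ∩ {p | -p ∈ S}) ∩ E) = 0 ∧
        c ≤ (volume : Measure (ℂ × WW j)).real (Om j ∩ S)) : False := by
  have hκ := kap_pos j
  have hπ := Real.pi_pos
  have hT0 := Tm_zero_pos j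
  have hOf := Om_finite j
  have hOo := isOpen_Om j
  set μ : Measure (ℂ × WW j) := volume with hμ
  set V : ℝ := μ.real (Om j) with hV
  have hVval : V = kap j * (2 * Real.pi * Tm j 0) := volume_Om j
  set ε : ℕ → ℝ := fun k => 1 / ((k:ℝ) + 1) with hε
  have hεpos : ∀ k, 0 < ε k := fun k => by simp only [hε]; positivity
  have hεle : ∀ k, ε k ≤ 1 := fun k => by
    simp only [hε]
    rw [div_le_one (by positivity)]; linarith [k.cast_nonneg (α := ℝ)]
  have hε0 : Tendsto ε atTop (𝓝 0) := tendsto_one_div_add_atTop_nhds_zero_nat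
  have hcompcyl : ∀ q, ∀ D' : Set ℂ, MeasurableSet D' → D' ⊆ ball 0 1 →
      ∫ z in D', (1 - ‖z‖) ^ j = Real.pi * Tm j 0 → (∀ X, TA' j X → ∫ z in D', dv X z ≤ q) →
      MeasurableSet (cyl j D') ∧ cyl j D' ⊆ Om j ∧ μ.real (cyl j D') = V / 2 ∧
      ∀ k, PB μ (NN j (ε k)) (Om j) (cyl j D') (kap j * q) := by
    intro q D' h1 h2 h3 h4
    refine ⟨measurableSet_cyl h1, inter_subset_left, ?_, ?_⟩
    · rw [hμ, volume_cyl h1 h2, h3, hVval]; ring
    · intro k F hF
      refine cyl_bound h1 h4 hF.cd hF.cs hF.ts fun p => ?_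
      have h5 := hF.nb p
      unfold NN at h5
      have h6 : ‖(F p).1‖ ^ 2 ≤ ‖(F p).1‖ ^ 2 + (ε k * ‖(F p).2‖) ^ 2 := by
        linarith [sq_nonneg (ε k * ‖(F p).2‖)]
      calc ‖(F p).1‖ = √(‖(F p).1‖ ^ 2) := (Real.sqrt_sq (norm_nonneg _)).symm
        _ ≤ √(‖(F p).1‖ ^ 2 + (ε k * ‖(F p).2‖) ^ 2) := Real.sqrt_le_sqrt h6
        _ ≤ 1 := h5
  obtain ⟨D₀, hD₀m, hD₀1, hD₀mass, q₀, hq₀⟩ := disc_final hn
  have hcomp₀ : Comp j q₀ := ⟨D₀, hD₀m, hD₀1, hD₀mass, hq₀⟩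
  -- minimizers
  have hN0 : ∀ k, NN j (ε k) 0 ≤ 1 := fun k => by unfold NN; simp
  have hN2 : ∀ k, ∀ v : ℂ × WW j, ‖v‖ ≤ 1 → NN j (ε k) ((2:ℝ)⁻¹ • v) ≤ 1 := by
    intro k v hv
    rw [NN_smul]
    have h1 : ‖v.1‖ ≤ 1 := (norm_fst_le v).trans hv
    have h2 : ‖v.2‖ ≤ 1 := (norm_snd_le v).trans hv
    have h3 : NN j (ε k) v ≤ 2 := by
      unfold NN
      rw [Real.sqrt_le_left (by norm_num)]
      have h4 : ‖v.1‖ ^ 2 ≤ 1 := pow_le_one₀ (norm_nonneg _) h1
      have h5 : (ε k * ‖v.2‖) ^ 2 ≤ 1 := by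
        refine pow_le_one₀ (mul_nonneg (hεpos k).le (norm_nonneg _)) ?_
        exact mul_le_one₀ (hεle k) (norm_nonneg _) h2
      linarith
    rw [abs_of_pos (by norm_num)]
    linarith
  have hmin : ∀ k, ∃ E : Set (ℂ × WW j), MeasurableSet E ∧ E ⊆ Om j ∧ μ.real E = V / 2 ∧
      ∀ F : Set (ℂ × WW j), MeasurableSet F → F ⊆ Om j → μ.real F = V / 2 →
        ∀ M, PB μ (NN j (ε k)) (Om j) F M → PB μ (NN j (ε k)) (Om j) E M := by
    intro k
    obtain ⟨a1, a2, a3, a4⟩ := hcompcyl q₀ D₀ hD₀m hD₀1 hD₀mass hq₀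
    exact exists_minimizer μ (hN0 k) two_pos (hN2 k) hOo hOf a1 a2 a3 (a4 k)
  choose E hEm hEΩ hEv hEmin using hmin
  have hS := fun k => H k (E k) (hEm k) (hEΩ k) (hEv k) (hEmin k)
  choose S hSo hScone hSE hSE' hSc using hS
  have hEP : ∀ q, Comp j q → ∀ k, PB μ (NN j (ε k)) (Om j) (E k) (kap j * q) := by
    rintro q ⟨D', h1, h2, h3, h4⟩ k
    obtain ⟨a1, a2, a3, a4⟩ := hcompcyl q D' h1 h2 h3 h4
    exact hEmin k _ a1 a2 a3 _ (a4 k)
  have hbv : ∀ k, BVb μ (Om j) (2 * (kap j * q₀)) (E k) := fun k =>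
    (hEP q₀ hcomp₀ k).bvb μ two_pos (hN2 k)
  obtain ⟨φ, E₀, hφ, hE₀m, hE₀Ω, hlim⟩ := exists_subseq μ hOo hOf hEm hEΩ hbv
  have hEf : ∀ k, μ (E k) ≠ ∞ := fun k => ((measure_mono (hEΩ k)).trans_lt hOf.lt_top).ne
  have hE₀f : μ E₀ ≠ ∞ := ((measure_mono hE₀Ω).trans_lt hOf.lt_top).ne
  have hε0φ : Tendsto (fun k => ε (φ k)) atTop (𝓝 0) := hε0.comp hφ.tendsto_atTop
  have hE₀v : μ.real E₀ = V / 2 := by
    have := tendsto_measureReal_of_symmDiff μ (fun k => hEf (φ k)) hE₀f hlim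
    simp only [hEv] at this
    exact (tendsto_nhds_unique this tendsto_const_nhds)
  -- vertical invariance
  have hvert : ∀ s : ℂ × WW j → ℝ, ContDiff ℝ 1 s → HasCompactSupport s → tsupport s ⊆ Om j →
      (∀ x, |s x| ≤ 1) → ∀ w : WW j, ∫ p in E₀, fderiv ℝ s p (0, w) ≤ 0 := by
    intro s hs1 hs2 hs3 hs4 w
    set F : ℂ × WW j → ℂ × WW j := fun p => s p • (0, w) with hF
    have hFC : ContDiff ℝ 1 F := hs1.smul contDiff_const
    have hFs : tsupport F ⊆ tsupport s := tsupport_smul_subset_left s (fun _ => (0, w))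
    have hFc : HasCompactSupport F :=
      hs2.isCompact.of_isClosed_subset (isClosed_tsupport _) hFs
    have hdv : ∀ p, dv F p = fderiv ℝ s p (0, w) := fun p =>
      dv_smul_const ((hs1.differentiable one_ne_zero p).hasFDerivAt)
    have hb : ∀ k, ∫ p in E (φ k), dv F p ≤ (ε (φ k) * (‖w‖ + 1)) * (kap j * q₀) := by
      intro k
      refine PB_scaled (hEP q₀ hcomp₀ (φ k)) hFC hFc (hFs.trans hs3)
        (mul_pos (hεpos _) (by positivity)) fun p => ?_
      simp only [hF]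
      rw [NN_smul]
      have e1 : NN j (ε (φ k)) ((0 : ℂ), w) = ε (φ k) * ‖w‖ := by
        unfold NN
        simp only [norm_zero]
        rw [zero_pow two_ne_zero, zero_add,
          Real.sqrt_sq (mul_nonneg (hεpos _).le (norm_nonneg _))]
      rw [e1]
      have h5 : 0 ≤ ε (φ k) * ‖w‖ := mul_nonneg (hεpos _).le (norm_nonneg _)
      have h6 := mul_le_of_le_one_left h5 (hs4 p)
      have h7 := hεpos (φ k)
      nlinarith
    have hl := tendsto_setIntegral_of_symmDiff μ (fun k => hEm (φ k)) hE₀m (fun k => hEf (φ k)) hE₀f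
      hlim (continuous_dv hFC) (hasCompactSupport_dv hFc)
    have hr : Tendsto (fun k => (ε (φ k) * (‖w‖ + 1)) * (kap j * q₀)) atTop
        (𝓝 ((0 * (‖w‖ + 1)) * (kap j * q₀))) := (hε0φ.mul_const _).mul_const _
    have := le_of_tendsto_of_tendsto' hl hr hb
    simp only [hdv] at this
    simpa using this
  obtain ⟨D, hDm, hD1, hED⟩ := vertical_invariant hE₀m hE₀Ω hvert
  have hDv : μ.real (cyl j D) = V / 2 := by
    rw [← hE₀v]
    have : μ (cyl j D) = μ E₀ := (measure_congr (measure_symmDiff_eq_zero_iff.mp hED)).symm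
    rw [Measure.real, Measure.real, this]
  have hDmass : ∫ z in D, (1 - ‖z‖) ^ j = Real.pi * Tm j 0 := by
    rw [hμ, volume_cyl hDm hD1, hVval] at hDv
    have h1 : kap j * ∫ z in D, (1 - ‖z‖) ^ j = kap j * (Real.pi * Tm j 0) := by
      rw [hDv]; ring
    exact mul_left_cancel₀ hκ.ne' h1
  -- the planar bound
  have hDP : ∀ q, Comp j q → ∀ Y, TA j Y → ∫ z in D, dv Y z ≤ q := by
    intro q hq Y hY
    have hq0 := hq.nonneg
    have hstep : ∀ δ, 0 < δ → 2 * δ < 1 → kchi j δ * ∫ z in D, dv Y z ≤ kap j * q := by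
      intro δ hδ hδ1
      obtain ⟨F, hF1, hF2, hF3, hF4, hF5⟩ := lift_exists hY hδ hδ1
      have hb : ∀ k, ∫ p in E (φ k), dv F p ≤ √(1 + (ε (φ k)) ^ 2) * (kap j * q) := fun k =>
        PB_scaled (hEP q hq (φ k)) hF1 hF2 hF3 (Real.sqrt_pos.mpr (by positivity))
          (fun p => hF4 _ p)
      have hl := tendsto_setIntegral_of_symmDiff μ (fun k => hEm (φ k)) hE₀m
        (fun k => hEf (φ k)) hE₀f hlim (continuous_dv hF1) (hasCompactSupport_dv hF2)
      have hr : Tendsto (fun k => √(1 + (ε (φ k)) ^ 2) * (kap j * q)) atTop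
          (𝓝 (√(1 + 0 ^ 2) * (kap j * q))) := by
        refine Tendsto.mul_const _ ?_
        exact (Real.continuous_sqrt.tendsto _).comp ((hε0φ.pow 2).const_add 1)
      have h6 := le_of_tendsto_of_tendsto' hl hr hb
      have h7 : ∫ p in E₀, dv F p ∂μ = ∫ p in cyl j D, dv F p ∂μ :=
        setIntegral_congr_set (measure_symmDiff_eq_zero_iff.mp hED)
      rw [h7, hF5 D hDm] at h6
      simpa using h6
    rcases le_or_gt (∫ z in D, dv Y z) 0 with hneg | hpos
    · linarith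
    · have hlow : ∀ δ ∈ Ioo (0:ℝ) (1/2), (√(1 - 2 * δ)) ^ j * ∫ z in D, dv Y z ≤ q := by
        intro δ hδ
        have h8 := hstep δ hδ.1 (by linarith [hδ.2])
        have h9 := kchi_lower j hδ.1 (by linarith [hδ.2] : 2 * δ < 1)
        have h10 : (√(1 - 2 * δ)) ^ j * kap j * ∫ z in D, dv Y z ≤ kap j * q :=
          (mul_le_mul_of_nonneg_right h9 hpos.le).trans h8
        have h11 : kap j * ((√(1 - 2 * δ)) ^ j * ∫ z in D, dv Y z) ≤ kap j * q := by
          refine le_trans (le_of_eq (by ring)) h10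
        exact le_of_mul_le_mul_left h11 hκ
      have hcont : Continuous (fun δ : ℝ => (√(1 - 2 * δ)) ^ j * ∫ z in D, dv Y z) := by fun_prop
      have hten := (hcont.continuousAt (x := 0)).tendsto.mono_left
        (nhdsWithin_le_nhds (s := Ioi 0))
      have hev : ∀ᶠ δ : ℝ in 𝓝[>] 0, (√(1 - 2 * δ)) ^ j * ∫ z in D, dv Y z ≤ q := by
        have h4 : Ioo (0:ℝ) (1/2) ∈ 𝓝[>] (0:ℝ) := Ioo_mem_nhdsGT (by norm_num)
        filter_upwards [h4] with δ hδ
        exact hlow δ hδ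
      have := le_of_tendsto hten hev
      simpa using this
  -- nontrivial circles
  obtain ⟨re, hre0, hre1, hsmall⟩ := exists_small j hc
  have hOneg : ∀ p : ℂ × WW j, p ∈ Om j → -p ∈ Om j := fun p hp => by
    have h' : ‖p.1‖ + ‖p.2‖ < 1 := hp
    show ‖(-p).1‖ + ‖(-p).2‖ < 1
    simpa using h'
  have hOstar : ∀ p ∈ Om j, ∀ l : ℝ, 0 < l → l ≤ 1 → l • p ∈ Om j := fun p hp l h0 h1 => by
    have h' : ‖p.1‖ + ‖p.2‖ < 1 := hp
    show ‖(l • p).1‖ + ‖(l • p).2‖ < 1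
    rw [Prod.smul_fst, Prod.smul_snd, norm_smul, norm_smul, Real.norm_eq_abs, abs_of_pos h0,
      ← mul_add]
    calc l * (‖p.1‖ + ‖p.2‖) ≤ 1 * (‖p.1‖ + ‖p.2‖) := by
          have := norm_nonneg p.1
          have := norm_nonneg p.2
          gcongr
      _ < 1 := by linarith
  have hnt1 : ∀ᵐ r, 0 < r → r < re → 0 < ang D r := by
    refine star_nontrivial hc hDm hre0 hsmall (T := fun k => Om j ∩ S (φ k))
      (A := fun k => E (φ k)) (fun k => hOo.measurableSet.inter (hSo _).measurableSet)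
      (fun k => inter_subset_left) ?_ (fun k => hSc _) (fun k => hEΩ _) (fun k => hSE _)
      hE₀Ω hlim hED
    intro k p hp l h0 h1
    exact ⟨hOstar p hp.1 l h0 h1, hScone _ p hp.2 l h0⟩
  have hnt2 : ∀ᵐ r, 0 < r → r < re → 0 < ang (ball 0 1 \ D) r := by
    have hSneg : ∀ k, IsOpen {p : ℂ × WW j | -p ∈ S k} := fun k => (hSo k).preimage continuous_neg
    refine star_nontrivial hc (measurableSet_ball.diff hDm) hre0 hsmall
      (T := fun k => Om j ∩ {p | -p ∈ S (φ k)})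
      (A := fun k => Om j \ E (φ k)) (A₀ := Om j \ E₀)
      (fun k => hOo.measurableSet.inter (hSneg _).measurableSet)
      (fun k => inter_subset_left) ?_ ?_ (fun k => sdiff_subset) ?_ sdiff_subset ?_ ?_
    · intro k p hp l h0 h1
      refine ⟨hOstar p hp.1 l h0 h1, ?_⟩
      show -(l • p) ∈ S (φ k)
      rw [← smul_neg]
      exact hScone _ _ hp.2 l h0
    · intro k
      have h1 : (Om j ∩ {p | -p ∈ S (φ k)}) = (fun p => -p) ⁻¹' (Om j ∩ S (φ k)) := by
        ext p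
        constructor
        · intro h; exact ⟨hOneg p h.1, h.2⟩
        · intro h
          refine ⟨?_, h.2⟩
          have := hOneg _ h.1
          rwa [neg_neg] at this
      have h2 : μ ((fun p => -p) ⁻¹' (Om j ∩ S (φ k))) = μ (Om j ∩ S (φ k)) :=
        (Measure.measurePreserving_neg μ).measure_preimage
          (hOo.measurableSet.inter (hSo _).measurableSet).nullMeasurableSet
      rw [h1]
      show c ≤ (μ ((fun p => -p) ⁻¹' (Om j ∩ S (φ k)))).toReal
      rw [h2]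
      exact hSc _
    · intro k
      refine measure_mono_null ?_ (hSE' (φ k))
      intro p hp
      refine ⟨hp.1, ?_⟩
      by_contra hcon
      exact hp.2 ⟨hp.1.1, hcon⟩
    · refine hlim.congr fun k => ?_
      congr 1
      ext p
      constructor
      · rintro (⟨h1, h2⟩ | ⟨h1, h2⟩)
        · exact Or.inr ⟨⟨hEΩ _ h1, h2⟩, fun h => h.2 h1⟩
        · exact Or.inl ⟨⟨hE₀Ω h1, h2⟩, fun h => h.2 h1⟩
      · rintro (⟨h1, h2⟩ | ⟨h1, h2⟩)
        · refine Or.inr ⟨?_, h1.2⟩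
          by_contra hcon
          exact h2 ⟨h1.1, hcon⟩
        · refine Or.inl ⟨?_, h1.2⟩
          by_contra hcon
          exact h2 ⟨h1.1, hcon⟩
    · refine measure_mono_null ?_ hED
      rintro p (⟨h1, h2⟩ | ⟨h1, h2⟩)
      · refine Or.inr ⟨⟨h1.1, ?_⟩, h1.2⟩
        by_contra hcon
        apply h2
        refine ⟨h1.1, ?_, hcon⟩
        rw [← cyl_ball] at h1
        exact h1.1.2
      · refine Or.inl ⟨?_, fun h => h1.2.2 h.2⟩
        by_contra hcon
        exact h2 ⟨h1.1, hcon⟩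
  have hNT : ∀ᵐ r, 0 < r → r < re → NT D r := by
    filter_upwards [hnt1, hnt2] with r h1 h2 h3 h4
    have a1 := h1 h3 h4
    have a2 := h2 h3 h4
    unfold ang at a1 a2
    have hset : Ioo (-Real.pi) Real.pi ∩ {θ : ℝ | cr r θ ∈ ball (0:ℂ) 1 \ D}
        = Ioo (-Real.pi) Real.pi \ {θ : ℝ | cr r θ ∈ D} := by
      ext θ
      constructor
      · intro h; exact ⟨h.1, h.2.2⟩
      · intro h
        refine ⟨h.1, ?_, h.2⟩
        rw [mem_ball_zero_iff, norm_cr h3.le]; linarith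
    rw [hset] at a2
    exact ⟨(ENNReal.toReal_pos_iff.mp a1).1, (ENNReal.toReal_pos_iff.mp a2).1⟩
  -- conclusion
  set Q : Set ℝ := {q | Comp j q} with hQ
  have hQne : Q.Nonempty := ⟨q₀, hcomp₀⟩
  have hQb : BddBelow Q := ⟨0, fun q hq => hq.nonneg⟩
  have hP : ∀ Y, TA j Y → ∫ z in D, dv Y z ≤ sInf Q := fun Y hY =>
    le_csInf hQne fun q hq => hDP q hq Y hY
  obtain ⟨D', b1, b2, b3, q, b4, b5⟩ := plane_final hn hDm hD1 hDmass hP hre0 hNT
  have : sInf Q ≤ q := csInf_le hQb ⟨D', b1, b2, b3, b5⟩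
  linarith

end Pool.Agent.Helper51
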