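import Pool.Agent.Helper51.Thin6

set_option autoImplicit false
set_option linter.unusedSectionVars false

open MeasureTheory Set Filter Topology Metric
open scoped ENNReal NNReal Pointwise Convolution symmDiff

namespace Pool.Agent.Helper51

section conj

variable {X Y : Type*} [NormedAddCommGroup X] [NormedSpace ℝ X] [FiniteDimensional ℝ X]
  [NormedAddCommGroup Y] [NormedSpace ℝ Y] [FiniteDimensional ℝ Y]

theorem dv_conj (L : X ≃L[ℝ] Y) {G : Y → Y} (hG : ContDiff ℝ 1 G) (x : X) :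
    dv (fun x => L.symm (G (L x))) x = dv G (L x) := by
  have h1 : HasFDerivAt G (fderiv ℝ G (L x)) (L x) :=
    (hG.differentiable one_ne_zero _).hasFDerivAt
  have h2 : HasFDerivAt (fun x => L.symm (G (L x)))
      ((L.symm : Y →L[ℝ] X).comp ((fderiv ℝ G (L x)).comp (L : X →L[ℝ] Y))) x :=
    (L.symm : Y →L[ℝ] X).hasFDerivAt.comp x (h1.comp x (L : X →L[ℝ] Y).hasFDerivAt)
  rw [dv_of_hasFDerivAt h2, dv]
  have h3 := LinearMap.trace_conj' (fderiv ℝ G (L x)).toLinearMap L.symm.toLinearEquiv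
  rw [← h3]
  rfl

end conj

theorem transfer {n j : ℕ} {c₀ ε : ℝ} (hc₀ : 0 < c₀)
    (L : EuclideanSpace ℝ (Fin n) ≃L[ℝ] ℂ × WW j) (hL : ∀ p, ‖L.symm p‖ = NN j ε p)
    (H : ∀ (Ω E : Set (EuclideanSpace ℝ (Fin n))),
        IsOpen Ω → Ω.Nonempty → Convex ℝ Ω → Bornology.IsBounded Ω →
        (∀ x ∈ Ω, -x ∈ Ω) →
        MeasurableSet E → E ⊆ Ω →
        MeasureTheory.volume E = MeasureTheory.volume Ω / 2 →
        (∀ F : Set (EuclideanSpace ℝ (Fin n)), MeasurableSet F → F ⊆ Ω →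
          MeasureTheory.volume F = MeasureTheory.volume E →
          ∀ φ : EuclideanSpace ℝ (Fin n) → EuclideanSpace ℝ (Fin n),
            ContDiff ℝ 1 φ → HasCompactSupport φ → tsupport φ ⊆ Ω →
            (∀ x, ‖φ x‖ ≤ 1) →
            ∀ ε : ℝ, 0 < ε →
              ∃ ψ : EuclideanSpace ℝ (Fin n) → EuclideanSpace ℝ (Fin n),
                ContDiff ℝ 1 ψ ∧ HasCompactSupport ψ ∧ tsupport ψ ⊆ Ω ∧
                (∀ x, ‖ψ x‖ ≤ 1) ∧
                (∫ x in E, LinearMap.trace ℝ (EuclideanSpace ℝ (Fin n))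
                    (fderiv ℝ φ x).toLinearMap) ≤
                  (∫ x in F, LinearMap.trace ℝ (EuclideanSpace ℝ (Fin n))
                    (fderiv ℝ ψ x).toLinearMap) + ε) →
        ∃ Γ : ConvexCone ℝ (EuclideanSpace ℝ (Fin n)),
          MeasureTheory.volume ((Ω ∩ (Γ : Set (EuclideanSpace ℝ (Fin n)))) \ E) = 0 ∧
          MeasureTheory.volume ((Ω ∩ {x | -x ∈ Γ}) ∩ E) = 0 ∧
          ENNReal.ofReal c₀ * MeasureTheory.volume Ω ≤
            MeasureTheory.volume (Ω ∩ (Γ : Set (EuclideanSpace ℝ (Fin n)))))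
    (E : Set (ℂ × WW j)) (hE : MeasurableSet E) (hEΩ : E ⊆ Om j)
    (hEv : (volume : Measure (ℂ × WW j)).real E = (volume : Measure (ℂ × WW j)).real (Om j) / 2)
    (hmin : ∀ F : Set (ℂ × WW j), MeasurableSet F → F ⊆ Om j →
        (volume : Measure (ℂ × WW j)).real F = (volume : Measure (ℂ × WW j)).real (Om j) / 2 →
        ∀ M, PB volume (NN j ε) (Om j) F M → PB volume (NN j ε) (Om j) E M) :
      ∃ S : Set (ℂ × WW j), IsOpen S ∧ (∀ p ∈ S, ∀ l : ℝ, 0 < l → l • p ∈ S) ∧
        (volume : Measure (ℂ × WW j)) ((Om j ∩ S) \ E) = 0 ∧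
        (volume : Measure (ℂ × WW j)) ((Om j ∩ {p | -p ∈ S}) ∩ E) = 0 ∧
        c₀ * (volume : Measure (ℂ × WW j)).real (Om j)
          ≤ (volume : Measure (ℂ × WW j)).real (Om j ∩ S) := by
  have hOf := Om_finite j
  have hOo := isOpen_Om j
  have hOm := hOo.measurableSet
  set μ : Measure (ℂ × WW j) := volume with hμ
  set κ : ℝ≥0 := Measure.addHaarScalarFactor
    ((volume : Measure (EuclideanSpace ℝ (Fin n))).map L) μ with hκ
  have hκpos : 0 < κ := Measure.addHaarScalarFactor_pos_of_isAddHaarMeasure _ _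
  have hκr : (0:ℝ) < κ := hκpos
  have hmap : (volume : Measure (EuclideanSpace ℝ (Fin n))).map L = κ • μ :=
    Measure.isAddLeftInvariant_eq_smul _ _
  have hLm : Measurable L := L.continuous.measurable
  have hLe : MeasurableEmbedding L := L.toHomeomorph.measurableEmbedding
  have hvol : ∀ A : Set (ℂ × WW j), MeasurableSet A →
      (volume : Measure (EuclideanSpace ℝ (Fin n))) (L ⁻¹' A) = κ * μ A := by
    intro A hA
    rw [← Measure.map_apply hLm hA, hmap]
    rfl
  have hint : ∀ (A : Set (ℂ × WW j)) (g : ℂ × WW j → ℝ), MeasurableSet A →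
      ∫ x in L ⁻¹' A, g (L x) = κ * ∫ p in A, g p ∂μ := by
    intro A g hA
    rw [← hLe.setIntegral_map, hmap, Measure.restrict_smul, integral_smul_nnreal_measure]
    rfl
  -- the body
  set Ω : Set (EuclideanSpace ℝ (Fin n)) := L ⁻¹' (Om j) with hΩ
  have hΩo : IsOpen Ω := hOo.preimage L.continuous
  have h0Ω : (0 : EuclideanSpace ℝ (Fin n)) ∈ Ω := by
    show L 0 ∈ Om j
    rw [map_zero]
    show ‖(0 : ℂ × WW j).1‖ + ‖(0 : ℂ × WW j).2‖ < 1
    simp
  have hΩc : Convex ℝ Ω := (convex_Om j).linear_preimage (L : EuclideanSpace ℝ (Fin n) →ₗ[ℝ] ℂ × WW j)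
  have hΩb : Bornology.IsBounded Ω := by
    have h1 : IsCompact (L.symm '' (closedBall (0:ℂ) 1 ×ˢ closedBall (0 : WW j) 1)) :=
      ((isCompact_closedBall _ _).prod (isCompact_closedBall _ _)).image L.symm.continuous
    refine h1.isBounded.subset fun x hx => ?_
    exact ⟨L x, Om_subset j hx, L.symm_apply_apply x⟩
  have hΩs : ∀ x ∈ Ω, -x ∈ Ω := by
    intro x hx
    have h' : ‖(L x).1‖ + ‖(L x).2‖ < 1 := hx
    show L (-x) ∈ Om j
    rw [map_neg]
    show ‖(-L x).1‖ + ‖(-L x).2‖ < 1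
    simpa using h'
  have hEm' : MeasurableSet (L ⁻¹' E) := hLm hE
  have hEf : μ E ≠ ∞ := ((measure_mono hEΩ).trans_lt hOf.lt_top).ne
  have hEv' : (volume : Measure (EuclideanSpace ℝ (Fin n))) (L ⁻¹' E) = volume Ω / 2 := by
    rw [hΩ, hvol _ hE, hvol _ hOm]
    have h1 : μ E = μ (Om j) / 2 := by
      rw [← ENNReal.ofReal_toReal hEf, ← ENNReal.ofReal_toReal hOf]
      have h2 : (μ E).toReal = (μ (Om j)).toReal / 2 := hEv
      rw [h2, ENNReal.ofReal_div_of_pos two_pos]
      simp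
    rw [h1, mul_div_assoc]
  -- apply the hypothesis
  obtain ⟨Γ, hΓ1, hΓ2, hΓ3⟩ := H Ω (L ⁻¹' E) hΩo ⟨0, h0Ω⟩ hΩc hΩb hΩs hEm'
    (preimage_mono hEΩ) hEv' (by
    intro F hF hFΩ hFv φ hφ1 hφ2 hφ3 hφ4 η hη
    by_contra hcon
    push Not at hcon
    -- transport `F`
    set F' : Set (ℂ × WW j) := L.symm ⁻¹' F with hF'
    have hF'm : MeasurableSet F' := L.symm.continuous.measurable hF
    have hFF' : L ⁻¹' F' = F := by
      ext x; simp [hF']
    have hF'Ω : F' ⊆ Om j := by
      intro p hp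
      have h1 : L.symm p ∈ Ω := hFΩ hp
      have h2 : L (L.symm p) ∈ Om j := h1
      rwa [L.apply_symm_apply] at h2
    have hF'v : μ.real F' = μ.real (Om j) / 2 := by
      have h1 : (κ : ℝ≥0∞) * μ F' = κ * μ E := by
        rw [← hvol _ hF'm, ← hvol _ hE, hFF', hFv]
      have h2 : μ F' = μ E :=
        (ENNReal.mul_right_inj (by simpa using hκpos.ne') ENNReal.coe_ne_top).mp h1
      rw [← hEv, Measure.real, Measure.real, h2]
    set M : ℝ := (κ : ℝ)⁻¹ * ((∫ x in L ⁻¹' E, dv φ x) - η) with hM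
    have hPF : PB μ (NN j ε) (Om j) F' M := by
      intro G hG
      have h1 := hcon (fun x => L.symm (G (L x)))
        (L.symm.contDiff.comp (hG.cd.comp L.contDiff)) (by
          refine HasCompactSupport.intro (hG.cs.isCompact.image L.symm.continuous) fun x hx => ?_
          have : G (L x) = 0 := by
            by_contra hne
            exact hx ⟨L x, subset_tsupport _ hne, L.symm_apply_apply x⟩
          rw [this, map_zero]) (by
          have hcl : IsClosed (L ⁻¹' tsupport G) := (isClosed_tsupport G).preimage L.continuous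
          have h2 : tsupport (fun x => L.symm (G (L x))) ⊆ L ⁻¹' tsupport G := by
            refine closure_minimal (fun x hx => ?_) hcl
            have : G (L x) ≠ 0 := fun h0 => hx (by show L.symm (G (L x)) = 0; rw [h0, map_zero])
            exact subset_tsupport _ this
          exact h2.trans (preimage_mono hG.ts)) (fun x => by rw [hL]; exact hG.nb _)
      have h3 : ∫ x in F, dv (fun x => L.symm (G (L x))) x = κ * ∫ p in F', dv G p ∂μ := by
        simp_rw [dv_conj L hG.cd]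
        rw [← hFF', hint _ _ hF'm]
      have h4 : (∫ x in F, dv (fun x => L.symm (G (L x))) x) + η < ∫ x in L ⁻¹' E, dv φ x := h1
      rw [h3] at h4
      rw [hM, ← div_eq_inv_mul, le_div_iff₀ hκr]
      linarith
    have hPE := hmin F' hF'm hF'Ω hF'v M hPF
    have h5 := hPE (fun p => L (φ (L.symm p))) ⟨L.contDiff.comp (hφ1.comp L.symm.contDiff), by
        refine HasCompactSupport.intro (hφ2.isCompact.image L.continuous) fun x hx => ?_
        have : φ (L.symm x) = 0 := by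
          by_contra hne
          exact hx ⟨L.symm x, subset_tsupport _ hne, L.apply_symm_apply x⟩
        rw [this, map_zero], by
        have hcl : IsClosed (L.symm ⁻¹' tsupport φ) :=
          (isClosed_tsupport φ).preimage L.symm.continuous
        have h2 : tsupport (fun p => L (φ (L.symm p))) ⊆ L.symm ⁻¹' tsupport φ := by
          refine closure_minimal (fun x hx => ?_) hcl
          have : φ (L.symm x) ≠ 0 := fun h0 => hx (by show L (φ (L.symm x)) = 0; rw [h0, map_zero])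
          exact subset_tsupport _ this
        intro p hp
        have h3 : L.symm p ∈ Ω := hφ3 (h2 hp)
        have h4 : L (L.symm p) ∈ Om j := h3
        rwa [L.apply_symm_apply] at h4, fun p => by
        rw [← hL, L.symm_apply_apply]; exact hφ4 _⟩
    have h6 : ∫ x in L ⁻¹' E, dv φ x = κ * ∫ p in E, dv (fun p => L (φ (L.symm p))) p ∂μ := by
      rw [← hint _ _ hE]
      refine integral_congr_ae (Filter.Eventually.of_forall fun x => ?_)
      show dv φ x = dv (fun p => L (φ (L.symm p))) (L x)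
      have h7 := dv_conj L.symm hφ1 (L x)
      rw [L.symm_apply_apply] at h7
      exact h7.symm
    have h8 : (κ:ℝ) * ∫ p in E, dv (fun p => L (φ (L.symm p))) p ∂μ ≤ κ * M :=
      mul_le_mul_of_nonneg_left h5 hκr.le
    rw [← h6, hM, ← mul_assoc, mul_inv_cancel₀ hκr.ne', one_mul] at h8
    linarith)
  -- build the open cone
  set S : Set (ℂ × WW j) := L.symm ⁻¹' (interior (Γ : Set (EuclideanSpace ℝ (Fin n)))) with hS
  have hSo : IsOpen S := isOpen_interior.preimage L.symm.continuous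
  have hScone : ∀ p ∈ S, ∀ l : ℝ, 0 < l → l • p ∈ S := by
    intro p hp l hl
    show L.symm (l • p) ∈ interior (Γ : Set (EuclideanSpace ℝ (Fin n)))
    rw [map_smul]
    have h1 : l • interior (Γ : Set (EuclideanSpace ℝ (Fin n))) ⊆ Γ := by
      rintro _ ⟨x, hx, rfl⟩
      exact Γ.smul_mem hl (interior_subset hx)
    have h2 : IsOpen (l • interior (Γ : Set (EuclideanSpace ℝ (Fin n)))) :=
      isOpen_interior.smul₀ hl.ne'
    exact interior_maximal h1 h2 ⟨_, hp, rfl⟩
  have hpre : ∀ x, L x ∈ S ↔ x ∈ interior (Γ : Set (EuclideanSpace ℝ (Fin n))) := by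
    intro x
    show L.symm (L x) ∈ interior (Γ : Set (EuclideanSpace ℝ (Fin n))) ↔
      x ∈ interior (Γ : Set (EuclideanSpace ℝ (Fin n)))
    rw [L.symm_apply_apply]
  have hzero : ∀ A : Set (ℂ × WW j), MeasurableSet A →
      (volume : Measure (EuclideanSpace ℝ (Fin n))) (L ⁻¹' A) = 0 → μ A = 0 := by
    intro A hA h
    rw [hvol A hA] at h
    rcases mul_eq_zero.mp h with h | h
    · exact absurd h (by simpa using hκpos.ne')
    · exact h
  have hSneg : IsOpen {p : ℂ × WW j | -p ∈ S} := hSo.preimage continuous_neg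
  refine ⟨S, hSo, hScone, ?_, ?_, ?_⟩
  · refine hzero _ ((hOm.inter hSo.measurableSet).diff hE) (measure_mono_null ?_ hΓ1)
    intro x hx
    exact ⟨⟨hx.1.1, interior_subset ((hpre x).mp hx.1.2)⟩, hx.2⟩
  · refine hzero _ ((hOm.inter hSneg.measurableSet).inter hE) (measure_mono_null ?_ hΓ2)
    intro x hx
    refine ⟨⟨hx.1.1, ?_⟩, hx.2⟩
    have h1 : -L x ∈ S := hx.1.2
    rw [← map_neg] at h1
    have h2 : -x ∈ (Γ : Set (EuclideanSpace ℝ (Fin n))) := interior_subset ((hpre (-x)).mp h1)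
    exact h2
  · have hfr : (volume : Measure (EuclideanSpace ℝ (Fin n))) (frontier (Γ : Set (EuclideanSpace ℝ (Fin n)))) = 0 :=
      Γ.convex.addHaar_frontier volume
    have h1 : (volume : Measure (EuclideanSpace ℝ (Fin n))) (Ω ∩ (Γ : Set (EuclideanSpace ℝ (Fin n))))
        ≤ volume (L ⁻¹' (Om j ∩ S)) := by
      have hsub : Ω ∩ (Γ : Set (EuclideanSpace ℝ (Fin n))) ⊆ L ⁻¹' (Om j ∩ S) ∪
          frontier (Γ : Set (EuclideanSpace ℝ (Fin n))) := by
        intro x hx
        by_cases hxi : x ∈ interior (Γ : Set (EuclideanSpace ℝ (Fin n)))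
        · exact Or.inl ⟨hx.1, (hpre x).mpr hxi⟩
        · exact Or.inr ⟨subset_closure hx.2, hxi⟩
      refine (measure_mono hsub).trans ((measure_union_le _ _).trans ?_)
      rw [hfr, add_zero]
    have h2 := hΓ3.trans h1
    rw [hvol _ (hOm.inter hSo.measurableSet), hΩ, hvol _ hOm, mul_left_comm] at h2
    have h3 : ENNReal.ofReal c₀ * μ (Om j) ≤ μ (Om j ∩ S) :=
      (ENNReal.mul_le_mul_iff_right (by simpa using hκpos.ne') ENNReal.coe_ne_top).mp h2
    have hSf : μ (Om j ∩ S) ≠ ∞ := ((measure_mono inter_subset_left).trans_lt hOf.lt_top).ne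
    have h4 := ENNReal.toReal_mono hSf h3
    rw [ENNReal.toReal_mul, ENNReal.toReal_ofReal hc₀.le] at h4
    exact h4

/-- the linear isomorphism realising the gauge as a euclidean norm. -/
theorem exists_iso (j : ℕ) {ε : ℝ} (hε : 0 < ε) :
    ∃ (n : ℕ) (L : EuclideanSpace ℝ (Fin n) ≃L[ℝ] ℂ × WW j), ∀ p, ‖L.symm p‖ = NN j ε p := by
  let ι := (stdOrthonormalBasis ℝ (WithLp 2 (ℂ × WW j))).repr
  let A : (ℂ × WW j) ≃L[ℝ] (ℂ × WW j) :=
    (ContinuousLinearEquiv.refl ℝ ℂ).prodCongr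
      (ContinuousLinearEquiv.smulLeft (Units.mk0 ε hε.ne'))
  let B : (ℂ × WW j) ≃L[ℝ] WithLp 2 (ℂ × WW j) :=
    (WithLp.prodContinuousLinearEquiv 2 ℝ ℂ (WW j)).symm
  let C : (ℂ × WW j) ≃L[ℝ] EuclideanSpace ℝ (Fin (Module.finrank ℝ (WithLp 2 (ℂ × WW j)))) :=
    (A.trans B).trans ι.toContinuousLinearEquiv
  refine ⟨Module.finrank ℝ (WithLp 2 (ℂ × WW j)), C.symm, fun p => ?_⟩
  have h1 : C.symm.symm p = ι (WithLp.toLp 2 (p.1, ε • p.2)) := rfl
  rw [h1, LinearIsometryEquiv.norm_map, WithLp.prod_norm_eq_of_L2]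
  unfold NN
  congr 2
  show ‖ε • p.2‖ ^ 2 = (ε * ‖p.2‖) ^ 2
  rw [norm_smul, Real.norm_eq_abs, abs_of_pos hε]

end Pool.Agent.Helper51
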